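import Pool.Agent.SSE.St

/-!
# SSE: module GS, one step of the growth
-/

set_option autoImplicit false

noncomputable section

open Finset Pool.Agent.Helper64.Rho Pool.Agent.SDG Pool.Agent.MDR Pool.Agent.SSC
open scoped Classical Pointwise

namespace Pool.Agent.SSE

private theorem GS_mem_st {G : Type} [AddCommGroup G] [Finite G] {A : Finset G}
    {H : AddSubgroup G} {x : G} : x ∈ st A H ↔ ∃ a ∈ A, x - a ∈ H := by
  unfold st
  rw [Set.Finite.mem_toFinset]
  rfl

/-- leaving a set by steps `d` -/
private theorem GS_walk {G : Type} [AddCommGroup G] {D : Finset G} {d y : G} (hy : y ∈ D) {t : ℕ}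
    (ht : y + t • d ∉ D) : ∃ m, m < t ∧ (∀ j, j ≤ m → y + j • d ∈ D) ∧ y + (m + 1) • d ∉ D := by
  have hex : ∃ n, y + n • d ∉ D := ⟨t, ht⟩
  have h1 := Nat.find_spec hex
  have h2 : Nat.find hex ≠ 0 := by
    intro h
    rw [h, zero_smul, add_zero] at h1
    exact h1 hy
  have h3 : Nat.find hex ≤ t := Nat.find_min' hex ht
  refine ⟨Nat.find hex - 1, by omega, ?_, ?_⟩
  · intro j hj
    by_contra hcon
    have := Nat.find_min' hex hcon
    omega
  · rwa [show Nat.find hex - 1 + 1 = Nat.find hex by omega]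

/-- multiples in a finite cyclic group -/
private theorem GS_zm {G : Type} [AddCommGroup G] [Finite G] {d x : G}
    (h : x ∈ AddSubgroup.zmultiples d) : ∃ t : ℕ, x = t • d ∧ t < addOrderOf d := by
  have h1 : x ∈ AddSubmonoid.multiples d := mem_multiples_iff_mem_zmultiples.2 h
  obtain ⟨n, hn⟩ := AddSubmonoid.mem_multiples_iff _ _ |>.1 h1
  refine ⟨n % addOrderOf d, ?_, Nat.mod_lt _ (addOrderOf_pos d)⟩
  rw [mod_addOrderOf_nsmul]
  exact hn.symm

theorem thm_GS : St_GS := by
  intro G _ _ D E h0 hs hD2 hNear hAPK hE2 hED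
  have : Fintype G := Fintype.ofFinite G
  have hst : ∀ K : AddSubgroup G, st D K = Helper58.sat D K := by
    intro K
    ext x
    rw [GS_mem_st, Helper58.mem_sat]
  have hFc : ∀ K : AddSubgroup G, Nat.card K = (Helper58.F K).card := by
    intro K
    rw [Nat.card_eq_fintype_card, Helper58.F]
    exact Fintype.card_subtype _
  have hFt : (Helper58.F (⊤ : AddSubgroup G)).card = Nat.card G := by
    rw [← hFc]
    exact Nat.card_congr AddSubgroup.topEquiv.toEquiv
  have hNK : Helper58.NK D (⊤ : AddSubgroup G) := by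
    intro K hK1 hK2
    by_contra hcon
    apply hNear
    refine ⟨K, hK1, hK2.ne, ?_⟩
    rw [hst, hFc]
    omega
  by_contra hcon0
  have hE1 : (E + D).card + 1 ≤ E.card + D.card := by omega
  have hX : Helper58.Crit D (⊤ : AddSubgroup G) E := by
    refine ⟨?_, hE2, hE1, ?_⟩
    · intro x _
      exact Helper58.mem_F.2 (AddSubgroup.mem_top x)
    · rw [hFt]
      exact hED
  obtain ⟨d, hd0, -, hd⟩ := Helper58.key
    (fun x _ => Helper58.mem_F.2 (AddSubgroup.mem_top x)) hD2 hNK hX
  have hDN : D.card + 2 ≤ Nat.card G := by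
    obtain ⟨e, he⟩ : E.Nonempty := Finset.card_pos.1 (by omega)
    have h1 : ({e} : Finset G) + D ⊆ E + D :=
      Finset.add_subset_add_right (Finset.singleton_subset_iff.2 he)
    have h2 := Finset.card_le_card h1
    rw [Helper58.card_single_add] at h2
    omega
  -- exits
  have hBd : ∀ x ∈ D, ∀ y ∈ D, x + d ∉ D → y + d ∉ D → x = y := by
    intro x hx y hy hxd hyd
    by_contra hne
    have h1 : D ∪ {x + d, y + d} ⊆ D ∪ ({d} + D) := by
      intro z hz
      rcases Finset.mem_union.1 hz with h | h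
      · exact Finset.mem_union_left _ h
      · refine Finset.mem_union_right _ ?_
        rcases Finset.mem_insert.1 h with h | h
        · rw [h]
          exact Finset.mem_add.2 ⟨d, Finset.mem_singleton_self d, x, hx, add_comm _ _⟩
        · rw [Finset.mem_singleton.1 h]
          exact Finset.mem_add.2 ⟨d, Finset.mem_singleton_self d, y, hy, add_comm _ _⟩
    have h2 : Disjoint D {x + d, y + d} := by
      rw [Finset.disjoint_left]
      intro z hz hz2
      rcases Finset.mem_insert.1 hz2 with h | h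
      · exact hxd (h ▸ hz)
      · exact hyd ((Finset.mem_singleton.1 h) ▸ hz)
    have h3 := Finset.card_le_card h1
    rw [Finset.card_union_of_disjoint h2, Finset.card_pair
      (fun h => hne (add_right_cancel h))] at h3
    omega
  -- the subgroup generated by `d`
  have hK0 : AddSubgroup.zmultiples d ≠ ⊥ := by
    intro h
    exact hd0 (AddSubgroup.zmultiples_eq_bot.1 h)
  have hKt : AddSubgroup.zmultiples d = ⊤ := by
    by_contra hKt
    apply hNear
    refine ⟨AddSubgroup.zmultiples d, hK0, hKt, ?_⟩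
    -- elements of `st D K` outside `D` lie in one coset
    have hout : ∀ y ∈ st D (AddSubgroup.zmultiples d), y ∉ D →
        ∃ x ∈ D, x + d ∉ D ∧ y - x ∈ AddSubgroup.zmultiples d := by
      intro y hy hyD
      obtain ⟨a, ha, hya⟩ := GS_mem_st.1 hy
      obtain ⟨t, ht, -⟩ := GS_zm hya
      have h1 : a + t • d ∉ D := by
        rw [← ht]
        rwa [add_sub_cancel]
      obtain ⟨m, -, hm1, hm2⟩ := GS_walk ha h1
      refine ⟨a + m • d, hm1 m le_rfl, ?_, ?_⟩
      · rwa [add_assoc, ← succ_nsmul]
      · have h2 : y - (a + m • d) = (y - a) - m • d := by abel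
        rw [h2]
        exact AddSubgroup.sub_mem _ hya (AddSubgroup.nsmul_mem_zmultiples d m)
    by_cases hall : st D (AddSubgroup.zmultiples d) ⊆ D
    · have h1 := Finset.card_le_card hall
      have h2 : 0 < Nat.card (AddSubgroup.zmultiples d) := Nat.card_pos
      omega
    · obtain ⟨y0, hy0, hy0D⟩ := Finset.not_subset.1 hall
      obtain ⟨x0, hx0, hx0d, -⟩ := hout y0 hy0 hy0D
      have h1 : st D (AddSubgroup.zmultiples d) ⊆
          D ∪ ((Helper58.coset (AddSubgroup.zmultiples d) x0).erase x0) := by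
        intro y hy
        by_cases hyD : y ∈ D
        · exact Finset.mem_union_left _ hyD
        · refine Finset.mem_union_right _ ?_
          obtain ⟨x, hx, hxd, hyx⟩ := hout y hy hyD
          have h2 : x = x0 := hBd x hx x0 hx0 hxd hx0d
          rw [h2] at hyx
          refine Finset.mem_erase.2 ⟨?_, Helper58.mem_coset.2 hyx⟩
          intro h3
          exact hyD (h3 ▸ hx0)
      have h2 := (Finset.card_le_card h1).trans (Finset.card_union_le _ _)
      have h3 : x0 ∈ Helper58.coset (AddSubgroup.zmultiples d) x0 := by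
        rw [Helper58.mem_coset, sub_self]
        exact AddSubgroup.zero_mem _
      have h4 := Finset.card_erase_add_one h3
      have h5 := Helper58.card_coset (AddSubgroup.zmultiples d) x0
      rw [← hFc] at h5
      omega
  -- a point outside `D`
  obtain ⟨z0, hz0⟩ : ∃ z : G, z ∉ D := by
    by_contra hno
    have h1 : D = Finset.univ := by
      ext z
      constructor
      · intro _
        exact Finset.mem_univ z
      · intro _
        by_contra hz
        exact hno ⟨z, hz⟩
    rw [h1, Finset.card_univ, ← Nat.card_eq_fintype_card] at hDN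
    omega
  have hord : addOrderOf d = Nat.card G := by
    rw [← Nat.card_zmultiples, hKt]
    exact Nat.card_congr AddSubgroup.topEquiv.toEquiv
  have hwalk : ∀ y ∈ D, ∃ m : ℕ, m < addOrderOf d ∧ (∀ j, j ≤ m → y + j • d ∈ D) ∧
      y + (m + 1) • d ∉ D := by
    intro y hy
    have h1 : z0 - y ∈ AddSubgroup.zmultiples d := by
      rw [hKt]
      exact AddSubgroup.mem_top _
    obtain ⟨t, ht, hto⟩ := GS_zm h1
    have h2 : y + t • d ∉ D := by
      rw [← ht, add_sub_cancel]
      exact hz0
    obtain ⟨m, hm, hm1, hm2⟩ := GS_walk hy h2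
    exact ⟨m, by omega, hm1, hm2⟩
  obtain ⟨m0, -, hm01, hm02⟩ := hwalk 0 h0
  obtain ⟨x0, hx0, hx0d⟩ : ∃ x0 ∈ D, x0 + d ∉ D := by
    refine ⟨0 + m0 • d, hm01 m0 le_rfl, ?_⟩
    rwa [add_assoc, ← succ_nsmul]
  -- all elements of `D` are `x0 - k d`, `k < |D|`
  have hform : ∀ y ∈ D, ∃ k : ℕ, k < D.card ∧ y = x0 - k • d := by
    intro y hy
    obtain ⟨m, hmo, hm1, hm2⟩ := hwalk y hy
    have h1 : y + m • d = x0 := by
      refine hBd _ (hm1 m le_rfl) x0 hx0 ?_ hx0d
      rwa [add_assoc, ← succ_nsmul]
    refine ⟨m, ?_, ?_⟩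
    · have h2 : ((range (m + 1)).image fun j : ℕ => y + j • d) ⊆ D := by
        intro z hz
        obtain ⟨j, hj, rfl⟩ := Finset.mem_image.1 hz
        exact hm1 j (by rw [mem_range] at hj; omega)
      have h3 := Finset.card_le_card h2
      rw [Finset.card_image_of_injOn, card_range] at h3
      · omega
      · intro a ha b hb hab
        have ha' : a < m + 1 := mem_range.1 (Finset.mem_coe.1 ha)
        have hb' : b < m + 1 := mem_range.1 (Finset.mem_coe.1 hb)
        have h4 : a • d = b • d := add_left_cancel hab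
        have h5 := nsmul_inj_mod.1 h4
        rwa [Nat.mod_eq_of_lt (by omega), Nat.mod_eq_of_lt (by omega)] at h5
    · rw [← h1]
      abel
  have hDe : D = (range D.card).image fun k : ℕ => x0 - k • d := by
    refine Finset.eq_of_subset_of_card_le ?_ ?_
    · intro y hy
      obtain ⟨k, hk, hyk⟩ := hform y hy
      exact Finset.mem_image.2 ⟨k, mem_range.2 hk, hyk.symm⟩
    · refine Finset.card_image_le.trans ?_
      rw [card_range]
  have hmemD : ∀ k : ℕ, k < D.card → x0 - k • d ∈ D := by
    intro k hk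
    rw [hDe]
    exact Finset.mem_image.2 ⟨k, mem_range.2 hk, rfl⟩
  obtain ⟨k, hk, hxk⟩ := hform (-x0) (hs x0 hx0)
  have hk2 : k + 1 = D.card := by
    by_contra hne
    have h1 := hs _ (hmemD (k + 1) (by omega))
    apply hx0d
    have h2 : -(x0 - (k + 1) • d) = x0 + d := by
      rw [succ_nsmul]
      have h3 : -(x0 - (k • d + d)) = -(x0 - k • d) + d := by abel
      rw [h3, ← hxk, neg_neg]
    rwa [h2] at h1
  obtain ⟨k0, hk0, hx00⟩ := hform 0 h0
  have hx0k : x0 = k0 • d := (sub_eq_zero.1 hx00.symm)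
  have h2k : 2 * k0 = k := by
    have h1 : (2 * k0) • d = k • d := by
      rw [two_mul, add_nsmul, ← hx0k]
      have h2 : x0 + x0 = k • d + (-x0 + x0) := by
        nth_rewrite 1 [hxk]
        abel
      rw [h2, neg_add_cancel, add_zero]
    have h3 := nsmul_inj_mod.1 h1
    rw [hord, Nat.mod_eq_of_lt (show k < Nat.card G by omega)] at h3
    by_cases h4 : 2 * k0 < Nat.card G
    · rwa [Nat.mod_eq_of_lt h4] at h3
    · exfalso
      rw [Nat.mod_eq_sub_mod (not_lt.1 h4), Nat.mod_eq_of_lt (by omega)] at h3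
      omega
  apply hAPK
  refine ⟨d, k0, fun x => ?_, ?_, fun y hy => ?_⟩
  · have h1 : x ∈ AddSubgroup.zmultiples d := by
      rw [hKt]
      exact AddSubgroup.mem_top _
    obtain ⟨t, ht, -⟩ := GS_zm h1
    exact ⟨t, by rw [AddSubgroup.mem_bot, ht, sub_self]⟩
  · have h1 : st D (⊥ : AddSubgroup G) = D := by
      ext x
      rw [GS_mem_st]
      constructor
      · rintro ⟨a, ha, hxa⟩
        rw [AddSubgroup.mem_bot, sub_eq_zero] at hxa
        rwa [hxa]
      · intro hx
        exact ⟨x, hx, by rw [sub_self]; exact AddSubgroup.zero_mem _⟩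
    rw [h1, AddSubgroup.card_bot]
    omega
  · obtain ⟨j, hj, hyj⟩ := hform y hy
    rcases Nat.le_total j k0 with hjl | hjl
    · refine ⟨k0 - j, by omega, Or.inl ?_⟩
      rw [AddSubgroup.mem_bot, hyj, hx0k]
      have h1 : k0 • d = (k0 - j) • d + j • d := by
        rw [← add_nsmul, Nat.sub_add_cancel hjl]
      rw [h1, add_sub_cancel_right, sub_self]
    · refine ⟨j - k0, by omega, Or.inr ?_⟩
      rw [AddSubgroup.mem_bot, hyj, hx0k]
      have h1 : j • d = (j - k0) • d + k0 • d := by
        rw [← add_nsmul, Nat.sub_add_cancel hjl]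
      rw [h1]
      abel

end Pool.Agent.SSE
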