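import Pool.Agent.SSE.St

/-!
# SSE: module Cy, facts on finite cyclic groups
-/

set_option autoImplicit false

noncomputable section

open Finset Pool.Agent.Helper64.Rho Pool.Agent.SDG Pool.Agent.MDR Pool.Agent.SSC
open scoped Classical Pointwise

namespace Pool.Agent.SSE

private theorem Cy_le {G : Type} [AddCommGroup G] [Finite G] (hC : IsAddCyclic G) {m : ℕ}
    (hm : 0 < m) (S : Finset G) (hS : ∀ x ∈ S, m • x = 0) : S.card ≤ m := by
  haveI := Fintype.ofFinite G
  refine le_trans (Finset.card_le_card ?_) (IsAddCyclic.card_nsmul_eq_zero_le (α := G) hm)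
  intro x hx
  exact Finset.mem_filter.2 ⟨Finset.mem_univ x, hS x hx⟩

private theorem Cy_inv {G : Type} [AddCommGroup G] [Finite G] (hC : IsAddCyclic G) {x y : G}
    (hx : x ≠ 0) (hy : y ≠ 0) (hx2 : x + x = 0) (hy2 : y + y = 0) : x = y := by
  by_contra hxy
  have h := Cy_le hC (m := 2) (by norm_num) ({0, x, y} : Finset G) (by
    intro z hz
    rw [two_nsmul]
    simp only [Finset.mem_insert, Finset.mem_singleton] at hz
    rcases hz with rfl | rfl | rfl
    · exact add_zero 0
    · exact hx2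
    · exact hy2)
  have h3 : ({0, x, y} : Finset G).card = 3 := by
    rw [Finset.card_eq_three]
    exact ⟨0, x, y, fun e => hx e.symm, fun e => hy e.symm, hxy, rfl⟩
  omega

private theorem Cy_sub {G : Type} [AddCommGroup G] [Finite G] (hC : IsAddCyclic G)
    {K K' : AddSubgroup G} (h : Nat.card K = Nat.card K') : K ≤ K' := by
  haveI := Fintype.ofFinite G
  intro x hx
  by_contra hx'
  have h1 : ∀ L : AddSubgroup G, ∀ z : G, z ∈ L → Nat.card L • z = 0 := by
    intro L z hz
    have h2 : Nat.card L • (⟨z, hz⟩ : L) = 0 := card_nsmul_eq_zero'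
    have h3 := congrArg (fun w : L => (w : G)) h2
    exact h3
  obtain ⟨F, hF, h5⟩ : ∃ F : Finset G, (∀ z, z ∈ F ↔ z ∈ K') ∧ F.card = Nat.card K' := by
    refine ⟨Finset.univ.filter fun z => z ∈ K', fun z => by simp, ?_⟩
    rw [Nat.card_eq_fintype_card, Fintype.card_subtype]
  have h4 := Cy_le hC (m := Nat.card K) Nat.card_pos (insert x F) (by
      intro z hz
      rcases Finset.mem_insert.1 hz with rfl | hz
      · exact h1 K z hx
      · rw [h]
        exact h1 K' z ((hF z).1 hz))
  rw [Finset.card_insert_of_notMem (fun e => hx' ((hF x).1 e))] at h4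
  omega

private theorem Cy_par {G : Type} [AddCommGroup G] [Finite G] (hC : IsAddCyclic G)
    (E : Finset G) (h0 : (0 : G) ∈ E) (hs : ∀ y ∈ E, -y ∈ E) : (E.card + iv E) % 2 = 1 := by
  have hF : ∀ F : Finset G, (∀ y ∈ F, -y ∈ F) → (∀ y ∈ F, y + y ≠ 0) → F.card % 2 = 0 := by
    intro F h1 h2
    have h3 : ∑ x ∈ F, (1 : ZMod 2) = 0 := by
      refine Finset.sum_involution (fun x _ => -x) ?_ ?_ ?_ ?_
      · intro a _
        decide
      · intro a ha _ h
        refine h2 a ha ?_
        nth_rewrite 1 [← h]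
        exact neg_add_cancel a
      · intro a ha
        exact h1 a ha
      · intro a _
        exact neg_neg a
    rw [Finset.sum_const, nsmul_eq_mul, mul_one] at h3
    exact Nat.mod_eq_zero_of_dvd ((ZMod.natCast_eq_zero_iff _ 2).1 h3)
  unfold iv
  split_ifs with h
  · obtain ⟨x, hx, hx0, hx2⟩ := h
    have hF1 := hF ((E.erase 0).erase x) (by
      intro y hy
      obtain ⟨h1, h2⟩ := Finset.mem_erase.1 hy
      obtain ⟨h3, h4⟩ := Finset.mem_erase.1 h2
      refine Finset.mem_erase.2 ⟨fun e => h1 ?_, Finset.mem_erase.2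
        ⟨fun e => h3 (neg_eq_zero.1 e), hs y h4⟩⟩
      have h5 : -x = x := neg_eq_of_add_eq_zero_left hx2
      rw [← neg_neg y, e, h5]) (by
      intro y hy e
      obtain ⟨h1, h2⟩ := Finset.mem_erase.1 hy
      obtain ⟨h3, h4⟩ := Finset.mem_erase.1 h2
      exact h1 (Cy_inv hC h3 hx0 e hx2))
    have h6 := Finset.card_erase_add_one (Finset.mem_erase.2 ⟨hx0, hx⟩)
    have h7 := Finset.card_erase_add_one h0
    omega
  · have hF1 := hF (E.erase 0) (by
      intro y hy
      obtain ⟨h1, h2⟩ := Finset.mem_erase.1 hy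
      exact Finset.mem_erase.2 ⟨fun e => h1 (neg_eq_zero.1 e), hs y h2⟩) (by
      intro y hy e
      obtain ⟨h1, h2⟩ := Finset.mem_erase.1 hy
      exact h ⟨y, h2, h1, e⟩)
    have h7 := Finset.card_erase_add_one h0
    omega

theorem thm_Cy : St_Cy := by
  intro G _ _ hC
  haveI := hC
  have h3 : ∀ K K' : AddSubgroup G, Nat.card K = Nat.card K' → K = K' := fun K K' h =>
    le_antisymm (Cy_sub hC h) (Cy_sub hC h.symm)
  have hq : ∀ M : AddSubgroup G, IsAddCyclic (G ⧸ M) := fun M =>
    isAddCyclic_of_surjective (QuotientAddGroup.mk' M) (QuotientAddGroup.mk'_surjective M)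
  refine ⟨fun M => ⟨inferInstance, hq M⟩, fun x y hx hy hx2 hy2 => Cy_inv hC hx hy hx2 hy2, h3,
    ?_, ?_, Cy_par hC, ?_⟩
  · intro K K' h
    refine h3 K K' ?_
    have h1 := K.card_mul_index
    have h2 := K'.card_mul_index
    have h4 : 0 < K'.index := Nat.pos_of_ne_zero K'.index_ne_zero_of_finite
    rw [h] at h1
    exact Nat.eq_of_mul_eq_mul_right h4 (h1.trans h2.symm)
  · intro K hK h2
    haveI := hq K
    have hex : AddMonoid.exponent (G ⧸ K) = Nat.card (G ⧸ K) := IsAddCyclic.exponent_eq_card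
    have hd : AddMonoid.exponent (G ⧸ K) ∣ 2 := by
      refine AddMonoid.exponent_dvd_of_forall_nsmul_eq_zero ?_
      intro q
      obtain ⟨x, rfl⟩ := QuotientAddGroup.mk_surjective q
      rw [two_nsmul, ← QuotientAddGroup.mk_add]
      exact (QuotientAddGroup.eq_zero_iff _).2 (h2 x)
    rw [hex] at hd
    have h5 : K.index = Nat.card (G ⧸ K) := rfl
    rw [← h5] at hd
    rcases (Nat.dvd_prime Nat.prime_two).1 hd with h | h
    · exact absurd (AddSubgroup.index_eq_one.1 h) hK
    · exact h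
  · intro E
    unfold iv
    split_ifs <;> omega

end Pool.Agent.SSE
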