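import Pool.Agent.SSE.St

/-!
# SSE, Gk: nearly filled sets have periodic multiples
-/

set_option autoImplicit false

noncomputable section

open Finset Pool.Agent.Helper64.Rho Pool.Agent.SDG Pool.Agent.MDR Pool.Agent.SSC
open scoped Classical Pointwise

namespace Pool.Agent.SSE

section

variable {G : Type} [AddCommGroup G] [Finite G]

private theorem Gk_mem_st {A : Finset G} {H : AddSubgroup G} {x : G} :
    x ∈ st A H ↔ ∃ a ∈ A, x - a ∈ H := by
  unfold st
  simp

/-- the elements of `K` as a finset -/
private def GkF (K : AddSubgroup G) : Finset G := (Set.toFinite (K : Set G)).toFinset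

private theorem GkF_mem {K : AddSubgroup G} {x : G} : x ∈ GkF K ↔ x ∈ K := by
  unfold GkF
  simp

private theorem GkF_card (K : AddSubgroup G) : (GkF K).card = Nat.card K := by
  unfold GkF
  rw [← Set.ncard_eq_toFinset_card (K : Set G) (Set.toFinite _)]
  rfl

/-- the missing elements -/
private def GkM (D : Finset G) (K : AddSubgroup G) : Finset G := st D K \ D

private theorem GkM_mem {D : Finset G} {K : AddSubgroup G} {y k : G} (hy : y ∈ D) (hk : k ∈ K)
    (h : y + k ∉ D) : y + k ∈ GkM D K := by
  unfold GkM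
  rw [mem_sdiff, Gk_mem_st]
  refine ⟨⟨y, hy, ?_⟩, h⟩
  rw [add_sub_cancel_left]
  exact hk

private theorem GkM_card {D : Finset G} {K : AddSubgroup G}
    (h : (st D K).card + 1 ≤ D.card + Nat.card K) : (GkM D K).card + 1 ≤ Nat.card K := by
  unfold GkM
  have h1 : D ⊆ st D K := fun x hx => Gk_mem_st.2 ⟨x, hx, by rw [sub_self]; exact K.zero_mem⟩
  have h2 := card_le_card h1
  rw [card_sdiff_of_subset h1]
  omega

private theorem GkM_neg {D : Finset G} {K : AddSubgroup G} (hs : ∀ y ∈ D, -y ∈ D) {m : G}
    (hm : m ∈ GkM D K) : -m ∈ GkM D K := by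
  unfold GkM at hm ⊢
  rw [mem_sdiff, Gk_mem_st] at hm ⊢
  obtain ⟨⟨a, ha, hma⟩, hmD⟩ := hm
  refine ⟨⟨-a, hs a ha, ?_⟩, fun h => hmD ?_⟩
  · have : -m - -a = -(m - a) := by abel
    rw [this]
    exact K.neg_mem hma
  · have := hs _ h
    rwa [neg_neg] at this

private theorem Gk_diff {D : Finset G} {K : AddSubgroup G}
    (hM : (GkM D K).card + 1 ≤ Nat.card K) {y y' k : G} (hy : y ∈ D) (hy' : y' ∈ D) (hk : k ∈ K)
    (hd : y' - y ∉ K) : y + y' + k ∈ D + D := by
  by_contra hx
  have h1 : ∀ k' ∈ GkF K, y + k' ∈ GkM D K ∨ y' + (k - k') ∈ GkM D K := by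
    intro k' hk'
    rw [GkF_mem] at hk'
    by_contra hc
    push Not at hc
    apply hx
    have h2 : y + k' ∈ D := by
      by_contra h
      exact hc.1 (GkM_mem hy hk' h)
    have h3 : y' + (k - k') ∈ D := by
      by_contra h
      exact hc.2 (GkM_mem hy' (K.sub_mem hk hk') h)
    have h4 := Finset.add_mem_add h2 h3
    have h5 : y + k' + (y' + (k - k')) = y + y' + k := by abel
    rwa [h5] at h4
  have h2 : (GkF K).card ≤ (GkM D K).card := by
    refine Finset.card_le_card_of_injOn
      (fun k' => if y + k' ∈ GkM D K then y + k' else y' + (k - k')) ?_ ?_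
    · intro k' hk'
      show (if y + k' ∈ GkM D K then y + k' else y' + (k - k')) ∈ GkM D K
      split_ifs with h
      · exact h
      · exact (h1 k' hk').resolve_left h
    · intro a ha b hb hab
      have ha' := GkF_mem.1 (mem_coe.1 ha)
      have hb' := GkF_mem.1 (mem_coe.1 hb)
      have hab2 : (if y + a ∈ GkM D K then y + a else y' + (k - a)) =
        if y + b ∈ GkM D K then y + b else y' + (k - b) := hab
      split_ifs at hab2
      · exact add_left_cancel hab2
      · exfalso
        apply hd
        have h5 : y' - y = a - (k - b) := by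
          have h6 : y' = y + a - (k - b) := by rw [hab2]; abel
          rw [h6]
          abel
        rw [h5]
        exact K.sub_mem ha' (K.sub_mem hk hb')
      · exfalso
        apply hd
        have h5 : y' - y = b - (k - a) := by
          have h6 : y' = y + b - (k - a) := by rw [← hab2]; abel
          rw [h6]
          abel
        rw [h5]
        exact K.sub_mem hb' (K.sub_mem hk ha')
      · have h5 := add_left_cancel hab2
        exact sub_right_injective h5
  rw [GkF_card] at h2
  omega

private theorem Gk_same {D : Finset G} {K : AddSubgroup G} (hs : ∀ y ∈ D, -y ∈ D)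
    (hM : (GkM D K).card + 1 ≤ Nat.card K) {y y' k : G} (hy : y ∈ D) (hy' : y' ∈ D) (hk : k ∈ K)
    (hd : y' - y ∈ K) (hyK : y + y ∉ K) : y + y' + k ∈ D + D := by
  by_contra hx
  have h1 : ∀ k' ∈ GkF K, y + k' ∈ GkM D K ∨ y' + (k - k') ∈ GkM D K := by
    intro k' hk'
    rw [GkF_mem] at hk'
    by_contra hc
    push Not at hc
    apply hx
    have h2 : y + k' ∈ D := by
      by_contra h
      exact hc.1 (GkM_mem hy hk' h)
    have h3 : y' + (k - k') ∈ D := by
      by_contra h
      exact hc.2 (GkM_mem hy' (K.sub_mem hk hk') h)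
    have h4 := Finset.add_mem_add h2 h3
    have h5 : y + k' + (y' + (k - k')) = y + y' + k := by abel
    rwa [h5] at h4
  have h2 : (GkF K).card ≤ (GkM D K).card := by
    refine Finset.card_le_card_of_injOn
      (fun k' => if y + k' ∈ GkM D K then y + k' else -(y' + (k - k'))) ?_ ?_
    · intro k' hk'
      show (if y + k' ∈ GkM D K then y + k' else -(y' + (k - k'))) ∈ GkM D K
      split_ifs with h
      · exact h
      · exact GkM_neg hs ((h1 k' hk').resolve_left h)
    · intro a ha b hb hab
      have ha' := GkF_mem.1 (mem_coe.1 ha)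
      have hb' := GkF_mem.1 (mem_coe.1 hb)
      have hab2 : (if y + a ∈ GkM D K then y + a else -(y' + (k - a))) =
        if y + b ∈ GkM D K then y + b else -(y' + (k - b)) := hab
      split_ifs at hab2
      · exact add_left_cancel hab2
      · exfalso
        apply hyK
        have h5 : y + y = -a - (k - b) - (y' - y) := by
          have h6 : y = -(y' + (k - b)) - a := by rw [← hab2]; abel
          have h7 : y + y = y + (-(y' + (k - b)) - a) := by rw [← h6]
          rw [h7]
          abel
        rw [h5]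
        exact K.sub_mem (K.sub_mem (K.neg_mem ha') (K.sub_mem hk hb')) hd
      · exfalso
        apply hyK
        have h5 : y + y = -b - (k - a) - (y' - y) := by
          have h6 : y = -(y' + (k - a)) - b := by rw [hab2]; abel
          have h7 : y + y = y + (-(y' + (k - a)) - b) := by rw [← h6]
          rw [h7]
          abel
        rw [h5]
        exact K.sub_mem (K.sub_mem (K.neg_mem hb') (K.sub_mem hk ha')) hd
      · have h5 := add_left_cancel (neg_injective hab2)
        exact sub_right_injective h5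
  rw [GkF_card] at h2
  omega

private theorem Gk_per {D : Finset G} {K : AddSubgroup G} (hs : ∀ y ∈ D, -y ∈ D)
    (hz : ∃ y ∈ D, y + y ∉ K) (hc : (st D K).card + 1 ≤ D.card + Nat.card K) :
    ∀ x ∈ D + D, ∀ k ∈ K, x + k ∈ D + D := by
  intro x hx k hk
  have hM := GkM_card hc
  obtain ⟨y, hy, y', hy', rfl⟩ := Finset.mem_add.1 hx
  by_cases hd : y' - y ∈ K
  · by_cases hyK : y + y ∈ K
    · obtain ⟨z, hzD, hzK⟩ := hz
      have h1 : -z - z ∉ K := by
        intro h
        apply hzK
        have h2 := K.neg_mem h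
        have h3 : -(-z - z) = z + z := by abel
        rwa [h3] at h2
      have hk2 : y + y' + k ∈ K := by
        have h2 : y + y' + k = (y + y) + (y' - y) + k := by abel
        rw [h2]
        exact K.add_mem (K.add_mem hyK hd) hk
      have h2 := Gk_diff hM hzD (hs z hzD) hk2 h1
      rwa [add_neg_cancel, zero_add] at h2
    · exact Gk_same hs hM hy hy' hk hd hyK
  · exact Gk_diff hM hy hy' hk hd

omit [Finite G] in
private theorem Gk_it {D : Finset G} {K : AddSubgroup G}
    (h : ∀ x ∈ D + D, ∀ k ∈ K, x + k ∈ D + D) :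
    ∀ i, ∀ x ∈ it D (i + 2), ∀ k ∈ K, x + k ∈ it D (i + 2) := by
  intro i
  induction i with
  | zero =>
    have h1 : it D (0 + 2) = D + D := by
      show ({0} : Finset G) + D + D = D + D
      rw [Finset.singleton_add]
      simp
    rw [h1]
    exact h
  | succ i ih =>
    intro x hx k hk
    have h1 : it D (i + 1 + 2) = it D (i + 2) + D := rfl
    rw [h1] at hx ⊢
    obtain ⟨a, ha, d, hd, rfl⟩ := Finset.mem_add.1 hx
    have h2 : a + d + k = (a + k) + d := by abel
    rw [h2]
    exact Finset.add_mem_add (ih a ha k hk) hd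

omit [Finite G] in
private theorem Gk_img (D : Finset G) (K : AddSubgroup G) (i : ℕ) :
    (it D i).image (fun x => (QuotientAddGroup.mk x : G ⧸ K)) = it (im D K) i := by
  induction i with
  | zero =>
    show Finset.image (fun x => (QuotientAddGroup.mk x : G ⧸ K)) {0} = {0}
    rw [Finset.image_singleton]
    rfl
  | succ i ih =>
    simp only [it]
    rw [← ih]
    unfold im
    ext b
    simp only [Finset.mem_image, Finset.mem_add]
    constructor
    · rintro ⟨x, ⟨a, ha, d, hd, rfl⟩, rfl⟩
      exact ⟨_, ⟨a, ha, rfl⟩, _, ⟨d, hd, rfl⟩, rfl⟩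
    · rintro ⟨_, ⟨a, ha, rfl⟩, _, ⟨d, hd, rfl⟩, rfl⟩
      exact ⟨a + d, ⟨a, ha, d, hd, rfl⟩, rfl⟩

private theorem Gk_card {X : Finset G} {K : AddSubgroup G}
    (h : ∀ x ∈ X, ∀ k ∈ K, x + k ∈ X) :
    X.card = Nat.card K * (X.image fun x => (QuotientAddGroup.mk x : G ⧸ K)).card := by
  rw [Finset.card_eq_sum_card_image (fun x => (QuotientAddGroup.mk x : G ⧸ K)) X,
    Finset.sum_const_nat (m := Nat.card K), mul_comm]
  intro b hb
  obtain ⟨x, hx, rfl⟩ := Finset.mem_image.1 hb
  rw [← GkF_card K, ← Finset.card_image_of_injective (GkF K) (add_right_injective x)]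
  congr 1
  ext z
  rw [Finset.mem_filter, Finset.mem_image]
  constructor
  · rintro ⟨hz, he⟩
    refine ⟨-x + z, GkF_mem.2 ?_, by abel⟩
    exact QuotientAddGroup.eq.1 he.symm
  · rintro ⟨k, hk, rfl⟩
    rw [GkF_mem] at hk
    refine ⟨h x hx k hk, ?_⟩
    show (QuotientAddGroup.mk (x + k) : G ⧸ K) = QuotientAddGroup.mk x
    rw [eq_comm, QuotientAddGroup.eq]
    rw [neg_add_cancel_left]
    exact hk

end

/-- **Gk** -/
theorem thm_Gk : St_Gk := by
  intro G _ _ D K _ hs hz hc i hi
  obtain ⟨j, rfl⟩ : ∃ j, i = j + 2 := ⟨i - 2, by omega⟩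
  have h1 := Gk_card (Gk_it (Gk_per hs hz hc) j)
  rw [h1, Gk_img]

end Pool.Agent.SSE
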