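import Pool.Agent.SSE.St

/-!
# SSE, GwE: growth of the multiples of a symmetric set
-/

set_option autoImplicit false

noncomputable section

open Finset Pool.Agent.Helper64.Rho Pool.Agent.SDG Pool.Agent.MDR Pool.Agent.SSC
open scoped Classical Pointwise

namespace Pool.Agent.SSE

theorem GwE_zero {G : Type} [AddCommGroup G] {D : Finset G} (h0 : (0 : G) ∈ D) (i : ℕ) :
    (0 : G) ∈ it D i := by
  induction i with
  | zero => simp [it]
  | succ i ih =>
    have h := add_mem_add ih h0
    rw [add_zero] at h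
    exact h

theorem GwE_neg {G : Type} [AddCommGroup G] {D : Finset G} (hs : ∀ y ∈ D, -y ∈ D) (i : ℕ) :
    ∀ y ∈ it D i, -y ∈ it D i := by
  induction i with
  | zero =>
    intro y hy
    simp only [it, mem_singleton] at hy ⊢
    rw [hy, neg_zero]
  | succ i ih =>
    intro y hy
    obtain ⟨a, ha, b, hb, rfl⟩ := mem_add.1 hy
    have h := add_mem_add (ih a ha) (hs b hb)
    rw [neg_add]
    exact h

theorem GwE_sub {G : Type} [AddCommGroup G] {D : Finset G} (h0 : (0 : G) ∈ D) (i : ℕ) :
    it D i ⊆ it D (i + 1) := by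
  intro y hy
  have h := add_mem_add hy h0
  rw [add_zero] at h
  exact h

theorem GwE_D {G : Type} [AddCommGroup G] {D : Finset G} (h0 : (0 : G) ∈ D) (i : ℕ) :
    D ⊆ it D (i + 1) := by
  intro y hy
  have h := add_mem_add (GwE_zero h0 i) hy
  rw [zero_add] at h
  exact h

theorem GwE_iv {G : Type} [AddCommGroup G] {E E' : Finset G} (h : E ⊆ E') : iv E ≤ iv E' := by
  unfold iv
  by_cases h1 : ∃ x ∈ E, x ≠ 0 ∧ x + x = 0
  · obtain ⟨x, hx, hx'⟩ := h1
    rw [if_pos ⟨x, hx, hx'⟩, if_pos ⟨x, h hx, hx'⟩]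
  · rw [if_neg h1]
    exact Nat.zero_le _

theorem thm_GwE : St_Cy → St_GS → St_GwE := by
  intro hCy hGS G _ _ D l hG hl h0 hs hc hn ha i hi
  obtain ⟨-, -, -, -, -, h6, h7⟩ := hCy G hG
  induction i, hi using Nat.le_induction with
  | base =>
    right
    have h1 : it D 1 = D := by
      change ({0} : Finset G) + D = D
      rw [singleton_add]
      simp
    rw [h1, hc]
    omega
  | succ i hi ih =>
    by_cases hN : Nat.card G ≤ (it D (i + 1)).card + 1
    · exact Or.inl hN
    right
    have h1 : (it D i).card ≤ (it D (i + 1)).card := card_le_card (GwE_sub h0 i)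
    have h2 : i * (2 * l + 2) ≤ (it D i).card + 1 + iv (it D i) := by
      rcases ih with h | h
      · omega
      · exact h
    have h3 : D.card ≤ (it D i).card := by
      obtain ⟨j, rfl⟩ : ∃ j, i = j + 1 := ⟨i - 1, by omega⟩
      exact card_le_card (GwE_D h0 j)
    have h4 : (it D i).card + D.card ≤ (it D (i + 1)).card := by
      refine hGS G D (it D i) h0 hs (by omega) hn ha (by omega) ?_
      change (it D (i + 1)).card + 2 ≤ Nat.card G
      omega
    have h5 := h6 (it D i) (GwE_zero h0 i) (GwE_neg hs i)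
    have h5' := h6 (it D (i + 1)) (GwE_zero h0 (i + 1)) (GwE_neg hs (i + 1))
    have h8 := GwE_iv (GwE_sub h0 i)
    have h9 : (i + 1) * (2 * l + 2) = i * (2 * l + 2) + (2 * l + 2) := by ring
    rw [h9]
    generalize i * (2 * l + 2) = P at h2 ⊢
    omega

end Pool.Agent.SSE
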