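import Pool.Agent.SSE.St

/-!
# SSE, module Mx: a nearly filling subgroup of maximal order
-/

set_option autoImplicit false

noncomputable section

open Finset Pool.Agent.Helper64.Rho Pool.Agent.SDG Pool.Agent.MDR Pool.Agent.SSC
open scoped Classical Pointwise

namespace Pool.Agent.SSE

private theorem Mx_card {G : Type} [AddCommGroup G] [Finite G] (K : AddSubgroup G)
    (T : Finset (G ⧸ K)) (S : Finset G) (hS : ∀ x, x ∈ S ↔ (QuotientAddGroup.mk x : G ⧸ K) ∈ T) :
    S.card = Nat.card K * T.card := by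
  have h1 : Nat.card {x : G // (QuotientAddGroup.mk x : G ⧸ K) ∈ T} =
      Nat.card K * Nat.card (T : Set (G ⧸ K)) := by
    rw [← Nat.card_prod]
    exact Nat.card_congr (QuotientAddGroup.preimageMkEquivAddSubgroupProdSet K (T : Set (G ⧸ K)))
  rw [Nat.card_coe_set_eq, Set.ncard_coe_finset, Nat.subtype_card S hS] at h1
  exact h1

private theorem Mx_mem_st {G : Type} [AddCommGroup G] [Finite G] (D : Finset G)
    (K : AddSubgroup G) (x : G) : x ∈ st D K ↔ ∃ a ∈ D, x - a ∈ K := by
  unfold st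
  rw [Set.Finite.mem_toFinset]
  rfl

private theorem Mx_st_im {G : Type} [AddCommGroup G] [Finite G] (D : Finset G)
    (K : AddSubgroup G) : (st D K).card = Nat.card K * (im D K).card := by
  refine Mx_card K (im D K) (st D K) fun x => ?_
  unfold im
  rw [Mx_mem_st, Finset.mem_image]
  constructor
  · rintro ⟨a, ha, h⟩
    exact ⟨a, ha, QuotientAddGroup.eq.2 (by rwa [neg_add_eq_sub])⟩
  · rintro ⟨a, ha, h⟩
    exact ⟨a, ha, by rw [← neg_add_eq_sub]; exact QuotientAddGroup.eq.1 h⟩

/-- **Mx** -/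
theorem thm_Mx : St_Mx := by
  intro G _ _ D hD
  obtain ⟨K0, hK0⟩ := hD
  obtain ⟨K, hK, hmax⟩ := Set.exists_max_image {K : AddSubgroup G | NF D K} (fun K => Nat.card K)
    (Set.toFinite _) ⟨K0, hK0⟩
  refine ⟨K, hK, Mx_st_im D K, ?_⟩
  rintro ⟨K1, h1, h2, h3⟩
  obtain ⟨hb, ht, hc⟩ := hK
  set K' : AddSubgroup G := K1.comap (QuotientAddGroup.mk' K) with hK'
  have hmem : ∀ x, x ∈ K' ↔ (QuotientAddGroup.mk x : G ⧸ K) ∈ K1 := fun x => Iff.rfl
  -- the order of `K'`
  have hcard : Nat.card K' = Nat.card K * Nat.card K1 := by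
    have e1 := Mx_card K ((K1 : Set (G ⧸ K)).toFinite.toFinset) ((K' : Set G).toFinite.toFinset)
      (fun x => by
        rw [Set.Finite.mem_toFinset, Set.Finite.mem_toFinset]
        exact hmem x)
    rw [← Set.ncard_eq_toFinset_card, ← Set.ncard_eq_toFinset_card] at e1
    exact e1
  have hst : (st D K').card = Nat.card K * (st (im D K) K1).card := by
    refine Mx_card K _ _ fun x => ?_
    rw [Mx_mem_st, Mx_mem_st]
    unfold im
    constructor
    · rintro ⟨a, ha, h⟩
      exact ⟨_, Finset.mem_image_of_mem _ ha, h⟩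
    · rintro ⟨b, hb', h⟩
      obtain ⟨a, ha, rfl⟩ := Finset.mem_image.1 hb'
      exact ⟨a, ha, h⟩
  have hK1 : 1 < Nat.card K1 := (AddSubgroup.one_lt_card_iff_ne_bot K1).2 h1
  have hKpos : 0 < Nat.card K := Nat.card_pos
  have hlt : Nat.card K < Nat.card K' := by
    rw [hcard]
    exact lt_mul_of_one_lt_right hKpos hK1
  have hNF : NF D K' := by
    refine ⟨?_, ?_, ?_⟩
    · intro h
      rw [h, AddSubgroup.card_bot] at hlt
      omega
    · intro h
      apply h2
      rw [eq_top_iff]
      intro y _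
      obtain ⟨x, rfl⟩ := QuotientAddGroup.mk_surjective y
      rw [← hmem, h]
      trivial
    · have e1 := Mx_st_im D K
      have e2 := Nat.mul_le_mul_left (Nat.card K) h3
      rw [mul_add, mul_add, mul_one] at e2
      rw [hst, hcard]
      omega
  have := hmax K' hNF
  omega

end Pool.Agent.SSE
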