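import Pool.Agent.SSE.St

/-!
# SSE SyE: the symmetric set of a family without involutions
-/

set_option autoImplicit false

noncomputable section

open Finset Pool.Agent.Helper64.Rho Pool.Agent.SDG Pool.Agent.MDR Pool.Agent.SSC
open scoped Classical Pointwise

namespace Pool.Agent.SSE

/-- members with the same value up to sign are equal -/
lemma SyE_inj {G ι : Type} [AddCommGroup G] {s : Finset ι} {f : ι → G} (h : AS s f) {i j : ι} (hi : i ∈ s) (hj : j ∈ s)
    (hij : f i = f j ∨ f i = - f j) : i = j := by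
  have h1 := h.2 (f j)
  rw [card_le_one] at h1
  exact h1 i (mem_filter.2 ⟨hi, hij⟩) j (mem_filter.2 ⟨hj, Or.inl rfl⟩)

lemma SyE_mem {G ι : Type} [AddCommGroup G] {s : Finset ι} {f : ι → G} {y : G} :
    y ∈ sym s f ↔ y = 0 ∨ ∃ i ∈ s, y = f i ∨ y = - f i := by
  unfold sym
  simp only [mem_union, mem_singleton, mem_image]
  constructor
  · rintro (h | ⟨i, hi, rfl⟩ | ⟨i, hi, rfl⟩)
    · exact Or.inl h
    · exact Or.inr ⟨i, hi, Or.inl rfl⟩
    · exact Or.inr ⟨i, hi, Or.inr rfl⟩
  · rintro (h | ⟨i, hi, rfl | rfl⟩)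
    · exact Or.inl h
    · exact Or.inr (Or.inl ⟨i, hi, rfl⟩)
    · exact Or.inr (Or.inr ⟨i, hi, rfl⟩)

lemma SyE_ne {G ι : Type} [AddCommGroup G] {s : Finset ι} {f : ι → G} (h : AE s f) {i : ι} (hi : i ∈ s) :
    f i ≠ - f i := by
  intro h1
  apply h.2 i hi
  nth_rewrite 1 [h1]
  exact neg_add_cancel _

theorem thm_SyE : St_SyE := by
  intro G ι _ _ s f hE
  have h := hE.1
  refine ⟨?_, ?_, ?_, ?_, ?_, ?_, ?_⟩
  · unfold sym
    have e1 : (s.image f).card = s.card := by
      apply card_image_of_injOn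
      intro i hi j hj hij
      exact SyE_inj h hi hj (Or.inl hij)
    have e2 : (s.image fun i => - f i).card = s.card := by
      apply card_image_of_injOn
      intro i hi j hj hij
      exact SyE_inj h hi hj (Or.inl (neg_injective hij))
    have e3 : Disjoint (s.image f) (s.image fun i => - f i) := by
      rw [disjoint_left]
      intro x hx hx2
      obtain ⟨i, hi, rfl⟩ := mem_image.1 hx
      obtain ⟨j, hj, hij⟩ := mem_image.1 hx2
      have := SyE_inj h hi hj (Or.inr hij.symm)
      subst this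
      exact SyE_ne hE hi hij.symm
    have e4 : Disjoint ({0} : Finset G) (s.image f ∪ s.image fun i => - f i) := by
      rw [disjoint_singleton_left, mem_union, not_or]
      refine ⟨?_, ?_⟩
      · intro hx
        obtain ⟨i, hi, hi2⟩ := mem_image.1 hx
        exact h.1 i hi hi2
      · intro hx
        obtain ⟨i, hi, hi2⟩ := mem_image.1 hx
        exact h.1 i hi (neg_eq_zero.1 hi2)
    rw [card_union_of_disjoint e4, card_union_of_disjoint e3, e1, e2, card_singleton]
    omega
  · exact SyE_mem.2 (Or.inl rfl)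
  · intro y hy
    rw [SyE_mem] at hy ⊢
    rcases hy with h1 | ⟨i, hi, rfl | rfl⟩
    · left; rw [h1, neg_zero]
    · right; exact ⟨i, hi, Or.inr rfl⟩
    · right; exact ⟨i, hi, Or.inl (neg_neg _)⟩
  · unfold gen
    apply le_antisymm
    · rw [AddSubgroup.closure_le]
      intro y hy
      rcases SyE_mem.1 (mem_coe.1 hy) with h1 | ⟨i, hi, rfl | rfl⟩
      · rw [h1]; exact (AddSubgroup.closure _).zero_mem
      · exact AddSubgroup.subset_closure ⟨i, hi, rfl⟩
      · exact (AddSubgroup.closure _).neg_mem (AddSubgroup.subset_closure ⟨i, hi, rfl⟩)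
    · rw [AddSubgroup.closure_le]
      rintro _ ⟨i, hi, rfl⟩
      exact AddSubgroup.subset_closure (mem_coe.2 (SyE_mem.2 (Or.inr ⟨i, hi, Or.inl rfl⟩)))
  · intro X j hX y hy
    rcases SyE_mem.1 hy with h1 | ⟨i, hi, rfl | rfl⟩
    · rw [h1, lam_zero]; exact Nat.zero_le _
    · exact hX i hi
    · rw [lam_neg]; exact hX i hi
  · intro y hy hyy
    rcases SyE_mem.1 hy with h1 | ⟨i, hi, rfl | rfl⟩
    · exact h1
    · exact absurd hyy (hE.2 i hi)
    · refine absurd ?_ (hE.2 i hi)
      have h2 : f i + f i = - (- f i + - f i) := by abel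
      rw [h2, hyy, neg_zero]
  · intro i hi
    refine ⟨?_, ?_, SyE_ne hE hi, ?_⟩
    · ext y
      rw [mem_union, SyE_mem, SyE_mem, mem_insert, mem_singleton]
      constructor
      · rintro (h1 | ⟨j, hj, hj2⟩)
        · exact Or.inl (Or.inl h1)
        · by_cases hji : j = i
          · subst hji
            exact Or.inr hj2
          · exact Or.inl (Or.inr ⟨j, mem_erase.2 ⟨hji, hj⟩, hj2⟩)
      · rintro ((h1 | ⟨j, hj, hj2⟩) | h1)
        · exact Or.inl h1
        · exact Or.inr ⟨j, (mem_erase.1 hj).2, hj2⟩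
        · exact Or.inr ⟨i, hi, h1⟩
    · intro h1
      rcases SyE_mem.1 h1 with h2 | ⟨j, hj, hj2⟩
      · exact h.1 i hi h2
      · exact (mem_erase.1 hj).1 (SyE_inj h hi (mem_erase.1 hj).2 hj2).symm
    · refine ⟨⟨fun j hj => h.1 j (mem_erase.1 hj).2, fun x => ?_⟩, fun j hj => hE.2 j (mem_erase.1 hj).2⟩
      exact (card_le_card (filter_subset_filter _ (erase_subset i s))).trans (h.2 x)

end Pool.Agent.SSE
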