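import Mathlib
import Pool.Agent.SDG.St
import Pool.Agent.MDR.St
import Pool.Agent.SSC.St

/-!
# SSE: subset sums in arbitrary finite cyclic groups (MP_ec93d3_co)

Architect helper86 (with helper48, helper22).  Definitions: `FS`, `lam`, `cnt` (Helper64.Rho), `Aper`, `Cap`, `gen`, `cf`, `jj`, `it`, `st`,
`TT` (Pool.Agent.SDG.St), `AS`, `sym`, `Prog`, `NearP`, `ins`, `outs` (Pool.Agent.MDR.St), `ks`, `Per`, `KAP`, `Exc` (Pool.Agent.SSC.St).

Aim (`St_PFE`): a family of `t` nonzero elements of a finite cyclic group (even order allowed), at most two of them equal to `± x` for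
each `x`, with aperiodic set of sums, has at least `cf 2 t = 1 + (t + 1) ^ 2 / 4` sums.

Notation in the docstrings: `N = |G|`, `l = |u|`, `T = FS s f`, `i D = it D i`, `F1 l = 1 + l (l + 1) / 2`, `F2 t = cf 2 t`.
Every `St_X` is a statement; its proof is in the docstring.  A module proves `thm_X : St_A → St_B → ... → St_X` with exactly the
hypotheses listed in the docstring, in this order (facts of `SDG`, `MDR`, `SSC` have the prefix `SDG.`, `MDR.`, `SSC.`).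
DO NOT use the tactic `convert` (the final check rejects it); for two decidability instances use `Subsingleton.elim`.
-/

set_option autoImplicit false

noncomputable section

open Finset Pool.Agent.Helper64.Rho Pool.Agent.SDG Pool.Agent.MDR Pool.Agent.SSC
open scoped Classical Pointwise

namespace Pool.Agent.SSE

/-- the lower bound for all families with `t` members in finite cyclic groups -/
def PE (t : ℕ) : Prop :=
  ∀ (G ι : Type) [AddCommGroup G] [Finite G] (s : Finset ι) (f : ι → G), IsAddCyclic G → s.card = t → (∀ i ∈ s, f i ≠ 0) →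
    Cap 2 s f → Aper (FS s f) → cf 2 t ≤ (FS s f).card

/-- `s` is a violating family with the least number of members, it generates `G` -/
def CtxE {G ι : Type} [AddCommGroup G] [Finite G] (t : ℕ) (s : Finset ι) (f : ι → G) : Prop :=
  (∀ u < t, PE u) ∧ (∀ h u : ℕ, 2 ≤ h → TT h u) ∧ IsAddCyclic G ∧ s.card = t ∧ (∀ i ∈ s, f i ≠ 0) ∧ Cap 2 s f ∧ Aper (FS s f) ∧
    gen s f = ⊤ ∧ (FS s f).card < cf 2 t

/-- antisymmetric, no member is an involution (automatic if the sums are aperiodic: SDG.Ba1 (5)) -/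
def AE {G ι : Type} [AddCommGroup G] (s : Finset ι) (f : ι → G) : Prop := AS s f ∧ ∀ i ∈ s, f i + f i ≠ 0

/-- the proper nonzero subgroup `K` nearly fills `D`; `NearP D` is `∃ K, NF D K` -/
def NF {G : Type} [AddCommGroup G] [Finite G] (D : Finset G) (K : AddSubgroup G) : Prop :=
  K ≠ ⊥ ∧ K ≠ ⊤ ∧ (st D K).card + 1 ≤ D.card + Nat.card K

/-- modulo `K` the set `D` is the progression `{k d : |k| ≤ a}`, `d` generates `G / K` -/
def APK {G : Type} [AddCommGroup G] [Finite G] (D : Finset G) (K : AddSubgroup G) : Prop :=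
  ∃ (d : G) (a : ℕ), (∀ x : G, ∃ k : ℕ, x - k • d ∈ K) ∧ (st D K).card = Nat.card K * (2 * a + 1) ∧
    ∀ y ∈ D, ∃ k : ℕ, k ≤ a ∧ (y - k • d ∈ K ∨ y + k • d ∈ K)

/-- `1` if `E` contains an involution, `0` otherwise -/
def iv {G : Type} [AddCommGroup G] (E : Finset G) : ℕ := if ∃ x ∈ E, x ≠ 0 ∧ x + x = 0 then 1 else 0

/-- image in the quotient -/
def im {G : Type} [AddCommGroup G] (D : Finset G) (K : AddSubgroup G) : Finset (G ⧸ K) := D.image fun x => (QuotientAddGroup.mk x : G ⧸ K)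

/-- subgroups that nearly fill subfamilies have order at most 4 -/
def Reg {G ι : Type} [AddCommGroup G] [Finite G] (u : Finset ι) (f : ι → G) : Prop :=
  ∀ v ⊆ u, ∀ K : AddSubgroup G, K ≠ ⊥ → (∃ i ∈ v, f i + f i ∉ K) → (st (sym v f) K).card + 1 ≤ (sym v f).card + Nat.card K →
    Nat.card K ≤ 4

/-- two members outside every proper subgroup that has not index 2 -/
def Sep {G ι : Type} [AddCommGroup G] (u : Finset ι) (f : ι → G) : Prop :=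
  ∀ M : AddSubgroup G, M ≠ ⊤ → M.index ≠ 2 → 2 ≤ (outs u f M).card

/-- the special families of five members: one in `K`, `|K| = 4`, four in the cosets `± (d + K)` -/
def Gam {G ι : Type} [AddCommGroup G] (u : Finset ι) (f : ι → G) (K : AddSubgroup G) : Prop :=
  Nat.card K = 4 ∧ u.card = 5 ∧ (ins u f K).card = 1 ∧ ∃ d : G, (∀ x : G, ∃ k : ℕ, x - k • d ∈ K) ∧
    ∀ i ∈ outs u f K, f i - d ∈ K ∨ f i + d ∈ K

/-- common hypotheses of Kh2, Kh3, Kh4 -/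
def HKh {G ι : Type} [AddCommGroup G] [Finite G] (u : Finset ι) (f : ι → G) (K : AddSubgroup G) : Prop :=
  IsAddCyclic G ∧ AE u f ∧ Aper (FS u f) ∧ 5 ≤ u.card ∧ (st (sym u f) K).card + 1 ≤ (sym u f).card + Nat.card K ∧ APK (sym u f) K ∧
    (u.card * (u.card - 1) + 3 ≤ Nat.card G ∨ 2 * (FS u f).card ≤ Nat.card G)

/-- first conclusion of the engine -/
def C1 (l : ℕ) : Prop :=
  ∀ (G ι : Type) [AddCommGroup G] [Finite G] (u : Finset ι) (f : ι → G), IsAddCyclic G → u.card = l → AE u f → Aper (FS u f) →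
    gen u f = ⊤ → Reg u f → Sep u f → 2 * (FS u f).card ≤ Nat.card G → 2 + l * (l + 1) ≤ 2 * (FS u f).card ∨ Exc f u

/-- second conclusion of the engine, with an additional member `e` -/
def C2 (l : ℕ) : Prop :=
  ∀ (G ι : Type) [AddCommGroup G] [Finite G] (v : Finset ι) (f : ι → G) (e : ι), IsAddCyclic G → e ∈ v → v.card = l + 1 → AE v f →
    Aper (FS v f) → gen (v.erase e) f = ⊤ → Reg v f → Sep (v.erase e) f → 2 * (FS (v.erase e) f).card ≤ Nat.card G →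
    l * l + 2 * l ≤ Nat.card G → 2 * (FS (v.erase e) f).card ≤ 2 + l * (l + 1) → 2 * (FS v f).card ≤ 2 + (l + 1) * (l + 2) →
      Prog (v.erase e) f ∨ Exc f (v.erase e)

/-! ## Cyclic groups, growth -/

/-- **Cy** (1 h).  Facts on finite cyclic groups.  (1) subgroups and quotients are cyclic.  (2) at most one involution.  (3), (4) at most one subgroup of each
order, of each index.  (5) if `G / K` is killed by 2 and `K ≠ ⊤` then it is cyclic of order 2.  (6) a symmetric set `E ∋ 0` : the elements different from `0` and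
from the involution are grouped in pairs `{y, -y}` (`Finset.sum_involution` in `ZMod 2`, as in MDR.Gw).  (7) trivial. -/
def St_Cy : Prop :=
  ∀ (G : Type) [AddCommGroup G] [Finite G], IsAddCyclic G →
    (∀ M : AddSubgroup G, IsAddCyclic M ∧ IsAddCyclic (G ⧸ M)) ∧
    (∀ x y : G, x ≠ 0 → y ≠ 0 → x + x = 0 → y + y = 0 → x = y) ∧
    (∀ K K' : AddSubgroup G, Nat.card K = Nat.card K' → K = K') ∧
    (∀ K K' : AddSubgroup G, K.index = K'.index → K = K') ∧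
    (∀ K : AddSubgroup G, K ≠ ⊤ → (∀ x : G, x + x ∈ K) → K.index = 2) ∧
    (∀ E : Finset G, (0 : G) ∈ E → (∀ y ∈ E, -y ∈ E) → (E.card + iv E) % 2 = 1) ∧
    (∀ E : Finset G, iv E ≤ 1)

/-- **GS** (1.5 h, no hypotheses; uses `Pool.Agent.Helper58.key`; adapt the middle part of Pool/Agent/MDR/Gw.lean).  One step of the growth.
Proof.  Suppose `|E + D| + 1 ≤ |E| + |D|`.  Then `Crit D ⊤ E`, and `key` (with `B = D`, `Q = ⊤`; `NK D ⊤` is `¬ NearP D`) gives `d ≠ 0` with `|D ∪ (d + D)| ≤ |D| + 1`.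
Let `K' = ⟨d⟩`.  Every `K'`-coset that meets `D` and is not contained in `D` contains an `x ∈ D` with `x + d ∉ D`, and there is at most one such `x`.  So
`|st D K'| ≤ |D| + |K'| - 1`; if `K' ≠ ⊤` this is `NearP D`.  So `K' = ⊤`.  `D ≠ G` (`|D| ≤ |E + D| ≤ N - 2`), so exactly one `x ∈ D` has `x + d ∉ D`, and as in MDR.Gw
`D = {x - k d : 0 ≤ k < n}`, `n = |D| < N`, and the only `y ∈ D` with `y - d ∉ D` is `x - (n - 1) d`.  `- x ∈ D`, `- x - d = - (x + d) ∉ D`: so `- x = x - (n-1) d`.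
`0 ∈ D`: `0 = x - k0 d`, `0 ≤ k0 ≤ n - 1`.  So `x = k0 d`, `2 k0 d = (n-1) d`, `|2 k0 - (n-1)| ≤ n - 1 < N`, hence `2 k0 = n - 1` and `D = {k d : |k| ≤ k0}`: `APK D ⊥` with
`a = k0` (`st D ⊥ = D`, `|D| = 2 k0 + 1`). -/
def St_GS : Prop :=
  ∀ (G : Type) [AddCommGroup G] [Finite G] (D E : Finset G), (0 : G) ∈ D → (∀ y ∈ D, -y ∈ D) → 2 ≤ D.card → ¬ NearP D → ¬ APK D ⊥ →
    2 ≤ E.card → (E + D).card + 2 ≤ Nat.card G → E.card + D.card ≤ (E + D).card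

/-- **GwE** (0.8 h, from Cy, GS).  Growth.  Proof.  Induction on `i`; `i = 1`: `1 D = {0} + D = D`.  Let `E = i D`, `E' = (i+1) D = E + D ⊇ E` (`0 ∈ D`; `E`, `E'` are symmetric and contain
`0`), `|E'| + 2 ≤ N` (otherwise done).  `|E| ≥ |D| ≥ 2`, GS: `|E'| ≥ |E| + 2 l + 1`.  `|E| + iv E` and `|E'| + iv E'` are odd (Cy (6)) and `iv E ≤ iv E'`.  If `iv E = iv E'`, then
`|E'| - |E|` is even, so `≥ 2 l + 2`; otherwise `iv E = 0`, `iv E' = 1`.  In both cases `|E'| + iv E' ≥ |E| + iv E + 2 l + 2`; and `i (2l+2) ≤ |E| + 1 + iv E` by induction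
(`N ≤ |E| + 1` is impossible, `|E| ≤ |E'| ≤ N - 2`). -/
def St_GwE : Prop :=
  ∀ (G : Type) [AddCommGroup G] [Finite G] (D : Finset G) (l : ℕ), IsAddCyclic G → 1 ≤ l → (0 : G) ∈ D → (∀ y ∈ D, -y ∈ D) →
    D.card = 2 * l + 1 → ¬ NearP D → ¬ APK D ⊥ →
      ∀ i, 1 ≤ i → Nat.card G ≤ (it D i).card + 1 ∨ i * (2 * l + 2) ≤ (it D i).card + 1 + iv (it D i)

/-- **Gv** (0.7 h, from Cy, GS, GwE).  Growth with two sets.  `D1 ⊆ D2`, both symmetric, contain `0`.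
Proof.  `i = 0`: `it D1 0 + D2 = D2`, `2 l + 3 ≥ 2 l + 2`.  `i ≥ 1`: `E = it D1 i`, `E' = E + D2 ⊇ E`, suppose `|E'| + 2 ≤ N`.  GS for `D2`: `|E'| ≥ |E| + 2 l + 3`; GwE for `D1`
(`|E| ≤ N - 2`): `|E| ≥ i (2l+2) - 1 - iv E`.  So `|E'| ≥ (i+1)(2l+2) - iv E`.  If `iv E = 0` done.  If `iv E = 1` then `iv E' = 1`, `|E'|` is even (Cy (6)), and
`(i+1)(2l+2) - 1` is odd. -/
def St_Gv : Prop :=
  ∀ (G : Type) [AddCommGroup G] [Finite G] (D1 D2 : Finset G) (l : ℕ), IsAddCyclic G → 1 ≤ l → (0 : G) ∈ D1 → (∀ y ∈ D1, -y ∈ D1) →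
    D1 ⊆ D2 → (∀ y ∈ D2, -y ∈ D2) → D1.card = 2 * l + 1 → D2.card = 2 * l + 3 → ¬ NearP D1 → ¬ APK D1 ⊥ → ¬ NearP D2 → ¬ APK D2 ⊥ →
      ∀ i, Nat.card G ≤ (it D1 i + D2).card + 1 ∨ (i + 1) * (2 * l + 2) ≤ (it D1 i + D2).card

/-- **Gk** (1.3 h; compare Pool/Agent/SSC/Gq.lean).  If `K` nearly fills `D` (`K = ⊥` allowed) then `i D`, `i ≥ 2`, is `K`-periodic.
Proof.  `M = st D K \ D` has at most `|K| - 1` elements.  If `A ⊆ y + K`, `B ⊆ y' + K`, `|A| + |B| ≥ |K| + 1`, then `A + B = y + y' + K`.  Let `y, y' ∈ D`, `A = D ∩ (y + K)`, `B = D ∩ (y' + K)`.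
If `y + K ≠ y' + K`: `(|K| - |A|) + (|K| - |B|) ≤ |M| ≤ |K| - 1`.  If `y + K = y' + K ≠ - y + K`: `- y + K` misses as many elements as `y + K`, so `2 (|K| - |A|) ≤ |K| - 1`.  In both cases
`y + y' + K ⊆ D + D`.  The remaining case: `y + K = y' + K = - y + K`: `y + y' ∈ K`; there is `y0 ∈ D` with `y0 + y0 ∉ K`, i.e. `y0 + K ≠ - y0 + K`; `A0 = D ∩ (y0 + K)` has
`2 |A0| ≥ |K| + 1`, so `K = A0 + (- A0) ⊆ D + D`.  So `2 D = D + D` is `K`-periodic, and so is `i D`, `i ≥ 2`.  The image of `i D` in `G / K` is `i D̄`, `D̄ = im D K`. -/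
def St_Gk : Prop :=
  ∀ (G : Type) [AddCommGroup G] [Finite G] (D : Finset G) (K : AddSubgroup G), (0 : G) ∈ D → (∀ y ∈ D, -y ∈ D) →
    (∃ y ∈ D, y + y ∉ K) → (st D K).card + 1 ≤ D.card + Nat.card K →
      ∀ i, 2 ≤ i → (it D i).card = Nat.card K * (it (im D K) i).card

/-- **Mx** (1 h).  A nearly filling subgroup `K` of maximal order; then `D̄ = im D K` is not nearly filled.
Proof.  If `K̄' ≠ ⊥, ⊤` nearly fills `D̄`, let `K'` be its preimage: `|K'| = |K| |K̄'| > |K|`, `K' ≠ ⊤`, `|st D K'| = |K| |st D̄ K̄'| ≤ |K| (|D̄| + |K̄'| - 1) = |st D K| + |K'| - |K| ≤ |D| + |K'| - 1`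
(`|st D K| = |K| |D̄|`): `NF D K'`, against the maximality. -/
def St_Mx : Prop :=
  ∀ (G : Type) [AddCommGroup G] [Finite G] (D : Finset G), NearP D →
    ∃ K : AddSubgroup G, NF D K ∧ (st D K).card = Nat.card K * (im D K).card ∧ ¬ NearP (im D K)

/-- **Gn** (1.5 h, from Cy, GS, GwE, Gk).  Strong growth of a nearly filled set.
Proof.  `D̄ = im D K`, `m = |D̄|`, `q = |G / K|`, `|st D K| = |K| m`; `μ = |K| m - (2 l + 1)`, `0 ≤ μ ≤ |K| - 1`.  `m ≥ 2` since `D` generates `G` and `K ≠ ⊤`.  For `i ≥ 2`: `|i D| = |K| |i D̄|` (Gk).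
If `APK D̄ ⊥` then `APK D K` (lift `d`; `|D̄| = 2 a + 1`).  Otherwise GS for `D̄` and induction on `i ≥ 1`: `|i D̄| ≥ i m` or `|i D̄| + 1 ≥ q`.  In the second case
`|i D| ≥ |K| q - |K| ≥ N - 4`.  In the first case `|i D| ≥ i |K| m = i (2 l + 1 + μ)`, and we are done if `μ ≥ 1`.  If `μ = 0`: `|K| m = 2 l + 1` is odd, so `|K| = 3` (`2 ≤ |K| ≤ 4`), `m = 2 l' + 1`,
`l = 3 l' + 1`, `l' ≥ 1`; GwE for `D̄` (`G / K` is cyclic): `|i D̄| + 1 ≥ q`, or `|i D̄| ≥ i (2 l' + 2) - 2` (`iv ≤ 1`), so `|i D| ≥ i (6 l' + 6) - 6 = i (2 l + 2) + 2 i - 6`: this is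
`≥ i (2l+2)` for `i ≥ 3` and `4 l + 2` for `i = 2`. -/
def St_Gn : Prop :=
  ∀ (G : Type) [AddCommGroup G] [Finite G] (D : Finset G) (K : AddSubgroup G) (l : ℕ), IsAddCyclic G → (0 : G) ∈ D → (∀ y ∈ D, -y ∈ D) →
    D.card = 2 * l + 1 → AddSubgroup.closure (D : Set G) = ⊤ → NF D K → Nat.card K ≤ 4 → ¬ NearP (im D K) → (∃ y ∈ D, y + y ∉ K) →
      APK D K ∨ ∀ i, 2 ≤ i → Nat.card G ≤ (it D i).card + 4 ∨ i * (2 * l + 2) ≤ (it D i).card ∨ (i = 2 ∧ 4 * l + 2 ≤ (it D i).card)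

/-- **Gc** (2.5 h).  `K` nearly fills `D2 = D1 ∪ {e, -e}` but not `D1`.
Proof.  `m_j(α)` = number of elements of the coset `α` not in `D_j`; `m_1(α) = m_2(α) + #({e, -e} ∩ α)`; `μ_j` = sum of the `m_j` over the cosets that meet `D_j`: `μ_2 ≤ |K| - 1`, `μ_1 ≥ |K|`.
`ε` = coset of `e`.  Fact: if `A ⊆ α`, `B ⊆ β` and together they miss at most `|K| - 1` elements of `α` resp. `β`, then `A + B = α + β` (full).
(1) `D1` meets every coset that `D2` meets: otherwise `D1` does not meet `ε`; if `ε ≠ - ε`, `m_2(ε) = m_2(- ε) = |K| - 1`, `2 (|K| - 1) ≤ |K| - 1` impossible; if `ε = - ε`, `m_2(ε) = |K| - 2`,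
`μ_1 = μ_2 - (|K| - 2) ≤ 1 < |K|` impossible.  So `im D1 K = im D2 K =: D̄`.
(2) `α ≠ β` in `D̄`, not `{α, β} = {ε, -ε}`: one of them, say `α`, is not `± ε`; `m_1(α) + m_2(β) = m_2(α) + m_2(β) ≤ μ_2`: `(D1 ∩ α) + (D2 ∩ β)` is full.
(3) `α = β ≠ ± ε`, `α ≠ - α`: `2 m_2(α) ≤ μ_2 ≤ |K| - 1`: full.  `α = β = ε ≠ - ε`: `m_1(ε) + m_2(ε) = 2 m_2(ε) + 1`, full unless `2 m_2(ε) = |K| - 1 = μ_2`, i.e. (EXC) `|K| = 3`, `m_2(ε) = m_2(- ε) = 1` and all other cosets of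
`D̄` are contained in `D2` and (not being `± ε`) in `D1`, in particular `K ⊆ D1`.
(4) the coset `0` is full in `D1 + D2`: take `y0 ∈ D2`, `y0 + y0 ∉ K`, `α0` its coset, `α0 ≠ - α0`.  If `α0 ≠ ± ε`: `(D1 ∩ α0) + (D2 ∩ - α0)`, `2 m_2(α0) ≤ |K| - 1`.  If `α0 = ± ε`: the same sum misses `2 m_2(ε) + 1 ≤ |K| - 1`, or (EXC) and
`K ⊆ D1 + {0}`.  (All pairs with `α + β = 0` are covered: `{ε, -ε}`, `α = β = - α`.)
If not (EXC): `D1 + D2` is `K`-periodic, so is `it D1 i + D2`, its image in `G / K` is `it D̄ (i + 1)`: equality.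
(EXC): let `γ = α_1 + ... + α_{i+1}`, `α_j ∈ D̄`.  If some `α_j` is `0` or not `± ε`, use it as a summand from `D1` (it is contained in `D1`): the coset `γ` is full.  If all are `± ε` and both signs occur, replace `ε, - ε` by `0, 0`.  So only
`γ = ± (i+1) ε` may be not full, and it contains a translate of `D2 ∩ (± ε)`, two elements: it misses at most one.  Altogether at most two elements are missing. -/
def St_Gc : Prop :=
  ∀ (G : Type) [AddCommGroup G] [Finite G] (D1 D2 : Finset G) (e : G) (K : AddSubgroup G), (0 : G) ∈ D1 → (∀ y ∈ D1, -y ∈ D1) →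
    D2 = D1 ∪ {e, -e} → D2.card = D1.card + 2 → 2 ≤ Nat.card K → Nat.card K ≤ 4 → (st D2 K).card + 1 ≤ D2.card + Nat.card K →
    D1.card + Nat.card K ≤ (st D1 K).card → (∃ y ∈ D2, y + y ∉ K) →
      ∀ i, 1 ≤ i → Nat.card K * (it (im D2 K) (i + 1)).card ≤ (it D1 i + D2).card + if Nat.card K = 3 then 2 else 0

/-- **Ge** (1.8 h, from Cy, GS, Gv, Mx, Gc).  Growth with two sets, general case.
Proof.  `i = 0`: `D2` has `2 l + 3` elements.  Let `i ≥ 1`.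
(A) `¬ NearP D2`, `¬ APK D2 ⊥`: Gv.
(B) `APK D2 ⊥`: `D2 = {k d : |k| ≤ l + 1}`, `G = ⟨d⟩`.  `e = ± k0 d`, `k0 ≤ l + 1`; `k0 = l + 1` would give `D1 = {k d : |k| ≤ l}`, `APK D1 ⊥`.  So `± (l+1) d ∈ D1`.  `it D1 i` contains `j (l+1) d` for `0 ≤ j ≤ i`, so `it D1 i + D2` contains `y d` for
`0 ≤ y ≤ (i+1)(l+1)` (`j = min (i, y / (l+1))`), and by symmetry for `|y| ≤ (i+1)(l+1)`.  So it has at least `min (N, 2 (i+1)(l+1) + 1)` elements.
(C) `NearP D2`: Mx gives `K`, `|K| ≤ 4`, `|K| ≥ 2`; `¬ NearP D1` gives `|D1| + |K| ≤ |st D1 K|`.  So `|K| m = |st D2 K| ≥ |st D1 K| ≥ 2 l + 1 + |K|`, `m = |D̄2|`, `D̄2 = im D2 K`, `q = |G / K|`.  Gc: `|it D1 i + D2| ≥ |K| |(i+1) D̄2| - 2 [|K| = 3]`.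
`¬ APK D̄2 ⊥`: GS for `D̄2` repeatedly (`m ≥ 2` since `D1` generates `G`): `|(i+1) D̄2| + 1 ≥ q`: then `|it D1 i + D2| ≥ N - |K| - 2 [|K| = 3] ≥ N - 5`; or `|(i+1) D̄2| ≥ (i+1) m`: `|K| (i+1) m - 2 [|K| = 3] ≥ (i+1)(2 l + 1 + |K|) - 2 [|K| = 3] ≥ (i+1)(2l+2)`.
`APK D̄2 ⊥`: `D̄2 = {k d̄ : |k| ≤ a'}`, `m = 2 a' + 1`, `|(i+1) D̄2| ≥ min (q, 2 (i+1) a' + 1)`.  `2 a' |K| ≥ 2 l + 1`, so (parity) `≥ 2 l + 2`, and `|K| (2 (i+1) a' + 1) - 2 [|K| = 3] ≥ (i+1)(2l+2)`; in the case `q`: `N - 2`. -/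
def St_Ge : Prop :=
  ∀ (G : Type) [AddCommGroup G] [Finite G] (D1 D2 : Finset G) (e : G) (l : ℕ), IsAddCyclic G → 1 ≤ l → (0 : G) ∈ D1 → (∀ y ∈ D1, -y ∈ D1) →
    D2 = D1 ∪ {e, -e} → D1.card = 2 * l + 1 → D2.card = 2 * l + 3 → AddSubgroup.closure (D1 : Set G) = ⊤ → ¬ NearP D1 → ¬ APK D1 ⊥ →
    (∀ K : AddSubgroup G, NF D2 K → Nat.card K ≤ 4 ∧ ∃ y ∈ D2, y + y ∉ K) →
      ∀ i, Nat.card G ≤ (it D1 i + D2).card + 5 ∨ (i + 1) * (2 * l + 2) ≤ (it D1 i + D2).card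

/-! ## Averaging -/

/-- **Av2** (1 h; see Pool/Agent/MDR/Av0.lean).  Averaging with two sets.  `x = |X|`.
Proof.  `lam X y ≤ i j` on `it D1 i`, `lam X y ≤ (i+1) j + 2` on `it D1 i + D2` (subadditivity).  `∑_{v < x} cnt X v = x ^ 2`.  Split `[0, x)` into the blocks `[i j, (i+1) j)`, `i < k`, and `[k j, x)`.  For all `v ≥ i j`: `cnt X v ≥ |it D1 i|` (used for `v = i j, i j + 1` and for
the last block); for `v ≥ i j + 2`, `i ≥ 1`: `cnt X v ≥ |it D1 (i-1) + D2|`; for `i = 0`: `cnt X v ≥ 1`. -/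
def St_Av2 : Prop :=
  ∀ (G : Type) [AddCommGroup G] [Finite G] (X D1 D2 : Finset G) (j k : ℕ), (0 : G) ∈ D1 → D1 ⊆ D2 → (∀ y ∈ D1, lam X y ≤ j) →
    (∀ y ∈ D2, lam X y ≤ j + 2) → 2 ≤ j → 1 ≤ k → k * j ≤ X.card →
    2 * (∑ i ∈ range k, (it D1 i).card) + (j - 2) * (1 + ∑ i ∈ range (k - 1), (it D1 i + D2).card) +
      (X.card - k * j) * (it D1 k).card ≤ X.card ^ 2

/-- **A1E** (1.8 h, from MDR.Av0; see Pool/Agent/MDR/A1.lean).
Proof.  `x = |X|`, `K = 2 l + 2 ≥ 12`, `j = l - 2 = (K - 6) / 2`, `2 x - 2 = a K + b`, `b < K`; `b` is even, so `b ≤ K - 2`.  `|i D| ≥ i K - 2` for `1 ≤ i ≤ a` (`a K ≤ 2 x - 2`), `|(a+1) D| ≥ 2 x - 4`.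
`4 (a K + b) ≥ 4 l (l-1) = K^2 - 6 K + 8`, so `4 a K ≥ (K-2)(K-8)`, `4 a > K - 10`: `4 a ≥ K - 8` if `4 ∣ K` and `4 a ≥ K - 6` otherwise.  `(a+1) j ≤ x` is `K ≤ 6 a + b + 8`: true.  MDR.Av0 with `k = a + 1`:
`j (1 + ∑_{i=1}^{a} (i K - 2)) + (x - (a+1) j)(2 x - 4) ≤ x^2`; times 4 the difference (left - right) is
`K a (6 a + 2 - K) + b (12 a + 8 - 2 K) + b^2 + 6 K - 48`.
`4 ∤ K`, so `K ≥ 14`, `6 a + 2 - K ≥ (K - 14)/2 ≥ 0`, `12 a + 8 - 2 K ≥ K - 10`: positive.  `4 ∣ K`, `K ≥ 20`: `6 a + 2 - K ≥ (K-20)/2`, `12 a + 8 - 2 K ≥ K - 16`: positive.  `K = 16`: `a ≥ 3`: positive; `a = 2`: `4 (32 + b) ≥ 168`, `b ≥ 10`, the difference is `b^2 - 16`.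
`K = 12`: `a ≥ 2`: positive; `a = 1`: `4 (12 + b) ≥ 80`, `b ≥ 8`, the difference is `b^2 - 4 b - 24 ≥ 8`.  Contradiction in all cases. -/
def St_A1E : Prop :=
  ∀ (G : Type) [AddCommGroup G] [Finite G] (X D : Finset G) (l : ℕ), (0 : G) ∈ D → 5 ≤ l → (∀ y ∈ D, lam X y + 2 ≤ l) →
    2 + l * (l - 1) ≤ 2 * X.card → (∀ i, 1 ≤ i → 2 * X.card ≤ (it D i).card + 4 ∨ i * (2 * l + 2) ≤ (it D i).card + 2) → False

/-- **A2N** (1.3 h, from MDR.Av0; see Pool/Agent/MDR/A2.lean).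
Proof.  `K = 2 l + 2`, `j = l - 1`, `x = |X| = 1 + l (l+1) / 2`, `B = l^2 + 2 l - 4`.  `|0 D| = 1`, `|1 D| = K - 1`, `|2 D| ≥ min (B, 2 K - 2)`, `|i D| ≥ min (B, i K)` for `i ≥ 3`.  MDR.Av0 with `k = h + 1`, `h = l / 2`.
`l = 2 h` (`h ≥ 3`): `K = 4 h + 2`, `j = 2 h - 1`, `x = 2 h^2 + h + 1`, `x - k j = 2`, `h K ≤ B = 4 h^2 + 4 h - 4`, `(h+1) K ≥ B`: left side `≥ (2h-1)(-2 + (2h+1) h (h+1)) + 2 B = 4h^4 + 4h^3 + 7h^2 + 3h - 6`, right side
`x^2 = 4h^4 + 4h^3 + 5h^2 + 2h + 1`; difference `2h^2 + h - 7 > 0`.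
`l = 2 h + 1` (`h ≥ 2`): `K = 4 h + 4`, `j = 2 h`, `x = 2 h^2 + 3 h + 2`, `x - k j = h + 2`, `B = 4 (h+1)^2 - 5`, `h K ≤ B ≤ (h+1) K`: left side `≥ 2h (-2 + 2h (h+1)^2) + (h+2) B = 4h^4 + 12h^3 + 20h^2 + 11h - 2`, `x^2 = 4h^4 + 12h^3 + 17h^2 + 12h + 4`;
difference `3h^2 - h - 6 > 0`. -/
def St_A2N : Prop :=
  ∀ (G : Type) [AddCommGroup G] [Finite G] (X D : Finset G) (l : ℕ), (0 : G) ∈ D → 5 ≤ l → (∀ y ∈ D, lam X y + 1 ≤ l) →
    2 * X.card = 2 + l * (l + 1) → D.card = 2 * l + 1 →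
    (∀ i, 2 ≤ i → l * l + 2 * l ≤ (it D i).card + 4 ∨ i * (2 * l + 2) ≤ (it D i).card ∨ (i = 2 ∧ 4 * l + 2 ≤ (it D i).card)) → False

/-- **A2E** (1.5 h, from Av2).
Proof.  `K = 2 l + 2`, `j = l - 1`, `x = 1 + l (l+1)/2`, `B = l^2 + 2 l - 5`; `a_i = |it D1 i| ≥ min (B, i K - 2)`, `b_i = |it D1 (i-1) + D2| ≥ min (B, i K)`, `i ≥ 1`.  Av2 with `k = h + 1`, `h = l / 2`.  For `1 ≤ i ≤ h` (`i K ≤ B`): `2 a_i + (j - 2) b_i ≥ j i K - 4`; for `i = 0`: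
`2 + (j - 2) = j`.  So `j + j K h (h+1) / 2 - 4 h + (x - (h+1) j) B ≤ x^2` (`a_{h+1} ≥ B` since `(h+1) K - 2 ≥ B`).
`l = 2 h` (`h ≥ 3`): `x = 2h^2 + h + 1`, `x - (h+1) j = 2`, `B = 4h^2 + 4h - 5`: left side `4h^4 + 4h^3 + 7h^2 + 5h - 11`, `x^2 = 4h^4 + 4h^3 + 5h^2 + 2h + 1`; difference `2h^2 + 3h - 12 > 0`.
`l = 2 h + 1` (`h ≥ 2`): `x = 2h^2 + 3h + 2`, `x - (h+1) j = h + 2`, `B = 4h^2 + 8h - 2`: left side `4h^4 + 12h^3 + 20h^2 + 12h - 4`, `x^2 = 4h^4 + 12h^3 + 17h^2 + 12h + 4`; difference `3h^2 - 8 > 0`. -/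
def St_A2E : Prop :=
  ∀ (G : Type) [AddCommGroup G] [Finite G] (X D1 D2 : Finset G) (l : ℕ), (0 : G) ∈ D1 → D1 ⊆ D2 → 5 ≤ l → (∀ y ∈ D1, lam X y + 1 ≤ l) →
    (∀ y ∈ D2, lam X y ≤ l + 1) → 2 * X.card = 2 + l * (l + 1) →
    (∀ i, 1 ≤ i → l * l + 2 * l ≤ (it D1 i).card + 5 ∨ i * (2 * l + 2) ≤ (it D1 i).card + 2) →
    (∀ i, l * l + 2 * l ≤ (it D1 i + D2).card + 5 ∨ (i + 1) * (2 * l + 2) ≤ (it D1 i + D2).card) → False

/-! ## Elementary facts on families -/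

/-- **SyE** (1 h; adapt Pool/Agent/MDR/Sy.lean).  The symmetric set; `f i ≠ - f i` replaces the odd order. -/
def St_SyE : Prop :=
  ∀ (G ι : Type) [AddCommGroup G] [Finite G] (s : Finset ι) (f : ι → G), AE s f →
    (sym s f).card = 2 * s.card + 1 ∧ (0 : G) ∈ sym s f ∧ (∀ y ∈ sym s f, -y ∈ sym s f) ∧
    AddSubgroup.closure (sym s f : Set G) = gen s f ∧
    (∀ (X : Finset G) (j : ℕ), (∀ i ∈ s, lam X (f i) ≤ j) → ∀ y ∈ sym s f, lam X y ≤ j) ∧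
    (∀ y ∈ sym s f, y + y = 0 → y = 0) ∧
    (∀ i ∈ s, sym s f = sym (s.erase i) f ∪ {f i, -f i} ∧ f i ∉ sym (s.erase i) f ∧ f i ≠ -f i ∧ AE (s.erase i) f)

/-- **PgE** (1 h; adapt Pool/Agent/MDR/Pg.lean: `Odd` is not needed).  See MDR.Pg. -/
def St_PgE : Prop :=
  ∀ (G ι : Type) [AddCommGroup G] [Finite G] (s : Finset ι) (f : ι → G), AS s f → 1 ≤ s.card → Prog s f →
    ∃ d c : G, FS s f = (range (s.card * (s.card + 1) / 2 + 1)).image (fun k : ℕ => c + k • d) ∧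
      (∀ i ∈ s, ∃ k : ℕ, 1 ≤ k ∧ k ≤ s.card ∧ (f i = k • d ∨ f i = -(k • d))) ∧
      (∀ k : ℕ, 1 ≤ k → k ≤ s.card → ∃ i ∈ s, f i = k • d ∨ f i = -(k • d)) ∧
      gen s f = AddSubgroup.zmultiples d ∧ (Aper (FS s f) → 2 * (FS s f).card = 2 + s.card * (s.card + 1))

/-- **ExE** (1 h, from PgE; adapt Pool/Agent/MDR/Ex.lean: `f i = ± a d` with `1 ≤ a`, `2 a ≤ N`; `a + L ≤ N` still holds).  See MDR.Ex. -/
def St_ExE : Prop :=
  ∀ (G ι : Type) [AddCommGroup G] [Finite G] (s : Finset ι) (f : ι → G) (i : ι), AS s f → i ∈ s →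
    3 ≤ s.card → Prog (s.erase i) f → gen (s.erase i) f = ⊤ → 2 + s.card * (s.card - 1) ≤ Nat.card G →
      2 + s.card * (s.card + 1) ≤ 2 * (FS s f).card ∧ (2 * (FS s f).card ≤ 2 + s.card * (s.card + 1) → Prog s f)

/-- **B3E** (0.8 h; adapt Pool/Agent/MDR/B3.lean: `2 a ≠ 0` for the members replaces the odd order).  See MDR.B3. -/
def St_B3E : Prop :=
  ∀ (G ι : Type) [AddCommGroup G] [Finite G] (s : Finset ι) (f : ι → G), AE s f → s.card ≤ 3 →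
    2 + s.card * (s.card + 1) ≤ 2 * (FS s f).card

/-- **BoE** (2.5 h, from MDR.Sg; see SSC.Bo, Pool/Agent/SSC/Bo.lean).  Four members in a cyclic group.
Proof.  Values `v1, ..., v4`.  Two different subsets with the same sum give a relation `∑ ε_j v_j = 0`, `ε_j ∈ {-1, 0, 1}` (up to a global sign).  One or two nonzero signs: impossible (`AE`).  For each triple at most one relation (two of them differ in one sign up to a global sign: `2 v_j = 0`).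
Relations with four nonzero signs: two of them differ in exactly two signs `i, j` (up to a global sign; one sign: `2 v = 0`), so `2 (v_i ± v_j) = 0`, `v_i ± v_j = w` = THE involution.  At most two of them: normalise the sign of `v1`; if a second one differs from the first in two of the signs of
`v2, v3, v4`, say `2, 3`, and a third one in `2, 4` (or `3, 4`), then `a v2 + b v3 = w = a v2 + c v4`, `v3 = ± v4`, impossible.  A triple relation identifies two pairs of subsets, a relation with four signs one pair.  So if at most one triple has a relation, `|FS| ≥ 16 - 2 - 2 = 12`.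
Two triples with a relation: as in SSC.Bo: up to signs the values are `a, b, a + b, a - b`, the 16 sums are the twelve elements `0, a, b, a+b, a-b, 2a, 2a+b, 2a-b, 2a+2b, a+2b, 3a, 3a+b`; if they are not all different there is a third relation, and `3 a = 0` or `3 b = 0` (third alternative)
or `b = ± 3 a` or `a = ± 3 b` (progression); the order of the group is not used here. -/
def St_BoE : Prop :=
  ∀ (G ι : Type) [AddCommGroup G] [Finite G] (s : Finset ι) (f : ι → G), IsAddCyclic G → AE s f → s.card = 4 →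
    12 ≤ (FS s f).card ∨ Prog s f ∨ ∃ h z : G, h ≠ 0 ∧ (3 : ℕ) • h = 0 ∧
      ∀ i ∈ s, f i = h ∨ f i = -h ∨ f i = z ∨ f i = -z ∨ f i = z + h ∨ f i = -(z + h) ∨ f i = z - h ∨ f i = -(z - h)

end Pool.Agent.SSE
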