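import Mathlib
import Pool.Agent.SSE.St

/-!
# SSE, part 2: levels, structure lemma, halves, engine, assembly (MP_ec93d3_co)

Same conventions as in Pool/Agent/SSE/St.lean.  DO NOT use the tactic `convert`.
-/

set_option autoImplicit false

noncomputable section

open Finset Pool.Agent.Helper64.Rho Pool.Agent.SDG Pool.Agent.MDR Pool.Agent.SSC
open scoped Classical Pointwise

namespace Pool.Agent.SSE

/-! ## Levels modulo a small subgroup -/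

/-- **LvE** (0.8 h; adapt Pool/Agent/SSC/Lv.lean).  Levels, `q = K.index` odd or even.  `f i ≡ n d`, `0 ≤ n < q`; if `2 n ≤ q` take `lv i = n`, `f' i = f i`, otherwise `lv i = q - n`, `f' i = - f i`.
Uniqueness: `k d ≡ ± k' d` modulo `K`, `2 k, 2 k' ≤ q` implies `k = k'` (the class of `d` has order `q`; `k + k' ≡ 0` gives `k + k' ∈ {0, q}`). -/
def St_LvE : Prop :=
  ∀ (G ι : Type) [AddCommGroup G] [Finite G] (f : ι → G) (K : AddSubgroup G) (d : G), (∀ x : G, ∃ k : ℕ, x - k • d ∈ K) →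
    ∃ (f' : ι → G) (lv : ι → ℕ), (∀ i, f' i = f i ∨ f' i = - f i) ∧ (∀ i, f' i - lv i • d ∈ K) ∧ (∀ i, lv i = 0 ↔ f i ∈ K) ∧
      (∀ i, 2 * lv i ≤ K.index) ∧ (∀ (i : ι) (k : ℕ), 2 * k ≤ K.index → (f i - k • d ∈ K ∨ f i + k • d ∈ K) → lv i = k)

/-- **Cn** (1 h; see Pool/Agent/SSC/Ct.lean).  Counting by levels, `K` arbitrary.  The cosets `v d + K`, `v < q = K.index`, are different and cover `G`.  (2): `v d + K ⊆ X`.  (3): `m ≥ q + 1`: all levels `1, ..., q` are full (`q ≡ 0`); `m = q`: the levels `1, ..., q-1`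
are full, plus level 0; `m < q`: levels `1, ..., m - 1`, `0`, `m`. -/
def St_Cn : Prop :=
  ∀ (G : Type) [AddCommGroup G] [Finite G] (X : Finset G) (K : AddSubgroup G) (d : G), (∀ x : G, ∃ k : ℕ, x - k • d ∈ K) →
    (∀ V : Finset ℕ, (∀ v ∈ V, v < K.index) → ∑ v ∈ V, (X.filter fun x => x - v • d ∈ K).card ≤ X.card) ∧
    (∀ v : ℕ, (∀ k ∈ K, v • d + k ∈ X) → (X.filter fun x => x - v • d ∈ K).card = Nat.card K) ∧
    (∀ m : ℕ, Per X K d m →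
      (K.index + 1 ≤ m → ∀ x, x ∈ X) ∧
      (1 ≤ m → m = K.index → Nat.card K * (m - 1) + (X.filter fun x => x ∈ K).card ≤ X.card) ∧
      (1 ≤ m → m + 1 ≤ K.index →
        Nat.card K * (m - 1) + (X.filter fun x => x ∈ K).card + (X.filter fun x => x - m • d ∈ K).card ≤ X.card))

/-- **F2** (1.2 h, from SSC.Et; see Pool/Agent/SSC/Fu.lean).  `|K| = 2`, `K = {0, w}`.
Proof.  The two members of level 1 are `{z, z + w} = d + K`, the two of level 2 are `{y, y + w} = 2 d + K` (`Cap 1`: different elements of a coset with two elements).  The sums of these four: level 1: `z, z + w`; 2: `y, y + w`; 3: `z + y, z + y + w`; 4: `2 z + w + y`, `2 z + w + y + w = 2 z + y`;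
5: `z + 2 y + w, z + 2 y`.  So `Per (FS {these four} f) K d 6`.  SSC.Et with `m = 6`, `R` = members of level `≥ 3` (`6 + ∑_{j ∈ R, lv j < lv i} lv j = ∑_{j ∈ u, lv j < lv i} lv j`); members of level 0 are added at the end (`FS_mono`). -/
def St_F2 : Prop :=
  ∀ (G ι : Type) [AddCommGroup G] [Finite G] (u : Finset ι) (f : ι → G) (K : AddSubgroup G) (d : G) (lv : ι → ℕ), Nat.card K = 2 → AS u f →
    (∀ i ∈ u, f i - lv i • d ∈ K) → (u.filter fun i => lv i = 1).card = 2 → (u.filter fun i => lv i = 2).card = 2 →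
      (∀ i ∈ u, 3 ≤ lv i → lv i + 1 ≤ ∑ j ∈ u.filter (fun j => lv j < lv i), lv j) → Per (FS u f) K d (∑ i ∈ u, lv i)

/-- **F4** (1.5 h, from SSC.Et; see Pool/Agent/SSC/Fu.lean).  `K` cyclic of order 4.
Proof.  Four members of level 1: they are the whole coset `d + K`; the sums of two of them: `2 z + {0,1,2,3} g` (all), the sums of three: the total minus one of them (all of `3 d + K`): `Per (FS {these four} f) K d 4`.
Three members `z1, z2, z3` of level 1 and a member `h ∈ K`, `h ≠ 0`, `2 h ≠ 0`, so `h` generates `K`: level 1: a set of three elements of the coset and its translate by `h`, which is different: all; level 2: the sums of two are `z1 + z2 + z3 - z_j`, three different elements, and the translate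
by `h`: all.  `Per (FS {h, z1, z2, z3} f) K d 3`.  Then SSC.Et with `m = 4`, `m = 3`, `R` = members of level `≥ 2`; the other members of level 0 are added at the end (`FS_mono`). -/
def St_F4 : Prop :=
  ∀ (G ι : Type) [AddCommGroup G] [Finite G] (u : Finset ι) (f : ι → G) (K : AddSubgroup G) (d : G) (lv : ι → ℕ), IsAddCyclic G → Nat.card K = 4 → AE u f →
    (∀ i ∈ u, f i - lv i • d ∈ K) → ((u.filter fun i => lv i = 1).card = 4 ∨ ((u.filter fun i => lv i = 1).card = 3 ∧ ∃ i ∈ u, lv i = 0)) →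
      (∀ i ∈ u, 2 ≤ lv i → lv i + 1 ≤ ∑ j ∈ u.filter (fun j => lv j < lv i), lv j) → Per (FS u f) K d (∑ i ∈ u, lv i)

/-- **Lc** (2 h, from Cy, SyE, LvE).  Levels of a family that is nearly filled by `K`, `2 ≤ |K| ≤ 4`, and a progression modulo `K`.
Proof.  `D = sym u f`, `d, a` from `APK D K`, `f', lv` from LvE.  `|st D K| = |K| (2 a + 1)`, and `st D K` is contained in the union of the cosets `k d + K`, `|k| ≤ a`, so these `2 a + 1` cosets are different and all of them meet `D`: `2 a + 1 ≤ q = K.index`.  For `i ∈ u`: `f i ≡ ± k d`, `k ≤ a`, so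
`lv i = k ≤ a` (`2 k ≤ q`).  For `1 ≤ k ≤ a`: `k d + K ≠ - k d + K`, and `D ∩ (k d + K) = {f' i : i ∈ u, lv i = k}`, so it has `c_k = #{lv = k}` elements (`Cap 1`), `c_k ≤ |K|`; the same for `- k d + K`.  `D ∩ K` has `1 + 2 b` elements, `b = |ins u f K|` (`AE`).  So `|st D K| - |D| = 2 ∑_{k=1}^a (|K| - c_k) +
(|K| - 1 - 2 b) ≤ |K| - 1`: `∑_{k = 1}^a (|K| - c_k) ≤ b`, i.e. `a |K| ≤ ∑ c_k + b = |u|`.  `1 + 2 b ≤ |K|`: `b = 0` if `|K| = 2`, and `b ≤ 1` if `|K| ≤ 4`. -/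
def St_Lc : Prop :=
  ∀ (G ι : Type) [AddCommGroup G] [Finite G] (u : Finset ι) (f : ι → G) (K : AddSubgroup G), AE u f → 2 ≤ Nat.card K → Nat.card K ≤ 4 →
    (st (sym u f) K).card + 1 ≤ (sym u f).card + Nat.card K → APK (sym u f) K →
      ∃ (d : G) (a : ℕ) (f' : ι → G) (lv : ι → ℕ), (∀ x : G, ∃ k : ℕ, x - k • d ∈ K) ∧ (∀ i, f' i = f i ∨ f' i = - f i) ∧
        (∀ i, f' i - lv i • d ∈ K) ∧ (∀ i, lv i = 0 ↔ f i ∈ K) ∧ 2 * a + 1 ≤ K.index ∧ (∀ i ∈ u, lv i ≤ a) ∧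
        (∀ k, 1 ≤ k → k ≤ a → (u.filter fun i => lv i = k).card ≤ Nat.card K) ∧ (ins u f K).card ≤ 1 ∧
        (Nat.card K = 2 → (ins u f K).card = 0) ∧ a * Nat.card K ≤ u.card

/-- **Kh2** (1.5 h, from SDG.Ba1, MDR.Sg, Lc, F2, Cn).  `|K| = 2`.
Proof.  Lc: `b = 0`, `l = ∑_{k=1}^a c_k ≤ 2 a ≤ l`: all `c_k = 2`, `l = 2 a`, `a ≥ 3`.  MDR.Sg: pass to `f'`.  F2 (level `k ≥ 3`: the sum of the lower levels is `k (k-1) ≥ k + 1`): `Per X K d m`, `X = FS u f'`, `m = a (a+1)`.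
`m < q`: Cn: `|X| ≥ 2 (m - 1) + 1 + 1 = 2 m` (level 0: `0`; level `m`: the sum of all), `2 |X| ≥ 4 a (a+1) = l^2 + 2 l ≥ 4 + l (l+1)`.
`m ≥ q`: `m ≥ q + 1` is impossible (`X = G` is not aperiodic); `m = q`: `|X| ≥ 2 (q-1) + 1 = N - 1`; `2 |X| ≤ N` is impossible (`N = 2 q ≥ 14`); `l (l-1) + 3 ≤ N`: `2 |X| ≥ 2 (l (l-1) + 2) ≥ 4 + l (l+1)`. -/
def St_Kh2 : Prop :=
  ∀ (G ι : Type) [AddCommGroup G] [Finite G] (u : Finset ι) (f : ι → G) (K : AddSubgroup G), HKh u f K → Nat.card K = 2 →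
    4 + u.card * (u.card + 1) ≤ 2 * (FS u f).card

/-- **Kh3** (2 h, from SDG.Ba1, MDR.Sg, Lc, SSC.Fu, Cn; adapt Pool/Agent/SSC/Kh.lean).  `|K| = 3`.
Proof.  Lc: `b ≤ 1`, `3 a ≤ l = b + ∑ c_k ≤ b + 3 a`, `c_k ≤ 3`.  `a ≥ 2` or `l = 3 a + 1 ≥ 5`, so `a ≥ 2`.  Pass to `f'` (MDR.Sg), `X = FS u f'`.
`b = 0`: `l = 3 a`, all levels full.  SSC.Fu (1) (level `k ≥ 2`: lower levels `3 k (k-1)/2 ≥ k + 1`): `Per X K d m`, `m = 3 a (a+1)/2`.  `m < q`: `|X| ≥ 3 (m-1) + 2`, `2 |X| ≥ 9 a^2 + 9 a - 2 ≥ 4 + 9 a^2 + 3 a = 4 + l (l+1)`.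
`b = 1`, `l = 3 a + 1`: all levels full: `KAP u f K a`.  `b = 1`, `l = 3 a`: exactly one level `i0` has two members, the others three.  `i0 = a`: `KAP u f K (a - 1)`.  `i0 < a`: `m = 3 a (a+1)/2 - i0`; SSC.Fu (1) for `i0 ≥ 2` (lower levels: `3` for `k = 2`, `≥ 3 k (k-1)/2 - (k-1) ≥ k + 1` for `k ≥ 3`), SSC.Fu (2) for
`i0 = 1`.  `m < q`: `|X| ≥ 3 (m-1) + 4` (level 0: `0, h`; level `m`: `w, w - h`), `2 |X| ≥ 6 m + 2 ≥ 9 a^2 + 3 a + 8`.
`m ≥ q` (all cases with `Per`): `m ≥ q+1` impossible; `m = q`: `|X| ≥ 3 (q-1) + 1 = N - 2`: against `2 |X| ≤ N` (`N ≥ 15`); and if `l (l-1) + 3 ≤ N` then `2 |X| ≥ 2 (l (l-1) + 1) ≥ 4 + l (l+1)`. -/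
def St_Kh3 : Prop :=
  ∀ (G ι : Type) [AddCommGroup G] [Finite G] (u : Finset ι) (f : ι → G) (K : AddSubgroup G), HKh u f K → Nat.card K = 3 →
    Exc f u ∨ 4 + u.card * (u.card + 1) ≤ 2 * (FS u f).card

/-- **Kh4** (2 h, from SDG.Ba1, MDR.Sg, Lc, F4, Cn).  `|K| = 4`.
Proof.  Lc: `b ≤ 1`, `4 a ≤ l = b + ∑ c_k ≤ b + 4 a`.  Pass to `f'` (MDR.Sg), `X = FS u f'`.
`b = 0`: `l = 4 a`, `a ≥ 2`, all levels full.  F4 (`k ≥ 2`: lower levels `2 k (k-1) ≥ k + 1`): `Per X K d m`, `m = 2 a (a+1)`; `m < q`: `|X| ≥ 4 (m-1) + 2`, `2 |X| ≥ 16 a^2 + 16 a - 4 ≥ 4 + 16 a^2 + 4 a`.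
`b = 1`, `l = 4 a + 1`: all levels full, `m = 2 a (a+1)`; `m < q`: `|X| ≥ 4 (m-1) + 4 = 4 m` (level 0: `0, h`, level `m`: `w, w - h`), `2 |X| ≥ 16 a^2 + 16 a`, `l (l+1) = 16 a^2 + 12 a + 2`: the second alternative if `a ≥ 2`; if `a = 1`: `l = 5`, `2 |X| ≥ 32 = 2 + l (l+1)` and `Gam u f K`.
`b = 1`, `l = 4 a`: `a ≥ 2`, exactly one level `i0` has three members, the others four: `m = 2 a (a+1) - i0`; F4: for `i0 = 1` by its second case (`k ≥ 2`: lower levels `2 k (k-1) - 1 ≥ k + 1`), for `i0 ≥ 2` by the first (`k = 2`: `4 ≥ 3`; `k ≥ 3`: `2 k (k-1) - (k-1) ≥ k + 1`).  `m < q`: `|X| ≥ 4 m`, `2 |X| ≥ 16 a^2 + 16 a - 8 i0 ≥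
16 a^2 + 8 a ≥ 4 + l (l+1)`.
`m ≥ q`: `m ≥ q+1` impossible; `m = q`: `|X| ≥ 4 (q-1) + 1 = N - 3`: against `2 |X| ≤ N` (`N = 4 q ≥ 4 (2a+1) ≥ 12`); if `l (l-1) + 3 ≤ N`: `2 |X| ≥ 2 l (l-1) ≥ 4 + l (l+1)`. -/
def St_Kh4 : Prop :=
  ∀ (G ι : Type) [AddCommGroup G] [Finite G] (u : Finset ι) (f : ι → G) (K : AddSubgroup G), HKh u f K → Nat.card K = 4 →
    (Gam u f K ∧ 2 + u.card * (u.card + 1) ≤ 2 * (FS u f).card) ∨ 4 + u.card * (u.card + 1) ≤ 2 * (FS u f).card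

/-- **GmE** (1.3 h, from SDG.Ba1, MDR.Sg, Cy, LvE, SSC.Et, F4, Cn).  A special family and one more member `e`, `N ≥ 35`: at least 23 sums.
Proof.  `u = v.erase e`.  `q = N / 4 ≥ 9`.  `f', lv` from LvE for `d` of `Gam`: the four members of `outs u f K` have level 1 (`2 ≤ q`), they are all elements of `d + K`.  `Per (FS u f') K d 4` (F4), level 0 of `FS u f'` contains `0, h`, level 4 contains `w, w - h`.  `j = lv e`: `j ≠ 0` (`f e ∈ K`, `f e ≠ 0, ± h` and not the involution: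
impossible), `j ≠ 1` (the coset has four elements, `Cap 1`).  `2 ≤ j ≤ 3`: SSC.Et: `Per (FS v f') K d (4 + j)`, `4 + j < q`, `|FS v f'| ≥ 4 (3 + j) + 2 + 2 ≥ 24`.  `j ≥ 4`: `j + 4 < q` (`2 j ≤ q`, `q ≥ 9`), the levels `1, 2, 3, j+1, j+2, j+3` are full: `|FS v f'| ≥ 24`. -/
def St_GmE : Prop :=
  ∀ (G ι : Type) [AddCommGroup G] [Finite G] (v : Finset ι) (f : ι → G) (e : ι) (K : AddSubgroup G), IsAddCyclic G → AE v f → Aper (FS v f) →
    e ∈ v → Gam (v.erase e) f K → 35 ≤ Nat.card G → 46 ≤ 2 * (FS v f).card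

/-- **KxE** (2 h, from SDG.Ba1, SDG.Kn, MDR.Sg, LvE, SSC.Et, SSC.Fu, SSC.Ct; adapt Pool/Agent/SSC/Kx.lean).  Extension of an exceptional family; `q = K.index` may be even.
Proof.  As SSC.Kx, `l = |u| = 3 a + r + 2`, `m = 3 a (a+1)/2 + r (a+1)`, `6 m = l (l-1)` (`r ≥ 1`) or `l (l-1) - 2` (`r = 0`).  `f i ∉ K`: otherwise `f i = ± h`, `h` the member of `u.erase i` in `K`, against `Cap 1`.  Levels: `2 (3 a + r) ≤ |G \ K| = 3 q - 3` (the elements `± f j` are different), so `2 a ≤ q - 1`, and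
`2 (a + 1) ≤ q` if `r ≥ 1`: `lv` of LvE agrees with the levels of the definition on `u.erase i`.  `X' = FS (u.erase i) f'`, `Per X' K d m` (SSC.Fu (1)), `|X'| ≥ 3 m + 1` if `m < q`, `|X'| ≥ 3 q - 1` if `m = q`, `m ≥ q+1` impossible.
CLAIM `2 m + 1 ≤ q`: if `l (l-1) + 3 ≤ N = 3 q` clear; if `2 |FS u f| ≤ N = 3 q`: `m ≥ q` is impossible, and `2 (3 m + 1) ≤ 2 |X'| < 2 |FS u f| ≤ 3 q`.
`j = lv i`, `1 ≤ j`, `2 j ≤ q`.  `j ≤ a`: four different elements in a coset of `K`, impossible.  `j = a + 1`: `Exc f u`.  `j ≥ a + 2`: `X = FS u f' = X' ∪ (X' + f' i)`; `2 m + 1 ≤ q`, `2 j ≤ q` give `j + m + 1 ≤ q`.  `j + 1 ≤ m`: `Per X K d (m + j)` (SSC.Et), `|X| ≥ 3 (m + j - 1) + 4 ≥ 3 m + 3 a + 7`.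
`j ≥ m`: SSC.Ct (4) with `k = j`: `|X| ≥ 6 (m-1) + 2 + 2 + 2 = 6 m ≥ 3 m + 3 a + 6` (`m ≥ a + 2`).  So `2 |X| ≥ 6 m + 6 a + 12 ≥ 4 + l (l+1)` (`l (l+1) = 6 m + 6 a + 6` for `r = 0`, `≤ 6 m + 6 a + 8` for `r = 1, 2`). -/
def St_KxE : Prop :=
  ∀ (G ι : Type) [AddCommGroup G] [Finite G] (u : Finset ι) (f : ι → G) (K : AddSubgroup G) (a : ℕ) (i : ι), AE u f → Aper (FS u f) →
    i ∈ u → KAP (u.erase i) f K a → (u.card * (u.card - 1) + 3 ≤ Nat.card G ∨ 2 * (FS u f).card ≤ Nat.card G) →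
      Exc f u ∨ 4 + u.card * (u.card + 1) ≤ 2 * (FS u f).card

/-- **KeE** (1 h, from SDG.Ba1, SDG.Kn, MDR.Sg, LvE, SSC.Fu, SSC.Ct; adapt Pool/Agent/SSC/Ke.lean).  Exceptional families have many sums.
Proof.  `l = 3 a + r + 1`, `m = 3 a (a+1)/2 + r (a+1)`: `6 m = l (l+1)` for `r = 1, 2`, `6 m = l (l+1) - 2` for `r = 0`.  Levels as in KxE.  `Per X K d m`, `X = FS u f'`.  `m < q = N / 3`: if `l (l-1) + 3 ≤ 3 q`: `6 m ≤ l (l+1) < 2 l (l-1) + 6 ≤ 6 q`; if `2 |FS u f| ≤ N`: `m ≥ q` gives `|X| ≥ 3 q - 1` or everything, impossible.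
So `|X| ≥ 3 (m-1) + 4 = 3 m + 1`, `2 |X| ≥ 6 m + 2`. -/
def St_KeE : Prop :=
  ∀ (G ι : Type) [AddCommGroup G] [Finite G] (u : Finset ι) (f : ι → G) (K : AddSubgroup G) (a : ℕ), AE u f → Aper (FS u f) →
    KAP u f K a → (u.card * (u.card - 1) + 3 ≤ Nat.card G ∨ 2 * (FS u f).card ≤ Nat.card G) →
      u.card * (u.card + 1) ≤ 2 * (FS u f).card ∧ (u.card ≠ 3 * a + 1 → 2 + u.card * (u.card + 1) ≤ 2 * (FS u f).card)

/-- **KgE** (2.5 h, from SDG.Nm1, SDG.Ba1, SDG.Kn, MDR.Sg, LvE, SSC.Et, SSC.Fu, SSC.Ct, Cn; adapt Pool/Agent/SSC/Kg.lean).  The last step.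
Proof.  `cf 2 (6 a + 1) = 9 a^2 + 6 a + 2`, `cf 2 (6 a + 2) = 9 a^2 + 9 a + 3`.  `f', lv` by LvE for all of `s = s1 ∪ s2` (pass to `f'`, MDR.Sg); `2 a ≤ q`, so the levels of `s1` are those of the definition.  `m = 3 a (a+1)/2`, `Per (FS s1 f') K d m`.  `h ∈ s1` the member in `K`.  `R ⊆ s2` maximal with `Per (FS (s1 ∪ R) f') K d m'`, `m' = m + ∑_R lv`.
By SSC.Et every `i ∈ s2 \ R` has `lv i ≥ m'`.
(a) `R = s2`: at most three members of `s2` have the same level (different elements of a coset of `K`), so `∑_{s2} lv ≥ 3 a (a+1)/2`, and `≥ 3 a (a+1)/2 + a + 1` if `|s2| = 3 a + 1`.  `m' > q` is impossible, `|T| ≥ 3 (m'-1) + 4` (`m' < q`), `≥ 3 (m' - 1) + 2` (`m' = q`): `|T| ≥ 3 m' - 1 ≥ 9 a^2 + 9 a - 1 ≥ 9 a^2 + 6 a + 2`, resp.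
`≥ 9 a^2 + 12 a + 2 ≥ 9 a^2 + 9 a + 3`.
(b) `R ≠ s2`, `i ∈ s2 \ R`, `k = lv i ≥ m'`, `2 k ≤ q`, `Y = FS (s1 ∪ R) f'`, `T' ⊇ Y ∪ (Y + f' i)`.  If `k + m' + 1 ≤ q`: SSC.Ct (4): `|T| ≥ 6 (m'-1) + 2 + 2 + 2 = 6 m'`.  Otherwise `k = m' = q / 2`: the levels `1, ..., m'-1, k+1, ..., q - 1` are full, level 0 contains `0, f' h`, level `m'` contains `w, w - f' h` (Cn (1)): `|T| ≥ 6 m' - 2`.
`|s2| = 3 a`, `a ≥ 2`: `6 m' - 2 ≥ 9 a^2 + 9 a - 2 ≥ 9 a^2 + 6 a + 2`.  `|s2| = 3 a + 1`, `R ≠ ∅`: `6 m' - 2 ≥ 6 (m+1) - 2 = 9 a^2 + 9 a + 4`.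
`|s2| = 3 a + 1`, `R = ∅`: all members of `s2` have level `≥ m = m'`; as `3 a + 1 > 3` there are `i, i' ∈ s2` with levels `k < k'`.  The levels `1, ..., m-1` (`FS s1`), `k+1, ..., k+m-1` (`+ f' i`), `k' + m - 1` (`+ f' i'`) are full and different, the levels `0`, `m`, `k' + m` contain two elements each and are different from these
(`m ≤ k < k'`, `k' + m ≤ 2 k' - 1 ≤ q - 1`): by Cn (1) `|T| ≥ 3 (2 m - 1) + 6 = 6 m + 3 = 9 a^2 + 9 a + 3`. -/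
def St_KgE : Prop :=
  ∀ (G ι : Type) [AddCommGroup G] [Finite G] (s1 s2 : Finset ι) (f : ι → G) (K : AddSubgroup G) (a : ℕ), Disjoint s1 s2 → AE s1 f → AE s2 f →
    Aper (FS (s1 ∪ s2) f) → KAP s1 f K a → s1.card = 3 * a + 1 → (∀ i ∈ s2, f i ∉ K) →
    (s2.card = 3 * a + 1 ∨ (s2.card = 3 * a ∧ 2 ≤ a)) → cf 2 (s1.card + s2.card) ≤ (FS (s1 ∪ s2) f).card

/-! ## Full slices and the structure lemma -/

/-- **KSE** (1.5 h; adapt Pool/Agent/SSC/KS.lean).  Sums of `k` different elements in a cyclic group.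
Proof.  As SSC.KS up to the last step: `Δ = L` is a subgroup with `n` elements, `A = a0 + L`, `|ks k A| = |ks k L| = n - 1`, `1 ≤ k < n`.  For `x ∈ L`: `U ↦ U + x` maps the `k`-subsets of `L` to themselves, so `W = ks k L` satisfies `W + k x = W`, and the missing element `m` satisfies `m + k x = m`, `k x = 0` for all `x ∈ L`.
But `L` is cyclic of order `n > k`: contradiction. -/
def St_KSE : Prop :=
  ∀ (G : Type) [AddCommGroup G] [Finite G], IsAddCyclic G → ∀ (A : Finset G) (k : ℕ), 1 ≤ k → k + 1 ≤ A.card → A.card ≤ (ks k A).card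

/-- **FlE** (0.7 h, from KSE, SDG.Sm, SDG.Ba1; adapt Pool/Agent/SSC/Fl.lean).  Full slices.  See SSC.Fl. -/
def St_FlE : Prop :=
  ∀ (G ι : Type) [AddCommGroup G] [Finite G] (u Z : Finset ι) (f : ι → G) (K : AddSubgroup G) (c : G), IsAddCyclic G → AS u f →
    Aper (FS u f) → Z ⊆ u → (∀ i ∈ Z, f i - c ∈ K) → c ∉ K → Nat.card K ≤ Z.card + (ins u f K).card →
      ∀ (x : G) (k : ℕ), 1 ≤ k → k + 1 ≤ Z.card → x - k • c ∈ K → x ∈ FS (Z ∪ ins u f K) f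

/-- **WiE** (0.5 h, from FlE; adapt Pool/Agent/SSC/Wi.lean).  The window.  See SSC.Wi. -/
def St_WiE : Prop :=
  ∀ (G ι : Type) [AddCommGroup G] [Finite G] (s u Z : Finset ι) (f : ι → G) (K : AddSubgroup G) (c : G) (i0 i1 : ι), IsAddCyclic G →
    u ⊆ s → AS u f → Aper (FS u f) → Z ⊆ u → (∀ i ∈ Z, f i - c ∈ K) → c ∉ K → Nat.card K ≤ Z.card + (ins u f K).card →
    i0 ∈ Z → i1 ∈ Z → i0 ≠ i1 → ∀ x ∈ st (FS ((s.erase i0).erase i1) f) K, x + c ∈ FS s f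

/-- **NfE** (1 h, from SyE; adapt Pool/Agent/SSC/Nf.lean).  Nearly filling, counts; `2 c ∉ K`, `c = f i1`, is now a hypothesis.
Proof.  As SSC.Nf: `K, c + K, - c + K` are three different cosets; `D ∩ (± c + K)` has `|Z|` elements, `D ∩ K` has `1 + 2 b`, `b = |ins u f K|` (`AE`).  `2 (|K| - |Z|) + (|K| - 1 - 2 b) ≤ |K| - 1`, so `|K| ≤ |Z| + b`; `2 b + 1 ≤ |K|` and `|K| ≥ 2` give `|Z| ≥ 2`. -/
def St_NfE : Prop :=
  ∀ (G ι : Type) [AddCommGroup G] [Finite G] (u : Finset ι) (f : ι → G) (K : AddSubgroup G) (i1 : ι), AE u f → K ≠ ⊥ →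
    i1 ∈ u → f i1 + f i1 ∉ K → (st (sym u f) K).card + 1 ≤ (sym u f).card + Nat.card K →
      let f' : ι → G := fun i => if f i + f i1 ∈ K then - f i else f i
      let Z := u.filter fun i => f' i - f i1 ∈ K
      i1 ∈ Z ∧ 2 ≤ Z.card ∧ Nat.card K ≤ Z.card + (ins u f K).card ∧ ins u f' K = ins u f K ∧ f' i1 = f i1

/-- **SRE** (1.5 h, from SDG.Nm1, SDG.Ba1, SDG.Kn, SDG.Qu, MDR.Sg, MDR.SC, MDR.N5, SSC.Nu, WiE, NfE; adapt Pool/Agent/SSC/SR.lean).  THE STRUCTURE LEMMA.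
Proof.  `AE u f` by SDG.Ba1 (5).  As SSC.SR with `i1 ∈ u`, `c = f i1`, `2 c ∉ K`: `M` = periods of `P = st (FS (s \ {i0, i1}) f') K`, `K ≤ M ≠ ⊤`, `c ∉ M`, `μ = |M|`, `a = |ins s f' M|`, `w = t - a ≥ 2`; `μ cf (2μ) (w-2) + cf 2 a ≤ |T|`, `cf 2 a ≤ μ - 1`.  `μ ≥ 5`: MDR.N5 gives `cf 2 t ≤ |T|`: contradiction.  So `|K| ≤ μ ≤ 4`.
`|K| = 3`: `3 ∣ μ`, `μ = 3`, `K = M`; `cf 2 a ≤ 2` gives `a ≤ 1`; `a = 0` is excluded by MDR.N5 (`a + 3 ≤ 3`), so `a = 1`; `w ≤ 6` is excluded by SSC.Nu (5): `t ≥ 8`. -/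
def St_SRE : Prop :=
  ∀ (G ι : Type) [AddCommGroup G] [Finite G] (t : ℕ) (s u : Finset ι) (f : ι → G) (K : AddSubgroup G), CtxE t s f → u ⊆ s → AS u f →
    (∃ i ∈ u, f i + f i ∉ K) → K ≠ ⊥ → (st (sym u f) K).card + 1 ≤ (sym u f).card + Nat.card K →
      Nat.card K ≤ 4 ∧ (Nat.card K = 3 → (ins s f K).card = 1 ∧ 8 ≤ t)

/-! ## Subgroups with many members, the halves -/

/-- **NuE** (0.7 h, from SDG.Nm1).  Numbers (`cf 2 t = 1 + (t+1)^2/4`): `t ≥ 9`; write `t = 2 J` or `2 J - 1`. -/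
def St_NuE : Prop :=
  ∀ t : ℕ, 9 ≤ t → cf 2 t ≤ 2 * cf 2 (t - 1) ∧ cf 2 t + 1 ≤ 2 * cf 2 (t - 2) + cf 2 1 ∧ cf 2 t + 1 ≤ 2 * cf 2 (t - 3) + cf 2 2

/-- **IxE** (1.8 h, from SDG.Nm1, SDG.Ba1, SDG.Kn, SDG.Sm, SSC.Nu, NuE; adapt Pool/Agent/SSC/Ix.lean).  `M` of prime index `p`.
Proof.  `p ≥ 3`: as SSC.Ix.  `p = 2`: `e = |outs s f M| ≥ 1`, `τ = t - e`; suppose `e ≤ 3`.  `R` = one of these members: `|FS (ins s f M ∪ R) f| = 2 |FS (ins s f M) f| ≥ 2 cf 2 τ` (`PE τ`), and `|T| + 1 ≥ 2 cf 2 τ + cf 2 (e - 1)` by SDG.Kn (1) (`e = 1`: `|T| ≥ 2 cf 2 τ`); NuE: contradiction to `|T| < cf 2 t`. -/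
def St_IxE : Prop :=
  ∀ (G ι : Type) [AddCommGroup G] [Finite G] (t : ℕ) (s : Finset ι) (f : ι → G) (M : AddSubgroup G), CtxE t s f → 9 ≤ t → M.index.Prime →
    (5 ≤ M.index → (ins s f M).card + 2 ≤ t / 2) ∧ (M.index = 3 → (ins s f M).card + 1 ≤ (t + 1) / 2) ∧ (M.index = 2 → 4 ≤ (outs s f M).card)

/-- **HvE** (3 h, from MDR.Sp2; see Pool/Agent/SSC/Hv.lean).  The halves, two subgroups `M`, `M'` at the same time.
Proof.  `J = (t+1)/2`, `t = |s| ≥ 9`, parts `s1` (`J` members, contains `i0`), `s2` (`t/2` members).  A splitting into antisymmetric parts with these sizes and `i0 ∈ s1` exists as in SSC.Hv.  `o_j = |outs s_j f M|`, `o'_j = |outs s_j f M'|`; choose a splitting that maximises `∑_j min (o_j, 2) + ∑_j min (o'_j, 2)`.  Claim: the value is 8.  A partner of `x ∈ s1` is a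
`y ∈ s2` with `f y = ± f x` (at most one by `Cap 2` and antisymmetry of the parts; partners are in the same subgroups); a member is free if it has no partner in the other part.  EXCHANGE `x ∈ s1`, `x ≠ i0`, and `y ∈ s2`, both free: the new parts are antisymmetric.  We always find an exchange that increases the value.
`|ins s f M| ≤ J - 1`, `o'_1 + o'_2 ≥ 4`.
Case A, `o_1 ≤ 1`.  Then `ins s1 f M` has `J - 1` members and these are all members in `M`, `o_1 = 1`, `s2` is outside `M`.  All `x ∈ ins s1 f M` are free, at least 3 of them are `≠ i0`; at least `|s2| - 1 ≥ 3` of the `y ∈ s2` are free.  Any such exchange increases `o_1` to 2 and keeps `o_2 ≥ 3`.  For `M'`: take `x, y` of the same kind with respect to `M'` if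
possible.  Otherwise all these `x` are in `M'` and all free `y` outside (`o'_2 ≥ 3`: after the exchange `≥ 2`, and `o'_1` increases), or vice versa (`o'_1 ≥ 3`).
Case B, `o_1 ≥ 2`, `o_2 ≤ 1`.  `|ins s2 f M| ≥ t/2 - 1`, so `|ins s1 f M| ≤ J - t/2 ≤ 1`.  Exchange a free `x ∈ ins s2 f M` (`≥ |ins s2 f M| - |ins s1 f M| ≥ 2` of them) and a free `y ∈ outs s1 f M`, `y ≠ i0` (`≥ |outs s1 f M| - 2 ≥ J - 3 ≥ 2`): `o_2` increases, `o_1 ≥ J - 2 ≥ 3`.  For `M'`: same kind if possible.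
 (i) all free `x` in `M'`, all free `y ≠ i0` outside: bad only if `o'_1 = 2` (it drops to 1) ; then exactly two free `y ≠ i0`, no other member of `s1` is outside `M'`; `o'_2 ≥ 2` must come from `s2`, whose free `x` are in `M'`: so a nonfree `x3 ∈ ins s2 f M` is outside `M'` (at most one member of `s2` is outside `M`), its partner is in `ins s1 f M` and outside `M'`:
 a third member of `s1` outside `M'`, contradiction.
 (ii) all free `x` outside `M'`, all free `y ≠ i0` in `M'`: bad only if `o'_2 = 2`, so exactly two free `x`; then `|ins s2 f M| = 3`, there is a nonfree `x3` (partner `z' ∈ ins s1 f M`) and one `z ∈ s2` outside `M`, both in `M'`; so `z'` and the partner of `z` are in `M'`, and the members of `s1` outside `M'` are at most `i0`: `o'_1 ≤ 1`, `o'_1 + o'_2 ≤ 3`: contradiction.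
Case C, `o_1, o_2 ≥ 2`, `o'_1 ≤ 1`.  `o'_2 ≥ 3`.  Exchange a free `x ∈ s1 ∩ M'`, `x ≠ i0` (`|s1 ∩ M'| ≥ J - 1`, at most `|s2 ∩ M'| ≤ t/2 - 3` have partners: at least `J - t/2 + 1` such `x`) and a free `y ∈ s2 \ M'` (`≥ o'_2 - o'_1 ≥ 2`): `o'_1` increases, `o'_2 ≥ 2` remains.  For `M`: same kind if possible.
 (i) all `x ∉ M`, all `y ∈ M`: bad only if `o_1 = 2`; then `|ins s1 f M| = J - 2`, `|ins s2 f M| ≤ 1`, but there are two free `y ∈ M`: contradiction.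
 (ii) all `x ∈ M`, all `y ∉ M`: bad only if `o_2 = 2`; then `|ins s2 f M| = t/2 - 2`, `|ins s1 f M| ≤ J - t/2 + 1`; the free `y` are at most two, so `o'_2 = 3`, `o'_1 = 1`, the member `z ∈ s1 \ M'` has a partner in `s2 \ M'` which is not one of the two free `y`, these are all of `outs s2 f M`, so `z ∈ M`; with the `J - t/2 + 1` free `x ∈ M`, `x ≠ i0`: at least `J - t/2 + 2` members
 of `s1` in `M`: contradiction.
Case D, `o_1, o_2, o'_1 ≥ 2`, `o'_2 ≤ 1`.  `o'_1 ≥ 3`.  Exchange a free `x ∈ s2 ∩ M'` (`|s2 ∩ M'| = t/2 - o'_2`, at most `|s1 ∩ M'| = J - o'_1` have partners: at least `o'_1 - o'_2 - (J - t/2) ≥ 1` of them) and a free `y ∈ s1 \ M'`, `y ≠ i0` (`≥ o'_1 - o'_2 - 1 ≥ 1`): `o'_2` increases, `o'_1 ≥ 2` remains.  For `M`: same kind if possible.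
 (i) all `x ∈ M`, all `y ∉ M`: bad only if `o_1 = 2`; then `|ins s1 f M| = J - 2`, `|ins s2 f M| ≤ 1`: one free `x` only, so `o'_1 - o'_2 ≤ 1 + (J - t/2)`; with `o'_1 ≥ 3`, `o'_2 ≤ 1`: `t` odd, `o'_1 = 3`, `o'_2 = 1`, and all `J - 3 = t/2 - 2` members of `s1 ∩ M'` have partners in `s2`, these are `∉ M` (the only member of `s2` in `M` is the free `x`); so
 `s1 ∩ M'` has `t/2 - 2 ≥ 2` members `∉ M`, and the free `y ∉ M` is a third one: `o_1 ≥ 3`, contradiction.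
 (ii) all `x ∉ M`, all `y ∈ M`: bad only if `o_2 = 2`; then `|ins s2 f M| = t/2 - 2`, `|ins s1 f M| ≤ J - t/2 + 1`.  `t` even: `|ins s1 f M| ≤ 1`: one free `y ≠ i0` only (it is in `M`): `o'_1 = 3`, `o'_2 = 1`, `s1 \ M' = {i0, p, y}`, `p` the partner of `z ∈ s2 \ M'`, `p ∉ M`, so `z ∉ M`; there are `≥ 2` free `x ∉ M`: `o_2 ≥ 3`, contradiction.
 `t` odd: `|ins s1 f M| ≤ 2`, `o'_1 - o'_2 - 1 ≤ 2`.  `o'_2 = 0`: `o'_1 ≥ 4`, three free `y ≠ i0` in `M`: contradiction.  `o'_2 = 1`, `z ∈ s2 \ M'`; `o'_1 ≤ 4`.  `o'_1 = 4`: two free `y ≠ i0`, these are all members of `s1` in `M`, and `z` has a partner, which is `∉ M`, so `z ∉ M`; two free `x ∉ M`: `o_2 ≥ 3`, contradiction.  `o'_1 = 3`: if `z ∉ M`: one free `x` only and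
 `z, x` are all members of `s2` outside `M`, the other `t/2 - 2` members of `s2 ∩ M'` are in `M` and have partners in `s1 ∩ M ∩ M'`; with the free `y ∈ M`: `|ins s1 f M| ≥ 3`, contradiction.  If `z ∈ M`: all members `≠ i0` of `s1 \ M'` are in `M` (the free ones, and the partner of `z`): so `i0 ∈ s1 \ M'` and the two others are all members of `s1` in `M`; the members of `s2 ∩ M'`
 are `∉ M` (the free ones, and the nonfree ones since their partners are in `s1 ∩ M'`): `o_2 ≥ t/2 - 1 ≥ 3`, contradiction. -/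
def St_HvE : Prop :=
  ∀ (G ι : Type) [AddCommGroup G] (s : Finset ι) (f : ι → G) (M M' : AddSubgroup G) (i0 : ι), (∀ i ∈ s, f i ≠ 0) → Cap 2 s f → 9 ≤ s.card →
    (ins s f M).card + 1 ≤ (s.card + 1) / 2 → 4 ≤ (outs s f M').card → i0 ∈ s →
      ∃ s1 s2 : Finset ι, Disjoint s1 s2 ∧ s1 ∪ s2 = s ∧ AS s1 f ∧ AS s2 f ∧ s1.card = (s.card + 1) / 2 ∧ s2.card = s.card / 2 ∧ i0 ∈ s1 ∧
        2 ≤ (outs s1 f M).card ∧ 2 ≤ (outs s2 f M).card ∧ 2 ≤ (outs s1 f M').card ∧ 2 ≤ (outs s2 f M').card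

/-- **BnE** (0.5 h, from SDG.Nm1, SDG.Ba1, SDG.Kn, SDG.Sm; adapt Pool/Agent/SSC/Bn.lean).  See SSC.Bn. -/
def St_BnE : Prop :=
  ∀ (G ι : Type) [AddCommGroup G] [Finite G] (t : ℕ) (s : Finset ι) (f : ι → G), CtxE t s f → 1 ≤ t → cf 2 (t - 1) + 2 ≤ Nat.card G

/-- **HoE** (1.2 h, from SDG.Ba1, SDG.Sm, Cy, IxE, HvE, BnE; adapt Pool/Agent/SSC/Ho.lean).  The halves have two members outside every proper subgroup.
Proof.  `i0` = the member of `s` in the subgroup `K` of order 3 (at most one: the sums of the members in `K` are aperiodic, so at most two sums; `K` is unique, Cy), if there is one; otherwise any member.  `M` = the subgroup of index 3 if it exists (unique; IxE), otherwise `⊥` (`ins s f ⊥ = ∅`).  `M'` = the subgroup of index 2 if it exists (unique; IxE),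
otherwise `⊥` (`outs s f ⊥ = s`).  HvE.  A subgroup `≠ ⊤` is contained in one of prime index: index 3, 2: HvE; index `≥ 5`: `|outs s_j f M''| ≥ |s_j| - |ins s f M''| ≥ t/2 - (t/2 - 2) = 2`. -/
def St_HoE : Prop :=
  ∀ (G ι : Type) [AddCommGroup G] [Finite G] (t : ℕ) (s : Finset ι) (f : ι → G), CtxE t s f → 9 ≤ t →
    ∃ s1 s2 : Finset ι, Disjoint s1 s2 ∧ s1 ∪ s2 = s ∧ AS s1 f ∧ AS s2 f ∧ s1.card = (t + 1) / 2 ∧ s2.card = t / 2 ∧
      (∀ M : AddSubgroup G, M ≠ ⊤ → 2 ≤ (outs s1 f M).card ∧ 2 ≤ (outs s2 f M).card) ∧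
      (∀ K : AddSubgroup G, Nat.card K = 3 → ins s2 f K = ∅)

/-! ## The engine -/

/-- **DrE** (1 h, from SDG.Nm1, SDG.Ba1, SDG.Sm, SSC.Nu, Cy, B3E; adapt Pool/Agent/SSC/Dr.lean).  Exactly two members outside `M` is possible only for index 2.
Proof.  Let `outs u f M = {x, y}`.  If the classes `0, x̄, ȳ, x̄ + ȳ` contain three different ones: as SSC.Dr (`PE (l - 2)` for `l ≥ 7`).  Otherwise `x̄ = ȳ`, `2 x̄ = 0`, and `G / M` is generated by `x̄` (`gen u f = ⊤`): index 2 (or `M = ⊤`, but then `outs u f M = ∅`). -/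
def St_DrE : Prop :=
  ∀ (G ι : Type) [AddCommGroup G] [Finite G] (u : Finset ι) (f : ι → G) (M : AddSubgroup G), (∀ n < u.card, PE n) → IsAddCyclic G → AE u f →
    Aper (FS u f) → gen u f = ⊤ → 5 ≤ u.card → 2 * (FS u f).card ≤ 2 + u.card * (u.card + 1) → M.index ≠ 2 → (outs u f M).card ≠ 2

/-- **Tf** (1.5 h; adapt Pool/Agent/SDG/Tr.lean).  Transfer to the generated subgroup `L = gen s f`.
Proof.  `f'` as in SDG.Tr.  For a subgroup `K'` of `L` let `K = K'.map L.subtype`: `|K| = |K'|`, `f' i ∈ K'` iff `f i ∈ K` for `i ∈ s`, `sym v f` is the image of `sym v f'` and `st (sym v f) K` is the image of `st (sym v f') K'` (`K ≤ L`), for `v ⊆ s`.  This gives the transfer of `AE`, `Reg` and of the last item (`K < L` if `K' ≠ ⊤`). -/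
def St_Tf : Prop :=
  ∀ (G ι : Type) [AddCommGroup G] [Finite G] (s : Finset ι) (f : ι → G),
    ∃ f' : ι → (gen s f), (∀ i ∈ s, (f' i : G) = f i) ∧ gen s f' = ⊤ ∧ (FS s f').card = (FS s f).card ∧
      (Aper (FS s f) → Aper (FS s f')) ∧ (AE s f → AE s f') ∧ (Reg s f → Reg s f') ∧
      ∀ c : ℕ, (∀ M : AddSubgroup G, M < gen s f → c ≤ (outs s f M).card) →
        ∀ M' : AddSubgroup (gen s f), M' ≠ ⊤ → c ≤ (outs s f' M').card

/-- **Dp** (1.3 h, from SDG.Ba1, Cy, KeE, Tf).  A family with a drop has many sums.  `u' = u.erase i`, `l = |u'|`.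
Proof.  `L = gen u' f ≠ ⊤`: `outs u f L = {i}` (`gen u f = ⊤`), so `L.index = 2` by the hypothesis on `outs`; `f i ∉ L`, `|FS u f| = 2 |FS u' f|` (SDG.Ba1 (4)).  Tf for `u'`: `f'` in `L`.  For `M < L`: `M.index ≥ 4`, `|outs u f M| ≥ 3`, so `|outs u' f M| ≥ 2`: `Sep`.  `2 |FS u' f| = |FS u f| ≤ N / 2 = |L|`.  `Reg u' f` (subfamily).  `C1 l` in the group `L`:
`2 |FS u' f| ≥ 2 + l (l+1)`, or `Exc f' u'` and KeE in `L` (second alternative): `2 |FS u' f| ≥ l (l+1)`.  So `2 |FS u f| = 4 |FS u' f| ≥ 2 l (l+1) ≥ 4 + (l+1)(l+2)` (`l ≥ 4`). -/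
def St_Dp : Prop :=
  ∀ l : ℕ, 4 ≤ l → C1 l → ∀ (G ι : Type) [AddCommGroup G] [Finite G] (u : Finset ι) (f : ι → G) (i : ι), IsAddCyclic G → AE u f →
    Aper (FS u f) → gen u f = ⊤ → Reg u f → (∀ M : AddSubgroup G, M ≠ ⊤ → M.index ≠ 2 → 3 ≤ (outs u f M).card) →
    2 * (FS u f).card ≤ Nat.card G → u.card = l + 1 → i ∈ u → gen (u.erase i) f ≠ ⊤ → 4 + u.card * (u.card + 1) ≤ 2 * (FS u f).card

/-- **GrE** (1.5 h, from Cy, Mx, Gn, SyE, Kh2, Kh3, Kh4).  The growth alternatives for a family.  `D = sym u f`, `|D| = 2 l + 1`, `D` generates `G`.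
Proof.  `¬ NearP D`: if `APK D ⊥` then `2 a + 1 = |st D ⊥| = 2 l + 1` and `Prog u f` (`f i = ± k d`, `1 ≤ k ≤ l`, as `f i ≠ 0`); otherwise the fifth alternative.  `NearP D`: `K` of Mx.  If all `f i + f i ∈ K` (`i ∈ u`) then `x + x ∈ K` for all `x` (`gen u f = ⊤`), `K.index = 2` (Cy (5)), `D ⊄ K`, so `st D K = G`, `N + 1 ≤ 2 l + 1 + N / 2`,
`N ≤ 4 l`: contradiction.  So `|K| ≤ 4` (Reg with `v = u`), `|K| ≥ 2`.  Gn: the last alternative (`gen u f = closure D`), or `APK D K` and Kh2, Kh3, Kh4. -/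
def St_GrE : Prop :=
  ∀ (G ι : Type) [AddCommGroup G] [Finite G] (u : Finset ι) (f : ι → G), IsAddCyclic G → AE u f → Aper (FS u f) → gen u f = ⊤ → 5 ≤ u.card →
    Reg u f → 4 * u.card + 1 ≤ Nat.card G → (u.card * (u.card - 1) + 3 ≤ Nat.card G ∨ 2 * (FS u f).card ≤ Nat.card G) →
      Prog u f ∨ Exc f u ∨ (∃ K, Gam u f K ∧ 2 + u.card * (u.card + 1) ≤ 2 * (FS u f).card) ∨ 4 + u.card * (u.card + 1) ≤ 2 * (FS u f).card ∨
      (¬ NearP (sym u f) ∧ ¬ APK (sym u f) ⊥) ∨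
      (∀ i, 2 ≤ i → Nat.card G ≤ (it (sym u f) i).card + 4 ∨ i * (2 * u.card + 2) ≤ (it (sym u f) i).card ∨
        (i = 2 ∧ 4 * u.card + 2 ≤ (it (sym u f) i).card))

/-- **C4** (1 h, from PgE, BoE).  `l = 4`.
Proof.  `C1 4`: BoE: `|FS| ≥ 12`; or `Prog`, `2 |FS| = 22` (PgE); or the values are `h, z, z + h, z - h` up to sign with `3 h = 0`: `K = {0, h, -h}`; the four classes `{x, -x}` of the members are different, so these are exactly the four classes and `z ∉ K`; one member is in `K`, the others are `≡ ± z` modulo `K`, `gen u f = ⊤`: `KAP u f K 1` with `d = z`, `lv = 1`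
(compare Pool/Agent/SSC/FE.lean).  `C2 4`: `2 |FS (v.erase e) f| ≤ 22` excludes the first alternative of BoE. -/
def St_C4 : Prop := C1 4 ∧ C2 4

/-- **C1s** (2 h, from SDG.Ba1, SDG.Sm, SyE, PgE, ExE, A1E, GwE, KxE, DrE, Dp, GrE).  First conclusion, induction step.
Proof.  `X = FS u f`, `x = |X|`.  Suppose `2 x < 2 + l (l+1)`, so `2 x ≤ l (l+1)` (parity), and `¬ Exc f u`.  DrE and Sep: `|outs u f M| ≥ 3` for `M ≠ ⊤`, `M.index ≠ 2`.  Let `i ∈ u`, `u' = u.erase i`.  `gen u' f = ⊤` (otherwise Dp, with `l - 1`, contradicts `2 x ≤ l (l+1)`).  `Sep u' f`, `Reg u' f`, `2 |FS u' f| ≤ 2 x ≤ N`.  `C1 (l-1)`: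
`Exc f u'`: KxE gives `Exc f u` or `4 + l (l+1) ≤ 2 x`: contradiction.  So `2 |FS u' f| ≥ 2 + l (l-1)`.  `|FS u' f| + lam X (f i) ≤ x` (SDG.Ba1 (3)).
`lam X (f i) ≥ l - 1` for some `i`: then `2 |FS u' f| ≤ l (l+1) - 2 (l-1) = 2 + l (l-1)`, `N ≥ 2 x ≥ 2 + l (l-1) + 2 (l-1) = l^2 + l ≥ (l-1)^2 + 2 (l-1)`; `C2 (l-1)` with `v = u`, `e = i`: `Prog u' f` (`Exc f u'` is excluded), ExE (`2 + l (l-1) ≤ N`): `2 x ≥ 2 + l (l+1)`: contradiction.
`lam X (f i) ≤ l - 2` for all `i`, so `lam X y ≤ l - 2` on `D = sym u f` (SyE).  `x > |FS u' f|` (aperiodic), so `N ≥ 2 x ≥ 4 + l (l-1) ≥ 4 l + 1`.  GrE (second alternative): `Prog u f`: `2 x = 2 + l (l+1)` (PgE), contradiction; `Exc`, third, fourth: contradiction; fifth: GwE: `N ≤ |i D| + 1` or `i (2l+2) ≤ |i D| + 2`; sixth: for `i ≥ 2`, and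
`|1 D| = 2 l + 1`.  With `2 x ≤ N` the hypotheses of A1E hold (`2 x ≥ 2 + l (l-1)`): contradiction. -/
def St_C1s : Prop := ∀ l : ℕ, 5 ≤ l → (∀ n < l, PE n) → C1 (l - 1) → C2 (l - 1) → C1 l

/-- **C2s** (2.2 h, from SDG.Ba1, SyE, PgE, ExE, A2N, A2E, GwE, Ge, KxE, GmE, DrE, Dp, GrE, Cy).  Second conclusion, induction step.
Proof.  `u = v.erase e`, `|u| = l`, `X = FS u f`, `x = |X|`.  Suppose `¬ Prog u f`, `¬ Exc f u`.  `C1 l`: `2 x ≥ 2 + l (l+1)`, so `2 x = 2 + l (l+1)`.  As in C1s: `|outs u f M| ≥ 3` for `M ≠ ⊤`, index `≠ 2`; `i ∈ u`, `u' = u.erase i`: `gen u' f = ⊤` (Dp), `Sep`, `Reg`; `C1 (l-1)` and KxE (second alternative): `2 |FS u' f| ≥ 2 + l (l-1)`.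
If `2 |FS u' f| ≤ 2 + l (l-1)`: `C2 (l-1)` with `v := u`, `e := i`: `Prog u' f` or `Exc f u'` (excluded by KxE), and ExE (second part) gives `Prog u f`: contradiction.  So `2 |FS u' f| ≥ 4 + l (l-1)` (parity), `lam X (f i) ≤ x - |FS u' f| ≤ l - 1`, and `lam X y ≤ l - 1` on `D1 = sym u f`.
`FS v f = X ∪ (X + f e)`: `|FS v f| = x + lam X (f e)`, so `2 lam X (f e) ≤ (l+1)(l+2) - l (l+1) = 2 (l+1)`: `lam X y ≤ l + 1` on `D2 = sym v f = D1 ∪ {f e, - f e}`.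
GrE for `u` (`N ≥ l^2 + 2 l ≥ 4 l + 1`, second alternative): `Prog`, `Exc`, `4 + l (l+1) ≤ 2 x`: contradictions.  `Gam u f K`: `l = 5`, GmE (`N ≥ 35`): `46 ≤ 2 |FS v f| ≤ 2 + 6 * 7 = 44`, contradiction.  Sixth alternative: A2N (`N ≥ l^2 + 2 l`): contradiction.  Fifth: GwE for `D1`; Ge for `D1, D2` (a nearly filling `K` of `D2` of index 2 would give
`N + 1 ≤ 2 l + 3 + N / 2`, `N ≤ 4 l + 4 < l^2 + 2 l`; for other index some `i ∈ u` has `f i + f i ∉ K` by Cy (5), and `Reg v f` gives `|K| ≤ 4`).  A2E: contradiction. -/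
def St_C2s : Prop := ∀ l : ℕ, 5 ≤ l → (∀ n < l, PE n) → C1 (l - 1) → C1 l → C2 (l - 1) → C2 l

/-- **CC** (0.3 h, from C4, C1s, C2s).  Induction on `l`. -/
def St_CC : Prop := ∀ l : ℕ, 4 ≤ l → (∀ n < l, PE n) → C1 l ∧ C2 l

/-! ## The end of the proof -/

/-- **EvE** (1.3 h, from SDG.Nm1, SDG.Kn, SDG.Ba1, BnE, SRE, CC, HoE, KeE, KgE; adapt Pool/Agent/SSC/Ev.lean).  `t = 2 l ≥ 10`: contradiction.
Proof.  HoE.  The parts are `AE` (SDG.Ba1 (5)), generate `G`, satisfy `Sep`, and `Reg` by SRE.  `X_j = FS s_j f`, `|X_1| + |X_2| ≤ |T| + 1 ≤ 1 + l (l+1)` and `≤ N` (SDG.Kn).  The smaller one has `2 |X_j| ≤ l (l+1)`, `2 |X_j| ≤ N`; `C1 l`: `Exc f s_j`; `s_2` has no member in a subgroup of order 3, so `KAP s1 f K a`.  BnE: `N ≥ l^2 + 3 ≥ l (l-1) + 3`.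
`l ≠ 3 a + 1`: KeE: contradiction.  `l = 3 a + 1`: KgE (`|s2| = 3 a + 1`): `cf 2 t ≤ |T|`: contradiction. -/
def St_EvE : Prop :=
  ∀ (G ι : Type) [AddCommGroup G] [Finite G] (l : ℕ) (s : Finset ι) (f : ι → G), 5 ≤ l → ¬ CtxE (2 * l) s f

/-- **OdE** (2.2 h, from SDG.Nm1, SDG.Kn, SDG.Ba1, SyE, PgE, ExE, A1E, GwE, DrE, BnE, SRE, KxE, KeE, KgE, GrE, CC, HoE; adapt Pool/Agent/SSC/Od.lean; `lam_compl`).  `t = 2 l - 1 ≥ 9`: contradiction.
Proof.  HoE: `|s1| = l ≥ 5`, `|s2| = l - 1 ≥ 4`; `AE`, `gen = ⊤`, `Sep`, `Reg` (SRE) for the parts.  `X = FS s1 f`, `X_2 = FS s2 f`, `|X| + |X_2| ≤ cf 2 (2l-1) = 1 + l^2`, `|X| + |X_2| ≤ N`.  BnE: `N ≥ l (l-1) + 3`.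
(i) `2 |X_2| ≥ 2 + l (l-1)`: if `2 |X_2| ≤ N`: `C1 (l-1)`, `s2` is not exceptional (HoE); otherwise `2 |X_2| > N`.  (ii) `2 |X| ≤ l (l+1)`.  (iii) `s1` is not exceptional: `l ≠ 3 a + 1`: KeE contradicts (ii); `l = 3 a + 1` (`a ≥ 2` as `l ≥ 5`): KgE with `|s2| = 3 a`.
(iv) `i ∈ s1`, `u' = s1.erase i`: `gen u' f = ⊤` (index 2: `|outs s1 f M| ≥ 2`; other index: `≥ 3` by DrE), `Sep u' f`, `Reg u' f`.  `u'` is not exceptional: KxE for `s1` (first alternative) contradicts (iii) or (ii).  `2 |FS u' f| ≥ 2 + l (l-1)`: `C1 (l-1)` if `2 |FS u' f| ≤ N`, otherwise clear.  If `lam X (f i) ≥ l - 1`: `2 |X| ≥ 2 + l (l-1) + 2 (l-1) = l (l+1)`, so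
`2 |X| = l (l+1)`, `2 |FS u' f| = 2 + l (l-1) ≤ N`, `2 N ≥ 2 |X| + 2 |X_2| ≥ 2 l^2 + 2`, `N ≥ (l-1)^2 + 2 (l-1)`; `C2 (l-1)` with `v = s1`, `e = i`: `Prog u' f`; ExE: `2 |X| ≥ 2 + l (l+1)`: contradiction.  So `lam X y ≤ l - 2` on `D = sym s1 f` (SyE).
(v) GrE for `s1` (`N ≥ l (l-1) + 3 ≥ 4 l + 1`): `Prog` (PgE), `Exc`, third, fourth alternatives are impossible by (ii), (iii); fifth (GwE) and sixth: `N ≤ |i D| + 4` or `i (2l+2) ≤ |i D| + 2` for all `i ≥ 1`.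
(vi) A1E for `X` if `2 |X| ≤ N`, otherwise for the complement (`N - |X| ≥ |X_2|`, `lam_compl`): contradiction. -/
def St_OdE : Prop :=
  ∀ (G ι : Type) [AddCommGroup G] [Finite G] (l : ℕ) (s : Finset ι) (f : ι → G), 5 ≤ l → ¬ CtxE (2 * l - 1) s f

/-- **S8E** (2.5 h, from SDG.Nm1, SDG.Kn, SDG.Ba1, MDR.Sp2, B3E, PgE, BoE, SyE, SRE, BnE, KgE, SSC.Ct; adapt Pool/Agent/SSC/S8.lean).  `t ≤ 8`: contradiction.
Proof.  MDR.Sp2: `s = s1 ∪ s2`, both `AE` (SDG.Ba1 (5)), `|T| + 1 ≥ |FS s1 f| + |FS s2 f|`.  Both parts with at most three members: B3E.  BoE for the parts with four members: if all have at least 11 sums, `|T| ≥ 17 = cf 2 7` resp. `21 = cf 2 8`.  So some part `v` has the values `h, z, z+h, z-h` up to sign, `3 h = 0`; `K = {0, h, -h}`, `z ∉ K` (four different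
classes), `2 z ∉ K` (otherwise the coset `z + K = - z + K` contains an involution or `0`, and its elements are `z, z + h, z - h`, members up to sign: contradiction to `AE`).  `sym v f = K ∪ (z + K) ∪ (- z + K)`, `|st (sym v f) K| = 9 = |sym v f|`; SRE: `t = 8`, `|ins s f K| = 1`; the other part `v'` has four members, none in `K`.  `L = gen v f`.
`L = ⊤`: `KAP v f K 1` and KgE with `a = 1`: `cf 2 8 ≤ |T|`: contradiction.  `L ≠ ⊤`: one member of `s` outside `L`: `|T| = 2 |FS (s.erase i) f| ≥ 2 cf 2 7 = 34`.  Two members `x, y` outside `L`: if the classes `0, x̄, ȳ, x̄ + ȳ` in `G / L` contain three different ones: `|T| ≥ 3 |FS v f| ≥ 3 cf 2 4 = 21` (`PE 4`).  Otherwise (for all pairs) all members of `s`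
outside `L` are in one class `x̄` with `2 x̄ = 0`, so `L` has index 2 (`gen s f = ⊤`); BnE: `N ≥ cf 2 7 + 2 = 19`, `|L| ≥ 10`, `|L| = 3 q'`, so `q' ≥ 4` (`q'` = order of `z` modulo `K`).  `A = FS v f`: modulo signs levels `1, 2` are full (`z + K`; sums of two of `z, z+h, z-h`: `2 z + K`), level 0: `0, h`, level 3: `3 z, 3 z + h` (SSC.Ct (1) with `m = 3`, in the group `L`, or directly):
`|A| ≥ 10`.  With two members `i, j` outside: `T ⊇ (A ∪ (A + f i + f j)) ∪ ((A + f i) ∪ (A + f j))`; `f i + f j` and `f i - f j` are not both `0` (no involution), and `|A ∪ (A + c)| ≥ |A| + 1` for `c ≠ 0` (aperiodic): `|T| ≥ 21`: contradiction. -/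
def St_S8E : Prop :=
  ∀ (G ι : Type) [AddCommGroup G] [Finite G] (t : ℕ) (s : Finset ι) (f : ι → G), t ≤ 8 → ¬ CtxE t s f

/-- **PFE** (0.7 h, from SDG.Tr, SDG.main, Cy, S8E, EvE, OdE; adapt Pool/Agent/SSC/PF.lean).  Strong induction on `t`. -/
def St_PFE : Prop := ∀ t : ℕ, PE t

/-- **FnE** (1.2 h, from PFE, SDG.Nm1, SDG.Ba1, SDG.Se, SDG.Up; adapt Pool/Agent/SSC/Fn.lean).  The final statement, for ALL finite cyclic groups. -/
def St_FnE : Prop :=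
  ∀ (G : Type) [AddCommGroup G] [Finite G], IsAddCyclic G → 2 ≤ Nat.card G →
    (∀ (A : Finset G) (H : AddSubgroup G), (0 : G) ∉ A → (∀ g : G, g ∈ H ↔ ∀ x ∈ FS A id, x + g ∈ FS A id) → H ≠ ⊤ →
      Nat.card H * cf (2 * Nat.card H) (A.filter fun a => a ∉ H).card ≤ (FS A id).card) ∧
    (∀ m : ℕ, 1 ≤ m → m < Nat.card G → (sizes G m).Nonempty ∧ rho G m = bd (Nat.card G) m)

end Pool.Agent.SSE
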