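import Mathlib
import Pool.Agent.SSE.St

set_option autoImplicit false

noncomputable section

open Finset Pool.Agent.Helper64.Rho Pool.Agent.SDG Pool.Agent.MDR Pool.Agent.SSC
open scoped Classical Pointwise

namespace Pool.Agent.SSE

/-- lower bound for the sum of the levels -/
private lemma A1E_sum (K a : ℕ) (g : ℕ → ℕ) (h0 : 1 ≤ g 0) (h : ∀ i, 1 ≤ i → i ≤ a → i * K ≤ g i + 2) :
    K * a * (a + 1) + 2 ≤ 2 * ∑ i ∈ range (a + 1), g i + 4 * a := by
  induction a with
  | zero => simp; omega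
  | succ a ih =>
    rw [sum_range_succ]
    have h1 := ih (fun i hi hi2 => h i hi (by omega))
    have h2 := h (a + 1) (by omega) le_rfl
    nlinarith

private lemma A1E_claim (j a b : ℕ) (hb : b + 2 ≤ 2 * j + 6)
    (h : (j + 2) * (j + 1) ≤ (2 * j + 6) * a + b) : j ≤ 2 * a + 1 := by
  by_contra hcon
  rw [not_le] at hcon
  obtain ⟨e, rfl⟩ : ∃ e, j = 2 * a + 2 + e := ⟨j - (2 * a + 2), by omega⟩
  nlinarith

private lemma A1E_fin (j x a b c : ℤ) (hx : x = (a + 1) * j + c) (hab : 2 * x = (2 * j + 6) * a + b + 2)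
    (h : j * ((2 * j + 6) * a * (a + 1) + 2) + 2 * (c * (2 * x - 4)) ≤ 2 * x ^ 2 + 4 * a * j) :
    (2 * j + 6) * a * (6 * a - 2 * j - 4) + b * (12 * a - 4 * j - 4) + b ^ 2 + 12 * j - 12 ≤ 0 := by
  have hc : c = x - (a + 1) * j := by linarith
  have hb : b = 2 * x - 2 - (2 * j + 6) * a := by linarith
  subst hc
  subst hb
  nlinarith

private lemma A1E_pos (j a b : ℕ) (hj : 3 ≤ j) (h1 : j ≤ 2 * a + 1)
    (h2 : (j + 2) * (j + 1) ≤ (2 * j + 6) * a + b) :
    (0 : ℤ) < (2 * j + 6) * a * (6 * a - 2 * j - 4) + b * (12 * a - 4 * j - 4) + b ^ 2 + 12 * j - 12 := by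
  have hj' : (3 : ℤ) ≤ j := by exact_mod_cast hj
  by_cases hc : 2 * j + 4 ≤ 6 * a
  · have hc' : (2 * (j : ℤ) + 4) ≤ 6 * a := by exact_mod_cast hc
    have h3 : (0 : ℤ) ≤ (2 * j + 6) * a * (6 * a - 2 * j - 4) :=
      mul_nonneg (by positivity) (by linarith)
    have h4 : (0 : ℤ) ≤ b * (12 * a - 4 * j - 4) := mul_nonneg (by positivity) (by linarith)
    have h5 : (0 : ℤ) ≤ (b : ℤ) ^ 2 := by positivity
    linarith
  · have hj6 : j ≤ 6 := by omega
    interval_cases j
    · have : a = 1 := by omega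
      subst this
      have hb : (8 : ℤ) ≤ b := by
        have : 8 ≤ b := by omega
        exact_mod_cast this
      push_cast
      nlinarith
    · omega
    · have : a = 2 := by omega
      subst this
      have hb : (10 : ℤ) ≤ b := by
        have : 10 ≤ b := by omega
        exact_mod_cast this
      push_cast
      nlinarith
    · omega

/-- **A1E** -/
theorem thm_A1E : MDR.St_Av0 → St_A1E := by
  intro hAv G _ _ X D l h0 hl hlam hX hg
  obtain ⟨j, rfl⟩ : ∃ j, l = j + 2 := ⟨l - 2, by omega⟩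
  have hj3 : 3 ≤ j := by omega
  have hlam' : ∀ y ∈ D, lam X y ≤ j := fun y hy => by have := hlam y hy; omega
  generalize hx : X.card = x at *
  have hX' : 2 + (j + 2) * (j + 1) ≤ 2 * x := by
    have : j + 2 - 1 = j + 1 := by omega
    rw [this] at hX; exact hX
  obtain ⟨a, b, hab, hbK⟩ : ∃ a b, 2 * x = (2 * j + 6) * a + b + 2 ∧ b + 2 ≤ 2 * j + 6 := by
    refine ⟨(x - 1) / (j + 3), 2 * ((x - 1) % (j + 3)), ?_, ?_⟩
    · have h1 := Nat.div_add_mod (x - 1) (j + 3)
      have h2 : 1 ≤ x := by omega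
      have e : (2 * j + 6) * ((x - 1) / (j + 3)) = 2 * ((j + 3) * ((x - 1) / (j + 3))) := by ring
      rw [e]
      omega
    · have := Nat.mod_lt (x - 1) (show 0 < j + 3 by omega)
      omega
  have hg' : ∀ i, 1 ≤ i → 2 * x ≤ (it D i).card + 4 ∨ i * (2 * j + 6) ≤ (it D i).card + 2 := by
    intro i hi
    have := hg i hi
    have e : 2 * (j + 2) + 2 = 2 * j + 6 := by ring
    rw [e] at this
    exact this
  have hlev : ∀ i, 1 ≤ i → i ≤ a → i * (2 * j + 6) ≤ (it D i).card + 2 := by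
    intro i hi hia
    rcases hg' i hi with h | h
    · have h1 : i * (2 * j + 6) ≤ a * (2 * j + 6) := Nat.mul_le_mul_right _ hia
      have h2 : a * (2 * j + 6) = (2 * j + 6) * a := by ring
      omega
    · exact h
  have htop : 2 * x ≤ (it D (a + 1)).card + 4 := by
    rcases hg' (a + 1) (by omega) with h | h
    · exact h
    · have : (a + 1) * (2 * j + 6) = (2 * j + 6) * a + (2 * j + 6) := by ring
      omega
  have h00 : 1 ≤ (it D 0).card := by simp [it]
  have hS := A1E_sum (2 * j + 6) a (fun i => (it D i).card) h00 hlev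
  have hcl := A1E_claim j a b hbK (by omega)
  have hpos := A1E_pos j a b hj3 hcl (by omega)
  have hjx : (a + 1) * j ≤ x := by
    have e3 : 2 * ((a + 1) * j) + 6 * a = (2 * j + 6) * a + 2 * j := by ring
    omega
  have hfin := hAv G X D j (a + 1) h0 hlam' (by rw [hx]; exact hjx)
  rw [hx] at hfin
  obtain ⟨c, hc⟩ : ∃ c, x = (a + 1) * j + c := ⟨x - (a + 1) * j, by omega⟩
  have hc' : x - (a + 1) * j = c := by omega
  rw [hc'] at hfin
  have h10 : c * (2 * x) ≤ c * ((it D (a + 1)).card + 4) := Nat.mul_le_mul_left _ htop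
  have h11 : j * ((2 * j + 6) * a * (a + 1) + 2) + 2 * (c * (2 * x)) ≤ 2 * x ^ 2 + 4 * a * j + 8 * c := by
    have : j * ((2 * j + 6) * a * (a + 1) + 2) ≤ j * (2 * ∑ i ∈ range (a + 1), (it D i).card + 4 * a) :=
      Nat.mul_le_mul_left _ hS
    have e1 : j * (2 * ∑ i ∈ range (a + 1), (it D i).card + 4 * a) =
      2 * (j * ∑ i ∈ range (a + 1), (it D i).card) + 4 * a * j := by ring
    rw [e1] at this
    have e2 : c * ((it D (a + 1)).card + 4) = c * (it D (a + 1)).card + 4 * c := by ring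
    rw [e2] at h10
    omega
  have h12 : (j : ℤ) * ((2 * j + 6) * a * (a + 1) + 2) + 2 * (c * (2 * x)) ≤ 2 * x ^ 2 + 4 * a * j + 8 * c := by
    exact_mod_cast h11
  have hneg := A1E_fin j x a b c (by exact_mod_cast hc) (by exact_mod_cast hab) (by nlinarith [h12])
  linarith

end Pool.Agent.SSE
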