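import Mathlib
import Pool.Agent.SSE.St

/-!
# SSE: module A2E, the averaging contradiction with two sets
-/

set_option autoImplicit false

noncomputable section

open Finset Pool.Agent.Helper64.Rho Pool.Agent.SDG Pool.Agent.MDR Pool.Agent.SSC
open scoped Classical Pointwise

namespace Pool.Agent.SSE

private theorem A2E_s1 (L h : ℕ) (a : ℕ → ℕ) (h0 : 1 ≤ a 0)
    (ha : ∀ i, 1 ≤ i → i ≤ h → i * (2 * L) ≤ a i + 2) :
    1 + L * h * (h + 1) ≤ ∑ i ∈ range (h + 1), a i + 2 * h := by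
  induction h with
  | zero => simpa using h0
  | succ h ih =>
    rw [sum_range_succ]
    have h1 := ih fun i hi hi2 => ha i hi (by omega)
    have h2 := ha (h + 1) (by omega) le_rfl
    have e1 : L * (h + 1) * (h + 1 + 1) = L * h * (h + 1) + (h + 1) * (2 * L) := by ring
    rw [e1]
    omega

private theorem A2E_s2 (L h : ℕ) (b : ℕ → ℕ) (hb : ∀ i, i < h → (i + 1) * (2 * L) ≤ b i) :
    L * h * (h + 1) ≤ ∑ i ∈ range h, b i := by
  induction h with
  | zero => simp
  | succ h ih =>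
    rw [sum_range_succ]
    have h1 := ih fun i hi => hb i (by omega)
    have h2 := hb h (by omega)
    have e1 : L * (h + 1) * (h + 1 + 1) = L * h * (h + 1) + (h + 1) * (2 * L) := by ring
    rw [e1]
    omega

/-- the numerical contradiction -/
private theorem A2E_num (q h r x c S1 S2 t : ℤ) (hq : q + 3 = 2 * h + r) (hr : r = 0 ∨ r = 1)
    (hq2 : 2 ≤ q) (hx : 2 * x = 2 + (q + 3) * (q + 4)) (hc : c = x - (h + 1) * (q + 2))
    (hc0 : 0 ≤ c) (h1 : 1 + (q + 4) * h * (h + 1) ≤ S1 + 2 * h)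
    (h2 : (q + 4) * h * (h + 1) ≤ S2) (ht : (q + 3) * (q + 3) + 2 * (q + 3) ≤ t + 5)
    (hfin : 2 * S1 + q * (1 + S2) + c * t ≤ x ^ 2) : False := by
  have h3 : q * (1 + (q + 4) * h * (h + 1)) ≤ q * (1 + S2) :=
    mul_le_mul_of_nonneg_left (by linarith) (by linarith)
  have h4 : c * ((q + 3) * (q + 3) + 2 * (q + 3) - 5) ≤ c * t :=
    mul_le_mul_of_nonneg_left (by linarith) hc0
  have h5 : 2 * (1 + (q + 4) * h * (h + 1) - 2 * h) + q * (1 + (q + 4) * h * (h + 1)) +
      c * ((q + 3) * (q + 3) + 2 * (q + 3) - 5) ≤ x ^ 2 := by linarith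
  rcases hr with rfl | rfl
  · have e1 : q = 2 * h - 3 := by linarith
    subst e1
    have e2 : x = 2 * h ^ 2 + h + 1 := by
      have : 2 * x = 2 * (2 * h ^ 2 + h + 1) := by rw [hx]; ring
      linarith
    have e3 : c = 2 := by rw [hc, e2]; ring
    rw [e2, e3] at h5
    have h6 : 3 ≤ h := by omega
    nlinarith
  · have e1 : q = 2 * h - 2 := by linarith
    subst e1
    have e2 : x = 2 * h ^ 2 + 3 * h + 2 := by
      have : 2 * x = 2 * (2 * h ^ 2 + 3 * h + 2) := by rw [hx]; ring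
      linarith
    have e3 : c = h + 2 := by rw [hc, e2]; ring
    rw [e2, e3] at h5
    have h6 : 2 ≤ h := by omega
    nlinarith

theorem thm_A2E : St_Av2 → St_A2E := by
  intro hAv G _ _ X D1 D2 l h0 hD hl hlam1 hlam2 hX ha hb
  obtain ⟨q, rfl⟩ : ∃ q, l = q + 3 := ⟨l - 3, by omega⟩
  obtain ⟨h, r, hh, hr⟩ : ∃ h r, q + 3 = 2 * h + r ∧ r < 2 :=
    ⟨(q + 3) / 2, (q + 3) % 2, by omega, by omega⟩
  generalize hx : X.card = x at *
  have hK : 2 * (q + 3) + 2 = 2 * (q + 4) := by ring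
  have hla : ∀ i, 1 ≤ i → i ≤ h → i * (2 * (q + 4)) ≤ (it D1 i).card + 2 := by
    intro i hi hih
    rcases ha i hi with h1 | h1
    · have h2 : i * (2 * (q + 4)) ≤ h * (2 * (q + 4)) := Nat.mul_le_mul_right _ hih
      have h3 : h * (2 * (q + 4)) ≤ (q + 3) * (q + 4) := by
        have : 2 * h ≤ q + 3 := by omega
        calc h * (2 * (q + 4)) = 2 * h * (q + 4) := by ring
          _ ≤ (q + 3) * (q + 4) := Nat.mul_le_mul_right _ this
      have h4 : (q + 3) * (q + 3) + 2 * (q + 3) = (q + 3) * (q + 4) + (q + 3) := by ring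
      omega
    · rwa [hK] at h1
  have hlb : ∀ i, i < h → (i + 1) * (2 * (q + 4)) ≤ (it D1 i + D2).card := by
    intro i hi
    rcases hb i with h1 | h1
    · have h2 : (i + 1) * (2 * (q + 4)) ≤ h * (2 * (q + 4)) := Nat.mul_le_mul_right _ hi
      have h3 : h * (2 * (q + 4)) ≤ (q + 3) * (q + 4) := by
        have : 2 * h ≤ q + 3 := by omega
        calc h * (2 * (q + 4)) = 2 * h * (q + 4) := by ring
          _ ≤ (q + 3) * (q + 4) := Nat.mul_le_mul_right _ this
      have h4 : (q + 3) * (q + 3) + 2 * (q + 3) = (q + 3) * (q + 4) + (q + 3) := by ring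
      omega
    · rwa [hK] at h1
  have htop : (q + 3) * (q + 3) + 2 * (q + 3) ≤ (it D1 (h + 1)).card + 5 := by
    rcases ha (h + 1) (by omega) with h1 | h1
    · exact h1
    · rw [hK] at h1
      have h3 : (q + 4) * (q + 4) ≤ (h + 1) * (2 * (q + 4)) := by
        have : q + 4 ≤ 2 * (h + 1) := by omega
        calc (q + 4) * (q + 4) ≤ 2 * (h + 1) * (q + 4) := Nat.mul_le_mul_right _ this
          _ = (h + 1) * (2 * (q + 4)) := by ring
      have h4 : (q + 4) * (q + 4) = (q + 3) * (q + 3) + 2 * (q + 3) + 1 := by ring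
      omega
  have h00 : 1 ≤ (it D1 0).card := by simp [it]
  have hS1 := A2E_s1 (q + 4) h (fun i => (it D1 i).card) h00 hla
  have hS2 := A2E_s2 (q + 4) h (fun i => (it D1 i + D2).card) hlb
  have hjx : (h + 1) * (q + 2) ≤ x := by
    have h1 : 2 * ((h + 1) * (q + 2)) ≤ 2 * x := by
      rw [hX]
      have h2 : 2 * (h + 1) ≤ q + 5 := by omega
      calc 2 * ((h + 1) * (q + 2)) = 2 * (h + 1) * (q + 2) := by ring
        _ ≤ (q + 5) * (q + 2) := Nat.mul_le_mul_right _ h2
        _ ≤ 2 + (q + 3) * (q + 3 + 1) := by nlinarith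
    omega
  have hfin := hAv G X D1 D2 (q + 2) (h + 1) h0 hD
    (fun y hy => by have := hlam1 y hy; omega) (fun y hy => by have := hlam2 y hy; omega)
    (by omega) (by omega) (by rw [hx]; exact hjx)
  rw [hx] at hfin
  obtain ⟨c, hc⟩ : ∃ c, x = (h + 1) * (q + 2) + c := ⟨x - (h + 1) * (q + 2), by omega⟩
  have hc' : x - (h + 1) * (q + 2) = c := by omega
  rw [hc', Nat.add_sub_cancel, Nat.add_sub_cancel] at hfin
  refine A2E_num q h r x c (∑ i ∈ range (h + 1), ((it D1 i).card : ℤ))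
    (∑ i ∈ range h, ((it D1 i + D2).card : ℤ)) (it D1 (h + 1)).card ?_ ?_ ?_ ?_ ?_ ?_ ?_ ?_ ?_ ?_
  · exact_mod_cast hh
  · interval_cases r
    · left
      rfl
    · right
      rfl
  · exact_mod_cast (by omega : 2 ≤ q)
  · have : (2 * (x : ℤ)) = 2 + ((q : ℤ) + 3) * ((q : ℤ) + 3 + 1) := by exact_mod_cast hX
    rw [this]
    ring
  · have : (x : ℤ) = ((h : ℤ) + 1) * ((q : ℤ) + 2) + c := by exact_mod_cast hc
    linarith
  · exact_mod_cast Nat.zero_le c
  · exact_mod_cast hS1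
  · exact_mod_cast hS2
  · exact_mod_cast htop
  · exact_mod_cast hfin

end Pool.Agent.SSE
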