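import Pool.Agent.SSE.St

/-!
# SSE Av2: averaging with two sets
-/

set_option autoImplicit false

noncomputable section

open Finset Pool.Agent.Helper64.Rho Pool.Agent.SDG Pool.Agent.MDR Pool.Agent.SSC
open scoped Classical Pointwise

namespace Pool.Agent.SSE

theorem Av2_lam {G : Type} [AddCommGroup G] (X D : Finset G) (j : ℕ)
    (hD : ∀ y ∈ D, lam X y ≤ j) (i : ℕ) : ∀ y ∈ it D i, lam X y ≤ i * j := by
  induction i with
  | zero =>
    intro y hy
    have h : y = 0 := by simpa [it] using hy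
    rw [h, lam_zero]
    exact Nat.zero_le _
  | succ i ih =>
    intro y hy
    change y ∈ it D i + D at hy
    obtain ⟨a, ha, b, hb, rfl⟩ := mem_add.1 hy
    refine (lam_add X a b).trans ?_
    have h1 := ih a ha
    have h2 := hD b hb
    rw [add_mul, one_mul]
    omega

theorem Av2_cnt {G : Type} [AddCommGroup G] [Fintype G] (X D : Finset G) (v : ℕ)
    (hD : ∀ y ∈ D, lam X y ≤ v) : D.card ≤ cnt X v := by
  unfold cnt
  refine card_le_card fun y hy => ?_
  rw [mem_filter]
  exact ⟨mem_univ _, hD y hy⟩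

/-- the number used for the last part of the `i`-th block -/
def Av2_B {G : Type} [AddCommGroup G] (D1 D2 : Finset G) : ℕ → ℕ
  | 0 => 1
  | i + 1 => (it D1 i + D2).card

theorem Av2_low {G : Type} [AddCommGroup G] [Fintype G] (X D1 D2 : Finset G) (c : ℕ)
    (h1 : ∀ y ∈ D1, lam X y ≤ c + 2) (h2 : ∀ y ∈ D2, lam X y ≤ c + 2 + 2) (i v : ℕ)
    (hv : i * (c + 2) + 2 ≤ v) : Av2_B D1 D2 i ≤ cnt X v := by
  cases i with
  | zero =>
    have h := Av2_cnt X {0} v (by
      intro y hy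
      rw [mem_singleton] at hy
      rw [hy, lam_zero]
      exact Nat.zero_le _)
    rwa [card_singleton] at h
  | succ i =>
    refine Av2_cnt X (it D1 i + D2) v fun y hy => ?_
    obtain ⟨a, ha, b, hb, rfl⟩ := mem_add.1 hy
    refine (lam_add X a b).trans ?_
    have e1 := Av2_lam X D1 (c + 2) h1 i a ha
    have e2 := h2 b hb
    rw [add_mul, one_mul] at hv
    omega

theorem Av2_blocks {G : Type} [AddCommGroup G] [Fintype G] (X D1 D2 : Finset G) (c : ℕ)
    (h1 : ∀ y ∈ D1, lam X y ≤ c + 2) (h2 : ∀ y ∈ D2, lam X y ≤ c + 2 + 2) (k : ℕ) :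
    2 * ∑ i ∈ range k, (it D1 i).card + c * ∑ i ∈ range k, Av2_B D1 D2 i ≤
      ∑ v ∈ range (k * (c + 2)), cnt X v := by
  induction k with
  | zero => simp
  | succ k ih =>
    have e1 : (k + 1) * (c + 2) = k * (c + 2) + (2 + c) := by ring
    rw [sum_range_succ, sum_range_succ, e1, sum_range_add, mul_add, mul_add, sum_range_add]
    have e2 : 2 * (it D1 k).card ≤ ∑ v ∈ range 2, cnt X (k * (c + 2) + v) := by
      calc 2 * (it D1 k).card = ∑ v ∈ range 2, (it D1 k).card := by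
            rw [sum_const, card_range, smul_eq_mul]
        _ ≤ _ := sum_le_sum fun v _ => Av2_cnt X _ _ fun y hy =>
            (Av2_lam X D1 (c + 2) h1 k y hy).trans (Nat.le_add_right _ _)
    have e3 : c * Av2_B D1 D2 k ≤ ∑ v ∈ range c, cnt X (k * (c + 2) + (2 + v)) := by
      calc c * Av2_B D1 D2 k = ∑ v ∈ range c, Av2_B D1 D2 k := by
            rw [sum_const, card_range, smul_eq_mul]
        _ ≤ _ := sum_le_sum fun v _ => Av2_low X D1 D2 c h1 h2 k _ (by omega)
    omega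

/-- **Av2** -/
theorem thm_Av2 : St_Av2 := by
  intro G _ _ X D1 D2 j k _ _ h1 h2 hj hk hkj
  have := Fintype.ofFinite G
  obtain ⟨c, rfl⟩ : ∃ c, j = c + 2 := ⟨j - 2, by omega⟩
  obtain ⟨k, rfl⟩ : ∃ k', k = k' + 1 := ⟨k - 1, by omega⟩
  have hsum := sum_cnt X
  obtain ⟨r, hr⟩ : ∃ r, X.card = (k + 1) * (c + 2) + r :=
    ⟨X.card - (k + 1) * (c + 2), by omega⟩
  have e : X.card - (k + 1) * (c + 2) = r := by omega
  have hB := Av2_blocks X D1 D2 c h1 h2 (k + 1)
  have hB2 : ∑ i ∈ range (k + 1), Av2_B D1 D2 i =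
      1 + ∑ i ∈ range k, (it D1 i + D2).card := by
    rw [sum_range_succ', add_comm]
    rfl
  rw [hB2] at hB
  have hL : r * (it D1 (k + 1)).card ≤ ∑ v ∈ range r, cnt X ((k + 1) * (c + 2) + v) := by
    calc r * (it D1 (k + 1)).card = ∑ v ∈ range r, (it D1 (k + 1)).card := by
          rw [sum_const, card_range, smul_eq_mul]
      _ ≤ _ := sum_le_sum fun v _ => Av2_cnt X _ _ fun y hy =>
          (Av2_lam X D1 (c + 2) h1 (k + 1) y hy).trans (Nat.le_add_right _ _)
  rw [e, ← hsum]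
  conv_rhs => rw [hr, sum_range_add]
  have e2 : c + 2 - 2 = c := by omega
  have e3 : k + 1 - 1 = k := by omega
  rw [e2, e3]
  exact Nat.add_le_add hB hL

end Pool.Agent.SSE
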