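import Pool.Agent.SSE.St

/-!
# SSE: module B3E, at most three members
-/

set_option autoImplicit false

noncomputable section

open Finset Pool.Agent.Helper64.Rho Pool.Agent.SDG Pool.Agent.MDR Pool.Agent.SSC
open scoped Classical Pointwise

namespace Pool.Agent.SSE

/-- different members are not equal up to sign -/
private theorem B3E_ne {G ι : Type} [AddCommGroup G] {s : Finset ι} {f : ι → G} (h : AS s f)
    {i j : ι} (hi : i ∈ s) (hj : j ∈ s) (hij : i ≠ j) : f i ≠ f j ∧ f i ≠ -f j := by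
  have h1 := h.2 (f j)
  have key : (f i = f j ∨ f i = -f j) → False := by
    intro h2
    have h3 : ({i, j} : Finset ι) ⊆ s.filter fun k => f k = f j ∨ f k = -f j := by
      intro k hk
      rcases Finset.mem_insert.1 hk with hk | hk
      · rw [hk]
        exact Finset.mem_filter.2 ⟨hi, h2⟩
      · rw [Finset.mem_singleton.1 hk]
        exact Finset.mem_filter.2 ⟨hj, Or.inl rfl⟩
    have h4 := Finset.card_le_card h3
    rw [Finset.card_pair hij] at h4
    omega
  exact ⟨fun h2 => key (Or.inl h2), fun h2 => key (Or.inr h2)⟩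

/-- the four sums of two elements -/
private theorem B3E_four {G : Type} [AddCommGroup G] {a b : G} (ha : a ≠ 0) (hb : b ≠ 0)
    (h1 : a ≠ b) (h2 : a ≠ -b) : ({0, a, b, a + b} : Finset G).card = 4 := by
  rw [Finset.card_insert_of_notMem, Finset.card_insert_of_notMem, Finset.card_pair]
  · intro h
    exact ha (by
      have h3 : a = a + b - b := by abel
      rw [h3, ← h, sub_self])
  · rw [Finset.mem_insert, Finset.mem_singleton, not_or]
    refine ⟨h1, fun h => hb ?_⟩
    have h3 : b = a + b - a := by abel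
    rw [h3, ← h, sub_self]
  · rw [Finset.mem_insert, Finset.mem_insert, Finset.mem_singleton, not_or, not_or]
    exact ⟨ha.symm, hb.symm, fun h => h2 (eq_neg_of_add_eq_zero_left h.symm)⟩

private theorem B3E_FS2 {G ι : Type} [AddCommGroup G] (f : ι → G) {i j : ι} (hij : i ≠ j) :
    FS ({i, j} : Finset ι) f = {0, f i, f j, f i + f j} := by
  have hj : FS ({j} : Finset ι) f = {0, f j} := by
    have h := FS_insert (Finset.notMem_empty j) f
    rw [FS_empty, Finset.image_singleton, zero_add] at h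
    rw [show ({j} : Finset ι) = insert j ∅ from rfl, h]
    rfl
  rw [FS_insert (by rwa [Finset.mem_singleton]) f, hj, Finset.image_insert,
    Finset.image_singleton, zero_add]
  ext x
  simp only [Finset.mem_union, Finset.mem_insert, Finset.mem_singleton]
  rw [add_comm (f j) (f i)]
  tauto

/-- pairs with difference `c` -/
private theorem B3E_pair {G : Type} [AddCommGroup G] {a b c q : G} (hc : c ≠ 0) (h1 : c ≠ a)
    (h2 : c ≠ -a) (h3 : c ≠ b) (h4 : c ≠ -b) (hq : q ∈ ({0, a, b, a + b} : Finset G))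
    (hq' : q - c ∈ ({0, a, b, a + b} : Finset G)) :
    (q = 0 ∧ c = -(a + b)) ∨ (q = a ∧ c = a - b) ∨ (q = b ∧ c = b - a) ∨ (q = a + b ∧ c = a + b) := by
  simp only [Finset.mem_insert, Finset.mem_singleton] at hq hq'
  have hcq : ∀ y, q - c = y → c = q - y := by
    intro y hy
    rw [← hy]
    abel
  rcases hq with hq | hq | hq | hq <;> rcases hq' with h | h | h | h <;>
    have h5 := hcq _ h <;> rw [hq] at h5
  · exact absurd (by rw [h5]; abel) hc
  · exact absurd (by rw [h5]; abel) h2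
  · exact absurd (by rw [h5]; abel) h4
  · exact Or.inl ⟨hq, by rw [h5]; abel⟩
  · exact absurd (by rw [h5]; abel) h1
  · exact absurd (by rw [h5]; abel) hc
  · exact Or.inr (Or.inl ⟨hq, h5⟩)
  · exact absurd (by rw [h5]; abel) h4
  · exact absurd (by rw [h5]; abel) h3
  · exact Or.inr (Or.inr (Or.inl ⟨hq, h5⟩))
  · exact absurd (by rw [h5]; abel) hc
  · exact absurd (by rw [h5]; abel) h2
  · exact Or.inr (Or.inr (Or.inr ⟨hq, by rw [h5]; abel⟩))
  · exact absurd (by rw [h5]; abel) h3
  · exact absurd (by rw [h5]; abel) h1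
  · exact absurd (by rw [h5]; abel) hc

private theorem B3E_uniq {G : Type} [AddCommGroup G]
    {a b c : G} (ka : a + a ≠ 0) (kb : b + b ≠ 0) (kc : c + c ≠ 0) (hc : c ≠ 0)
    (h1 : c ≠ a) (h2 : c ≠ -a) (h3 : c ≠ b) (h4 : c ≠ -b) :
    (({0, a, b, a + b} : Finset G).filter fun q => q - c ∈ ({0, a, b, a + b} : Finset G)).card
      ≤ 1 := by
  have e1 : ∀ {X Y : G}, c = X → c = Y → Y - X = 0 := by
    intro X Y hX hY
    rw [← hX, ← hY, sub_self]
  rw [Finset.card_le_one]
  intro q hq p hp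
  obtain ⟨hq1, hq2⟩ := Finset.mem_filter.1 hq
  obtain ⟨hp1, hp2⟩ := Finset.mem_filter.1 hp
  have e2 : ∀ {X Y : G}, c = X → c = Y → c + c = X + Y := by
    intro X Y hX hY
    calc c + c = X + c := by rw [← hX]
      _ = X + Y := by rw [← hY]
  rcases B3E_pair hc h1 h2 h3 h4 hq1 hq2 with ⟨u1, v1⟩ | ⟨u1, v1⟩ | ⟨u1, v1⟩ | ⟨u1, v1⟩ <;>
    rcases B3E_pair hc h1 h2 h3 h4 hp1 hp2 with ⟨u2, v2⟩ | ⟨u2, v2⟩ | ⟨u2, v2⟩ | ⟨u2, v2⟩
  · rw [u1, u2]
  · exact absurd (by rw [← e1 v1 v2]; abel) ka
  · exact absurd (by rw [← e1 v1 v2]; abel) kb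
  · exact absurd (by rw [e2 v1 v2]; abel) kc
  · exact absurd (by rw [← e1 v2 v1]; abel) ka
  · rw [u1, u2]
  · exact absurd (by rw [e2 v2 v1]; abel) kc
  · exact absurd (by rw [← e1 v1 v2]; abel) kb
  · exact absurd (by rw [← e1 v2 v1]; abel) kb
  · exact absurd (by rw [e2 v1 v2]; abel) kc
  · rw [u1, u2]
  · exact absurd (by rw [← e1 v1 v2]; abel) ka
  · exact absurd (by rw [e2 v2 v1]; abel) kc
  · exact absurd (by rw [← e1 v2 v1]; abel) kb
  · exact absurd (by rw [← e1 v2 v1]; abel) ka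
  · rw [u1, u2]

theorem thm_B3E : St_B3E := by
  intro G ι _ _ s f hAE hs
  obtain ⟨hAS, hinv⟩ := hAE
  have hcases : s.card = 0 ∨ s.card = 1 ∨ s.card = 2 ∨ s.card = 3 := by omega
  rcases hcases with h | h | h | h
  · rw [h]
    have h1 : 0 < (FS s f).card := Finset.card_pos.2 ⟨0, zero_mem_FS s f⟩
    omega
  · rw [h]
    obtain ⟨i, rfl⟩ := Finset.card_eq_one.1 h
    have h1 : ({0, f i} : Finset G) ⊆ FS {i} f := by
      intro x hx
      rcases Finset.mem_insert.1 hx with hx | hx
      · rw [hx]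
        exact zero_mem_FS _ f
      · rw [Finset.mem_singleton.1 hx]
        exact mem_FS.2 ⟨{i}, Finset.Subset.refl _, Finset.sum_singleton f i⟩
    have h2 := Finset.card_le_card h1
    rw [Finset.card_pair (hAS.1 i (Finset.mem_singleton_self i)).symm] at h2
    omega
  · rw [h]
    obtain ⟨i, j, hij, rfl⟩ := Finset.card_eq_two.1 h
    have hi : i ∈ ({i, j} : Finset ι) := Finset.mem_insert_self i _
    have hj : j ∈ ({i, j} : Finset ι) := Finset.mem_insert_of_mem (Finset.mem_singleton_self j)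
    obtain ⟨n1, n2⟩ := B3E_ne hAS hi hj hij
    rw [B3E_FS2 f hij, B3E_four (hAS.1 i hi) (hAS.1 j hj) n1 n2]
  · rw [h]
    obtain ⟨i, j, k, hij, hik, hjk, rfl⟩ := Finset.card_eq_three.1 h
    have hi : i ∈ ({i, j, k} : Finset ι) := by simp
    have hj : j ∈ ({i, j, k} : Finset ι) := by simp
    have hk : k ∈ ({i, j, k} : Finset ι) := by simp
    obtain ⟨n1, n2⟩ := B3E_ne hAS hj hk hjk
    obtain ⟨n3, n4⟩ := B3E_ne hAS hi hj hij
    obtain ⟨n5, n6⟩ := B3E_ne hAS hi hk hik
    have hni : i ∉ ({j, k} : Finset ι) := by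
      simp only [Finset.mem_insert, Finset.mem_singleton, not_or]
      exact ⟨hij, hik⟩
    rw [FS_insert hni f, B3E_FS2 f hjk]
    obtain ⟨B, hB⟩ : ∃ B : Finset G, B = {0, f j, f k, f j + f k} := ⟨_, rfl⟩
    have hB4 : B.card = 4 := by
      rw [hB]
      exact B3E_four (hAS.1 j hj) (hAS.1 k hk) n1 n2
    have hB1 : (B.filter fun q => q - f i ∈ B).card ≤ 1 := by
      rw [hB]
      exact B3E_uniq (hinv j hj) (hinv k hk) (hinv i hi) (hAS.1 i hi) n3 n4 n5 n6
    rw [← hB]
    have h1 : B ∩ B.image (· + f i) ⊆ B.filter fun q => q - f i ∈ B := by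
      intro q hq
      obtain ⟨hq1, hq2⟩ := Finset.mem_inter.1 hq
      obtain ⟨p, hp, hpq⟩ := Finset.mem_image.1 hq2
      refine Finset.mem_filter.2 ⟨hq1, ?_⟩
      have h2 : q - f i = p := by
        rw [← hpq]
        exact add_sub_cancel_right p (f i)
      rw [h2]
      exact hp
    have h2 := Finset.card_le_card h1
    have h3 := Finset.card_union_add_card_inter B (B.image (· + f i))
    rw [Finset.card_image_of_injective _ (add_left_injective (f i))] at h3
    omega

end Pool.Agent.SSE
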