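import Pool.Agent.SSE.St
import Pool.Agent.SSC.Bo

/-!
# SSE, module `BoE`: four members in a cyclic group

As in `SSC.Bo`: `2 |FS| + #{(I, J) : equal sums} ≥ 48`, the pairs are sorted by their symmetric difference `T`.  For
`|T| = 3, 4` there are at most `4` of them also if the group has an involution (for `|T| = 4` there are at most two relations
up to a global sign).  So at least three sets `T` carry a relation if `|FS| < 12`.
-/

set_option autoImplicit false

noncomputable section

open Finset Pool.Agent.Helper64.Rho Pool.Agent.SDG Pool.Agent.MDR Pool.Agent.SSC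
open scoped Classical Pointwise

namespace Pool.Agent.SSE

/-- at most one involution -/
theorem BoE_inv {G : Type} [AddCommGroup G] [Finite G] (hG : IsAddCyclic G) {x y : G} (hx : x ≠ 0)
    (hy : y ≠ 0) (hx2 : x + x = 0) (hy2 : y + y = 0) : x = y := by
  by_contra hxy
  have := Fintype.ofFinite G
  have h1 : (univ.filter fun a : G => 2 • a = 0).card ≤ 2 :=
    IsAddCyclic.card_nsmul_eq_zero_le (by norm_num)
  have h2 : ({0, x, y} : Finset G) ⊆ univ.filter fun a : G => 2 • a = 0 := by
    intro z hz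
    simp only [mem_insert, mem_singleton] at hz
    refine mem_filter.2 ⟨mem_univ _, ?_⟩
    rcases hz with rfl | rfl | rfl
    · exact smul_zero _
    · rw [two_nsmul]; exact hx2
    · rw [two_nsmul]; exact hy2
  have h3 : ({0, x, y} : Finset G).card = 3 := card_eq_three.2 ⟨0, x, y, hx.symm, hy.symm, hxy, rfl⟩
  have h4 := card_le_card h2
  omega

/-- two relations with the same support -/
theorem BoE_dbl {G ι : Type} [AddCommGroup G] {s T : Finset ι} {f : ι → G} {I I' : Finset ι}
    (hI : I ∈ BoN s T f) (hI' : I' ∈ BoN s T f) :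
    (∑ j ∈ T.filter (fun j => j ∈ I ↔ j ∈ I'), (if j ∈ I then f j else - f j)) +
      ∑ j ∈ T.filter (fun j => j ∈ I ↔ j ∈ I'), (if j ∈ I then f j else - f j) = 0 ∧
    (∑ j ∈ T.filter (fun j => ¬ (j ∈ I ↔ j ∈ I')), (if j ∈ I then f j else - f j)) +
      ∑ j ∈ T.filter (fun j => ¬ (j ∈ I ↔ j ∈ I')), (if j ∈ I then f j else - f j) = 0 := by
  set g : ι → G := fun j => if j ∈ I then f j else - f j with hg
  set g' : ι → G := fun j => if j ∈ I' then f j else - f j with hg'
  have e1 : ∑ j ∈ T, g j = 0 := Bo_rel0 hI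
  have e2 : ∑ j ∈ T, g' j = 0 := Bo_rel0 hI'
  have s1 := Finset.sum_filter_add_sum_filter_not T (fun j => j ∈ I ↔ j ∈ I') g
  have s2 := Finset.sum_filter_add_sum_filter_not T (fun j => j ∈ I ↔ j ∈ I') g'
  have c1 : ∑ j ∈ T.filter (fun j => j ∈ I ↔ j ∈ I'), g' j =
      ∑ j ∈ T.filter (fun j => j ∈ I ↔ j ∈ I'), g j := by
    refine Finset.sum_congr rfl fun j hj => ?_
    have hj2 := (mem_filter.1 hj).2
    simp only [hg, hg']
    by_cases hji : j ∈ I
    · rw [if_pos hji, if_pos (hj2.1 hji)]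
    · rw [if_neg hji, if_neg (fun h => hji (hj2.2 h))]
  have c2 : ∑ j ∈ T.filter (fun j => ¬ (j ∈ I ↔ j ∈ I')), g' j =
      - ∑ j ∈ T.filter (fun j => ¬ (j ∈ I ↔ j ∈ I')), g j := by
    rw [← Finset.sum_neg_distrib]
    refine Finset.sum_congr rfl fun j hj => ?_
    have hj2 := (mem_filter.1 hj).2
    simp only [hg, hg']
    by_cases hji : j ∈ I
    · have hji' : j ∉ I' := fun h => hj2 ⟨fun _ => h, fun _ => hji⟩
      rw [if_pos hji, if_neg hji']
    · have hji' : j ∈ I' := by
        by_contra h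
        exact hj2 ⟨fun h' => absurd h' hji, fun h' => absurd h' h⟩
      rw [if_neg hji, if_pos hji', neg_neg]
  rw [e1] at s1
  rw [e2, c1, c2] at s2
  set X := ∑ j ∈ T.filter (fun j => j ∈ I ↔ j ∈ I'), g j with hX
  set Y := ∑ j ∈ T.filter (fun j => ¬ (j ∈ I ↔ j ∈ I')), g j with hY
  have hX0 : X + X = 0 := by
    have : X + X = (X + Y) + (X + -Y) := by abel
    rw [this, s1, s2, add_zero]
  refine ⟨hX0, ?_⟩
  have : Y = -X := eq_neg_of_add_eq_zero_right s1
  rw [this, ← neg_add, hX0, neg_zero]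

/-- the double of a member is not zero -/
theorem BoE_one {G ι : Type} [AddCommGroup G] {s D : Finset ι} {f g : ι → G} (h : AE s f)
    (hD : D ⊆ s) (hg : ∀ j, BoPM (g j) (f j)) (hc : D.card = 1) :
    ∑ j ∈ D, g j + ∑ j ∈ D, g j ≠ 0 := by
  obtain ⟨j, rfl⟩ := card_eq_one.1 hc
  rw [sum_singleton]
  intro h0
  refine h.2 j (hD (mem_singleton_self j)) ?_
  rcases hg j with h3 | h3
  · rw [← h3, h0]
  · rw [← neg_eq_zero, neg_add, ← h3, h0]

/-- triples: at most one relation -/
theorem BoE_three {G ι : Type} [AddCommGroup G] {s T : Finset ι} {f : ι → G} (h : AE s f)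
    (hT : T ⊆ s) (hTc : T.card = 3) {I I' : Finset ι}
    (hI : I ∈ BoN s T f) (hI' : I' ∈ BoN s T f) : I' ∩ T = I ∩ T ∨ I' ∩ T = T \ I := by
  obtain ⟨d1, d2⟩ := BoE_dbl hI hI'
  have hcard := Finset.card_filter_add_card_filter_not (s := T) (fun j => j ∈ I ↔ j ∈ I')
  have hsgn : ∀ j, BoPM (if j ∈ I then f j else - f j) (f j) := fun j => Bo_sgn I f j
  have n1 : (T.filter (fun j => j ∈ I ↔ j ∈ I')).card ≠ 1 := fun hc =>
    BoE_one h ((filter_subset _ _).trans hT) hsgn hc d1
  have n2 : (T.filter (fun j => ¬ (j ∈ I ↔ j ∈ I'))).card ≠ 1 := fun hc =>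
    BoE_one h ((filter_subset _ _).trans hT) hsgn hc d2
  have hor : (T.filter (fun j => j ∈ I ↔ j ∈ I')).card = 0 ∨
      (T.filter (fun j => ¬ (j ∈ I ↔ j ∈ I'))).card = 0 := by omega
  rcases hor with h0 | h0
  · right
    rw [card_eq_zero, filter_eq_empty_iff] at h0
    ext j
    rw [mem_inter, mem_sdiff]
    constructor
    · rintro ⟨hj1, hj2⟩
      exact ⟨hj2, fun h' => h0 hj2 ⟨fun _ => hj1, fun _ => h'⟩⟩
    · rintro ⟨hj1, hj2⟩
      refine ⟨?_, hj1⟩
      by_contra h'
      exact h0 hj1 ⟨fun h'' => absurd h'' hj2, fun h'' => absurd h'' h'⟩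
  · left
    rw [card_eq_zero, filter_eq_empty_iff] at h0
    ext j
    rw [mem_inter, mem_inter]
    constructor
    · rintro ⟨hj1, hj2⟩
      have := h0 hj2
      rw [not_not] at this
      exact ⟨this.2 hj1, hj2⟩
    · rintro ⟨hj1, hj2⟩
      have := h0 hj2
      rw [not_not] at this
      exact ⟨this.1 hj1, hj2⟩

theorem BoE_N3 {G ι : Type} [AddCommGroup G] {s T : Finset ι} {f : ι → G} (h : AE s f)
    (hs : s.card = 4) (hT : T ⊆ s) (hTc : T.card = 3) : (BoN s T f).card ≤ 4 := by
  rcases (BoN s T f).eq_empty_or_nonempty with h0 | ⟨I, hI⟩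
  · rw [h0, card_empty]
    omega
  · have hsd : (s \ T).card ≤ 1 := by
      rw [card_sdiff_of_subset hT]
      omega
    have hsub : BoN s T f ⊆ (s.powerset.filter fun J => J ∩ T = I ∩ T) ∪
        (s.powerset.filter fun J => J ∩ T = T \ I) := by
      intro J hJ
      rw [mem_union]
      rcases BoE_three h hT hTc hI hJ with h3 | h3
      · exact Or.inl (mem_filter.2 ⟨(mem_filter.1 hJ).1, h3⟩)
      · exact Or.inr (mem_filter.2 ⟨(mem_filter.1 hJ).1, h3⟩)
    refine (card_le_card hsub).trans ((card_union_le _ _).trans ?_)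
    have := Bo_fib s T (I ∩ T) hsd
    have := Bo_fib s T (T \ I) hsd
    omega

/-- two pairs with the same sum -/
theorem BoE_pair {G ι : Type} [AddCommGroup G] {s A B : Finset ι} {f g : ι → G} (h : AE s f)
    (hs : s.card = 4) (hA : A ⊆ s) (hB : B ⊆ s) (hA2 : A.card = 2) (hB2 : B.card = 2)
    (hg : ∀ j, BoPM (g j) (f j)) (hAB : ∑ j ∈ A, g j = ∑ j ∈ B, g j) : B = A ∨ B = s \ A := by
  have c1 := Finset.card_inter_add_card_sdiff A B
  have c2 := Finset.card_inter_add_card_sdiff B A
  rw [inter_comm B A] at c2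
  have c3 : (A ∩ B).card = 0 ∨ (A ∩ B).card = 1 ∨ (A ∩ B).card = 2 := by omega
  rcases c3 with c | c | c
  · right
    have hd : Disjoint A B := disjoint_iff_inter_eq_empty.2 (card_eq_zero.1 c)
    refine Finset.eq_of_subset_of_card_le ?_ ?_
    · intro x hx
      exact mem_sdiff.2 ⟨hB hx, fun h' => Finset.disjoint_left.1 hd h' hx⟩
    · rw [card_sdiff_of_subset hA]
      omega
  · exfalso
    obtain ⟨q, hq⟩ := card_eq_one.1 (show (A \ B).card = 1 by omega)
    obtain ⟨r, hr⟩ := card_eq_one.1 (show (B \ A).card = 1 by omega)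
    have e1 := Finset.sum_inter_add_sum_sdiff A B g
    have e2 := Finset.sum_inter_add_sum_sdiff B A g
    rw [hq, sum_singleton] at e1
    rw [hr, sum_singleton, inter_comm B A] at e2
    rw [← e1, ← e2] at hAB
    have e3 : g q = g r := add_left_cancel hAB
    have mq := mem_sdiff.1 (show q ∈ A \ B by rw [hq]; exact mem_singleton_self q)
    have mr := mem_sdiff.1 (show r ∈ B \ A by rw [hr]; exact mem_singleton_self r)
    have hqr : q ≠ r := fun h' => mq.2 (h' ▸ mr.1)
    refine Bo_cap h.1 (hA mq.1) (hB mr.1) hqr ?_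
    exact Bo_pm_trans (Bo_pm_symm (hg q)) (by rw [e3]; exact hg r)
  · left
    have h1 : A ∩ B = A := Finset.eq_of_subset_of_card_le inter_subset_left (by omega)
    have h2 : A ∩ B = B := Finset.eq_of_subset_of_card_le inter_subset_right (by omega)
    rw [← h2, h1]

theorem BoE_N4 {G ι : Type} [AddCommGroup G] [Finite G] (hG : IsAddCyclic G) {s : Finset ι}
    {f : ι → G} (h : AE s f) (hs : s.card = 4) : (BoN s s f).card ≤ 4 := by
  rcases (BoN s s f).eq_empty_or_nonempty with h0 | ⟨I, hI⟩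
  · rw [h0, card_empty]
    omega
  set D : Finset ι → Finset ι := fun J => s.filter (fun j => ¬ (j ∈ I ↔ j ∈ J)) with hD
  have hinj : (BoN s s f).card = ((BoN s s f).image D).card := by
    refine (card_image_of_injOn ?_).symm
    intro J hJ J' hJ' hJJ
    have m1 := mem_powerset.1 (mem_filter.1 (mem_coe.1 hJ)).1
    have m2 := mem_powerset.1 (mem_filter.1 (mem_coe.1 hJ')).1
    ext x
    have h1 : x ∈ D J ↔ x ∈ D J' := by rw [show D J = D J' from hJJ]
    simp only [hD, mem_filter] at h1
    constructor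
    · intro hx
      have hxs := m1 hx
      by_contra hx'
      tauto
    · intro hx
      have hxs := m2 hx
      by_contra hx'
      tauto
  have hsgn : ∀ j, BoPM (if j ∈ I then f j else - f j) (f j) := fun j => Bo_sgn I f j
  have hDs : ∀ J, D J ⊆ s := fun J => filter_subset _ _
  have hval : ∀ J ∈ BoN s s f, D J = ∅ ∨ D J = s ∨ ((D J).card = 2 ∧
      (∑ j ∈ D J, (if j ∈ I then f j else - f j)) + ∑ j ∈ D J, (if j ∈ I then f j else - f j) = 0 ∧
      ∑ j ∈ D J, (if j ∈ I then f j else - f j) ≠ 0) := by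
    intro J hJ
    obtain ⟨d1, d2⟩ := BoE_dbl hI hJ
    have hcard := Finset.card_filter_add_card_filter_not (s := s) (fun j => j ∈ I ↔ j ∈ J)
    have n1 : (s.filter (fun j => j ∈ I ↔ j ∈ J)).card ≠ 1 := fun hc =>
      BoE_one h (filter_subset _ _) hsgn hc d1
    have n2 : (D J).card ≠ 1 := fun hc => BoE_one h (filter_subset _ _) hsgn hc d2
    have hc : (D J).card = 0 ∨ (D J).card = 4 ∨ (D J).card = 2 := by
      simp only [hD]
      simp only [hD] at n2
      omega
    rcases hc with hc | hc | hc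
    · exact Or.inl (card_eq_zero.1 hc)
    · exact Or.inr (Or.inl (Finset.eq_of_subset_of_card_le (hDs J) (by omega)))
    · right; right
      exact ⟨hc, d2, Bo_small h.1 (hDs J) (fun j _ => hsgn j) (by omega) (by omega)⟩
  have h2c : (((BoN s s f).image D).filter fun A => A.card = 2).card ≤ 2 := by
    rcases (((BoN s s f).image D).filter fun A => A.card = 2).eq_empty_or_nonempty with h0 | ⟨A, hA⟩
    · rw [h0, card_empty]
      omega
    · refine (card_le_card ?_).trans (card_le_two (a := A) (b := s \ A))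
      intro B hB
      obtain ⟨hA1, hA2⟩ := mem_filter.1 hA
      obtain ⟨hB1, hB2⟩ := mem_filter.1 hB
      obtain ⟨J, hJ, rfl⟩ := mem_image.1 hA1
      obtain ⟨J', hJ', rfl⟩ := mem_image.1 hB1
      have v1 : (∑ j ∈ D J, (if j ∈ I then f j else - f j)) +
          ∑ j ∈ D J, (if j ∈ I then f j else - f j) = 0 ∧
          ∑ j ∈ D J, (if j ∈ I then f j else - f j) ≠ 0 := by
        rcases hval J hJ with h' | h' | h'
        · rw [h', card_empty] at hA2; omega
        · rw [h', hs] at hA2; omega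
        · exact h'.2
      have v2 : (∑ j ∈ D J', (if j ∈ I then f j else - f j)) +
          ∑ j ∈ D J', (if j ∈ I then f j else - f j) = 0 ∧
          ∑ j ∈ D J', (if j ∈ I then f j else - f j) ≠ 0 := by
        rcases hval J' hJ' with h' | h' | h'
        · rw [h', card_empty] at hB2; omega
        · rw [h', hs] at hB2; omega
        · exact h'.2
      have e := BoE_inv hG v1.2 v2.2 v1.1 v2.1
      rw [mem_insert, mem_singleton]
      exact BoE_pair h hs (hDs J) (hDs J') hA2 hB2 hsgn e
  have hsub : (BoN s s f).image D ⊆ {∅, s} ∪ ((BoN s s f).image D).filter fun A => A.card = 2 := by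
    intro A hA
    obtain ⟨J, hJ, rfl⟩ := mem_image.1 hA
    rw [mem_union, mem_insert, mem_singleton, mem_filter]
    rcases hval J hJ with h' | h' | h'
    · exact Or.inl (Or.inl h')
    · exact Or.inl (Or.inr h')
    · exact Or.inr ⟨hA, h'.1⟩
  rw [hinj]
  refine (card_le_card hsub).trans ((card_union_le _ _).trans ?_)
  have := card_le_two (a := (∅ : Finset ι)) (b := s)
  omega

theorem BoE_N {G ι : Type} [AddCommGroup G] [Finite G] (hG : IsAddCyclic G) {s T : Finset ι}
    {f : ι → G} (h : AE s f) (hs : s.card = 4) (hT : T ⊆ s) (hTc : 3 ≤ T.card) :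
    (BoN s T f).card ≤ 4 := by
  have h4 := card_le_card hT
  have h5 : T.card = 3 ∨ T.card = 4 := by omega
  rcases h5 with h5 | h5
  · exact BoE_N3 h hs hT h5
  · have : T = s := Finset.eq_of_subset_of_card_le hT (by omega)
    rw [this]
    exact BoE_N4 hG h hs

theorem BoE_Wcard {G ι : Type} [AddCommGroup G] [Finite G] (hG : IsAddCyclic G) {s : Finset ι}
    {f : ι → G} (h : AE s f) (hs : s.card = 4) (hn : (FS s f).card < 12) : 3 ≤ (BoW s f).card := by
  have hFS : FS s f = s.powerset.image fun I => ∑ j ∈ I, f j := by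
    ext x
    rw [mem_FS, mem_image]
    constructor
    · rintro ⟨t, ht, hx⟩
      exact ⟨t, mem_powerset.2 ht, hx⟩
    · rintro ⟨t, ht, hx⟩
      exact ⟨t, mem_powerset.1 ht, hx⟩
  have h1 := Bo_count s.powerset (fun I => ∑ j ∈ I, f j)
  rw [← hFS, card_powerset, hs] at h1
  have h3 := Bo_pairs s f
  have h4 : ∑ T ∈ s.powerset, (BoN s T f).card ≤ 16 + 4 * (BoW s f).card := by
    rw [← Finset.add_sum_erase _ _ (empty_mem_powerset s)]
    refine add_le_add ?_ ?_
    · refine (card_filter_le _ _).trans ?_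
      rw [card_powerset, hs]
      norm_num
    · rw [← Finset.sum_filter_add_sum_filter_not _ (fun T => (BoN s T f).Nonempty)]
      have h5 : ∑ T ∈ (s.powerset.erase ∅).filter (fun T => ¬ (BoN s T f).Nonempty),
          (BoN s T f).card = 0 := by
        refine Finset.sum_eq_zero fun T hT => ?_
        rw [card_eq_zero, ← not_nonempty_iff_eq_empty]
        exact (mem_filter.1 hT).2
      rw [h5, add_zero, mul_comm]
      refine Finset.sum_le_card_nsmul _ _ 4 fun T hT => ?_
      obtain ⟨hT1, hT2, _⟩ := Bo_W3 h.1 hT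
      exact BoE_N hG h hs hT1 hT2
  omega

theorem thm_BoE (_ : MDR.St_Sg) : St_BoE := by
  intro G ι _ _ s f hG hAE hs
  have hAS := hAE.1
  by_cases hn : (FS s f).card < 12
  · right
    have hW := BoE_Wcard hG hAE hs hn
    have hWs : 1 < ((BoW s f).erase s).card := by
      have := Finset.pred_card_le_card_erase (s := BoW s f) (a := s)
      omega
    obtain ⟨T1, hT1, T2, hT2, hT12⟩ := one_lt_card.1 hWs
    obtain ⟨hT1s, hT1W⟩ := mem_erase.1 hT1
    obtain ⟨hT2s, hT2W⟩ := mem_erase.1 hT2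
    obtain ⟨T3, hT3W, hT3n⟩ : ∃ T3 ∈ BoW s f, T3 ∉ ({T1, T2} : Finset (Finset ι)) := by
      refine Finset.exists_mem_notMem_of_card_lt_card ?_
      have := card_le_two (a := T1) (b := T2)
      omega
    rw [mem_insert, mem_singleton, not_or] at hT3n
    obtain ⟨w1, x1, g1, hg1, r1⟩ := Bo_W3 hAS hT1W
    obtain ⟨w2, x2, g2, hg2, r2⟩ := Bo_W3 hAS hT2W
    obtain ⟨w3, x3, g3, hg3, r3⟩ := Bo_W3 hAS hT3W
    obtain ⟨p, hp, hT1p⟩ := (Bo_erase hs w1 x1).resolve_left hT1s
    obtain ⟨q, hq, hT2q⟩ := (Bo_erase hs w2 x2).resolve_left hT2s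
    have hpq : p ≠ q := fun h => hT12 (by rw [hT1p, hT2q, h])
    have hc2 : ((s.erase p).erase q).card = 2 := by
      rw [card_erase_of_mem (mem_erase.2 ⟨hpq.symm, hq⟩), card_erase_of_mem hp, hs]
    obtain ⟨i, j, hij, hijs⟩ := card_eq_two.1 hc2
    have hi : i ∈ (s.erase p).erase q := by rw [hijs]; exact mem_insert_self i _
    have hj : j ∈ (s.erase p).erase q := by
      rw [hijs]
      exact mem_insert_of_mem (mem_singleton_self j)
    obtain ⟨hiq, hi'⟩ := mem_erase.1 hi
    obtain ⟨hip, his⟩ := mem_erase.1 hi'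
    obtain ⟨hjq, hj'⟩ := mem_erase.1 hj
    obtain ⟨hjp, hjs⟩ := mem_erase.1 hj'
    have hsp : s.erase p = {i, j, q} := by
      rw [← insert_erase (mem_erase.2 ⟨hpq.symm, hq⟩ : q ∈ s.erase p), hijs]
      ext x
      simp only [mem_insert, mem_singleton]
      tauto
    have hsq : s.erase q = {i, j, p} := by
      rw [← insert_erase (mem_erase.2 ⟨hpq, hp⟩ : p ∈ s.erase q), erase_right_comm, hijs]
      ext x
      simp only [mem_insert, mem_singleton]
      tauto
    have hss : s = {i, j, p, q} := by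
      rw [← insert_erase hp, hsp]
      ext x
      simp only [mem_insert, mem_singleton]
      tauto
    have sum3 : ∀ (g : ι → G) (x y z : ι), x ≠ y → x ≠ z → y ≠ z →
        ∑ k ∈ ({x, y, z} : Finset ι), g k = g x + (g y + g z) := by
      intro g x y z hxy hxz hyz
      rw [sum_insert (by simp [hxy, hxz]), sum_pair hyz]
    have R1 : BoR3 (f i) (f j) (f q) := by
      rw [hT1p, hsp, sum3 g1 i j q hij hiq hjq] at r1
      exact ⟨_, _, _, hg1 i, hg1 j, hg1 q, r1⟩
    have R2 : BoR3 (f i) (f j) (f p) := by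
      rw [hT2q, hsq, sum3 g2 i j p hij hip hjp] at r2
      exact ⟨_, _, _, hg2 i, hg2 j, hg2 p, r2⟩
    have R3 : BoR3 (f i) (f p) (f q) ∨ BoR3 (f j) (f p) (f q) ∨
        BoR4 (f i) (f j) (f p) (f q) := by
      rcases Bo_erase hs w3 x3 with hT3 | ⟨r, hr, hT3⟩
      · right; right
        rw [hT3, hss, sum_insert (by simp [hij, hip, hiq]), sum3 g3 j p q hjp hjq hpq] at r3
        exact ⟨_, _, _, _, hg3 i, hg3 j, hg3 p, hg3 q, r3⟩
      · have hrp : r ≠ p := fun h => hT3n.1 (by rw [hT3, hT1p, h])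
        have hrq : r ≠ q := fun h => hT3n.2 (by rw [hT3, hT2q, h])
        rw [hss, mem_insert, mem_insert, mem_insert, mem_singleton] at hr
        rcases hr with rfl | rfl | hr | hr
        · right; left
          have hT : s.erase r = {j, p, q} := by
            rw [hss, erase_insert (by simp [hij, hip, hiq])]
          rw [hT3, hT, sum3 g3 j p q hjp hjq hpq] at r3
          exact ⟨_, _, _, hg3 j, hg3 p, hg3 q, r3⟩
        · left
          have hT : s.erase r = {i, p, q} := by
            rw [hss]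
            ext x
            simp only [mem_erase, mem_insert, mem_singleton]
            constructor
            · rintro ⟨h1, h3⟩
              tauto
            · rintro (rfl | rfl | rfl)
              · exact ⟨hij, by tauto⟩
              · exact ⟨hrp.symm, by tauto⟩
              · exact ⟨hrq.symm, by tauto⟩
          rw [hT3, hT, sum3 g3 i p q hip hiq hpq] at r3
          exact ⟨_, _, _, hg3 i, hg3 p, hg3 q, r3⟩
        · exact absurd hr hrp
        · exact absurd hr hrq
    have hP : BoP (f i) (f j) (f p) (f q) :=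
      Bo_full (hAS.1 i his) (hAS.1 j hjs) (Bo_cap hAS his hjs hij)
        (Bo_cap hAS hp his hip.symm) (Bo_cap hAS hq his hiq.symm)
        (Bo_cap hAS hp hjs hjp.symm) (Bo_cap hAS hq hjs hjq.symm) (Bo_cap hAS hp hq hpq)
        R2 R1 R3
    have hmem : ∀ x ∈ s, f x = f i ∨ f x = f j ∨ f x = f p ∨ f x = f q := by
      intro x hx
      rw [hss, mem_insert, mem_insert, mem_insert, mem_singleton] at hx
      rcases hx with rfl | rfl | rfl | rfl
      · exact Or.inl rfl
      · exact Or.inr (Or.inl rfl)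
      · exact Or.inr (Or.inr (Or.inl rfl))
      · exact Or.inr (Or.inr (Or.inr rfl))
    rcases hP with ⟨d, hd⟩ | ⟨p', z, hp', hp3, hz⟩
    · left
      refine ⟨d, fun x hx => ?_⟩
      rw [hs]
      exact hd _ (hmem x hx)
    · right
      exact ⟨p', z, hp', hp3, fun x hx => hz _ (hmem x hx)⟩
  · left
    exact not_lt.1 hn

end Pool.Agent.SSE
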