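import Pool.Agent.SSE.St2

/-!
# SSE, C2s: second conclusion of the engine, induction step
-/

set_option autoImplicit false

noncomputable section

open Finset Pool.Agent.Helper64.Rho Pool.Agent.SDG Pool.Agent.MDR Pool.Agent.SSC
open scoped Classical Pointwise

namespace Pool.Agent.SSE

private theorem C2s_sep {G ι : Type} [AddCommGroup G] {u : Finset ι} {f : ι → G} {i : ι}
    (h : ∀ M : AddSubgroup G, M ≠ ⊤ → M.index ≠ 2 → 3 ≤ (outs u f M).card) : Sep (u.erase i) f := by
  intro M hM hM2
  have h1 := h M hM hM2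
  have h2 : (outs u f M).erase i ⊆ outs (u.erase i) f M := by
    intro j hj
    unfold outs at hj ⊢
    rw [mem_erase, mem_filter] at hj
    rw [mem_filter, mem_erase]
    exact ⟨⟨hj.1, hj.2.1⟩, hj.2.2⟩
  have h3 := Finset.card_le_card h2
  have h4 := Finset.pred_card_le_card_erase (s := outs u f M) (a := i)
  omega

private theorem C2s_reg {G ι : Type} [AddCommGroup G] [Finite G] {u v : Finset ι} {f : ι → G}
    (h : Reg v f) (huv : u ⊆ v) : Reg u f := fun w hw K hK h1 h2 => h w (hw.trans huv) K hK h1 h2

/-- a member outside the doubles of a nearly filling subgroup -/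
private theorem C2s_out {G ι : Type} [AddCommGroup G] [Finite G] {u : Finset ι} {f : ι → G}
    (hCy : St_Cy) (hcyc : IsAddCyclic G) (hgen : gen u f = ⊤) (K : AddSubgroup G) (hK : K ≠ ⊤)
    (D : Finset G) (l : ℕ) (h0 : (0 : G) ∈ D) (hD : ∀ i ∈ u, f i ∈ D) (hDc : D.card = 2 * l + 3)
    (hst : (st D K).card + 1 ≤ D.card + Nat.card K) (hN : 4 * l + 5 ≤ Nat.card G) :
    ∃ i ∈ u, f i + f i ∉ K := by
  by_contra hcon
  push Not at hcon
  have hall : ∀ x : G, x + x ∈ K := by
    intro x
    have hx : x ∈ gen u f := by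
      rw [hgen]
      exact AddSubgroup.mem_top x
    unfold gen at hx
    induction hx using AddSubgroup.closure_induction with
    | mem y hy =>
      obtain ⟨i, hi, rfl⟩ := hy
      exact hcon i hi
    | zero =>
      rw [add_zero]
      exact K.zero_mem
    | add x y _ _ hx hy =>
      have : x + y + (x + y) = (x + x) + (y + y) := by abel
      rw [this]
      exact K.add_mem hx hy
    | neg x _ hx =>
      have : -x + -x = -(x + x) := by abel
      rw [this]
      exact K.neg_mem hx
  have hidx : K.index = 2 := (hCy G hcyc).2.2.2.2.1 K hK hall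
  have hout : ∃ i ∈ u, f i ∉ K := by
    by_contra hc
    push Not at hc
    apply hK
    rw [eq_top_iff, ← hgen]
    unfold gen
    rw [AddSubgroup.closure_le]
    rintro _ ⟨i, hi, rfl⟩
    exact hc i hi
  obtain ⟨i, hi, hiK⟩ := hout
  have hfull : ∀ x : G, x ∈ st D K := by
    intro x
    unfold st
    simp only [Set.Finite.mem_toFinset, Set.mem_ofPred_eq]
    by_cases hx : x ∈ K
    · exact ⟨0, h0, by rwa [sub_zero]⟩
    · refine ⟨f i, hD i hi, ?_⟩
      rw [sub_eq_add_neg, AddSubgroup.add_mem_iff_of_index_two hidx]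
      constructor
      · intro h
        exact absurd h hx
      · intro h
        rw [neg_mem_iff] at h
        exact absurd h hiK
  have hcard : Nat.card G ≤ (st D K).card := by
    have hft := Fintype.ofFinite G
    rw [Nat.card_eq_fintype_card, ← Finset.card_univ]
    exact Finset.card_le_card fun x _ => hfull x
  have hmul : Nat.card K * K.index = Nat.card G := K.card_mul_index
  rw [hidx] at hmul
  omega

/-- [C2s] -/
theorem thm_C2s (hBa : Pool.Agent.SDG.St_Ba1) (hSy : St_SyE) (hPg : St_PgE) (hEx : St_ExE)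
    (hA2N : St_A2N) (hA2E : St_A2E) (hGw : St_GwE) (hGe : St_Ge) (hKx : St_KxE) (hGm : St_GmE)
    (hDr : St_DrE) (hDp : St_Dp) (hGr : St_GrE) (hCy : St_Cy) : St_C2s := by
  intro l hl hPE hC1' hC1 hC2' G ι _ _ v f e hcyc he hvc hAE hAp hgen hReg hSep hN hNl hX hV
  by_contra hcon
  rw [not_or] at hcon
  obtain ⟨hnP, hnE⟩ := hcon
  obtain ⟨hv1, hv2, hv3, hv4, hv5, hv6, hv7⟩ := hSy G ι v f hAE
  obtain ⟨hsymv, hfe1, hfe2, hAEu⟩ := hv7 e he
  set u := v.erase e with hu
  have huv : u ⊆ v := erase_subset _ _
  have huc : u.card = l := by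
    rw [hu, card_erase_of_mem he, hvc]
    rfl
  obtain ⟨hB1, hB2, hB3, hB4, hB5, hB6, hB7⟩ := hBa G ι f
  have hApu : Aper (FS u f) := hB2 v u huv hAp
  have hRegu : Reg u f := C2s_reg hReg huv
  set X := FS u f with hXd
  -- the number of sums
  have hx1 : 2 + l * (l + 1) ≤ 2 * X.card := by
    rcases hC1 G ι u f hcyc huc hAEu hApu hgen hRegu hSep hN with h | h
    · exact h
    · exact absurd h hnE
  have hx : 2 * X.card = 2 + l * (l + 1) := le_antisymm hX hx1
  obtain ⟨w, rfl⟩ : ∃ w, l = w + 1 := ⟨l - 1, by omega⟩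
  rw [Nat.add_sub_cancel] at hC1' hC2'
  have h3 : ∀ M : AddSubgroup G, M ≠ ⊤ → M.index ≠ 2 → 3 ≤ (outs u f M).card := by
    intro M hM hM2
    have h1 := hSep M hM hM2
    have h2 := hDr G ι u f M (by rw [huc]; exact hPE) hcyc hAEu hApu hgen (by omega)
      (by rw [huc]; exact hX) hM2
    omega
  obtain ⟨hu1, hu2, hu3, hu4, hu5, hu6, hu7⟩ := hSy G ι u f hAEu
  -- members of u
  have hlam : ∀ i ∈ u, lam X (f i) ≤ w := by
    intro i hi
    obtain ⟨-, -, -, hAE'⟩ := hu7 i hi
    have huc' : (u.erase i).card = w := by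
      rw [card_erase_of_mem hi, huc]
      rfl
    have hgen' : gen (u.erase i) f = ⊤ := by
      by_contra hg
      have h1 := hDp w (by omega) hC1' G ι u f i hcyc hAEu hApu hgen hRegu h3 hN huc hi hg
      rw [huc, hx] at h1
      omega
    have hSep' : Sep (u.erase i) f := C2s_sep h3
    have hReg' : Reg (u.erase i) f := C2s_reg hRegu (erase_subset _ _)
    have hAp' : Aper (FS (u.erase i) f) := hB2 u _ (erase_subset _ _) hApu
    have hN' : 2 * (FS (u.erase i) f).card ≤ Nat.card G := by
      have h0 := Finset.card_le_card (FS_mono (erase_subset i u) f)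
      rw [← hXd] at h0
      omega
    have hnE' : ¬ Exc f (u.erase i) := by
      rintro ⟨K, a, hK⟩
      rcases hKx G ι u f K a i hAEu hApu hi hK (Or.inr hN) with h | h
      · exact hnE h
      · rw [huc, hx] at h
        omega
    have hlow : 2 + w * (w + 1) ≤ 2 * (FS (u.erase i) f).card := by
      rcases hC1' G ι (u.erase i) f hcyc huc' hAE' hAp' hgen' hReg' hSep' hN' with h | h
      · exact h
      · exact absurd h hnE'
    have hlow2 : 2 + w * (w + 1) < 2 * (FS (u.erase i) f).card := by
      by_contra hle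
      rw [not_lt] at hle
      rcases hC2' G ι u f i hcyc hi huc hAEu hApu hgen' hRegu hSep' hN' (by nlinarith) hle
        (by rw [← hXd, hx]) with hP | hP
      · have h6 := (hEx G ι u f i hAEu.1 hi (by omega) hP hgen' (by
          rw [huc, Nat.add_sub_cancel]
          nlinarith)).2
        exact hnP (h6 (by rw [huc]; exact hX))
      · exact hnE' hP
    have h7 := hB3 u i hi
    rw [← hXd] at h7
    nlinarith
  have hlamD : ∀ y ∈ sym u f, lam X y ≤ w := hu5 X w hlam
  have hlame : lam X (f e) ≤ w + 2 := by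
    have h1 : v = insert e u := by
      rw [hu, insert_erase he]
    have h2 : FS v f = X ∪ X.image (· + f e) := by
      rw [h1, FS_insert (notMem_erase e v) f]
    have h4 : (FS v f).card = X.card + lam X (f e) := by
      rw [h2, card_union_shift]
    nlinarith
  have hlamD2 : ∀ y ∈ sym v f, lam X y ≤ w + 1 + 1 := by
    intro y hy
    rw [hsymv, mem_union, mem_insert, mem_singleton] at hy
    rcases hy with h | rfl | rfl
    · have := hlamD y h
      omega
    · exact hlame
    · rw [lam_neg]
      exact hlame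
  have hNb : 7 * (w + 1) ≤ Nat.card G := by nlinarith
  rw [huc] at hu1
  rw [hvc] at hv1
  rcases hGr G ι u f hcyc hAEu hApu hgen (by omega) hRegu (by omega) (Or.inr hN) with
    h | h | ⟨K, h, -⟩ | h | ⟨h, h'⟩ | h
  · exact hnP h
  · exact hnE h
  · have h5 : w = 4 := by
      have := h.2.1
      omega
    subst h5
    have h6 := hGm G ι v f e K hcyc hAE hAp he h (by omega)
    omega
  · rw [huc, ← hXd, hx] at h
    omega
  · have hg := hGw G (sym u f) (w + 1) hcyc (by omega) hu2 hu3 hu1 h h'
    have hge := hGe G (sym u f) (sym v f) (f e) (w + 1) hcyc (by omega) hu2 hu3 hsymv hu1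
      (by rw [hv1]; ring) (by rw [hu4]; exact hgen) h h' (by
        intro K hNF
        obtain ⟨hK0, hK1, hKst⟩ := hNF
        obtain ⟨i, hi, hiK⟩ := C2s_out hCy hcyc hgen K hK1 (sym v f) (w + 1) hv2 (by
            intro i hi
            unfold sym
            rw [mem_union, mem_union, mem_image]
            exact Or.inr (Or.inl ⟨i, huv hi, rfl⟩)) (by rw [hv1]; ring) hKst (by omega)
        refine ⟨hReg v (Subset.refl v) K hK0 ⟨i, huv hi, hiK⟩ hKst, f i, ?_, hiK⟩
        unfold sym
        rw [mem_union, mem_union, mem_image]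
        exact Or.inr (Or.inl ⟨i, huv hi, rfl⟩))
    refine hA2E G X (sym u f) (sym v f) (w + 1) hu2 (by rw [hsymv]; exact subset_union_left) hl
      (fun y hy => by have := hlamD y hy; omega) hlamD2 hx ?_ ?_
    · intro i hi
      have hiv := (hCy G hcyc).2.2.2.2.2.2 (it (sym u f) i)
      rcases hg i hi with h7 | h7
      · left
        omega
      · right
        omega
    · intro i
      rcases hge i with h7 | h7
      · left
        omega
      · right
        exact h7
  · refine hA2N G X (sym u f) (w + 1) hu2 hl (fun y hy => by have := hlamD y hy; omega) hx hu1 ?_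
    intro i hi
    rcases h i hi with h7 | h7 | h7
    · left
      omega
    · right
      left
      rw [huc] at h7
      exact h7
    · right
      right
      rw [huc] at h7
      exact h7

end Pool.Agent.SSE
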