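import Pool.Agent.SSE.St2

/-!
# SSE, module C4: the engine, four members
-/

set_option autoImplicit false

noncomputable section

open Finset Pool.Agent.Helper64.Rho Pool.Agent.SDG Pool.Agent.MDR Pool.Agent.SSC
open scoped Classical Pointwise

namespace Pool.Agent.SSE

/-- the members of the group generated by `h` of order three -/
private lemma C4mem {G : Type} [AddCommGroup G] (h x : G) (h3 : (3 : ℕ) • h = 0)
    (hx : x ∈ AddSubgroup.zmultiples h) : x = 0 ∨ x = h ∨ x = -h := by
  obtain ⟨n, rfl⟩ := AddSubgroup.mem_zmultiples_iff.1 hx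
  have h3' : (3 : ℤ) • h = 0 := by
    have : (3 : ℤ) • h = (3 : ℕ) • h := by
      rw [← natCast_zsmul]; rfl
    rw [this, h3]
  have hdiv : n • h = (n % 3) • h := by
    conv_lhs => rw [← Int.emod_add_mul_ediv n 3]
    rw [add_zsmul, mul_comm, mul_zsmul, h3', smul_zero, add_zero]
  have h0 : 0 ≤ n % 3 := Int.emod_nonneg _ (by norm_num)
  have h2 : n % 3 < 3 := Int.emod_lt_of_pos _ (by norm_num)
  rw [hdiv]
  have : n % 3 = 0 ∨ n % 3 = 1 ∨ n % 3 = 2 := by omega
  rcases this with e | e | e
  · left; rw [e, zero_zsmul]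
  · right; left; rw [e, one_zsmul]
  · right; right
    rw [e]
    have : (2 : ℤ) • h = (3 : ℤ) • h - h := by
      rw [show (3 : ℤ) = 2 + 1 by norm_num, add_zsmul, one_zsmul, add_sub_cancel_right]
    rw [this, h3', zero_sub]

private lemma C4card {G : Type} [AddCommGroup G] (h : G) (h0 : h ≠ 0) (h3 : (3 : ℕ) • h = 0) :
    Nat.card (AddSubgroup.zmultiples h) = 3 := by
  rw [Nat.card_zmultiples]
  exact addOrderOf_eq_prime h3 h0

/-- the cyclic quotient -/
private lemma C4cyc {G ι : Type} [AddCommGroup G] [Finite G] (u : Finset ι) (f : ι → G)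
    (K : AddSubgroup G) (z : G) (hgen : gen u f = ⊤)
    (hf : ∀ i ∈ u, f i ∈ K ∨ f i - z ∈ K ∨ f i + z ∈ K) (x : G) : ∃ k : ℕ, x - k • z ∈ K := by
  have hle : gen u f ≤ K ⊔ AddSubgroup.zmultiples z := by
    unfold gen
    rw [AddSubgroup.closure_le]
    rintro y ⟨i, hi, rfl⟩
    have hz : z ∈ K ⊔ AddSubgroup.zmultiples z :=
      (le_sup_right : _ ≤ K ⊔ AddSubgroup.zmultiples z) (AddSubgroup.mem_zmultiples z)
    have hK : ∀ w ∈ K, w ∈ K ⊔ AddSubgroup.zmultiples z := fun w hw =>
      (le_sup_left : _ ≤ K ⊔ AddSubgroup.zmultiples z) hw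
    rcases hf i hi with h | h | h
    · exact hK _ h
    · have := AddSubgroup.add_mem _ (hK _ h) hz
      rw [sub_add_cancel] at this
      exact this
    · have := AddSubgroup.sub_mem _ (hK _ h) hz
      rw [add_sub_cancel_right] at this
      exact this
  have hx : x ∈ K ⊔ AddSubgroup.zmultiples z := hle (hgen ▸ AddSubgroup.mem_top x)
  obtain ⟨y, hy, w, hw, rfl⟩ := AddSubgroup.mem_sup.1 hx
  have hw' : w ∈ AddSubmonoid.multiples z := by
    rw [mem_multiples_iff_mem_zmultiples]; exact hw
  obtain ⟨k, hk⟩ := AddSubmonoid.mem_multiples_iff _ _ |>.1 hw'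
  exact ⟨k, by rw [hk, add_sub_cancel_right]; exact hy⟩

/-- four members of the exceptional type -/
private lemma C4four {G ι : Type} [AddCommGroup G] [Finite G] (u : Finset ι) (f : ι → G) (hAS : AS u f)
    (hgen : gen u f = ⊤) (hc : u.card = 4) (h z : G) (h0 : h ≠ 0) (h3 : (3 : ℕ) • h = 0)
    (hf : ∀ i ∈ u, f i = h ∨ f i = -h ∨ f i = z ∨ f i = -z ∨ f i = z + h ∨ f i = -(z + h) ∨ f i = z - h ∨
      f i = -(z - h)) : Exc f u := by
  set K := AddSubgroup.zmultiples h with hKdef
  have hhK : h ∈ K := AddSubgroup.mem_zmultiples h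
  have hcap := hAS.2
  have hz : z ∉ K := by
    intro hzK
    have hall : ∀ i ∈ u, f i = h ∨ f i = -h := by
      intro i hi
      have hfK : f i ∈ K := by
        rcases hf i hi with e | e | e | e | e | e | e | e <;> rw [e]
        · exact hhK
        · exact K.neg_mem hhK
        · exact hzK
        · exact K.neg_mem hzK
        · exact K.add_mem hzK hhK
        · exact K.neg_mem (K.add_mem hzK hhK)
        · exact K.sub_mem hzK hhK
        · exact K.neg_mem (K.sub_mem hzK hhK)
      rcases C4mem h _ h3 hfK with e | e | e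
      · exact absurd e (hAS.1 i hi)
      · exact Or.inl e
      · exact Or.inr e
    have h1 := hcap h
    rw [Finset.filter_true_of_mem hall, hc] at h1
    omega
  have hplus : z + h ∉ K := fun e => hz (by
    have := K.sub_mem e hhK
    rwa [add_sub_cancel_right] at this)
  have hminus : z - h ∉ K := fun e => hz (by
    have := K.add_mem e hhK
    rwa [sub_add_cancel] at this)
  have hneg : ∀ w : G, w ∉ K → -w ∉ K := fun w hw e => hw (by
    have := K.neg_mem e
    rwa [neg_neg] at this)
  have hins : ins u f K ⊆ u.filter fun i => f i = h ∨ f i = -h := by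
    intro i hi
    rw [ins, Finset.mem_filter] at hi
    rw [Finset.mem_filter]
    refine ⟨hi.1, ?_⟩
    rcases C4mem h _ h3 hi.2 with e | e | e
    · exact absurd e (hAS.1 i hi.1)
    · exact Or.inl e
    · exact Or.inr e
  have hins1 : (ins u f K).card ≤ 1 := (Finset.card_le_card hins).trans (hcap h)
  have houts : outs u f K ⊆ (u.filter fun i => f i = z ∨ f i = -z) ∪
      ((u.filter fun i => f i = z + h ∨ f i = -(z + h)) ∪ (u.filter fun i => f i = z - h ∨ f i = -(z - h))) := by
    intro i hi
    rw [outs, Finset.mem_filter] at hi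
    simp only [Finset.mem_union, Finset.mem_filter]
    have hi1 := hi.1
    rcases hf i hi.1 with e | e | e | e | e | e | e | e
    · exact absurd (e ▸ hhK) hi.2
    · exact absurd (e ▸ K.neg_mem hhK) hi.2
    · exact Or.inl ⟨hi1, Or.inl e⟩
    · exact Or.inl ⟨hi1, Or.inr e⟩
    · exact Or.inr (Or.inl ⟨hi1, Or.inl e⟩)
    · exact Or.inr (Or.inl ⟨hi1, Or.inr e⟩)
    · exact Or.inr (Or.inr ⟨hi1, Or.inl e⟩)
    · exact Or.inr (Or.inr ⟨hi1, Or.inr e⟩)
  have houts3 : (outs u f K).card ≤ 3 := by
    refine (Finset.card_le_card houts).trans ?_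
    refine (Finset.card_union_le _ _).trans ?_
    have h2 := Finset.card_union_le (u.filter fun i => f i = z + h ∨ f i = -(z + h))
      (u.filter fun i => f i = z - h ∨ f i = -(z - h))
    have h4 := hcap z
    have h5 := hcap (z + h)
    have h6 := hcap (z - h)
    omega
  have hsum : (ins u f K).card + (outs u f K).card = 4 := by
    rw [ins, outs, ← hc]
    exact Finset.card_filter_add_card_filter_not _
  have hlev : ∀ i ∈ u, f i ∈ K ∨ f i - z ∈ K ∨ f i + z ∈ K := by
    intro i hi
    rcases hf i hi with e | e | e | e | e | e | e | e <;> rw [e]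
    · exact Or.inl hhK
    · exact Or.inl (K.neg_mem hhK)
    · right; left; rw [sub_self]; exact K.zero_mem
    · right; right; rw [neg_add_cancel]; exact K.zero_mem
    · right; left
      have : z + h - z = h := by abel
      rw [this]; exact hhK
    · right; right
      have : -(z + h) + z = -h := by abel
      rw [this]; exact K.neg_mem hhK
    · right; left
      have : z - h - z = -h := by abel
      rw [this]; exact K.neg_mem hhK
    · right; right
      have : -(z - h) + z = h := by abel
      rw [this]; exact hhK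
  refine ⟨K, 1, C4card h h0 h3, by omega, le_refl 1, z, fun _ => 1, ?_, ?_, ?_, ?_⟩
  · exact C4cyc u f K z hgen hlev
  · intro i hi
    rw [outs, Finset.mem_filter] at hi
    refine ⟨le_refl 1, by norm_num, ?_⟩
    rcases hlev i hi.1 with e | e | e
    · exact absurd e hi.2
    · left; rw [one_smul]; exact e
    · right; rw [one_smul]; exact e
  · intro k hk1 hk2
    have hk : k = 1 := by omega
    subst hk
    rw [Finset.filter_true_of_mem (fun _ _ => rfl)]
    omega
  · rw [Finset.filter_false_of_mem (fun _ _ => by norm_num)]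
    simp

private lemma C4sub {G ι : Type} [AddCommGroup G] {u v : Finset ι} {f : ι → G} (hv : v ⊆ u) (hA : AE u f) :
    AE v f :=
  ⟨⟨fun i hi => hA.1.1 i (hv hi), fun x =>
    (Finset.card_le_card (Finset.filter_subset_filter _ hv)).trans (hA.1.2 x)⟩, fun i hi => hA.2 i (hv hi)⟩

theorem thm_C4 : St_PgE → St_BoE → St_C4 := by
  intro hPg hBo
  refine ⟨?_, ?_⟩
  · intro G ι _ _ u f hcyc hc hAE hAp hgen _ _ _
    rcases hBo G ι u f hcyc hAE hc with h | h | ⟨h, z, h0, h3, hf⟩
    · left
      omega
    · left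
      obtain ⟨d, c, -, -, -, -, h5⟩ := hPg G ι u f hAE.1 (by omega) h
      have h6 := h5 hAp
      rw [hc] at h6
      omega
    · right
      exact C4four u f hAE.1 hgen hc h z h0 h3 hf
  · intro G ι _ _ v f e hcyc he hc hAE _ hgen _ _ _ _ h5 _
    have hc' : (v.erase e).card = 4 := by
      rw [Finset.card_erase_of_mem he, hc]
    rcases hBo G ι (v.erase e) f hcyc (C4sub (Finset.erase_subset _ _) hAE) hc' with
      h | h | ⟨h, z, h0, h3, hf⟩
    · omega
    · exact Or.inl h
    · right
      exact C4four (v.erase e) f (C4sub (Finset.erase_subset _ _) hAE).1 hgen hc' h z h0 h3 hf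

end Pool.Agent.SSE
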