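import Pool.Agent.SSE.St2
import Pool.Agent.SSC.Ct

/-!
# SSE, module Cn: counting by levels, the subgroup arbitrary (helper36)

Adapted from Pool/Agent/SSC/Ct.lean.
-/

set_option autoImplicit false

noncomputable section

open Finset Pool.Agent.Helper64.Rho Pool.Agent.SDG Pool.Agent.MDR Pool.Agent.SSC
open scoped Classical Pointwise

namespace Pool.Agent.SSE

/-- the levels below `K.index` are disjoint -/
private theorem Cn_sum {G : Type} [AddCommGroup G] [Finite G] (X : Finset G) (K : AddSubgroup G)
    (d : G) (h : ∀ x : G, ∃ k : ℕ, x - k • d ∈ K) (V : Finset ℕ) (hV : ∀ v ∈ V, v < K.index) :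
    ∑ v ∈ V, (X.filter fun x => x - v • d ∈ K).card ≤ X.card := by
  have key : ∀ v ∈ V, ∀ w ∈ V, v < w → ∀ x : G, x - v • d ∈ K → x - w • d ∈ K → False := by
    intro v _ w hw hvw x h1 h2
    have h3 : (w - v) • d ∈ K := by
      have e : (w - v) • d = (x - v • d) - (x - w • d) := by
        have e1 : w • d = (w - v) • d + v • d := by
          rw [← add_smul]
          congr 1
          omega
        rw [e1]
        abel
      rw [e]
      exact K.sub_mem h1 h2
    have h4 := Ct_ord K d h (w - v) (by omega) h3
    have h5 := hV w hw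
    omega
  have hdisj : ∀ v ∈ V, ∀ w ∈ V, v ≠ w →
      Disjoint (X.filter fun x => x - v • d ∈ K) (X.filter fun x => x - w • d ∈ K) := by
    intro v hv w hw hne
    rw [Finset.disjoint_left]
    intro x hx hy
    have h1 := (Finset.mem_filter.1 hx).2
    have h2 := (Finset.mem_filter.1 hy).2
    rcases Nat.lt_or_gt_of_ne hne with hl | hl
    · exact key v hv w hw hl x h1 h2
    · exact key w hw v hv hl x h2 h1
  rw [← Finset.card_biUnion hdisj]
  refine Finset.card_le_card ?_
  intro x hx
  obtain ⟨v, _, hv⟩ := Finset.mem_biUnion.1 hx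
  exact (Finset.mem_filter.1 hv).1

/-- the number of elements of `K` -/
private theorem Cn_card {G : Type} [AddCommGroup G] [Finite G] (K : AddSubgroup G) [Fintype G] :
    (Finset.univ.filter fun x : G => x ∈ K).card = Nat.card K := by
  rw [Nat.card_eq_fintype_card, ← Fintype.card_subtype]

/-- a full level has exactly `|K|` elements -/
private theorem Cn_full {G : Type} [AddCommGroup G] [Finite G] (X : Finset G) (K : AddSubgroup G)
    (d : G) (v : ℕ) (h : ∀ x ∈ K, v • d + x ∈ X) :
    (X.filter fun x => x - v • d ∈ K).card = Nat.card K := by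
  have := Fintype.ofFinite G
  rw [← Cn_card K]
  refine le_antisymm ?_ ?_
  · refine Finset.card_le_card_of_injOn (fun x => x - v • d) ?_ ?_
    · intro x hx
      have hx' := (Finset.mem_filter.1 hx).2
      exact Finset.mem_coe.2 (Finset.mem_filter.2 ⟨Finset.mem_univ _, hx'⟩)
    · intro x _ y _ hxy
      exact sub_left_injective hxy
  · refine Finset.card_le_card_of_injOn (fun x => v • d + x) ?_ ?_
    · intro x hx
      have hx' := (Finset.mem_filter.1 hx).2
      refine Finset.mem_coe.2 (Finset.mem_filter.2 ⟨h x hx', ?_⟩)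
      show v • d + x - v • d ∈ K
      rw [add_sub_cancel_left]
      exact hx'
    · intro x _ y _ hxy
      exact add_left_cancel hxy

/-- the levels `1, ..., m - 1` and the level `0` -/
private theorem Cn_low {G : Type} [AddCommGroup G] [Finite G] (X : Finset G) (K : AddSubgroup G)
    (d : G) (m : ℕ) (hm : 1 ≤ m) (hP : Per X K d m) :
    Nat.card K * (m - 1) + (X.filter fun x => x ∈ K).card ≤
      ∑ v ∈ range m, (X.filter fun x => x - v • d ∈ K).card := by
  obtain ⟨n, rfl⟩ : ∃ n, m = n + 1 := ⟨m - 1, by omega⟩
  rw [Finset.sum_range_succ']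
  have h0 : (X.filter fun x => x - 0 • d ∈ K).card = (X.filter fun x => x ∈ K).card := by
    simp only [zero_smul, sub_zero]
  rw [h0]
  have h1 : ∑ v ∈ range n, (X.filter fun x => x - (v + 1) • d ∈ K).card =
      ∑ _v ∈ range n, Nat.card K := by
    refine Finset.sum_congr rfl fun v hv => ?_
    have hv' := Finset.mem_range.1 hv
    exact Cn_full X K d (v + 1) fun x hx => hP (v + 1) (by omega) (by omega) x hx
  rw [h1, Finset.sum_const, Finset.card_range, smul_eq_mul, Nat.add_sub_cancel, Nat.mul_comm]

theorem thm_Cn : St_Cn := by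
  intro G _ _ X K d hgen
  refine ⟨fun V hV => Cn_sum X K d hgen V hV, fun v hv => Cn_full X K d v hv, ?_⟩
  intro m hP
  refine ⟨?_, ?_, ?_⟩
  · intro hq x
    obtain ⟨k, hk⟩ := hgen x
    have hq0 : K.index ≠ 0 := AddSubgroup.index_ne_zero_of_finite
    have hqd : K.index • d ∈ K := AddSubgroup.nsmul_index_mem K d
    have h1 : ∀ j : ℕ, j % K.index = k % K.index → x - j • d ∈ K := by
      intro j hj
      have e1 : ∀ i : ℕ, i • d = (i % K.index) • d + (i / K.index) • (K.index • d) := by
        intro i
        rw [smul_smul, ← add_smul]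
        congr 1
        rw [Nat.mul_comm]
        exact (Nat.mod_add_div i K.index).symm
      have e2 : x - j • d = (x - k • d) + ((k / K.index) • (K.index • d) -
          (j / K.index) • (K.index • d)) := by
        rw [e1 j, e1 k, hj]
        abel
      rw [e2]
      exact K.add_mem hk (K.sub_mem (K.nsmul_mem hqd _) (K.nsmul_mem hqd _))
    have h2 : ∃ v : ℕ, 1 ≤ v ∧ v + 1 ≤ m ∧ x - v • d ∈ K := by
      rcases Nat.eq_zero_or_pos (k % K.index) with h0 | h0
      · exact ⟨K.index, by omega, by omega, h1 _ (by rw [Nat.mod_self, h0])⟩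
      · have h3 := Nat.mod_lt k (Nat.pos_of_ne_zero hq0)
        exact ⟨k % K.index, h0, by omega, h1 _ (Nat.mod_mod _ _)⟩
    obtain ⟨v, v1, v2, v3⟩ := h2
    have h4 := hP v v1 v2 _ v3
    rwa [add_sub_cancel] at h4
  · intro hm hq
    have h1 := Cn_sum X K d hgen (range m) fun v hv => by
      have := Finset.mem_range.1 hv
      omega
    exact le_trans (Cn_low X K d m hm hP) h1
  · intro hm hq
    have h1 := Cn_sum X K d hgen (range (m + 1)) fun v hv => by
      have := Finset.mem_range.1 hv
      omega
    rw [Finset.sum_range_succ] at h1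
    exact le_trans (Nat.add_le_add_right (Cn_low X K d m hm hP) _) h1

end Pool.Agent.SSE
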