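import Pool.Agent.SSE.St

/-!
# SSE ExE: progression plus one element
-/

set_option autoImplicit false

noncomputable section

open Finset Pool.Agent.Helper64.Rho Pool.Agent.SDG Pool.Agent.MDR Pool.Agent.SSC
open scoped Classical Pointwise

namespace Pool.Agent.SSE

private theorem ExE_card (L a : ℕ) : L + min a L ≤ (range L ∪ (range L).image (· + a)).card := by
  have h1 : Disjoint (range L) (Ico (max L a) (L + a)) := by
    rw [disjoint_left]
    intro x hx hx'
    rw [mem_range] at hx
    rw [mem_Ico] at hx'
    omega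
  have h2 : range L ∪ Ico (max L a) (L + a) ⊆ range L ∪ (range L).image (· + a) := by
    apply union_subset_union (Subset.refl _)
    intro x hx
    rw [mem_Ico] at hx
    exact mem_image.2 ⟨x - a, mem_range.2 (by omega), by omega⟩
  have h3 := card_le_card h2
  rw [card_union_of_disjoint h1, card_range, Nat.card_Ico] at h3
  omega

private theorem ExE_rep {G : Type} [AddCommGroup G] [Finite G] (d x : G)
    (hgen : AddSubgroup.zmultiples d = ⊤) (hx : x ≠ 0) : ∃ a : ℕ, 1 ≤ a ∧ 2 * a ≤ Nat.card G ∧
      (x = a • d ∨ x = -(a • d)) := by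
  have hord : addOrderOf d = Nat.card G := by
    rw [← Nat.card_zmultiples, hgen]
    exact Nat.card_congr AddSubgroup.topEquiv.toEquiv
  have hN : 0 < Nat.card G := Nat.card_pos
  have h1 : x ∈ AddSubgroup.zmultiples d := by rw [hgen]; trivial
  obtain ⟨r, hr1, hr2⟩ : ∃ r : ℕ, r < Nat.card G ∧ r • d = x := by
    rw [← hord]
    have h2 := (mem_zmultiples_iff_mem_range_addOrderOf (x := d) (y := x)).1 h1
    obtain ⟨r, hr, hrx⟩ := mem_image.1 h2
    exact ⟨r, mem_range.1 hr, hrx⟩
  rcases Nat.lt_or_ge (Nat.card G) (2 * r) with h | h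
  · refine ⟨Nat.card G - r, by omega, by omega, Or.inr ?_⟩
    have h3 : (Nat.card G - r) • d + r • d = 0 := by
      rw [← add_smul, Nat.sub_add_cancel hr1.le, ← hord, addOrderOf_nsmul_eq_zero]
    rw [← hr2]
    exact eq_neg_of_add_eq_zero_right h3
  · refine ⟨r, ?_, by omega, Or.inl hr2.symm⟩
    rcases Nat.eq_zero_or_pos r with h0 | h0
    · subst h0
      rw [zero_smul] at hr2
      exact absurd hr2.symm hx
    · exact h0

private theorem ExE_inj {G : Type} [AddCommGroup G] [Finite G] (d c : G)
    (hgen : AddSubgroup.zmultiples d = ⊤) (S : Finset ℕ) (hS : ∀ k ∈ S, k < Nat.card G) :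
    (S.image fun k : ℕ => c + k • d).card = S.card := by
  have hord : addOrderOf d = Nat.card G := by
    rw [← Nat.card_zmultiples, hgen]
    exact Nat.card_congr AddSubgroup.topEquiv.toEquiv
  apply card_image_of_injOn
  intro a ha b hb hab
  have h1 : a • d = b • d := add_left_cancel hab
  rw [nsmul_eq_nsmul_iff_modEq, hord] at h1
  exact Nat.ModEq.eq_of_lt_of_lt h1 (hS a ha) (hS b hb)

theorem thm_ExE : St_PgE → St_ExE := by
  intro hPg G ι _ _ s f i hAS hi hcard hP hgen hN
  have hcard' : (s.erase i).card = s.card - 1 := card_erase_of_mem hi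
  have hAS' : AS (s.erase i) f := by
    refine ⟨fun j hj => hAS.1 j (mem_of_mem_erase hj), fun x => ?_⟩
    exact (card_le_card (filter_subset_filter _ (erase_subset i s))).trans (hAS.2 x)
  obtain ⟨d, c, hFS, hmem, hall, hgd, -⟩ := hPg G ι (s.erase i) f hAS' (by omega) hP
  rw [hgen] at hgd
  obtain ⟨a, ha1, ha2, hfa⟩ := ExE_rep d (f i) hgd.symm (hAS.1 i hi)
  obtain ⟨l, hl⟩ : ∃ l, s.card = l + 1 := ⟨s.card - 1, by omega⟩
  rw [hcard', hl] at hFS
  rw [hl] at hN hcard
  have hal : l + 1 ≤ a := by
    by_contra hcon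
    obtain ⟨j, hj, hfj⟩ := hall a ha1 (by omega)
    have hji : j ≠ i := ne_of_mem_erase hj
    have h1 : ({i, j} : Finset ι) ⊆ s.filter fun b => f b = a • d ∨ f b = -(a • d) := by
      intro b hb
      rw [mem_insert, mem_singleton] at hb
      rcases hb with rfl | rfl
      · exact mem_filter.2 ⟨hi, hfa⟩
      · exact mem_filter.2 ⟨mem_of_mem_erase hj, hfj⟩
    have h2 := (card_le_card h1).trans (hAS.2 (a • d))
    rw [card_pair (Ne.symm hji)] at h2
    omega
  have e1 : l + 1 - 1 = l := by omega
  rw [e1] at hFS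
  have e2 : (l + 1) * (l + 1 - 1) = l * (l + 1) := by rw [e1]; ring
  rw [e2] at hN
  have heven : 2 * (l * (l + 1) / 2) = l * (l + 1) :=
    Nat.mul_div_cancel' (Nat.even_mul_succ_self l).two_dvd
  set L := l * (l + 1) / 2 + 1 with hL
  have hLl : l + 2 ≤ L := by
    have : 3 * l ≤ l * (l + 1) := by nlinarith
    omega
  -- the set of sums
  have hins : insert i (s.erase i) = s := insert_erase hi
  have hform : ∃ c' : G, FS s f =
      (range L ∪ (range L).image (· + a)).image fun k : ℕ => c' + k • d := by
    have h1 : FS s f = FS (s.erase i) f ∪ (FS (s.erase i) f).image (· + f i) := by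
      conv_lhs => rw [← hins]
      exact FS_insert (notMem_erase i s) f
    rcases hfa with h2 | h2
    · refine ⟨c, ?_⟩
      rw [h1, hFS, image_union, image_image, image_image]
      congr 1
      apply image_congr
      intro k _
      simp only [Function.comp]
      rw [h2, add_smul, add_assoc]
    · refine ⟨c - a • d, ?_⟩
      rw [h1, hFS, image_union, image_image, image_image, union_comm]
      congr 1
      · apply image_congr
        intro k _
        simp only [Function.comp]
        rw [h2]
        abel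
      · apply image_congr
        intro k _
        simp only [Function.comp]
        rw [add_smul]
        abel
  obtain ⟨c', hc'⟩ := hform
  have hbig : L + min a L ≤ (FS s f).card := by
    rw [hc', ExE_inj d c' hgd.symm]
    · exact ExE_card L a
    · intro k hk
      rcases mem_union.1 hk with h | h
      · have := mem_range.1 h
        omega
      · obtain ⟨k', hk', rfl⟩ := mem_image.1 h
        have := mem_range.1 hk'
        omega
  have e3 : (l + 1) * (l + 1 + 1) = l * (l + 1) + 2 * (l + 1) := by ring
  rw [hl, e3]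
  have hmin : l + 1 ≤ min a L := le_min hal (by omega)
  refine ⟨by omega, ?_⟩
  intro hle
  have hmin2 : min a L ≤ l + 1 := by omega
  have hal2 : a = l + 1 := by
    rcases min_le_iff.1 hmin2 with h | h
    · omega
    · omega
  refine ⟨d, fun j hj => ?_⟩
  by_cases hji : j = i
  · subst hji
    exact ⟨a, ha1, by omega, hfa⟩
  · obtain ⟨k, hk1, hk2, hk3⟩ := hmem j (mem_erase.2 ⟨hji, hj⟩)
    exact ⟨k, hk1, by omega, hk3⟩

end Pool.Agent.SSE
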