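import Pool.Agent.SSE.St2

/-!
# SSE, module F2: periodic interval for a subgroup with two elements
-/

set_option autoImplicit false

noncomputable section

open Finset Pool.Agent.Helper64.Rho Pool.Agent.SDG Pool.Agent.MDR Pool.Agent.SSC
open scoped Classical Pointwise

namespace Pool.Agent.SSE

private theorem F2_inj {G ι : Type} [AddCommGroup G] {u : Finset ι} {f : ι → G} (h : AS u f)
    {a b : ι} (ha : a ∈ u) (hb : b ∈ u) (hab : a ≠ b) : f a ≠ f b := by
  intro he
  have h1 := h.2 (f a)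
  have h2 : ({a, b} : Finset ι) ⊆ u.filter fun i => f i = f a ∨ f i = - f a := by
    intro i hi
    simp only [mem_insert, mem_singleton] at hi
    rw [mem_filter]
    rcases hi with rfl | rfl
    · exact ⟨ha, Or.inl rfl⟩
    · exact ⟨hb, Or.inl he.symm⟩
  have h3 := (card_le_card h2).trans h1
  rw [card_pair hab] at h3
  omega

private theorem F2_sum {ι : Type} (u : Finset ι) (lv : ι → ℕ) (n : ℕ) (hn : 3 ≤ n) :
    ∑ j ∈ u.filter (fun j => lv j < n), lv j =
      (u.filter fun i => lv i = 1).card + 2 * (u.filter fun i => lv i = 2).card +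
        ∑ j ∈ (u.filter fun i => 3 ≤ lv i).filter (fun j => lv j < n), lv j := by
  rw [card_filter, card_filter, mul_sum, filter_filter, sum_filter, sum_filter,
    ← sum_add_distrib, ← sum_add_distrib]
  refine sum_congr rfl fun j _ => ?_
  split_ifs <;> omega

private theorem F2_sum' {ι : Type} (u : Finset ι) (lv : ι → ℕ) :
    ∑ j ∈ u, lv j = (u.filter fun i => lv i = 1).card + 2 * (u.filter fun i => lv i = 2).card +
        ∑ j ∈ (u.filter fun i => 3 ≤ lv i), lv j := by
  rw [card_filter, card_filter, mul_sum, sum_filter, ← sum_add_distrib, ← sum_add_distrib]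
  refine sum_congr rfl fun j _ => ?_
  split_ifs <;> omega

/-- the coset filled by two elements -/
private theorem F2_two {G ι : Type} [AddCommGroup G] (f : ι → G) (K : AddSubgroup G)
    (hK : Nat.card K = 2) (s : Finset ι) (T1 T2 : Finset ι) (hT1 : T1 ⊆ s) (hT2 : T2 ⊆ s) (x : G)
    (h1 : x - ∑ i ∈ T1, f i ∈ K) (h2 : x - ∑ i ∈ T2, f i ∈ K)
    (hne : ∑ i ∈ T1, f i ≠ ∑ i ∈ T2, f i) : x ∈ FS s f := by
  by_cases h3 : x - ∑ i ∈ T1, f i = 0
  · rw [sub_eq_zero.1 h3]
    exact mem_FS.2 ⟨T1, hT1, rfl⟩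
  by_cases h4 : x - ∑ i ∈ T2, f i = 0
  · rw [sub_eq_zero.1 h4]
    exact mem_FS.2 ⟨T2, hT2, rfl⟩
  exfalso
  have : Finite K := Nat.finite_of_card_ne_zero (by rw [hK]; norm_num)
  have := Fintype.ofFinite K
  have h5 : ({0, ⟨_, h1⟩, ⟨_, h2⟩} : Finset K).card = 3 := by
    rw [card_insert_of_notMem, card_pair]
    · intro h
      have h6 := congrArg Subtype.val h
      exact hne (sub_right_injective h6)
    · simp only [mem_insert, mem_singleton, not_or]
      exact ⟨fun h => h3 (congrArg Subtype.val h).symm, fun h => h4 (congrArg Subtype.val h).symm⟩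
  have h6 : ({0, ⟨_, h1⟩, ⟨_, h2⟩} : Finset K).card ≤ Fintype.card K := card_le_univ _
  rw [h5, ← Nat.card_eq_fintype_card, hK] at h6
  omega

theorem thm_F2 : SSC.St_Et → St_F2 := by
  intro hEt G ι _ _ u f K d lv hK hAS hlv hc1 hc2 hl
  obtain ⟨z, z', hzz, hs1⟩ := card_eq_two.1 hc1
  obtain ⟨y1, y2, h12, hs2⟩ := card_eq_two.1 hc2
  have hz : z ∈ u ∧ lv z = 1 := by
    have : z ∈ u.filter fun i => lv i = 1 := by rw [hs1]; simp
    exact mem_filter.1 this
  have hz' : z' ∈ u ∧ lv z' = 1 := by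
    have : z' ∈ u.filter fun i => lv i = 1 := by rw [hs1]; simp
    exact mem_filter.1 this
  have hy1 : y1 ∈ u ∧ lv y1 = 2 := by
    have : y1 ∈ u.filter fun i => lv i = 2 := by rw [hs2]; simp
    exact mem_filter.1 this
  have hy2 : y2 ∈ u ∧ lv y2 = 2 := by
    have : y2 ∈ u.filter fun i => lv i = 2 := by rw [hs2]; simp
    exact mem_filter.1 this
  have hKz : f z - d ∈ K := by simpa [hz.2] using hlv z hz.1
  have hKz' : f z' - d ∈ K := by simpa [hz'.2] using hlv z' hz'.1
  have hK1 : f y1 - (2 : ℕ) • d ∈ K := by simpa [hy1.2] using hlv y1 hy1.1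
  have hK2 : f y2 - (2 : ℕ) • d ∈ K := by simpa [hy2.2] using hlv y2 hy2.1
  have hfz : f z ≠ f z' := F2_inj hAS hz.1 hz'.1 hzz
  have hfy : f y1 ≠ f y2 := F2_inj hAS hy1.1 hy2.1 h12
  have hne : ∀ {p q : ι}, lv p ≠ lv q → p ≠ q := fun h h' => h (by rw [h'])
  have hzy1 : z ≠ y1 := hne (by rw [hz.2, hy1.2]; norm_num)
  have hzy2 : z ≠ y2 := hne (by rw [hz.2, hy2.2]; norm_num)
  have hzy1' : z' ≠ y1 := hne (by rw [hz'.2, hy1.2]; norm_num)
  have hzy2' : z' ≠ y2 := hne (by rw [hz'.2, hy2.2]; norm_num)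
  have htwo := F2_two f K hK {z, z', y1, y2}
  have hper : Per (FS {z, z', y1, y2} f) K d 6 := by
    intro v hv1 hv2 k hk
    have hv : v = 1 ∨ v = 2 ∨ v = 3 ∨ v = 4 ∨ v = 5 := by omega
    rcases hv with rfl | rfl | rfl | rfl | rfl
    · refine htwo {z} {z'} (by simp) (by simp) _ ?_ ?_ (by simpa using hfz)
      · have h3 := K.sub_mem hk hKz
        have h4 : k - (f z - d) = (1 : ℕ) • d + k - ∑ i ∈ ({z} : Finset ι), f i := by
          rw [sum_singleton, one_smul]; abel
        rwa [h4] at h3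
      · have h3 := K.sub_mem hk hKz'
        have h4 : k - (f z' - d) = (1 : ℕ) • d + k - ∑ i ∈ ({z'} : Finset ι), f i := by
          rw [sum_singleton, one_smul]; abel
        rwa [h4] at h3
    · refine htwo {y1} {y2} (by simp) (by simp) _ ?_ ?_ (by simpa using hfy)
      · have h3 := K.sub_mem hk hK1
        have h4 : k - (f y1 - (2 : ℕ) • d) = (2 : ℕ) • d + k - ∑ i ∈ ({y1} : Finset ι), f i := by
          rw [sum_singleton]; abel
        rwa [h4] at h3
      · have h3 := K.sub_mem hk hK2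
        have h4 : k - (f y2 - (2 : ℕ) • d) = (2 : ℕ) • d + k - ∑ i ∈ ({y2} : Finset ι), f i := by
          rw [sum_singleton]; abel
        rwa [h4] at h3
    · refine htwo {z, y1} {z', y1} (by intro i; simp; tauto) (by intro i; simp; tauto) _ ?_ ?_
        (by rw [sum_pair hzy1, sum_pair hzy1']; intro h; exact hfz (add_right_cancel h))
      · have h3 := K.sub_mem (K.sub_mem hk hKz) hK1
        have h4 : k - (f z - d) - (f y1 - (2 : ℕ) • d) =
            (3 : ℕ) • d + k - ∑ i ∈ ({z, y1} : Finset ι), f i := by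
          rw [sum_pair hzy1, succ_nsmul d 2]; abel
        rwa [h4] at h3
      · have h3 := K.sub_mem (K.sub_mem hk hKz') hK1
        have h4 : k - (f z' - d) - (f y1 - (2 : ℕ) • d) =
            (3 : ℕ) • d + k - ∑ i ∈ ({z', y1} : Finset ι), f i := by
          rw [sum_pair hzy1', succ_nsmul d 2]; abel
        rwa [h4] at h3
    · have hs1 : ∑ i ∈ ({z, z', y1} : Finset ι), f i = f z + (f z' + f y1) := by
        rw [sum_insert (by simp [hzz, hzy1]), sum_pair hzy1']
      have hs2 : ∑ i ∈ ({z, z', y2} : Finset ι), f i = f z + (f z' + f y2) := by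
        rw [sum_insert (by simp [hzz, hzy2]), sum_pair hzy2']
      refine htwo {z, z', y1} {z, z', y2} (by intro i; simp; tauto) (by intro i; simp; tauto)
        _ ?_ ?_ (by rw [hs1, hs2]; intro h; exact hfy (add_left_cancel (add_left_cancel h)))
      · have h3 := K.sub_mem (K.sub_mem (K.sub_mem hk hKz) hKz') hK1
        have h4 : k - (f z - d) - (f z' - d) - (f y1 - (2 : ℕ) • d) =
            (4 : ℕ) • d + k - ∑ i ∈ ({z, z', y1} : Finset ι), f i := by
          rw [hs1, succ_nsmul d 3, succ_nsmul d 2]; abel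
        rwa [h4] at h3
      · have h3 := K.sub_mem (K.sub_mem (K.sub_mem hk hKz) hKz') hK2
        have h4 : k - (f z - d) - (f z' - d) - (f y2 - (2 : ℕ) • d) =
            (4 : ℕ) • d + k - ∑ i ∈ ({z, z', y2} : Finset ι), f i := by
          rw [hs2, succ_nsmul d 3, succ_nsmul d 2]; abel
        rwa [h4] at h3
    · have hs1 : ∑ i ∈ ({z, y1, y2} : Finset ι), f i = f z + (f y1 + f y2) := by
        rw [sum_insert (by simp [hzy1, hzy2]), sum_pair h12]
      have hs2 : ∑ i ∈ ({z', y1, y2} : Finset ι), f i = f z' + (f y1 + f y2) := by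
        rw [sum_insert (by simp [hzy1', hzy2']), sum_pair h12]
      refine htwo {z, y1, y2} {z', y1, y2} (by intro i; simp; tauto) (by intro i; simp; tauto)
        _ ?_ ?_ (by rw [hs1, hs2]; intro h; exact hfz (add_right_cancel h))
      · have h3 := K.sub_mem (K.sub_mem (K.sub_mem hk hKz) hK1) hK2
        have h4 : k - (f z - d) - (f y1 - (2 : ℕ) • d) - (f y2 - (2 : ℕ) • d) =
            (5 : ℕ) • d + k - ∑ i ∈ ({z, y1, y2} : Finset ι), f i := by
          rw [hs1, succ_nsmul d 4, succ_nsmul d 3, succ_nsmul d 2, two_nsmul]; abel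
        rwa [h4] at h3
      · have h3 := K.sub_mem (K.sub_mem (K.sub_mem hk hKz') hK1) hK2
        have h4 : k - (f z' - d) - (f y1 - (2 : ℕ) • d) - (f y2 - (2 : ℕ) • d) =
            (5 : ℕ) • d + k - ∑ i ∈ ({z', y1, y2} : Finset ι), f i := by
          rw [hs2, succ_nsmul d 4, succ_nsmul d 3, succ_nsmul d 2, two_nsmul]; abel
        rwa [h4] at h3
  have h1 := hEt G ι {z, z', y1, y2} (u.filter fun i => 3 ≤ lv i) f K d lv 6
    (by
      rw [disjoint_left]
      intro i h1 h2
      simp only [mem_insert, mem_singleton] at h1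
      rw [mem_filter] at h2
      rcases h1 with rfl | rfl | rfl | rfl
      · have := hz.2; have := h2.2; omega
      · have := hz'.2; have := h2.2; omega
      · have := hy1.2; have := h2.2; omega
      · have := hy2.2; have := h2.2; omega)
    (fun i hi => hlv i (mem_filter.1 hi).1) hper
    (fun i hi => by
      obtain ⟨h1, h2⟩ := mem_filter.1 hi
      refine ⟨by omega, ?_⟩
      have h3 := hl i h1 h2
      rw [F2_sum u lv (lv i) h2, hc1, hc2] at h3
      exact h3)
  rw [F2_sum' u lv, hc1, hc2]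
  refine fun v hv1 hv2 k hk => FS_mono ?_ f (h1 v hv1 hv2 k hk)
  intro i hi
  rw [mem_union] at hi
  rcases hi with hi | hi
  · simp only [mem_insert, mem_singleton] at hi
    rcases hi with rfl | rfl | rfl | rfl
    · exact hz.1
    · exact hz'.1
    · exact hy1.1
    · exact hy2.1
  · exact (mem_filter.1 hi).1

end Pool.Agent.SSE
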