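import Pool.Agent.SSE.St2

/-!
# SSE, module F4: periodic interval for a cyclic subgroup with four elements
-/

set_option autoImplicit false

noncomputable section

open Finset Pool.Agent.Helper64.Rho Pool.Agent.SDG Pool.Agent.MDR Pool.Agent.SSC
open scoped Classical Pointwise

namespace Pool.Agent.SSE

private theorem F4_inj {G ι : Type} [AddCommGroup G] {u : Finset ι} {f : ι → G} (h : AS u f)
    {a b : ι} (ha : a ∈ u) (hb : b ∈ u) (hab : a ≠ b) : f a ≠ f b := by
  intro he
  have h1 := h.2 (f a)
  have h2 : ({a, b} : Finset ι) ⊆ u.filter fun i => f i = f a ∨ f i = - f a := by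
    intro i hi
    simp only [mem_insert, mem_singleton] at hi
    rw [mem_filter]
    rcases hi with rfl | rfl
    · exact ⟨ha, Or.inl rfl⟩
    · exact ⟨hb, Or.inl he.symm⟩
  have h3 := (card_le_card h2).trans h1
  rw [card_pair hab] at h3
  omega

private theorem F4_sum {ι : Type} (u : Finset ι) (lv : ι → ℕ) (n : ℕ) (hn : 2 ≤ n) :
    ∑ j ∈ u.filter (fun j => lv j < n), lv j =
      (u.filter fun i => lv i = 1).card +
        ∑ j ∈ (u.filter fun i => 2 ≤ lv i).filter (fun j => lv j < n), lv j := by
  rw [card_filter, filter_filter, sum_filter, sum_filter, ← sum_add_distrib]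
  refine sum_congr rfl fun j _ => ?_
  split_ifs <;> omega

private theorem F4_sum' {ι : Type} (u : Finset ι) (lv : ι → ℕ) :
    ∑ j ∈ u, lv j = (u.filter fun i => lv i = 1).card +
        ∑ j ∈ (u.filter fun i => 2 ≤ lv i), lv j := by
  rw [card_filter, sum_filter, ← sum_add_distrib]
  refine sum_congr rfl fun j _ => ?_
  split_ifs <;> omega

/-- an element of order four -/
private theorem F4_gen {G : Type} [AddCommGroup G] (K : AddSubgroup G) (hG : IsAddCyclic G)
    (hK : Nat.card K = 4) : ∃ g ∈ K, g + g ≠ 0 := by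
  have hc : IsAddCyclic K := inferInstance
  obtain ⟨g, hg⟩ := IsAddCyclic.exists_ofOrder_eq_natCard (α := K)
  refine ⟨g, g.2, fun h => ?_⟩
  have h1 : (2 : ℕ) • g = 0 := by
    rw [two_nsmul]
    exact Subtype.ext h
  have h2 := addOrderOf_dvd_of_nsmul_eq_zero h1
  rw [hg, hK] at h2
  omega

/-- members in a coset of `K`, with at least `|K| - 1` members -/
private theorem F4_hit {G ι : Type} [AddCommGroup G] [Finite G] {Z : Finset ι} {f : ι → G}
    {K : AddSubgroup G} {d : G} (hK : Nat.card K = 4) (hZ : ∀ i ∈ Z, f i - d ∈ K)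
    (hinj : ∀ a ∈ Z, ∀ b ∈ Z, a ≠ b → f a ≠ f b) (hc : 3 ≤ Z.card) {x e : G} (hx : x - d ∈ K)
    (he : e ∈ K) (he0 : e ≠ 0 ∨ 4 ≤ Z.card) : (∃ i ∈ Z, f i = x) ∨ ∃ i ∈ Z, f i = x + e := by
  by_contra hcon
  push Not at hcon
  obtain ⟨h1, h2⟩ := hcon
  have hfin : (K : Set G).Finite := Set.toFinite _
  have hKc : hfin.toFinset.card = 4 := by
    rw [← Nat.card_eq_card_finite_toFinset hfin]
    exact hK
  have hW : (Z.image fun i => f i - d).card = Z.card := by
    refine card_image_of_injOn fun a ha b hb hab => ?_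
    by_contra hne
    exact hinj a ha b hb hne (sub_left_injective hab)
  have hWK : Z.image (fun i => f i - d) ⊆ hfin.toFinset := by
    intro y hy
    obtain ⟨i, hi, rfl⟩ := mem_image.1 hy
    rw [Set.Finite.mem_toFinset]
    exact hZ i hi
  have hx1 : x - d ∉ Z.image fun i => f i - d := by
    intro hy
    obtain ⟨i, hi, hxi⟩ := mem_image.1 hy
    exact h1 i hi (sub_left_injective hxi)
  have hx2 : x + e - d ∉ Z.image fun i => f i - d := by
    intro hy
    obtain ⟨i, hi, hxi⟩ := mem_image.1 hy
    exact h2 i hi (sub_left_injective hxi)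
  have hx3 : insert (x - d) (Z.image fun i => f i - d) ⊆ hfin.toFinset :=
    insert_subset (by rw [Set.Finite.mem_toFinset]; exact hx) hWK
  rcases he0 with he0 | he0
  · have hx4 : x + e - d ∉ insert (x - d) (Z.image fun i => f i - d) := by
      rw [mem_insert, not_or]
      refine ⟨fun h => he0 ?_, hx2⟩
      have h3 : x + e = x := sub_left_injective h
      exact add_eq_left.1 h3
    have hx5 : insert (x + e - d) (insert (x - d) (Z.image fun i => f i - d)) ⊆ hfin.toFinset := by
      refine insert_subset ?_ hx3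
      rw [Set.Finite.mem_toFinset]
      have h4 := K.add_mem hx he
      have h5 : x - d + e = x + e - d := by abel
      rwa [h5] at h4
    have h6 := card_le_card hx5
    rw [card_insert_of_notMem hx4, card_insert_of_notMem hx1, hW, hKc] at h6
    omega
  · have h6 := card_le_card hx3
    rw [card_insert_of_notMem hx1, hW, hKc] at h6
    omega

private theorem F4_tot {G ι : Type} [AddCommGroup G] {Z : Finset ι} {f : ι → G}
    {K : AddSubgroup G} {d : G} (hZ : ∀ i ∈ Z, f i - d ∈ K) :
    ∑ i ∈ Z, f i - Z.card • d ∈ K := by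
  have h1 : ∑ i ∈ Z, (f i - d) ∈ K := K.sum_mem hZ
  rwa [sum_sub_distrib, sum_const] at h1

theorem thm_F4 : SSC.St_Et → St_F4 := by
  intro hEt G ι _ _ u f K d lv hG hK hAE hlv hcase hl
  set Z := u.filter (fun i => lv i = 1) with hZdef
  have hZu : ∀ i ∈ Z, i ∈ u ∧ lv i = 1 := fun i hi => mem_filter.1 hi
  have hZK : ∀ i ∈ Z, f i - d ∈ K := by
    intro i hi
    have h1 := hlv i (hZu i hi).1
    rwa [(hZu i hi).2, one_smul] at h1
  have hinj : ∀ a ∈ Z, ∀ b ∈ Z, a ≠ b → f a ≠ f b := fun a ha b hb hab =>
    F4_inj hAE.1 (hZu a ha).1 (hZu b hb).1 hab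
  have htot := F4_tot hZK
  set R := u.filter (fun i => 2 ≤ lv i) with hRdef
  rcases hcase with hc | ⟨hc, i0, hi0, hl0⟩
  · -- four members of level one
    have hhit : ∀ x : G, x - d ∈ K → ∃ i ∈ Z, f i = x := by
      intro x hx
      rcases F4_hit hK hZK hinj (by omega) hx K.zero_mem (Or.inr (by omega)) with h | h
      · exact h
      · simpa using h
    obtain ⟨g, hgK, hg⟩ := F4_gen K hG hK
    have hper : Per (FS Z f) K d 4 := by
      intro v hv1 hv2 k hk
      have hv : v = 1 ∨ v = 2 ∨ v = 3 := by omega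
      rcases hv with rfl | rfl | rfl
      · obtain ⟨i, hi, hfi⟩ := hhit ((1 : ℕ) • d + k) (by
          have h : (1 : ℕ) • d + k - d = k := by rw [one_smul]; abel
          rw [h]
          exact hk)
        refine mem_FS.2 ⟨{i}, singleton_subset_iff.2 hi, ?_⟩
        rw [sum_singleton, hfi]
      · have hi : ∃ i ∈ Z, f i + f i ≠ (2 : ℕ) • d + k := by
          obtain ⟨i, hi, hfi⟩ := hhit d (by rw [sub_self]; exact K.zero_mem)
          obtain ⟨j, hj, hfj⟩ := hhit (d + g) (by rw [add_sub_cancel_left]; exact hgK)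
          by_cases h1 : f i + f i = (2 : ℕ) • d + k
          · refine ⟨j, hj, fun h2 => hg ?_⟩
            have h3 : f j + f j = f i + f i := h2.trans h1.symm
            rw [hfi, hfj] at h3
            have h4 : g + g = d + g + (d + g) - (d + d) := by abel
            rw [h4, h3, sub_self]
          · exact ⟨i, hi, h1⟩
        obtain ⟨i, hi, hii⟩ := hi
        obtain ⟨j, hj, hfj⟩ := hhit ((2 : ℕ) • d + k - f i) (by
          have h1 := K.sub_mem hk (hZK i hi)
          have h2 : k - (f i - d) = (2 : ℕ) • d + k - f i - d := by rw [two_nsmul]; abel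
          rwa [h2] at h1)
        have hij : i ≠ j := by
          rintro rfl
          apply hii
          nth_rewrite 1 [hfj]
          abel
        refine mem_FS.2 ⟨{i, j}, by
          intro a ha
          rcases mem_insert.1 ha with rfl | ha
          · exact hi
          · rw [mem_singleton.1 ha]
            exact hj, ?_⟩
        rw [sum_pair hij, hfj]
        abel
      · obtain ⟨j, hj, hfj⟩ := hhit (∑ i ∈ Z, f i - ((3 : ℕ) • d + k)) (by
          have h1 := K.sub_mem htot hk
          rw [hc] at h1
          have h2 : ∑ i ∈ Z, f i - (4 : ℕ) • d - k = ∑ i ∈ Z, f i - ((3 : ℕ) • d + k) - d := by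
            rw [succ_nsmul d 3]; abel
          rwa [h2] at h1)
        refine mem_FS.2 ⟨Z.erase j, erase_subset _ _, ?_⟩
        have h1 := sum_erase_add Z f hj
        rw [hfj] at h1
        have h2 : ∑ i ∈ Z.erase j, f i = ∑ i ∈ Z, f i - (∑ i ∈ Z, f i - ((3 : ℕ) • d + k)) := by
          nth_rewrite 1 [← h1]
          abel
        rw [h2]
        abel
    have h1 := hEt G ι Z R f K d lv 4
      (by
        rw [disjoint_left]
        intro i h1 h2
        have h3 := (mem_filter.1 h1).2
        have h4 := (mem_filter.1 h2).2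
        omega)
      (fun i hi => hlv i (mem_filter.1 hi).1) hper
      (fun i hi => by
        obtain ⟨h1, h2⟩ := mem_filter.1 hi
        refine ⟨by omega, ?_⟩
        have h3 := hl i h1 h2
        rw [F4_sum u lv (lv i) h2, ← hZdef, hc] at h3
        exact h3)
    rw [F4_sum' u lv, ← hZdef, hc]
    refine fun v hv1 hv2 k hk => FS_mono ?_ f (h1 v hv1 hv2 k hk)
    exact union_subset (filter_subset _ _) (filter_subset _ _)
  · -- three members of level one and a member of the subgroup
    have hh : f i0 ∈ K := by simpa [hl0] using hlv i0 hi0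
    have hh0 : f i0 ≠ 0 := hAE.1.1 i0 hi0
    have hi0Z : i0 ∉ Z := by
      intro h
      have := (hZu i0 h).2
      omega
    have hhit : ∀ x e : G, x - d ∈ K → e ∈ K → e ≠ 0 →
        (∃ i ∈ Z, f i = x) ∨ ∃ i ∈ Z, f i = x + e := fun x e hx he he0 =>
      F4_hit hK hZK hinj (by omega) hx he (Or.inl he0)
    have hper : Per (FS (insert i0 Z) f) K d 3 := by
      intro v hv1 hv2 k hk
      have hv : v = 1 ∨ v = 2 := by omega
      rcases hv with rfl | rfl
      · rcases hhit ((1 : ℕ) • d + k) (- f i0) (by
          have h : (1 : ℕ) • d + k - d = k := by rw [one_smul]; abel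
          rw [h]
          exact hk) (K.neg_mem hh) (neg_ne_zero.2 hh0) with ⟨i, hi, hfi⟩ | ⟨i, hi, hfi⟩
        · refine mem_FS.2 ⟨{i}, singleton_subset_iff.2 (mem_insert_of_mem hi), ?_⟩
          rw [sum_singleton, hfi]
        · refine mem_FS.2 ⟨{i0, i}, by
            intro a ha
            rcases mem_insert.1 ha with rfl | ha
            · exact mem_insert_self _ _
            · rw [mem_singleton.1 ha]
              exact mem_insert_of_mem hi, ?_⟩
          have hne : i0 ≠ i := fun h => hi0Z (by rw [h]; exact hi)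
          rw [sum_pair hne, hfi]
          abel
      · rcases hhit (∑ i ∈ Z, f i - ((2 : ℕ) • d + k)) (f i0) (by
          have h1 := K.sub_mem htot hk
          rw [hc] at h1
          have h2 : ∑ i ∈ Z, f i - (3 : ℕ) • d - k = ∑ i ∈ Z, f i - ((2 : ℕ) • d + k) - d := by
            rw [succ_nsmul d 2]; abel
          rwa [h2] at h1) hh hh0 with ⟨j, hj, hfj⟩ | ⟨j, hj, hfj⟩
        · refine mem_FS.2 ⟨Z.erase j, (erase_subset _ _).trans (subset_insert _ _), ?_⟩
          have h1 := sum_erase_add Z f hj
          rw [hfj] at h1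
          have h2 : ∑ i ∈ Z.erase j, f i = ∑ i ∈ Z, f i - (∑ i ∈ Z, f i - ((2 : ℕ) • d + k)) := by
            nth_rewrite 1 [← h1]
            abel
          rw [h2]
          abel
        · refine mem_FS.2 ⟨insert i0 (Z.erase j), insert_subset_insert _ (erase_subset _ _), ?_⟩
          have h1 := sum_erase_add Z f hj
          rw [hfj] at h1
          have h2 : ∑ i ∈ Z.erase j, f i =
              ∑ i ∈ Z, f i - (∑ i ∈ Z, f i - ((2 : ℕ) • d + k) + f i0) := by
            nth_rewrite 1 [← h1]
            abel
          rw [sum_insert fun h => hi0Z (mem_of_mem_erase h), h2]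
          abel
    have h1 := hEt G ι (insert i0 Z) R f K d lv 3
      (by
        rw [disjoint_left]
        intro i h1 h2
        have h4 := (mem_filter.1 h2).2
        rcases mem_insert.1 h1 with rfl | h1
        · omega
        · have h3 := (mem_filter.1 h1).2
          omega)
      (fun i hi => hlv i (mem_filter.1 hi).1) hper
      (fun i hi => by
        obtain ⟨h1, h2⟩ := mem_filter.1 hi
        refine ⟨by omega, ?_⟩
        have h3 := hl i h1 h2
        rw [F4_sum u lv (lv i) h2, ← hZdef, hc] at h3
        exact h3)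
    rw [F4_sum' u lv, ← hZdef, hc]
    refine fun v hv1 hv2 k hk => FS_mono ?_ f (h1 v hv1 hv2 k hk)
    refine union_subset (insert_subset hi0 (filter_subset _ _)) (filter_subset _ _)

end Pool.Agent.SSE
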