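import Pool.Agent.SSE.St2

/-!
# SSE, Fl: full slices
-/

set_option autoImplicit false

noncomputable section

open Finset Pool.Agent.Helper64.Rho Pool.Agent.SDG Pool.Agent.MDR Pool.Agent.SSC
open scoped Classical Pointwise

namespace Pool.Agent.SSE

private theorem FlE_inj {G ι : Type} [AddCommGroup G] {s : Finset ι} {f : ι → G} (h : AS s f)
    {i j : ι} (hi : i ∈ s) (hj : j ∈ s) (hij : f i = f j) : i = j := by
  have h1 := h.2 (f j)
  rw [card_le_one] at h1
  exact h1 i (mem_filter.2 ⟨hi, Or.inl hij⟩) j (mem_filter.2 ⟨hj, Or.inl rfl⟩)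

/-- elements of `ks k (Z.image f)` are sums over `k` members of `Z` -/
private theorem FlE_ks {G ι : Type} [AddCommGroup G] {Z : Finset ι} {f : ι → G}
    (hinj : ∀ i ∈ Z, ∀ j ∈ Z, f i = f j → i = j) {k : ℕ} {w : G} (hw : w ∈ ks k (Z.image f)) :
    ∃ R ⊆ Z, R.card = k ∧ ∑ i ∈ R, f i = w := by
  unfold ks at hw
  obtain ⟨U, hU, rfl⟩ := mem_image.1 hw
  obtain ⟨hU1, hU2⟩ := mem_powersetCard.1 hU
  obtain ⟨R, hR, hRU⟩ : ∃ R ⊆ Z, R.image f = U := by
    refine ⟨Z.filter fun i => f i ∈ U, filter_subset _ _, ?_⟩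
    ext y
    rw [mem_image]
    constructor
    · rintro ⟨i, hi, rfl⟩
      exact (mem_filter.1 hi).2
    · intro hy
      obtain ⟨i, hi, rfl⟩ := mem_image.1 (hU1 hy)
      exact ⟨i, mem_filter.2 ⟨hi, hy⟩, rfl⟩
  have hinj' : Set.InjOn f (R : Set ι) := fun i hi j hj hij => hinj i (hR hi) j (hR hj) hij
  refine ⟨R, hR, ?_, ?_⟩
  · rw [← hU2, ← hRU, card_image_of_injOn hinj']
  · rw [← hRU, sum_image hinj']

private theorem FlE_sum {G ι : Type} [AddCommGroup G] {K : AddSubgroup G} {c : G} {f : ι → G}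
    (R : Finset ι) (h : ∀ i ∈ R, f i - c ∈ K) : ∑ i ∈ R, f i - R.card • c ∈ K := by
  have h1 : ∑ i ∈ R, f i - R.card • c = ∑ i ∈ R, (f i - c) := by
    rw [sum_sub_distrib, sum_const]
  rw [h1]
  exact K.sum_mem h

theorem thm_FlE : St_KSE → SDG.St_Sm → SDG.St_Ba1 → St_FlE := by
  intro hKS hSm hBa G ι _ _ u Z f K c hodd hAS hAp hZu hZc hcK hcard x k hk1 hk2 hx
  have hinj : ∀ i ∈ Z, ∀ j ∈ Z, f i = f j → i = j := fun i hi j hj h =>
    FlE_inj hAS (hZu hi) (hZu hj) h
  have hins : ins u f K ⊆ u := filter_subset _ _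
  have hY : (ins u f K).card + 1 ≤ (FS (ins u f K) f).card :=
    (hSm G ι (ins u f K) f (fun i hi => hAS.1 i (hins hi)) ((hBa G ι f).2.1 u _ hins hAp)).1
  have hA : (Z.image f).card = Z.card := card_image_of_injOn fun i hi j hj h => hinj i hi j hj h
  have hW := hKS G hodd (Z.image f) k hk1 (by rw [hA]; exact hk2)
  rw [hA] at hW
  have := Fintype.ofFinite G
  have hMc : Nat.card K = (Finset.univ.filter fun x : G => x ∈ K).card := by
    rw [Nat.card_eq_fintype_card, Fintype.card_subtype]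
  have hne : (((ks k (Z.image f)).image fun w => x - w) ∩ FS (ins u f K) f).Nonempty := by
    apply Finset.inter_nonempty_of_card_lt_card_add_card
      (s := Finset.univ.filter fun x : G => x ∈ K)
    · intro y hy
      obtain ⟨w, hw, rfl⟩ := mem_image.1 hy
      obtain ⟨R, hR, hRk, rfl⟩ := FlE_ks hinj hw
      refine mem_filter.2 ⟨mem_univ _, ?_⟩
      have h1 := FlE_sum R fun i hi => hZc i (hR hi)
      rw [hRk] at h1
      have h2 : x - ∑ i ∈ R, f i = (x - k • c) - (∑ i ∈ R, f i - k • c) := by abel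
      rw [h2]
      exact K.sub_mem hx h1
    · intro y hy
      exact mem_filter.2 ⟨mem_univ _, FS_subset_of_mem (fun i hi => (mem_filter.1 hi).2) hy⟩
    · rw [card_image_of_injective _ sub_right_injective, ← hMc]
      omega
  obtain ⟨y, hy⟩ := hne
  rw [mem_inter] at hy
  obtain ⟨w, hw, hwy⟩ := mem_image.1 hy.1
  obtain ⟨R, hR, -, hRw⟩ := FlE_ks hinj hw
  have hdis : Disjoint Z (ins u f K) := by
    rw [disjoint_left]
    intro i hi hi2
    apply hcK
    have h1 := K.sub_mem (mem_filter.1 hi2).2 (hZc i hi)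
    rwa [sub_sub_cancel] at h1
  rw [mem_FS_union hdis]
  refine ⟨w, mem_FS.2 ⟨R, hR, hRw⟩, y, hy.2, ?_⟩
  rw [← hwy]
  abel

end Pool.Agent.SSE
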