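import Pool.Agent.SSE.St2
import Pool.Agent.SDG.Fi

/-!
# SSE, module FnE (port of SSC.Fn by helper96): the final statement
-/

set_option autoImplicit false

noncomputable section

open Finset Pool.Agent.Helper64.Rho Pool.Agent.SDG Pool.Agent.MDR Pool.Agent.SSC
open scoped Classical Pointwise

namespace Pool.Agent.SSE

/-- the group of the periods of a finite set -/
private def FnE_per {G : Type} [AddCommGroup G] (X : Finset G) : AddSubgroup G where
  carrier := {g | ∀ x ∈ X, x + g ∈ X}
  add_mem' := by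
    intro a b ha hb x hx
    have := hb _ (ha x hx)
    rwa [add_assoc] at this
  zero_mem' := by
    intro x hx
    simpa using hx
  neg_mem' := by
    intro g hg x hx
    have h1 : X.image (· + g) = X := by
      apply eq_of_subset_of_card_le
      · intro y hy
        obtain ⟨z, hz, rfl⟩ := mem_image.1 hy
        exact hg z hz
      · rw [card_image_of_injective _ (add_left_injective g)]
    rw [← h1] at hx
    obtain ⟨z, hz, rfl⟩ := mem_image.1 hx
    simpa using hz

private lemma FnE_mem {G : Type} [AddCommGroup G] {X : Finset G} {g : G} :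
    g ∈ FnE_per X ↔ ∀ x ∈ X, x + g ∈ X := Iff.rfl

/-- a finset with the elements of a subgroup -/
private lemma FnE_fin {G : Type} [AddCommGroup G] [Finite G] (L : AddSubgroup G) :
    ∃ F : Finset G, (∀ x, x ∈ F ↔ x ∈ L) ∧ F.card = Nat.card L := by
  refine ⟨(Set.toFinite (L : Set G)).toFinset, fun x => by simp, ?_⟩
  rw [← Set.ncard_eq_toFinset_card]
  rfl

/-- part (1) -/
private lemma FnE_one (hPF : St_PFE) (h1 : SDG.St_Nm1) (hSe : SDG.St_Se) {G : Type} [AddCommGroup G]
    [Finite G] (hG : IsAddCyclic G) (A : Finset G) (H : AddSubgroup G) (h0 : (0 : G) ∉ A)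
    (hH : ∀ g : G, g ∈ H ↔ ∀ x ∈ FS A id, x + g ∈ FS A id) :
    Nat.card H * cf (2 * Nat.card H) (A.filter fun a => a ∉ H).card ≤ (FS A id).card := by
  have hpos : 1 ≤ Nat.card H := Nat.card_pos
  rcases Nat.lt_or_ge (Nat.card H) 2 with hh | hh
  · have hone : Nat.card H = 1 := by omega
    have hbot : H = ⊥ := AddSubgroup.eq_bot_of_card_eq H hone
    rw [hone, one_mul, mul_one]
    refine (h1.2.2.2.1 2 _ A.card (card_filter_le _ _)).trans ?_
    refine hPF A.card G G A id hG rfl (fun i hi h => h0 ?_) ?_ ?_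
    · have h' : i = 0 := h
      rwa [h'] at hi
    · intro x
      refine (card_le_card (t := {x, -x}) ?_).trans card_le_two
      intro y hy
      rw [mem_filter] at hy
      rw [mem_insert, mem_singleton]
      exact hy.2
    · intro g hg
      have h2 : g ∈ H := (hH g).2 hg
      rw [hbot, AddSubgroup.mem_bot] at h2
      exact h2
  · exact (hSe G A H h0 hH).1 hh

/-- part (2) -/
private lemma FnE_two (hPF : St_PFE) (h1 : SDG.St_Nm1) (hSe : SDG.St_Se) {G : Type} [AddCommGroup G]
    [Finite G] (hG : IsAddCyclic G) (A : Finset G) (h0 : (0 : G) ∉ A) (hA : 1 ≤ A.card)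
    (hgen : AddSubgroup.closure (A : Set G) = ⊤) : bd (Nat.card G) A.card ≤ (FS A id).card := by
  have := Fintype.ofFinite G
  set T := FS A (id : G → G) with hT
  set n := Nat.card G with hn
  set m := A.card with hm
  have hn1 : 1 ≤ n := Nat.card_pos
  obtain ⟨HF, hHF, hHc⟩ := FnE_fin (FnE_per T)
  have hS1 := FnE_one hPF h1 hSe hG A (FnE_per T) h0 (fun g => FnE_mem)
  rw [← hT] at hS1
  have h0T : (0 : G) ∈ T := zero_mem_FS _ _
  have hfull : FnE_per T = ⊤ → n ≤ T.card := by
    intro h
    rw [hn, Nat.card_eq_fintype_card, ← card_univ]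
    refine card_le_card fun g _ => ?_
    have h3 : g ∈ FnE_per T := by rw [h]; trivial
    simpa using FnE_mem.1 h3 0 h0T
  unfold bd
  by_cases hH : FnE_per T = ⊤
  · exact (Nat.sInf_le (Or.inl rfl)).trans (hfull hH)
  have hdvd : Nat.card (FnE_per T) ∣ n := AddSubgroup.card_addSubgroup_dvd_card _
  have hpos : 1 ≤ Nat.card (FnE_per T) := Nat.card_pos
  have hlt : Nat.card (FnE_per T) < n := by
    refine lt_of_le_of_ne (Nat.le_of_dvd hn1 hdvd) fun h => hH ?_
    exact AddSubgroup.eq_top_of_card_eq _ h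
  refine (Nat.sInf_le (Or.inr ⟨Nat.card (FnE_per T), hdvd, hlt, hpos, rfl⟩)).trans ?_
  refine le_trans (Nat.mul_le_mul_left _ (h1.2.2.2.1 _ _ _ ?_)) hS1
  have h3 : (A.filter fun a => a ∈ FnE_per T).card + 1 ≤ Nat.card (FnE_per T) := by
    rw [← hHc]
    have h4 : (0 : G) ∉ A.filter fun a => a ∈ FnE_per T := fun h => h0 (mem_filter.1 h).1
    rw [← card_insert_of_notMem h4]
    refine card_le_card fun x hx => ?_
    rw [hHF]
    rcases mem_insert.1 hx with rfl | hx
    · exact (FnE_per T).zero_mem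
    · exact (mem_filter.1 hx).2
  have h5 : (A.filter fun a => a ∈ FnE_per T).card + (A.filter fun a => a ∉ FnE_per T).card =
      m := card_filter_add_card_filter_not _
  have h6 : 1 ≤ (A.filter fun a => a ∉ FnE_per T).card := by
    rw [Nat.one_le_iff_ne_zero]
    intro h
    rw [card_eq_zero, filter_eq_empty_iff] at h
    apply hH
    rw [eq_top_iff, ← hgen, AddSubgroup.closure_le]
    intro a ha
    by_contra hna
    exact h ha hna
  apply max_le h6
  omega

theorem thm_FnE : St_PFE → SDG.St_Nm1 → SDG.St_Ba1 → SDG.St_Se → SDG.St_Up → St_FnE := by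
  intro hPF h1 _ hSe hUp G _ _ hG hn
  have hlo : ∀ m : ℕ, 1 ≤ m → ∀ k ∈ sizes G m, bd (Nat.card G) m ≤ k := by
    rintro m hm k ⟨A, h0, hA, hgen, rfl⟩
    rw [Fi_ncard]
    subst hA
    exact FnE_two hPF h1 hSe hG A h0 hm hgen
  refine ⟨fun A H h0 hH _ => FnE_one hPF h1 hSe hG A H h0 hH, fun m hm hmn => ?_⟩
  have e : ZMod (Nat.card G) ≃+ G := zmodAddCyclicAddEquiv hG
  obtain ⟨A, h0, hA, hgen, hle⟩ := hUp (Nat.card G) m hn hm hmn
  have hmem : (FS A id).card ∈ sizes G m := by
    refine ⟨A.image e, ?_, ?_, ?_, ?_⟩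
    · intro h
      obtain ⟨y, hy, hy0⟩ := Finset.mem_image.1 h
      rw [map_eq_zero_iff e e.injective] at hy0
      exact h0 (hy0 ▸ hy)
    · rw [Finset.card_image_of_injective _ e.injective, hA]
    · have h2 := congrArg (AddSubgroup.map (e : ZMod (Nat.card G) →+ G)) hgen
      rw [AddMonoidHom.map_closure, AddSubgroup.map_top_of_surjective _ e.surjective] at h2
      rw [Finset.coe_image]
      exact h2
    · rw [Fi_ncard]
      exact Fi_map' _ e A
  refine ⟨⟨_, hmem⟩, le_antisymm ?_ (hlo m hm _ (Nat.sInf_mem ⟨_, hmem⟩))⟩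
  exact (Nat.sInf_le hmem).trans hle

end Pool.Agent.SSE
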