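import Pool.Agent.SSE.St

/-!
# SSE, Gc: coset analysis for `K` near `D2` but not near `D1`
-/

set_option autoImplicit false

noncomputable section

open Finset Pool.Agent.Helper64.Rho Pool.Agent.SDG Pool.Agent.MDR Pool.Agent.SSC
open scoped Classical Pointwise

namespace Pool.Agent.SSE

section

variable {G : Type} [AddCommGroup G] [Finite G]

omit [Finite G] in
private theorem Gc_it (D : Finset G) (i : ℕ) {x : G} :
    x ∈ it D (i + 1) ↔ ∃ a ∈ it D i, ∃ b ∈ D, a + b = x := by
  show x ∈ it D i + D ↔ _
  rw [Finset.mem_add]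

omit [Finite G] in
private theorem Gc_it1 (D : Finset G) : it D 1 = D := by
  show ({0} : Finset G) + D = D
  rw [Finset.singleton_zero, zero_add]

private theorem Gc_mem_st {A : Finset G} {H : AddSubgroup G} {x : G} :
    x ∈ st A H ↔ ∃ a ∈ A, x - a ∈ H := by
  unfold st
  simp

/-- the coset of `y` -/
private def Gc_co (K : AddSubgroup G) (y : G) : Finset G :=
  (Set.toFinite {x : G | x - y ∈ K}).toFinset

private theorem Gc_mem_co {K : AddSubgroup G} {x y : G} : x ∈ Gc_co K y ↔ x - y ∈ K := by
  unfold Gc_co
  simp

private theorem Gc_card_co (K : AddSubgroup G) (y : G) : (Gc_co K y).card = Nat.card K := by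
  have h1 : (Set.toFinite (K : Set G)).toFinset.card = Nat.card K := by
    rw [← Set.ncard_eq_toFinset_card (K : Set G) (Set.toFinite _)]
    rfl
  rw [← h1]
  refine Finset.card_bij (fun x _ => x - y) ?_ ?_ ?_
  · intro x hx
    rw [Gc_mem_co] at hx
    simpa using hx
  · intro a _ b _ h
    exact sub_left_injective h
  · intro k hk
    refine ⟨y + k, ?_, by abel⟩
    rw [Gc_mem_co]
    have : y + k - y = k := by abel
    rw [this]
    simpa using hk

private theorem Gc_co_eq {K : AddSubgroup G} {x y : G} (h : x - y ∈ K) : Gc_co K x = Gc_co K y := by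
  ext z
  rw [Gc_mem_co, Gc_mem_co]
  constructor
  · intro h1
    have : z - y = z - x + (x - y) := by abel
    rw [this]
    exact K.add_mem h1 h
  · intro h1
    have : z - x = z - y - (x - y) := by abel
    rw [this]
    exact K.sub_mem h1 h

private theorem Gc_split (K : AddSubgroup G) (y : G) (D : Finset G) :
    (Gc_co K y \ D).card + (Gc_co K y ∩ D).card = Nat.card K := by
  rw [Finset.card_sdiff_add_card_inter, Gc_card_co]

private theorem Gc_full {K : AddSubgroup G} {A B : Finset G} {y y' : G}
    (h : Nat.card K + 1 ≤ (Gc_co K y ∩ A).card + (Gc_co K y' ∩ B).card) {x : G}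
    (hx : x - (y + y') ∈ K) : x ∈ A + B := by
  have h1 : (Gc_co K y' ∩ B).image (fun b => x - b) ⊆ Gc_co K y := by
    intro z hz
    rw [mem_image] at hz
    obtain ⟨b, hb, rfl⟩ := hz
    rw [mem_inter, Gc_mem_co] at hb
    rw [Gc_mem_co]
    have : x - b - y = x - (y + y') - (b - y') := by abel
    rw [this]
    exact K.sub_mem hx hb.1
  have h2 : ((Gc_co K y' ∩ B).image (fun b => x - b)).card = (Gc_co K y' ∩ B).card :=
    card_image_of_injective _ fun a b hab => sub_right_injective hab
  obtain ⟨z, hz⟩ := Finset.inter_nonempty_of_card_lt_card_add_card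
    (inter_subset_left : Gc_co K y ∩ A ⊆ Gc_co K y) h1 (by rw [h2, Gc_card_co]; omega)
  rw [mem_inter, mem_inter, mem_image] at hz
  obtain ⟨⟨-, hzA⟩, b, hb, rfl⟩ := hz
  rw [mem_inter] at hb
  have := Finset.add_mem_add hzA hb.2
  rwa [sub_add_cancel] at this

private theorem Gc_sub_st {D : Finset G} {K : AddSubgroup G} : D ⊆ st D K := fun x hx =>
  Gc_mem_st.2 ⟨x, hx, by rw [sub_self]; exact K.zero_mem⟩

private theorem Gc_ms {D : Finset G} {K : AddSubgroup G} {y : G} (hy : y ∈ D) :
    Gc_co K y \ D ⊆ st D K \ D := by
  intro x hx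
  rw [mem_sdiff, Gc_mem_co] at hx
  rw [mem_sdiff, Gc_mem_st]
  exact ⟨⟨y, hy, hx.1⟩, hx.2⟩

private theorem Gc_dis {D D' : Finset G} {K : AddSubgroup G} {y y' : G} (h : y - y' ∉ K) :
    Disjoint (Gc_co K y \ D) (Gc_co K y' \ D') := by
  rw [Finset.disjoint_left]
  intro x hx hx'
  rw [mem_sdiff, Gc_mem_co] at hx hx'
  apply h
  have : y - y' = x - y' - (x - y) := by abel
  rw [this]
  exact K.sub_mem hx'.1 hx.1

private theorem Gc_two {D : Finset G} {K : AddSubgroup G}
    (hst : (st D K).card + 1 ≤ D.card + Nat.card K) {y y' : G} (hy : y ∈ D) (hy' : y' ∈ D)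
    (h : y - y' ∉ K) : Nat.card K + 1 ≤ (Gc_co K y ∩ D).card + (Gc_co K y' ∩ D).card := by
  have h1 := Finset.card_le_card (Finset.union_subset (Gc_ms (K := K) hy) (Gc_ms (K := K) hy'))
  rw [Finset.card_union_of_disjoint (Gc_dis h), card_sdiff_of_subset Gc_sub_st] at h1
  have h2 := Gc_split K y D
  have h3 := Gc_split K y' D
  have h4 := Finset.card_le_card (Gc_sub_st (D := D) (K := K))
  omega

private theorem Gc_three {D : Finset G} {K : AddSubgroup G}
    (hst : (st D K).card + 1 ≤ D.card + Nat.card K) {y y' y'' : G} (hy : y ∈ D) (hy' : y' ∈ D)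
    (hy'' : y'' ∈ D) (h : y - y' ∉ K) (h' : y - y'' ∉ K) (h'' : y' - y'' ∉ K) :
    2 * Nat.card K + 1 ≤
      (Gc_co K y ∩ D).card + (Gc_co K y' ∩ D).card + (Gc_co K y'' ∩ D).card := by
  have h1 := Finset.card_le_card (Finset.union_subset (Finset.union_subset (Gc_ms (K := K) hy)
    (Gc_ms (K := K) hy')) (Gc_ms (K := K) hy''))
  rw [Finset.card_union_of_disjoint (Finset.disjoint_union_left.2 ⟨Gc_dis h', Gc_dis h''⟩),
    Finset.card_union_of_disjoint (Gc_dis h), card_sdiff_of_subset Gc_sub_st] at h1
  have h2 := Gc_split K y D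
  have h3 := Gc_split K y' D
  have h3' := Gc_split K y'' D
  have h4 := Finset.card_le_card (Gc_sub_st (D := D) (K := K))
  omega

private theorem Gc_neg {D : Finset G} {K : AddSubgroup G} (hs : ∀ y ∈ D, -y ∈ D) (y : G) :
    (Gc_co K (-y) ∩ D).card = (Gc_co K y ∩ D).card := by
  have h : ∀ y : G, (Gc_co K y ∩ D).card ≤ (Gc_co K (-y) ∩ D).card := by
    intro y
    refine Finset.card_le_card_of_injOn (fun x => -x) ?_ (neg_injective.injOn)
    intro x hx
    rw [mem_coe, mem_inter, Gc_mem_co] at hx
    show -x ∈ _
    rw [mem_coe, mem_inter, Gc_mem_co]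
    refine ⟨?_, hs x hx.2⟩
    have : -x - -y = -(x - y) := by abel
    rw [this]
    exact K.neg_mem hx.1
  have h1 := h y
  have h2 := h (-y)
  rw [neg_neg] at h2
  omega

/-- preimage of a set of cosets -/
private theorem Gc_pre (K : AddSubgroup G) (B : Finset (G ⧸ K)) :
    ((Set.toFinite {x : G | (QuotientAddGroup.mk x : G ⧸ K) ∈ B}).toFinset).card =
      Nat.card K * B.card := by
  have h1 : ∀ x ∈ (Set.toFinite {x : G | (QuotientAddGroup.mk x : G ⧸ K) ∈ B}).toFinset,
      (QuotientAddGroup.mk x : G ⧸ K) ∈ B := by
    intro x hx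
    simpa using hx
  rw [Finset.card_eq_sum_card_fiberwise h1]
  have h2 : ∀ b ∈ B, (((Set.toFinite {x : G | (QuotientAddGroup.mk x : G ⧸ K) ∈ B}).toFinset).filter
      fun x => (QuotientAddGroup.mk x : G ⧸ K) = b).card = Nat.card K := by
    intro b hb
    obtain ⟨y, rfl⟩ := QuotientAddGroup.mk_surjective b
    rw [← Gc_card_co K y]
    congr 1
    ext x
    rw [mem_filter, Gc_mem_co]
    have e : (QuotientAddGroup.mk x : G ⧸ K) = QuotientAddGroup.mk y ↔ x - y ∈ K := by
      rw [eq_comm, QuotientAddGroup.eq, neg_add_eq_sub]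
    rw [e]
    constructor
    · exact fun h => h.2
    · intro h
      refine ⟨?_, h⟩
      simp only [Set.Finite.mem_toFinset, Set.mem_ofPred_eq]
      rw [e.2 h]
      exact hb
  rw [Finset.sum_congr rfl h2, Finset.sum_const, smul_eq_mul, mul_comm]

omit [Finite G] in
private theorem Gc_nsmul {D : Finset G} {p : G} (hp : p ∈ D) : ∀ i : ℕ, i • p ∈ it D i := by
  intro i
  induction i with
  | zero =>
    rw [zero_smul]
    exact Finset.mem_singleton_self _
  | succ i ih =>
    rw [succ_nsmul]
    exact Finset.add_mem_add ih hp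

end

/-- [Gc] -/
theorem thm_Gc : St_Gc := by
  intro G _ _ D1 D2 e K h01 hs1 hD2 hc2 hK2 hK4 hst2 hst1 hy0
  have hsub : D1 ⊆ D2 := by
    rw [hD2]
    exact subset_union_left
  have he2 : e ∈ D2 := by
    rw [hD2]
    simp
  have hne2 : -e ∈ D2 := by
    rw [hD2]
    simp
  have hs2 : ∀ y ∈ D2, -y ∈ D2 := by
    intro y hy
    rw [hD2, mem_union, mem_insert, mem_singleton] at hy
    rcases hy with h | rfl | rfl
    · exact hsub (hs1 y h)
    · exact hne2
    · rwa [neg_neg]
  have hcase : ∀ y ∈ D2, y ∈ D1 ∨ y = e ∨ y = -e := by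
    intro y hy
    rw [hD2, mem_union, mem_insert, mem_singleton] at hy
    exact hy
  have he1 : e ∉ D1 := by
    intro h
    have : D2 = D1 := by
      rw [hD2]
      apply union_eq_left.2
      intro x hx
      rw [mem_insert, mem_singleton] at hx
      rcases hx with rfl | rfl
      · exact h
      · exact hs1 _ h
    rw [this] at hc2
    omega
  have hne1 : -e ∉ D1 := by
    intro h
    apply he1
    have := hs1 _ h
    rwa [neg_neg] at this
  have h02 : (0 : G) ∈ D2 := hsub h01
  -- (1)
  have hmeete : ∃ z ∈ D1, z - e ∈ K := by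
    by_contra hcon
    push Not at hcon
    have h1 : Gc_co K e ∪ st D1 K ⊆ st D2 K := by
      intro x hx
      rw [mem_union, Gc_mem_co, Gc_mem_st] at hx
      rw [Gc_mem_st]
      rcases hx with h | ⟨a, ha, h⟩
      · exact ⟨e, he2, h⟩
      · exact ⟨a, hsub ha, h⟩
    have h2 : Disjoint (Gc_co K e) (st D1 K) := by
      rw [Finset.disjoint_left]
      intro x hx hx'
      rw [Gc_mem_co] at hx
      rw [Gc_mem_st] at hx'
      obtain ⟨a, ha, h⟩ := hx'
      apply hcon a ha
      have : a - e = x - e - (x - a) := by abel
      rw [this]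
      exact K.sub_mem hx h
    have h3 := Finset.card_le_card h1
    rw [Finset.card_union_of_disjoint h2, Gc_card_co] at h3
    omega
  obtain ⟨e', he', hee'⟩ := hmeete
  have hmeet : ∀ y ∈ D2, ∃ z ∈ D1, z - y ∈ K := by
    intro y hy
    rcases hcase y hy with h | rfl | rfl
    · exact ⟨y, h, by rw [sub_self]; exact K.zero_mem⟩
    · exact ⟨e', he', hee'⟩
    · refine ⟨-e', hs1 _ he', ?_⟩
      have : -e' - -e = -(e' - e) := by abel
      rw [this]
      exact K.neg_mem hee'
  -- cards in cosets
  have hA : ∀ y : G, y - e ∉ K → y + e ∉ K → (Gc_co K y ∩ D1).card = (Gc_co K y ∩ D2).card := by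
    intro y h h'
    congr 1
    ext x
    rw [mem_inter, mem_inter, Gc_mem_co]
    constructor
    · exact fun hx => ⟨hx.1, hsub hx.2⟩
    · rintro ⟨hx, hxD⟩
      refine ⟨hx, ?_⟩
      rcases hcase x hxD with h1 | rfl | rfl
      · exact h1
      · exact absurd (by have := K.neg_mem hx; rwa [neg_sub] at this) h
      · exact absurd (by
          have := K.neg_mem hx
          have e1 : -(-e - y) = y + e := by abel
          rwa [e1] at this) h'
  have hB : e + e ∉ K → ∀ y : G, (y - e ∈ K ∨ y + e ∈ K) →
      (Gc_co K y ∩ D1).card + 1 = (Gc_co K y ∩ D2).card := by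
    intro hee y hy
    rcases hy with hy | hy
    · have h1 : Gc_co K y ∩ D2 = insert e (Gc_co K y ∩ D1) := by
        ext x
        rw [mem_inter, mem_insert, mem_inter, Gc_mem_co]
        constructor
        · rintro ⟨hx, hxD⟩
          rcases hcase x hxD with h1 | h1 | rfl
          · exact Or.inr ⟨hx, h1⟩
          · exact Or.inl h1
          · exfalso
            apply hee
            have := K.neg_mem (K.add_mem hx hy)
            have e1 : -(-e - y + (y - e)) = e + e := by abel
            rwa [e1] at this
        · rintro (rfl | ⟨hx, hxD⟩)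
          · refine ⟨?_, he2⟩
            have := K.neg_mem hy
            rwa [neg_sub] at this
          · exact ⟨hx, hsub hxD⟩
      rw [h1, card_insert_of_notMem]
      rw [mem_inter]
      exact fun h => he1 h.2
    · have h1 : Gc_co K y ∩ D2 = insert (-e) (Gc_co K y ∩ D1) := by
        ext x
        rw [mem_inter, mem_insert, mem_inter, Gc_mem_co]
        constructor
        · rintro ⟨hx, hxD⟩
          rcases hcase x hxD with h1 | rfl | h1
          · exact Or.inr ⟨hx, h1⟩
          · exfalso
            apply hee
            have := K.add_mem hx hy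
            have e1 : x - y + (y + x) = x + x := by abel
            rwa [e1] at this
          · exact Or.inl h1
        · rintro (rfl | ⟨hx, hxD⟩)
          · refine ⟨?_, hne2⟩
            have := K.neg_mem hy
            have e1 : -(y + e) = -e - y := by abel
            rwa [e1] at this
          · exact ⟨hx, hsub hxD⟩
      rw [h1, card_insert_of_notMem]
      rw [mem_inter]
      exact fun h => hne1 h.2
  set q := Nat.card K with hq
  -- the exceptional situation
  set X : Prop := e + e ∉ K ∧ q = 3 ∧ (Gc_co K e ∩ D2).card = 2 with hX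
  have hXfull : X → ∀ y ∈ D2, y - e ∉ K → y + e ∉ K → ∀ x, x - y ∈ K → x ∈ D1 := by
    rintro ⟨hee, hq3, hce⟩ y hy h1 h2 x hx
    have h3 : e - -e ∉ K := by
      have : e - -e = e + e := by abel
      rwa [this]
    have h4 : e - y ∉ K := fun h => h1 (by have := K.neg_mem h; rwa [neg_sub] at this)
    have h5 : -e - y ∉ K := fun h => h2 (by
      have := K.neg_mem h
      have e1 : -(-e - y) = y + e := by abel
      rwa [e1] at this)
    have h6 := Gc_three hst2 he2 hne2 hy h3 h4 h5
    rw [Gc_neg hs2, hce] at h6
    have h7 := Gc_split K y D2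
    have h8 : (Gc_co K y \ D1).card = 0 := by
      have h9 := Gc_split K y D1
      rw [hA y h1 h2] at h9
      omega
    rw [card_eq_zero] at h8
    by_contra hxD
    have : x ∈ Gc_co K y \ D1 := by
      rw [mem_sdiff, Gc_mem_co]
      exact ⟨hx, hxD⟩
    rw [h8] at this
    exact absurd this (notMem_empty _)
  -- cosets of order different from two
  have hself : ∀ y ∈ D2, y + y ∉ K → q + 1 ≤ (Gc_co K y ∩ D1).card + (Gc_co K y ∩ D2).card ∨
      (X ∧ (y - e ∈ K ∨ y + e ∈ K)) := by
    intro y hy hyy
    have h1 : y - -y ∉ K := by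
      have : y - -y = y + y := by abel
      rwa [this]
    have h2 := Gc_two hst2 hy (hs2 y hy) h1
    rw [Gc_neg hs2] at h2
    by_cases hye : y - e ∈ K ∨ y + e ∈ K
    · have hee : e + e ∉ K := by
        intro h
        apply hyy
        rcases hye with h3 | h3
        · have : y + y = (y - e) + (y - e) + (e + e) := by abel
          rw [this]
          exact K.add_mem (K.add_mem h3 h3) h
        · have : y + y = (y + e) + (y + e) - (e + e) := by abel
          rw [this]
          exact K.sub_mem (K.add_mem h3 h3) h
      have h3 := hB hee y hye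
      by_cases h4 : q + 2 ≤ 2 * (Gc_co K y ∩ D2).card
      · left
        omega
      · right
        refine ⟨⟨hee, by omega, ?_⟩, hye⟩
        have h5 : (Gc_co K y ∩ D2).card = 2 := by omega
        rcases hye with h6 | h6
        · rw [← Gc_co_eq h6]
          exact h5
        · have h7 : y - -e ∈ K := by
            have : y - -e = y + e := by abel
            rwa [this]
          rw [← Gc_neg hs2 e, ← Gc_co_eq h7]
          exact h5
    · left
      rw [not_or] at hye
      rw [hA y hye.1 hye.2]
      exact h2
  -- the zero coset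
  have hzero : ∀ x ∈ K, x ∈ D1 + D2 := by
    intro x hx
    obtain ⟨y, hy, hyy⟩ := hy0
    rcases hself y hy hyy with h | ⟨hXX, -⟩
    · have h1 : q + 1 ≤ (Gc_co K y ∩ D1).card + (Gc_co K (-y) ∩ D2).card := by
        rw [Gc_neg hs2]
        exact h
      refine Gc_full h1 ?_
      rw [add_neg_cancel, sub_zero]
      exact hx
    · have he0 : e ∉ K := fun h => hXX.1 (K.add_mem h h)
      have h1 := hXfull hXX 0 h02 (fun h => he0 (by
          have := K.neg_mem h
          rwa [neg_sub, sub_zero] at this)) (by rwa [zero_add]) x (by rwa [sub_zero])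
      have := Finset.add_mem_add h1 h02
      rwa [add_zero] at this
  -- pairs
  have hpair : ∀ y ∈ D2, ∀ y' ∈ D2, (∀ x, x - (y + y') ∈ K → x ∈ D1 + D2) ∨
      (X ∧ y - y' ∈ K ∧ (y - e ∈ K ∨ y + e ∈ K)) := by
    intro y hy y' hy'
    by_cases hyy : y - y' ∈ K
    · by_cases h2 : y + y ∈ K
      · left
        intro x hx
        apply hzero
        have : x = x - (y + y') + ((y + y) - (y - y')) := by abel
        rw [this]
        exact K.add_mem hx (K.sub_mem h2 hyy)
      · rcases hself y hy h2 with h | ⟨hXX, h⟩
        · left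
          intro x hx
          rw [Gc_co_eq hyy] at h
          refine Gc_full (y := y') (y' := y') h ?_
          have : x - (y' + y') = x - (y + y') + (y - y') := by abel
          rw [this]
          exact K.add_mem hx hyy
        · exact Or.inr ⟨hXX, hyy, h⟩
    · left
      intro x hx
      have h2 := Gc_two hst2 hy hy' hyy
      by_cases hye : y - e ∈ K ∨ y + e ∈ K
      · by_cases hye' : y' - e ∈ K ∨ y' + e ∈ K
        · apply hzero
          have h3 : y + y' ∈ K := by
            rcases hye with h4 | h4 <;> rcases hye' with h5 | h5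
            · exact absurd (by
                have := K.sub_mem h4 h5
                have e1 : y - e - (y' - e) = y - y' := by abel
                rwa [e1] at this) hyy
            · have := K.add_mem h4 h5
              have e1 : y - e + (y' + e) = y + y' := by abel
              rwa [e1] at this
            · have := K.add_mem h4 h5
              have e1 : y + e + (y' - e) = y + y' := by abel
              rwa [e1] at this
            · exact absurd (by
                have := K.sub_mem h4 h5
                have e1 : y + e - (y' + e) = y - y' := by abel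
                rwa [e1] at this) hyy
          have : x = x - (y + y') + (y + y') := by abel
          rw [this]
          exact K.add_mem hx h3
        · rw [not_or] at hye'
          rw [← hA y' hye'.1 hye'.2] at h2
          refine Gc_full (K := K) (y := y') (y' := y) (by omega) ?_
          rwa [add_comm y' y]
      · rw [not_or] at hye
        rw [← hA y hye.1 hye.2] at h2
        exact Gc_full h2 hx
  -- images
  have him : ∀ b ∈ im D2 K, ∃ z ∈ D1, (QuotientAddGroup.mk z : G ⧸ K) = b := by
    intro b hb
    unfold im at hb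
    rw [mem_image] at hb
    obtain ⟨y, hy, rfl⟩ := hb
    obtain ⟨z, hz, hzy⟩ := hmeet y hy
    refine ⟨z, hz, ?_⟩
    rw [eq_comm, QuotientAddGroup.eq, neg_add_eq_sub]
    exact hzy
  have hmk : ∀ x y : G, (QuotientAddGroup.mk x : G ⧸ K) = QuotientAddGroup.mk y ↔ x - y ∈ K := by
    intro x y
    rw [eq_comm, QuotientAddGroup.eq, neg_add_eq_sub]
  -- the claim
  have hclaim : ∀ i : ℕ, ∀ γ ∈ it (im D2 K) (i + 2),
      (∀ x : G, (QuotientAddGroup.mk x : G ⧸ K) = γ → x ∈ it D1 (i + 1) + D2) ∨
      (X ∧ ∃ p : G, (p = e ∨ p = -e) ∧ γ = (QuotientAddGroup.mk ((i + 2) • p) : G ⧸ K)) := by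
    intro i
    induction i with
    | zero =>
      intro γ hγ
      have h1 := (Gc_it (im D2 K) 1).1 hγ
      rw [Gc_it1] at h1
      obtain ⟨a, ha, b, hb, rfl⟩ := h1
      unfold im at ha hb
      rw [mem_image] at ha hb
      obtain ⟨y, hy, rfl⟩ := ha
      obtain ⟨y', hy', rfl⟩ := hb
      have h3 : it D1 (0 + 1) = D1 := Gc_it1 D1
      rw [h3]
      rcases hpair y hy y' hy' with h | ⟨hXX, hyy, h⟩
      · left
        intro x hx
        apply h
        rw [← hmk]
        exact hx
      · right
        refine ⟨hXX, ?_⟩
        rcases h with h | h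
        · refine ⟨e, Or.inl rfl, ?_⟩
          rw [← QuotientAddGroup.mk_add, hmk]
          have : y + y' - (0 + 2) • e = (y - e) + (y - e) - (y - y') := by
            rw [zero_add, two_nsmul]
            abel
          rw [this]
          exact K.sub_mem (K.add_mem h h) hyy
        · refine ⟨-e, Or.inr rfl, ?_⟩
          rw [← QuotientAddGroup.mk_add, hmk]
          have : y + y' - (0 + 2) • (-e) = (y + e) + (y + e) - (y - y') := by
            rw [zero_add, two_nsmul]
            abel
          rw [this]
          exact K.sub_mem (K.add_mem h h) hyy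
    | succ i ih =>
      intro γ hγ
      have h1 := (Gc_it (im D2 K) (i + 2)).1 hγ
      obtain ⟨δ, hδ, b, hb, rfl⟩ := h1
      rcases ih δ hδ with h | ⟨hXX, p, hp, rfl⟩
      · left
        intro x hx
        obtain ⟨z, hz, rfl⟩ := him b hb
        have h2 : (QuotientAddGroup.mk (x - z) : G ⧸ K) = δ := by
          rw [QuotientAddGroup.mk_sub, hx, add_sub_cancel_right]
        have h3 := h _ h2
        rw [Finset.mem_add] at h3
        obtain ⟨u, hu, v, hv, huv⟩ := h3
        have h4 : x = (u + z) + v := by
          have : x = (x - z) + z := by abel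
          rw [this, ← huv]
          abel
        rw [h4]
        exact Finset.add_mem_add (Finset.add_mem_add hu hz) hv
      · unfold im at hb
        rw [mem_image] at hb
        obtain ⟨y, hy, rfl⟩ := hb
        have hp' : ∃ p' ∈ D1, p' - p ∈ K := by
          rcases hp with rfl | rfl
          · exact ⟨e', he', hee'⟩
          · exact hmeet _ hne2
        obtain ⟨p', hp'D, hpp'⟩ := hp'
        have hpD2 : p ∈ D2 := by
          rcases hp with rfl | rfl
          · exact he2
          · exact hne2
        have hee := hXX.1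
        have he0 : e ∉ K := fun h => hee (K.add_mem h h)
        have hKD : ∀ k ∈ K, k ∈ D1 := by
          intro k hk
          exact hXfull hXX 0 h02 (fun h => he0 (by
            have := K.neg_mem h
            rwa [neg_sub, sub_zero] at this)) (by rwa [zero_add]) k (by rwa [sub_zero])
        by_cases hyp : y - p ∈ K
        · right
          refine ⟨hXX, p, hp, ?_⟩
          rw [← QuotientAddGroup.mk_add, hmk]
          have : (i + 2) • p + y - (i + 1 + 2) • p = y - p := by
            have e1 : (i + 1 + 2) • p = (i + 2) • p + p := by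
              rw [show i + 1 + 2 = i + 2 + 1 by ring, succ_nsmul]
            rw [e1]
            abel
          rw [this]
          exact hyp
        · left
          intro x hx
          rw [← QuotientAddGroup.mk_add, hmk] at hx
          by_cases hyp2 : y + p ∈ K
          · have h2 : x - (i + 1) • p' ∈ K := by
              have e1 : x - (i + 1) • p' = x - ((i + 2) • p + y) + (y + p) - (i + 1) • (p' - p) := by
                rw [smul_sub, show i + 2 = i + 1 + 1 by ring, succ_nsmul p (i + 1)]
                abel
              rw [e1]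
              exact K.sub_mem (K.add_mem hx hyp2) (K.nsmul_mem hpp' _)
            have h3 := Finset.add_mem_add (Finset.add_mem_add (Gc_nsmul hp'D (i + 1)) (hKD _ h2)) h02
            have h4 : (i + 1) • p' + (x - (i + 1) • p') + 0 = x := by abel
            rw [h4] at h3
            exact h3
          · have h5 : y - e ∉ K ∧ y + e ∉ K := by
              rcases hp with rfl | rfl
              · exact ⟨hyp, hyp2⟩
              · have e1 : y - -e = y + e := by abel
                have e2 : y + -e = y - e := by abel
                rw [e1] at hyp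
                rw [e2] at hyp2
                exact ⟨hyp2, hyp⟩
            have h2 : x - (i + 1) • p' - p - y ∈ K := by
              have e1 : x - (i + 1) • p' - p - y = x - ((i + 2) • p + y) - (i + 1) • (p' - p) := by
                rw [smul_sub, show i + 2 = i + 1 + 1 by ring, succ_nsmul p (i + 1)]
                abel
              rw [e1]
              exact K.sub_mem hx (K.nsmul_mem hpp' _)
            have h6 := hXfull hXX y hy h5.1 h5.2 _ h2
            have h3 := Finset.add_mem_add (Finset.add_mem_add (Gc_nsmul hp'D (i + 1)) h6) hpD2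
            have h4 : (i + 1) • p' + (x - (i + 1) • p' - p) + p = x := by abel
            rw [h4] at h3
            exact h3
  intro i hi
  obtain ⟨j, rfl⟩ : ∃ j, i = j + 1 := ⟨i - 1, by omega⟩
  rw [show j + 1 + 1 = j + 2 by ring, ← Gc_pre K (it (im D2 K) (j + 2))]
  set S := (Set.toFinite {x : G | (QuotientAddGroup.mk x : G ⧸ K) ∈ it (im D2 K) (j + 2)}).toFinset
    with hS
  set T := it D1 (j + 1) + D2 with hT
  have hSm : ∀ x ∈ S, (QuotientAddGroup.mk x : G ⧸ K) ∈ it (im D2 K) (j + 2) := by
    intro x hx
    rw [hS] at hx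
    simpa using hx
  by_cases hXX : X
  · have hq3 : q = 3 := hXX.2.1
    rw [if_pos hq3]
    have h1 : S ⊆ T ∪ ((Gc_co K ((j + 2) • e) \ T) ∪ (Gc_co K ((j + 2) • (-e)) \ T)) := by
      intro x hx
      rw [mem_union, mem_union, mem_sdiff, mem_sdiff, Gc_mem_co, Gc_mem_co]
      by_cases hxT : x ∈ T
      · exact Or.inl hxT
      · right
        rcases hclaim j _ (hSm x hx) with h | ⟨-, p, hp, h⟩
        · exact absurd (h x rfl) hxT
        · rw [hmk] at h
          rcases hp with rfl | rfl
          · exact Or.inl ⟨h, hxT⟩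
          · exact Or.inr ⟨h, hxT⟩
    have h2 : ∀ p ∈ D2, p ∉ D1 → (Gc_co K ((j + 2) • p) \ T).card ≤ 1 := by
      intro p hp hp1
      obtain ⟨p', hp', hpp'⟩ := hmeet p hp
      have h3 := Gc_split K ((j + 2) • p) T
      have h4 : ({(j + 1) • p' + p, (j + 1) • p' + p'} : Finset G) ⊆ Gc_co K ((j + 2) • p) ∩ T := by
        intro x hx
        rw [mem_insert, mem_singleton] at hx
        rw [mem_inter, Gc_mem_co]
        rcases hx with rfl | rfl
        · refine ⟨?_, Finset.add_mem_add (Gc_nsmul hp' _) hp⟩
          have e1 : (j + 1) • p' + p - (j + 2) • p = (j + 1) • (p' - p) := by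
            rw [smul_sub, show j + 2 = j + 1 + 1 by ring, succ_nsmul p (j + 1)]
            abel
          rw [e1]
          exact K.nsmul_mem hpp' _
        · refine ⟨?_, Finset.add_mem_add (Gc_nsmul hp' _) (hsub hp')⟩
          have e1 : (j + 1) • p' + p' - (j + 2) • p = (j + 2) • (p' - p) := by
            rw [smul_sub, show j + 2 = j + 1 + 1 by ring, succ_nsmul p' (j + 1)]
          rw [e1]
          exact K.nsmul_mem hpp' _
      have h5 := Finset.card_le_card h4
      rw [Finset.card_pair] at h5
      · omega
      · intro h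
        have := add_left_cancel h
        exact hp1 (this ▸ hp')
    have h3 := h2 e he2 he1
    have h4 := h2 (-e) hne2 hne1
    have h5 := Finset.card_le_card h1
    have h6 := Finset.card_union_le T
      ((Gc_co K ((j + 2) • e) \ T) ∪ (Gc_co K ((j + 2) • (-e)) \ T))
    have h7 := Finset.card_union_le (Gc_co K ((j + 2) • e) \ T) (Gc_co K ((j + 2) • (-e)) \ T)
    omega
  · have h1 : S ⊆ T := by
      intro x hx
      rcases hclaim j _ (hSm x hx) with h | ⟨h, -⟩
      · exact h x rfl
      · exact absurd h hXX
    exact (Finset.card_le_card h1).trans (Nat.le_add_right _ _)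

end Pool.Agent.SSE
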