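import Pool.Agent.SSE.St

/-!
# SSE, Ge: growth with two sets, general case
-/

set_option autoImplicit false

noncomputable section

open Finset Pool.Agent.Helper64.Rho Pool.Agent.SDG Pool.Agent.MDR Pool.Agent.SSC
open scoped Classical Pointwise

namespace Pool.Agent.SSE

theorem Ge_it_mono {G : Type} [AddCommGroup G] {D : Finset G} (h0 : (0 : G) ∈ D) (n : ℕ) :
    it D n ⊆ it D (n + 1) := by
  intro x hx
  have := Finset.add_mem_add hx h0
  rw [add_zero] at this
  exact this

theorem Ge_it_symm {G : Type} [AddCommGroup G] {D : Finset G} (hs : ∀ y ∈ D, -y ∈ D) (n : ℕ) :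
    ∀ y ∈ it D n, -y ∈ it D n := by
  induction n with
  | zero =>
    intro y hy
    rw [it, mem_singleton] at hy ⊢
    rw [hy, neg_zero]
  | succ n ih =>
    intro y hy
    obtain ⟨a, ha, b, hb, rfl⟩ := Finset.mem_add.1 hy
    rw [neg_add]
    exact Finset.add_mem_add (ih a ha) (hs b hb)

theorem Ge_st_bot {G : Type} [AddCommGroup G] [Finite G] (D : Finset G) : st D ⊥ = D := by
  ext x
  simp only [st, Set.Finite.mem_toFinset, Set.mem_ofPred_eq, AddSubgroup.mem_bot, sub_eq_zero]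
  constructor
  · rintro ⟨a, ha, rfl⟩
    exact ha
  · intro h
    exact ⟨x, h, rfl⟩

theorem Ge_prog {G : Type} [AddCommGroup G] (D : Finset G) (d : G) (a : ℕ)
    (hc : D.card = 2 * a + 1) (h : ∀ y ∈ D, ∃ k : ℕ, k ≤ a ∧ (y = k • d ∨ y = -(k • d))) (k : ℕ)
    (hk : k ≤ a) : k • d ∈ D ∧ -(k • d) ∈ D := by
  set P : Finset G := {0} ∪ ((range a).image (fun k => (k + 1) • d) ∪
    (range a).image (fun k => -((k + 1) • d))) with hP
  have h1 : D ⊆ P := by
    intro y hy
    obtain ⟨k, hk, h2⟩ := h y hy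
    rcases k with _ | k
    · have h3 : y = 0 := by
        rcases h2 with h2 | h2
        · rw [h2, zero_nsmul]
        · rw [h2, zero_nsmul, neg_zero]
      exact mem_union_left _ (mem_singleton.2 h3)
    · rcases h2 with h2 | h2
      · exact mem_union_right _ (mem_union_left _
          (mem_image.2 ⟨k, mem_range.2 (by omega), h2.symm⟩))
      · exact mem_union_right _ (mem_union_right _
          (mem_image.2 ⟨k, mem_range.2 (by omega), h2.symm⟩))
  have h2 : P.card ≤ 2 * a + 1 := by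
    have h3 := card_union_le ({0} : Finset G) ((range a).image (fun k => (k + 1) • d) ∪
      (range a).image (fun k => -((k + 1) • d)))
    have h4 := card_union_le ((range a).image (fun k => (k + 1) • d))
      ((range a).image (fun k => -((k + 1) • d)))
    have h5 := card_image_le (s := range a) (f := fun k => (k + 1) • d)
    have h6 := card_image_le (s := range a) (f := fun k => -((k + 1) • d))
    rw [card_range] at h5 h6
    rw [card_singleton, ← hP] at h3
    omega
  have h3 : D = P := eq_of_subset_of_card_le h1 (by omega)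
  rw [h3]
  rcases k with _ | k
  · rw [zero_nsmul, neg_zero]
    exact ⟨mem_union_left _ (mem_singleton_self _), mem_union_left _ (mem_singleton_self _)⟩
  · exact ⟨mem_union_right _ (mem_union_left _ (mem_image.2 ⟨k, mem_range.2 (by omega), rfl⟩)),
      mem_union_right _ (mem_union_right _ (mem_image.2 ⟨k, mem_range.2 (by omega), rfl⟩))⟩

theorem Ge_count {G : Type} [AddCommGroup G] [Finite G] (S : Finset G) (d : G) (M : ℕ)
    (hd : ∀ x : G, ∃ k : ℕ, x = k • d) (h : ∀ y, y ≤ M → y • d ∈ S ∧ -(y • d) ∈ S) :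
    Nat.card G ≤ S.card ∨ 2 * M + 1 ≤ S.card := by
  have h1 : addOrderOf d = Nat.card G := addOrderOf_eq_card_of_forall_mem_zmultiples (by
    intro x
    obtain ⟨k, rfl⟩ := hd x
    exact AddSubgroup.nsmul_mem _ (AddSubgroup.mem_zmultiples d) k)
  have h2 : (range (min (Nat.card G) (2 * M + 1))).card ≤ S.card := by
    refine card_le_card_of_injOn (fun y : ℕ => y • d - M • d) ?_ ?_
    · intro y hy
      have hy' := mem_range.1 (mem_coe.1 hy)
      show y • d - M • d ∈ (S : Set G)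
      rcases le_total M y with h4 | h4
      · obtain ⟨z, rfl⟩ := Nat.exists_eq_add_of_le h4
        have h5 : (M + z) • d - M • d = z • d := by
          rw [add_nsmul]
          abel
        rw [h5]
        exact mem_coe.2 (h z (by omega)).1
      · obtain ⟨z, rfl⟩ := Nat.exists_eq_add_of_le h4
        have h5 : y • d - (y + z) • d = -(z • d) := by
          rw [add_nsmul]
          abel
        rw [h5]
        exact mem_coe.2 (h z (by omega)).2
    · intro y hy y' hy' h3
      have hy1 := mem_range.1 (mem_coe.1 hy)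
      have hy2 := mem_range.1 (mem_coe.1 hy')
      refine nsmul_injOn_Iio_addOrderOf (x := d) ?_ ?_ (sub_left_injective h3)
      · exact Set.mem_Iio.2 (by omega)
      · exact Set.mem_Iio.2 (by omega)
  rw [card_range] at h2
  omega

/-- multiples of a progression -/
theorem Ge_mul {G : Type} [AddCommGroup G] {D E : Finset G} {d : G} {n a b : ℕ}
    (h1 : ∀ k, k ≤ n → (k * a) • d ∈ E) (h2 : ∀ k, k ≤ b → k • d ∈ D) (hab : a ≤ b) (ha : 1 ≤ a)
    (y : ℕ) (hy : y ≤ n * a + b) : y • d ∈ E + D := by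
  rcases le_total (y / a) n with h | h
  · have h3 : y = (y / a) * a + y % a := by
      rw [mul_comm]
      exact (Nat.div_add_mod y a).symm
    have h4 := Nat.mod_lt y ha
    rw [h3, add_nsmul]
    exact Finset.add_mem_add (h1 _ h) (h2 _ (by omega))
  · have h3 : n * a ≤ y := le_trans (Nat.mul_le_mul_right a h) (Nat.div_mul_le_self y a)
    obtain ⟨z, rfl⟩ := Nat.exists_eq_add_of_le h3
    rw [add_nsmul]
    exact Finset.add_mem_add (h1 _ le_rfl) (h2 _ (by omega))

theorem Ge_it_mul {G : Type} [AddCommGroup G] {D : Finset G} {d : G} {a : ℕ} (h0 : (0 : G) ∈ D)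
    (ha : a • d ∈ D) (n : ℕ) : ∀ k, k ≤ n → (k * a) • d ∈ it D n := by
  induction n with
  | zero =>
    intro k hk
    rw [Nat.le_zero.1 hk, zero_mul, zero_nsmul]
    exact mem_singleton_self _
  | succ n ih =>
    intro k hk
    rcases Nat.lt_or_ge n k with h | h
    · have h1 : k = n + 1 := by omega
      rw [h1, add_mul, one_mul, add_nsmul]
      exact Finset.add_mem_add (ih n le_rfl) ha
    · exact Ge_it_mono h0 n (ih k h)

theorem Ge_add_symm {G : Type} [AddCommGroup G] {D E : Finset G} (hD : ∀ y ∈ D, -y ∈ D)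
    (hE : ∀ y ∈ E, -y ∈ E) : ∀ y ∈ E + D, -y ∈ E + D := by
  intro y hy
  obtain ⟨a, ha, b, hb, rfl⟩ := Finset.mem_add.1 hy
  rw [neg_add]
  exact Finset.add_mem_add (hE a ha) (hD b hb)

theorem Ge_apk {G : Type} [AddCommGroup G] [Finite G] {D : Finset G} {a : ℕ}
    (hc : D.card = 2 * a + 1) (h : APK D ⊥) : ∃ d : G, (∀ x : G, ∃ k : ℕ, x = k • d) ∧
      (∀ y ∈ D, ∃ k : ℕ, k ≤ a ∧ (y = k • d ∨ y = -(k • d))) ∧
      ∀ k, k ≤ a → k • d ∈ D ∧ -(k • d) ∈ D := by
  obtain ⟨d, a', h1, h2, h3⟩ := h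
  rw [Ge_st_bot, AddSubgroup.card_bot, one_mul] at h2
  have h4 : a' = a := by omega
  subst h4
  have h5 : ∀ y ∈ D, ∃ k : ℕ, k ≤ a' ∧ (y = k • d ∨ y = -(k • d)) := by
    intro y hy
    obtain ⟨k, hk, h6⟩ := h3 y hy
    refine ⟨k, hk, ?_⟩
    rcases h6 with h6 | h6
    · exact Or.inl (sub_eq_zero.1 (AddSubgroup.mem_bot.1 h6))
    · exact Or.inr (eq_neg_of_add_eq_zero_left (AddSubgroup.mem_bot.1 h6))
  refine ⟨d, fun x => ?_, h5, Ge_prog D d a' hc h5⟩
  obtain ⟨k, hk⟩ := h1 x
  exact ⟨k, sub_eq_zero.1 (AddSubgroup.mem_bot.1 hk)⟩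

theorem Ge_B {G : Type} [AddCommGroup G] [Finite G] {D1 D2 : Finset G} {e : G} {l : ℕ}
    (h0 : (0 : G) ∈ D1) (hs1 : ∀ y ∈ D1, -y ∈ D1) (hs2 : ∀ y ∈ D2, -y ∈ D2)
    (he : D2 = D1 ∪ {e, -e}) (hc1 : D1.card = 2 * l + 1) (hc2 : D2.card = 2 * l + 3)
    (hn : ¬ APK D1 ⊥) (ha : APK D2 ⊥) (i : ℕ) :
    Nat.card G ≤ (it D1 i + D2).card + 5 ∨ (i + 1) * (2 * l + 2) ≤ (it D1 i + D2).card := by
  obtain ⟨d, hd, h1, h2⟩ := Ge_apk (a := l + 1) (by omega) ha
  have h3 : (l + 1) • d ∈ D1 := by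
    by_contra h3
    apply hn
    have h4 : (l + 1) • d = e ∨ (l + 1) • d = -e := by
      have h5 := (h2 (l + 1) le_rfl).1
      rw [he, mem_union, mem_insert, mem_singleton] at h5
      exact h5.resolve_left h3
    have h6 : ∀ y ∈ D1, y ≠ (l + 1) • d := fun y hy h => h3 (h ▸ hy)
    refine ⟨d, l, fun x => ?_, ?_, fun y hy => ?_⟩
    · obtain ⟨k, hk⟩ := hd x
      exact ⟨k, AddSubgroup.mem_bot.2 (sub_eq_zero.2 hk)⟩
    · rw [Ge_st_bot, AddSubgroup.card_bot, one_mul, hc1]
    · obtain ⟨k, hk, h7⟩ := h1 y (he ▸ mem_union_left _ hy)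
      have h8 : k ≠ l + 1 := by
        rintro rfl
        rcases h7 with h7 | h7
        · exact h6 y hy h7
        · refine h6 (-y) (hs1 y hy) ?_
          rw [h7, neg_neg]
      refine ⟨k, by omega, ?_⟩
      rcases h7 with h7 | h7
      · exact Or.inl (AddSubgroup.mem_bot.2 (sub_eq_zero.2 h7))
      · exact Or.inr (AddSubgroup.mem_bot.2 (by rw [h7, neg_add_cancel]))
  have h4 : ∀ y, y ≤ i * (l + 1) + (l + 1) → y • d ∈ it D1 i + D2 :=
    Ge_mul (Ge_it_mul h0 h3 i) (fun k hk => (h2 k hk).1) le_rfl (by omega)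
  rcases Ge_count (it D1 i + D2) d (i * (l + 1) + (l + 1)) hd
    (fun y hy => ⟨h4 y hy, Ge_add_symm hs2 (Ge_it_symm hs1 i) _ (h4 y hy)⟩) with h5 | h5
  · exact Or.inl (by omega)
  · refine Or.inr (le_trans ?_ h5)
    nlinarith

theorem Ge_C1 (hGS : St_GS) {H : Type} [AddCommGroup H] [Finite H] {D : Finset H}
    (h0 : (0 : H) ∈ D) (hs : ∀ y ∈ D, -y ∈ D) (hm : 2 ≤ D.card) (hn : ¬ NearP D)
    (ha : ¬ APK D ⊥) (n : ℕ) :
    Nat.card H ≤ (it D (n + 1)).card + 1 ∨ (n + 1) * D.card ≤ (it D (n + 1)).card := by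
  induction n with
  | zero =>
    right
    have h1 : it D (0 + 1) = D := by
      show ({0} : Finset H) + D = D
      rw [singleton_zero, zero_add]
    rw [h1]
    omega
  | succ n ih =>
    by_cases h : Nat.card H ≤ (it D (n + 1 + 1)).card + 1
    · exact Or.inl h
    · right
      have h1 := card_le_card (Ge_it_mono h0 (n + 1))
      have h2 : (n + 1) * D.card ≤ (it D (n + 1)).card := ih.resolve_left (by omega)
      have h3 : 2 ≤ (it D (n + 1)).card := by
        refine le_trans hm (le_trans ?_ h2)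
        exact Nat.le_mul_of_pos_left _ (by omega)
      have h4 : (it D (n + 1) + D).card + 2 ≤ Nat.card H := by
        show (it D (n + 1 + 1)).card + 2 ≤ Nat.card H
        omega
      have h5 := hGS H D (it D (n + 1)) h0 hs hm hn ha h3 h4
      show (n + 1 + 1) * D.card ≤ (it D (n + 1) + D).card
      refine le_trans ?_ h5
      rw [add_mul (n + 1) 1 D.card, one_mul]
      omega

theorem Ge_C2 {H : Type} [AddCommGroup H] [Finite H] {D : Finset H} {a : ℕ}
    (h0 : (0 : H) ∈ D) (hs : ∀ y ∈ D, -y ∈ D) (hm : D.card = 2 * a + 1) (h1a : 1 ≤ a)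
    (ha : APK D ⊥) (n : ℕ) :
    Nat.card H ≤ (it D (n + 1)).card ∨ 2 * ((n + 1) * a) + 1 ≤ (it D (n + 1)).card := by
  obtain ⟨d, hd, h1, h2⟩ := Ge_apk hm ha
  have h4 : ∀ y, y ≤ n * a + a → y • d ∈ it D n + D :=
    Ge_mul (Ge_it_mul h0 (h2 a le_rfl).1 n) (fun k hk => (h2 k hk).1) le_rfl h1a
  have h5 := Ge_count (it D n + D) d (n * a + a) hd
    (fun y hy => ⟨h4 y hy, Ge_add_symm hs (Ge_it_symm hs n) _ (h4 y hy)⟩)
  rw [add_mul, one_mul]
  exact h5

theorem thm_Ge : St_Cy → St_GS → St_Gv → St_Mx → St_Gc → St_Ge := by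
  intro _ hGS hGv hMx hGc G _ _ D1 D2 e l hcy hl h0 hs1 he hc1 hc2 _ hn1 ha1 hK i
  have hs2 : ∀ y ∈ D2, -y ∈ D2 := by
    intro y hy
    rw [he, mem_union, mem_insert, mem_singleton] at hy ⊢
    rcases hy with hy | hy | hy
    · exact Or.inl (hs1 y hy)
    · exact Or.inr (Or.inr (by rw [hy]))
    · exact Or.inr (Or.inl (by rw [hy, neg_neg]))
  have hsub : D1 ⊆ D2 := he ▸ subset_union_left
  by_cases hA2 : APK D2 ⊥
  · exact Ge_B h0 hs1 hs2 he hc1 hc2 ha1 hA2 i
  by_cases hN2 : NearP D2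
  swap
  · rcases hGv G D1 D2 l hcy hl h0 hs1 hsub hs2 hc1 hc2 hn1 ha1 hN2 hA2 i with h | h
    · exact Or.inl (by omega)
    · exact Or.inr h
  rcases Nat.eq_zero_or_pos i with rfl | hi
  · right
    have h1 : it D1 0 + D2 = D2 := by
      show ({0} : Finset G) + D2 = D2
      rw [singleton_zero, zero_add]
    rw [h1]
    omega
  obtain ⟨K, hNF, hcK, hnK⟩ := hMx G D2 hN2
  obtain ⟨hK4, hy⟩ := hK K hNF
  have hK2 : 2 ≤ Nat.card K := by
    have h1 : Nat.card K ≠ 1 := fun h => hNF.1 (AddSubgroup.card_eq_one.1 h)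
    have h2 : 0 < Nat.card K := Nat.card_pos
    omega
  have hst : (st D1 K).card ≤ (st D2 K).card := by
    refine card_le_card fun x hx => ?_
    simp only [st, Set.Finite.mem_toFinset, Set.mem_ofPred_eq] at hx ⊢
    obtain ⟨a, ha, h⟩ := hx
    exact ⟨a, hsub ha, h⟩
  have hD1 : D1.card + Nat.card K ≤ (st D1 K).card := by
    by_contra h
    exact hn1 ⟨K, hNF.1, hNF.2.1, by omega⟩
  have hG := hGc G D1 D2 e K h0 hs1 he (by omega) hK2 hK4 hNF.2.2 hD1 hy i hi
  have hN : Nat.card G = Nat.card (G ⧸ K) * Nat.card K :=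
    AddSubgroup.card_eq_card_quotient_mul_card_addSubgroup K
  have h0' : (0 : G ⧸ K) ∈ im D2 K := mem_image.2 ⟨0, hsub h0, rfl⟩
  have hs' : ∀ y ∈ im D2 K, -y ∈ im D2 K := by
    intro y hy
    obtain ⟨x, hx, rfl⟩ := mem_image.1 hy
    exact mem_image.2 ⟨-x, hs2 x hx, rfl⟩
  have hm1 : 2 * l + 1 + Nat.card K ≤ Nat.card K * (im D2 K).card := by omega
  have hm2 : 2 ≤ (im D2 K).card := by
    by_contra h
    have h1 : Nat.card K * (im D2 K).card ≤ Nat.card K * 1 := Nat.mul_le_mul_left _ (by omega)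
    omega
  by_cases hA : APK (im D2 K) ⊥
  · obtain ⟨a, ha⟩ : ∃ a, (im D2 K).card = 2 * a + 1 := by
      obtain ⟨d, a, _, h, _⟩ := hA
      rw [Ge_st_bot, AddSubgroup.card_bot, one_mul] at h
      exact ⟨a, h⟩
    rcases Ge_C2 h0' hs' ha (by omega) hA i with h | h
    · left
      have h1 := Nat.mul_le_mul_left (Nat.card K) h
      rw [hN, mul_comm]
      split_ifs at hG <;> omega
    · right
      have h1 := Nat.mul_le_mul_left (Nat.card K) h
      have h2 : 2 * l + 2 ≤ Nat.card K * (2 * a) := by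
        rw [ha, mul_add, mul_one] at hm1
        have h3 : Nat.card K * (2 * a) = 2 * (Nat.card K * a) := by ring
        omega
      have h3 : (i + 1) * (2 * l + 2) ≤ (i + 1) * (Nat.card K * (2 * a)) :=
        Nat.mul_le_mul_left _ h2
      have h4 : Nat.card K * (2 * ((i + 1) * a) + 1) =
          (i + 1) * (Nat.card K * (2 * a)) + Nat.card K := by ring
      split_ifs at hG <;> omega
  · rcases Ge_C1 hGS h0' hs' hm2 hnK hA i with h | h
    · left
      have h1 := Nat.mul_le_mul_left (Nat.card K) h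
      rw [mul_add, mul_one] at h1
      rw [hN, mul_comm]
      split_ifs at hG <;> omega
    · right
      have h1 := Nat.mul_le_mul_left (Nat.card K) h
      have h2 : (i + 1) * (2 * l + 1 + Nat.card K) ≤ (i + 1) * (Nat.card K * (im D2 K).card) :=
        Nat.mul_le_mul_left _ hm1
      have h3 : Nat.card K * ((i + 1) * (im D2 K).card) =
          (i + 1) * (Nat.card K * (im D2 K).card) := by ring
      have h4 : (i + 1) * (2 * l + 1 + Nat.card K) = (i + 1) * (2 * l + 2) +
          (i + 1) * (Nat.card K - 1) := by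
        rw [← mul_add]
        congr 1
        omega
      have h5 : 1 * (Nat.card K - 1) ≤ (i + 1) * (Nat.card K - 1) :=
        Nat.mul_le_mul_right _ (by omega)
      split_ifs at hG <;> omega

end Pool.Agent.SSE
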