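import Pool.Agent.SSE.St2

/-!
# SSE, module GmE: a special family and one more member (helper36)
-/

set_option autoImplicit false

noncomputable section

open Finset Pool.Agent.Helper64.Rho Pool.Agent.SDG Pool.Agent.MDR Pool.Agent.SSC
open scoped Classical Pointwise

namespace Pool.Agent.SSE

private theorem GmE_sub {G ι : Type} [AddCommGroup G] {s t : Finset ι} {f : ι → G} (h : AS t f)
    (hs : s ⊆ t) : AS s f :=
  ⟨fun i hi => h.1 i (hs hi), fun x => (card_le_card (filter_subset_filter _ hs)).trans (h.2 x)⟩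

private theorem GmE_inj {G ι : Type} [AddCommGroup G] {s : Finset ι} {f : ι → G} (h : AS s f) :
    Set.InjOn f (s : Set ι) := by
  intro i hi j hj hij
  have h1 := card_le_one.1 (h.2 (f i))
  exact h1 i (mem_filter.2 ⟨hi, Or.inl rfl⟩) j (mem_filter.2 ⟨hj, Or.inl hij.symm⟩)

private theorem GmE_lev {G ι : Type} [AddCommGroup G] [Finite G] {s : Finset ι} {g : ι → G}
    (h : AS s g) (K : AddSubgroup G) (d : G) (lv : ι → ℕ)
    (hl : ∀ j ∈ s, g j - lv j • d ∈ K) (n : ℕ) :
    (s.filter fun j => lv j = n).card ≤ Nat.card K := by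
  have : Fintype K := Fintype.ofFinite K
  rw [Nat.card_eq_fintype_card, ← card_univ]
  apply card_le_card_of_injOn (fun j => if hj : g j - n • d ∈ K then (⟨g j - n • d, hj⟩ : K) else 0)
  · intro j _
    exact mem_univ _
  · intro x hx y hy hxy
    rw [mem_coe, mem_filter] at hx hy
    have h1 : g x - n • d ∈ K := by
      rw [← hx.2]
      exact hl x hx.1
    have h2 : g y - n • d ∈ K := by
      rw [← hy.2]
      exact hl y hy.1
    dsimp only at hxy
    rw [dif_pos h1, dif_pos h2] at hxy
    have h3 : g x - n • d = g y - n • d := congrArg Subtype.val hxy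
    exact GmE_inj h hx.1 hy.1 (sub_left_inj.1 h3)

/-- Two sums in the group and two sums of the top level. -/
private theorem GmE_two {G ι : Type} [AddCommGroup G] (v : Finset ι) (g : ι → G)
    (K : AddSubgroup G) (d : G) (M : ℕ) (h : ι) (hv : h ∈ v) (hK : g h ∈ K) (h0 : g h ≠ 0)
    (hM : (∑ j ∈ v, g j) - M • d ∈ K) :
    2 ≤ ((FS v g).filter fun x => x ∈ K).card ∧
    2 ≤ ((FS v g).filter fun x => x - M • d ∈ K).card := by
  have m1 : (0 : G) ∈ FS v g := zero_mem_FS v g
  have m2 : g h ∈ FS v g := mem_FS.2 ⟨{h}, singleton_subset_iff.2 hv, by simp⟩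
  have m3 : ∑ j ∈ v, g j ∈ FS v g := mem_FS.2 ⟨v, Subset.refl _, rfl⟩
  have m4 : (∑ j ∈ v, g j) - g h ∈ FS v g := by
    refine mem_FS.2 ⟨v.erase h, erase_subset _ _, ?_⟩
    rw [← add_sum_erase v g hv]
    abel
  constructor
  · have e : ({0, g h} : Finset G) ⊆ (FS v g).filter fun x => x ∈ K := by
      intro x hx
      rw [mem_insert, mem_singleton] at hx
      rw [mem_filter]
      rcases hx with rfl | rfl
      · exact ⟨m1, K.zero_mem⟩
      · exact ⟨m2, hK⟩
    have c := card_le_card e
    rwa [card_pair h0.symm] at c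
  · have e : ({∑ j ∈ v, g j, (∑ j ∈ v, g j) - g h} : Finset G) ⊆
        (FS v g).filter fun x => x - M • d ∈ K := by
      intro x hx
      rw [mem_insert, mem_singleton] at hx
      rw [mem_filter]
      rcases hx with rfl | rfl
      · exact ⟨m3, hM⟩
      · refine ⟨m4, ?_⟩
        have : (∑ j ∈ v, g j) - g h - M • d = ((∑ j ∈ v, g j) - M • d) - g h := by abel
        rw [this]
        exact K.sub_mem hM hK
    have c := card_le_card e
    have hne : (∑ j ∈ v, g j) ≠ (∑ j ∈ v, g j) - g h := by
      intro h1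
      apply h0
      have : g h = (∑ j ∈ v, g j) - ((∑ j ∈ v, g j) - g h) := by abel
      rw [this, ← h1, sub_self]
    rwa [card_pair hne] at c

/-- the elements of a group of order four with an element that is not killed by two -/
private theorem GmE_four {G : Type} [AddCommGroup G] [Finite G] (K : AddSubgroup G)
    (hK : Nat.card K = 4) (a b : G) (ha : a ∈ K) (ha2 : a + a ≠ 0) (hb : b ∈ K) (hb0 : b ≠ 0)
    (hb2 : b + b ≠ 0) : b = a ∨ b = -a := by
  have : Fintype G := Fintype.ofFinite G
  have h4 : ∀ x ∈ K, (4 : ℕ) • x = 0 := by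
    intro x hx
    have h1 : Nat.card K • (⟨x, hx⟩ : K) = 0 := card_nsmul_eq_zero'
    rw [hK] at h1
    have h2 := congrArg Subtype.val h1
    exact h2
  have ha4 := h4 a ha
  have ha0 : a ≠ 0 := by
    intro h
    rw [h, add_zero] at ha2
    exact ha2 rfl
  have n1 : a ≠ -a := by
    intro h
    apply ha2
    nth_rewrite 2 [h]
    rw [add_neg_cancel]
  have n2 : a + a ≠ a := by
    intro h
    apply ha0
    have : a = a + a - a := by abel
    rw [this, h, sub_self]
  have n3 : a + a ≠ -a := by
    intro h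
    apply ha0
    have e : (4 : ℕ) • a = (a + a) + (a + a) := by
      rw [show (4 : ℕ) = 2 + 2 from rfl, add_smul, two_nsmul]
    rw [e] at ha4
    nth_rewrite 1 [h] at ha4
    have : a = -a + (a + a) := by abel
    rw [this, ha4]
  have n4 : -a ≠ 0 := neg_ne_zero.2 ha0
  obtain ⟨S, hS⟩ : ∃ S : Finset G, S = {0, a, a + a, -a} := ⟨_, rfl⟩
  have hSc : S.card = 4 := by
    rw [hS, card_insert_of_notMem, card_insert_of_notMem, card_insert_of_notMem, card_singleton]
    · rw [mem_singleton]
      exact n3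
    · rw [mem_insert, mem_singleton]
      rintro (h | h)
      · exact n2 h.symm
      · exact n1 h
    · rw [mem_insert, mem_insert, mem_singleton]
      rintro (h | h | h)
      · exact ha0 h.symm
      · exact ha2 h.symm
      · exact n4 h.symm
  have hKc : (Finset.univ.filter fun x : G => x ∈ K).card = 4 := by
    rw [← hK, Nat.card_eq_fintype_card, ← Fintype.card_subtype]
  have hsub : S ⊆ Finset.univ.filter fun x : G => x ∈ K := by
    intro x hx
    rw [hS, mem_insert, mem_insert, mem_insert, mem_singleton] at hx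
    rw [mem_filter]
    refine ⟨mem_univ _, ?_⟩
    rcases hx with h | h | h | h
    · rw [h]
      exact K.zero_mem
    · rw [h]
      exact ha
    · rw [h]
      exact K.add_mem ha ha
    · rw [h]
      exact K.neg_mem ha
  have heq := eq_of_subset_of_card_le hsub (by rw [hKc, hSc])
  have hbS : b ∈ S := by
    rw [heq, mem_filter]
    exact ⟨mem_univ _, hb⟩
  rw [hS, mem_insert, mem_insert, mem_insert, mem_singleton] at hbS
  rcases hbS with h | h | h | h
  · exact absurd h hb0
  · exact Or.inl h
  · exfalso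
    apply hb2
    rw [h, ← ha4, show (4 : ℕ) = 2 + 2 from rfl, add_smul, two_nsmul]
  · exact Or.inr h

theorem thm_GmE : SDG.St_Ba1 → MDR.St_Sg → St_Cy → St_LvE → SSC.St_Et → St_F4 → St_Cn →
    St_GmE := by
  intro _ hSg _ hLv hEt hF4 hCn G ι _ _ v f e K hG hAE hAp he hGam hN
  obtain ⟨hK4, hu5, hin, d, hd, hout⟩ := hGam
  obtain ⟨g, lv, hg, hgl, hl0, hlq, hlu⟩ := hLv G ι f K d hd
  obtain ⟨u, hu⟩ : ∃ u, u = v.erase e := ⟨_, rfl⟩
  rw [← hu] at hu5 hin hout
  have huv : u ⊆ v := by
    rw [hu]
    exact erase_subset _ _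
  have heu : e ∉ u := by
    rw [hu]
    exact notMem_erase e v
  have hvu : u ∪ {e} = v := by
    rw [hu, union_comm, ← insert_eq, insert_erase he]
  -- the index
  obtain ⟨q, hq⟩ : ∃ q, q = K.index := ⟨_, rfl⟩
  have hNq : Nat.card G = 4 * q := by
    rw [hq, ← hK4]
    exact (AddSubgroup.card_mul_index K).symm
  have hq9 : 9 ≤ q := by omega
  rw [← hq] at hlq hlu
  -- the members outside the group
  have hlvo : ∀ i ∈ outs u f K, lv i = 1 := by
    intro i hi
    refine hlu i 1 (by omega) ?_
    rw [one_nsmul]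
    exact hout i hi
  have hlvz : ∀ i ∈ u, i ∉ outs u f K → lv i = 0 := by
    intro i hi h
    rw [hl0 i]
    by_contra h2
    exact h (mem_filter.2 ⟨hi, h2⟩)
  have hoc : (outs u f K).card = 4 := by
    have h1 := card_filter_add_card_filter_not (s := u) (fun j => f j ∈ K)
    have h3 : (u.filter fun j => f j ∉ K).card = (outs u f K).card := rfl
    have h4 : (u.filter fun j => f j ∈ K).card = (ins u f K).card := rfl
    omega
  have hou : outs u f K ⊆ u := filter_subset _ _
  have hlev1 : (u.filter fun i => lv i = 1) = outs u f K := by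
    ext i
    rw [mem_filter]
    constructor
    · rintro ⟨h1, h2⟩
      by_contra h3
      rw [hlvz i h1 h3] at h2
      omega
    · intro h
      exact ⟨hou h, hlvo i h⟩
  have hsum4 : ∑ i ∈ u, lv i = 4 := by
    rw [← sum_subset hou hlvz, sum_congr rfl hlvo, sum_const, hoc, smul_eq_mul, mul_one]
  -- signs
  obtain ⟨sg1, _, _, _, _, sg2, _, _⟩ := hSg G ι v f g (fun j _ => hg j)
  have hASv := sg2 hAE.1
  have hASu := GmE_sub hASv huv
  have hAEu : AE u g := by
    refine ⟨hASu, ?_⟩
    intro i hi h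
    apply hAE.2 i (huv hi)
    rcases hg i with h1 | h1
    · rwa [h1] at h
    · rw [h1] at h
      have : f i + f i = -(-f i + -f i) := by abel
      rw [this, h, neg_zero]
  have hPer : Per (FS u g) K d 4 := by
    rw [← hsum4]
    refine hF4 G ι u g K d lv hG hK4 hAEu (fun i _ => hgl i) ?_ ?_
    · left
      rw [hlev1]
      exact hoc
    · intro i hi h2
      exfalso
      by_cases h3 : i ∈ outs u f K
      · rw [hlvo i h3] at h2
        omega
      · rw [hlvz i hi h3] at h2
        omega
  -- the member in the group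
  obtain ⟨h, hhu, hhK, hhl⟩ : ∃ h ∈ u, f h ∈ K ∧ lv h = 0 := by
    obtain ⟨h, hh⟩ := card_eq_one.1 hin
    have hh2 : h ∈ ins u f K := by
      rw [hh]
      exact mem_singleton_self h
    unfold ins at hh2
    rw [mem_filter] at hh2
    exact ⟨h, hh2.1, hh2.2, (hl0 h).2 hh2.2⟩
  have hhv := huv hhu
  have hgh : g h ∈ K := by
    have h1 := hgl h
    rwa [hhl, zero_smul, sub_zero] at h1
  have hgh0 : g h ≠ 0 := hASv.1 h hhv
  -- the level of the new member is not zero
  have hj0 : lv e ≠ 0 := by
    intro h0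
    have heK := (hl0 e).1 h0
    have h1 := GmE_four K hK4 (f h) (f e) hhK (hAE.2 h hhv) heK (hAE.1.1 e he) (hAE.2 e he)
    have h2 := card_le_one.1 (hAE.1.2 (f h))
    have h3 := h2 h (mem_filter.2 ⟨hhv, Or.inl rfl⟩) e (mem_filter.2 ⟨he, h1⟩)
    rw [← h3] at heu
    exact heu hhu
  have hj1 : lv e ≠ 1 := by
    intro h1
    have h2 := GmE_lev hASv K d lv (fun j _ => hgl j) 1
    have h3 : insert e (outs u f K) ⊆ v.filter fun j => lv j = 1 := by
      intro i hi
      rw [mem_insert] at hi
      rw [mem_filter]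
      rcases hi with hi | hi
      · rw [hi]
        exact ⟨he, h1⟩
      · exact ⟨huv (hou hi), hlvo i hi⟩
    have h4 := card_le_card h3
    rw [card_insert_of_notMem (fun hc => heu (hou hc)), hoc] at h4
    omega
  obtain ⟨j, hj⟩ : ∃ j, j = lv e := ⟨_, rfl⟩
  have hjq := hlq e
  rw [← hj] at hj0 hj1 hjq
  have hsumv : ∑ i ∈ v, lv i = 4 + j := by
    rw [← hvu, sum_union (disjoint_singleton_right.2 heu), sum_singleton, hsum4, hj]
  have hw : (∑ i ∈ v, g i) - (4 + j) • d ∈ K := by
    rw [← hsumv, sum_smul, ← sum_sub_distrib]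
    exact K.sum_mem fun i _ => hgl i
  obtain ⟨w1, w2⟩ := GmE_two v g K d (4 + j) h hhv hgh hgh0 hw
  obtain ⟨hC1, hC2, hC3⟩ := hCn G (FS v g) K d hd
  rw [← hq] at hC1 hC3
  rw [sg1] at hC1 hC3
  rw [hK4] at hC2 hC3
  rcases Nat.lt_or_ge j 4 with hj4 | hj4
  · have hPv : Per (FS v g) K d (4 + j) := by
      have h1 := hEt G ι u {e} g K d lv 4 (disjoint_singleton_right.2 heu)
        (fun i _ => hgl i) hPer (fun i hi => by
          rw [mem_singleton] at hi
          rw [hi, ← hj]
          refine ⟨by omega, ?_⟩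
          exact le_trans (by omega : j + 1 ≤ 4) (Nat.le_add_right 4 _))
      rw [hvu, sum_singleton, ← hj] at h1
      exact h1
    have h2 := (hC3 (4 + j) hPv).2.2 (by omega) (by omega)
    have h3 : 4 * (4 + j - 1) = 4 * (3 + j) := by
      congr 1
      omega
    rw [h3] at h2
    omega
  · have hlow : ∀ n ∈ Ico 1 4, ((FS v g).filter fun x => x - n • d ∈ K).card = 4 := by
      intro n hn
      rw [mem_Ico] at hn
      exact hC2 n fun k hk => FS_mono huv g (hPer n hn.1 (by omega) k hk)
    have hhigh : ∀ n ∈ Ico (j + 1) (j + 4),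
        ((FS v g).filter fun x => x - n • d ∈ K).card = 4 := by
      intro n hn
      rw [mem_Ico] at hn
      refine hC2 n fun k hk => ?_
      have h1 := hPer (n - j) (by omega) (by omega) (k - (g e - j • d))
        (K.sub_mem hk (by rw [hj]; exact hgl e))
      obtain ⟨t, ht, hts⟩ := mem_FS.1 h1
      refine mem_FS.2 ⟨insert e t, insert_subset he (ht.trans huv), ?_⟩
      rw [sum_insert (fun hc => heu (ht hc)), hts]
      have e1 : n • d = (n - j) • d + j • d := by
        rw [← add_smul]
        congr 1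
        omega
      rw [e1]
      abel
    have h1 := hC1 (Ico 1 4 ∪ Ico (j + 1) (j + 4)) fun n hn => by
      rw [mem_union, mem_Ico, mem_Ico] at hn
      omega
    rw [sum_union, sum_congr rfl hlow, sum_congr rfl hhigh, sum_const, sum_const, Nat.card_Ico,
      Nat.card_Ico, smul_eq_mul, smul_eq_mul] at h1
    · have h2 : j + 4 - (j + 1) = 3 := by omega
      rw [h2] at h1
      omega
    · rw [disjoint_left]
      intro n hn hn'
      rw [mem_Ico] at hn hn'
      omega

end Pool.Agent.SSE
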