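import Pool.Agent.SSE.St

/-!
# SSE, Gn: strong growth of a nearly filled set (Lean: helper96)
-/

set_option autoImplicit false

noncomputable section

open Finset Pool.Agent.Helper64.Rho Pool.Agent.SDG Pool.Agent.MDR Pool.Agent.SSC
open scoped Classical Pointwise

namespace Pool.Agent.SSE

section

variable {G : Type} [AddCommGroup G] [Finite G]

private theorem Gn_mem_st {A : Finset G} {H : AddSubgroup G} {x : G} :
    x ∈ st A H ↔ ∃ a ∈ A, x - a ∈ H := by
  unfold st
  simp

private def GnF (K : AddSubgroup G) : Finset G := (Set.toFinite (K : Set G)).toFinset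

private theorem GnF_mem {K : AddSubgroup G} {x : G} : x ∈ GnF K ↔ x ∈ K := by
  unfold GnF
  simp

private theorem GnF_card (K : AddSubgroup G) : (GnF K).card = Nat.card K := by
  unfold GnF
  rw [← Set.ncard_eq_toFinset_card (K : Set G) (Set.toFinite _)]
  rfl

private theorem Gn_mk {K : AddSubgroup G} {x y : G} :
    (QuotientAddGroup.mk x : G ⧸ K) = QuotientAddGroup.mk y ↔ x - y ∈ K := by
  rw [eq_comm, QuotientAddGroup.eq, neg_add_eq_sub]

private theorem Gn_mk0 {K : AddSubgroup G} {x : G} :
    (QuotientAddGroup.mk x : G ⧸ K) = 0 ↔ x ∈ K :=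
  QuotientAddGroup.eq_zero_iff x

private theorem Gn_card_st (D : Finset G) (K : AddSubgroup G) :
    (st D K).card = Nat.card K * (im D K).card := by
  have h1 : ∀ x ∈ st D K, (QuotientAddGroup.mk x : G ⧸ K) ∈ im D K := by
    intro x hx
    obtain ⟨a, ha, hxa⟩ := Gn_mem_st.1 hx
    unfold im
    rw [mem_image]
    exact ⟨a, ha, (Gn_mk.2 hxa).symm⟩
  rw [card_eq_sum_card_fiberwise (f := fun x : G => (QuotientAddGroup.mk x : G ⧸ K)) h1]
  have h2 : ∀ q ∈ im D K,
      ((st D K).filter fun x => (QuotientAddGroup.mk x : G ⧸ K) = q).card = Nat.card K := by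
    intro q hq
    unfold im at hq
    rw [mem_image] at hq
    obtain ⟨a, ha, rfl⟩ := hq
    rw [← GnF_card K]
    have h3 : (st D K).filter (fun x => (QuotientAddGroup.mk x : G ⧸ K) = QuotientAddGroup.mk a) =
        (GnF K).image fun k => a + k := by
      ext x
      rw [mem_filter, mem_image]
      constructor
      · rintro ⟨_, hx⟩
        refine ⟨x - a, GnF_mem.2 (Gn_mk.1 hx), by abel⟩
      · rintro ⟨k, hk, rfl⟩
        rw [GnF_mem] at hk
        have h4 : a + k - a ∈ K := by
          rw [add_sub_cancel_left]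
          exact hk
        exact ⟨Gn_mem_st.2 ⟨a, ha, h4⟩, Gn_mk.2 h4⟩
    rw [h3, card_image_of_injective _ (add_right_injective a)]
  rw [sum_congr rfl h2, sum_const, smul_eq_mul, mul_comm]

private theorem Gn_st_bot {Q : Type} [AddCommGroup Q] [Finite Q] (E : Finset Q) :
    st E (⊥ : AddSubgroup Q) = E := by
  ext x
  rw [Gn_mem_st]
  constructor
  · rintro ⟨a, ha, h⟩
    rw [AddSubgroup.mem_bot, sub_eq_zero] at h
    rw [h]
    exact ha
  · intro hx
    exact ⟨x, hx, by rw [sub_self]; exact AddSubgroup.zero_mem _⟩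

private theorem Gn_it_one {Q : Type} [AddCommGroup Q] (E : Finset Q) : it E 1 = E := by
  show ({0} : Finset Q) + E = E
  rw [singleton_zero, zero_add]

/-- induction with GS -/
private theorem Gn_ind {Q : Type} [AddCommGroup Q] [Finite Q] (hGS : St_GS) (E : Finset Q)
    (h0 : (0 : Q) ∈ E) (hs : ∀ y ∈ E, -y ∈ E) (h2 : 2 ≤ E.card) (hN : ¬ NearP E)
    (hA : ¬ APK E ⊥) : ∀ i, 1 ≤ i → E.card ≤ (it E i).card ∧
      (i * E.card ≤ (it E i).card ∨ Nat.card Q ≤ (it E i).card + 1) := by
  intro i hi
  induction i, hi using Nat.le_induction with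
  | base =>
    rw [Gn_it_one]
    exact ⟨le_rfl, Or.inl (by omega)⟩
  | succ i hi ih =>
    obtain ⟨ih1, ih2⟩ := ih
    have hsub : it E i ⊆ it E i + E := by
      intro x hx
      rw [mem_add]
      exact ⟨x, hx, 0, h0, add_zero x⟩
    have hle : (it E i).card ≤ (it E i + E).card := card_le_card hsub
    have hit : it E (i + 1) = it E i + E := rfl
    rw [hit]
    refine ⟨ih1.trans hle, ?_⟩
    by_cases hc : (it E i + E).card + 2 ≤ Nat.card Q
    · left
      have h3 := hGS Q E (it E i) h0 hs h2 hN hA (h2.trans ih1) hc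
      rcases ih2 with h4 | h4
      · rw [add_mul, one_mul]
        omega
      · omega
    · right
      omega

end

theorem thm_Gn : St_Cy → St_GS → St_GwE → St_Gk → St_Gn := by
  intro hCy hGS hGw hGk G _ _ D K l hcyc h0 hs hcard hgen hNF hK4 hNear hy
  obtain ⟨hKb, hKt, hst⟩ := hNF
  -- the quotient
  have h0' : (0 : G ⧸ K) ∈ im D K := by
    unfold im
    rw [mem_image]
    exact ⟨0, h0, rfl⟩
  have hs' : ∀ q ∈ im D K, -q ∈ im D K := by
    intro q hq
    unfold im at hq ⊢
    rw [mem_image] at hq ⊢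
    obtain ⟨a, ha, rfl⟩ := hq
    exact ⟨-a, hs a ha, rfl⟩
  have hm2 : 2 ≤ (im D K).card := by
    obtain ⟨y, hyD, hyK⟩ := hy
    have hyK' : y ∉ K := fun h => hyK (K.add_mem h h)
    have h1 : (QuotientAddGroup.mk y : G ⧸ K) ∈ im D K := by
      unfold im
      rw [mem_image]
      exact ⟨y, hyD, rfl⟩
    have h2 : (QuotientAddGroup.mk y : G ⧸ K) ≠ 0 := fun h => hyK' (Gn_mk0.1 h)
    exact Nat.succ_le_iff.2 (one_lt_card.2 ⟨_, h1, _, h0', h2⟩)
  have hcst := Gn_card_st D K
  have hsubst : D ⊆ st D K := fun x hx => Gn_mem_st.2 ⟨x, hx, by rw [sub_self]; exact K.zero_mem⟩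
  have hlow := card_le_card hsubst
  have hK2 : 2 ≤ Nat.card K := by
    have h1 : 1 < Nat.card K := by
      rw [AddSubgroup.one_lt_card_iff_ne_bot]
      exact hKb
    omega
  by_cases hA : APK (im D K) ⊥
  · left
    obtain ⟨d', a, hd1, hd2, hd3⟩ := hA
    obtain ⟨d, rfl⟩ := QuotientAddGroup.mk_surjective d'
    have hmd : ∀ k : ℕ, k • (QuotientAddGroup.mk d : G ⧸ K) = QuotientAddGroup.mk (k • d) :=
      fun k => rfl
    refine ⟨d, a, ?_, ?_, ?_⟩
    · intro x
      obtain ⟨k, hk⟩ := hd1 (QuotientAddGroup.mk x)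
      refine ⟨k, ?_⟩
      rw [AddSubgroup.mem_bot, sub_eq_zero, hmd] at hk
      exact Gn_mk.1 hk
    · rw [Gn_st_bot, AddSubgroup.card_bot, one_mul] at hd2
      rw [hcst, hd2]
    · intro y hyD
      have h1 : (QuotientAddGroup.mk y : G ⧸ K) ∈ im D K := by
        unfold im
        rw [mem_image]
        exact ⟨y, hyD, rfl⟩
      obtain ⟨k, hk, h2⟩ := hd3 _ h1
      refine ⟨k, hk, ?_⟩
      rcases h2 with h2 | h2
      · left
        rw [AddSubgroup.mem_bot, sub_eq_zero, hmd] at h2
        exact Gn_mk.1 h2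
      · right
        rw [AddSubgroup.mem_bot, hmd] at h2
        exact Gn_mk0.1 h2
  · right
    intro i hi
    have hcK := hGk G D K h0 hs hy hst i hi
    have hN : Nat.card G = Nat.card (G ⧸ K) * Nat.card K :=
      AddSubgroup.card_eq_card_quotient_mul_card_addSubgroup K
    obtain ⟨-, hor⟩ := Gn_ind hGS (im D K) h0' hs' hm2 hNear hA i (by omega)
    set m := (im D K).card with hm
    set c := (it (im D K) i).card with hc
    set q := Nat.card (G ⧸ K) with hq
    set κ := Nat.card K with hκ
    rcases hor with h1 | h1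
    · -- the first case
      by_cases hmu : 2 * l + 2 ≤ κ * m
      · right
        left
        rw [hcK]
        calc i * (2 * l + 2) ≤ i * (κ * m) := Nat.mul_le_mul_left _ hmu
          _ = κ * (i * m) := by ring
          _ ≤ κ * c := Nat.mul_le_mul_left _ h1
      · have hmu' : κ * m = 2 * l + 1 := by omega
        have hk3 : κ = 3 := by
          have h2 : κ = 2 ∨ κ = 3 ∨ κ = 4 := by omega
          rcases h2 with h2 | h2 | h2
          · rw [h2] at hmu'
            omega
          · exact h2
          · rw [h2] at hmu'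
            omega
        rw [hk3] at hmu' hcK hN
        obtain ⟨l', hl'⟩ : ∃ l', m = 2 * l' + 1 := ⟨(m - 1) / 2, by omega⟩
        have hl1 : 1 ≤ l' := by omega
        have hcyc' : IsAddCyclic (G ⧸ K) := ((hCy G hcyc).1 K).2
        have h3 := hGw (G ⧸ K) (im D K) l' hcyc' hl1 h0' hs' hl' hNear hA i (by omega)
        have h4 := (hCy (G ⧸ K) hcyc').2.2.2.2.2.2 (it (im D K) i)
        rw [← hc, ← hq] at h3
        rcases h3 with h3 | h3
        · left
          rw [hcK, hN]
          omega
        · have h5 : i * (2 * l' + 2) ≤ c + 2 := by omega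
          have hll : l = 3 * l' + 1 := by omega
          by_cases hi2 : i = 2
          · right
            right
            refine ⟨hi2, ?_⟩
            rw [hi2] at h5
            rw [hcK]
            omega
          · right
            left
            rw [hcK, hll]
            have hi3 : 3 ≤ i := by omega
            have h6 : 3 * (i * (2 * l' + 2)) = i * (2 * (3 * l' + 1) + 2) + 2 * i := by ring
            omega
    · left
      rw [hcK, hN]
      have h2 : q * κ ≤ (c + 1) * κ := Nat.mul_le_mul_right _ h1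
      have h3 : (c + 1) * κ = κ * c + κ := by ring
      omega

end Pool.Agent.SSE
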