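import Mathlib
import Pool.Agent.SSE.St2

/-!
# SSE, module GrE (MP_ec93d3_co): the growth alternatives for a family
-/

set_option autoImplicit false

noncomputable section

open Finset Pool.Agent.Helper64.Rho Pool.Agent.SDG Pool.Agent.MDR Pool.Agent.SSC
open scoped Classical Pointwise

namespace Pool.Agent.SSE

lemma GrE_mem_st {G : Type} [AddCommGroup G] [Finite G] (D : Finset G) (K : AddSubgroup G) (x : G) :
    x ∈ st D K ↔ ∃ a ∈ D, x - a ∈ K := by
  simp [st]

lemma GrE_mem_sym {G ι : Type} [AddCommGroup G] (u : Finset ι) (f : ι → G) (i : ι) (hi : i ∈ u) :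
    f i ∈ sym u f := by
  unfold sym
  simp only [Finset.mem_union, Finset.mem_image]
  exact Or.inr (Or.inl ⟨i, hi, rfl⟩)

lemma GrE_double {G ι : Type} [AddCommGroup G] (u : Finset ι) (f : ι → G) (K : AddSubgroup G)
    (hgen : gen u f = ⊤) (h : ∀ i ∈ u, f i + f i ∈ K) (x : G) : x + x ∈ K := by
  have hx : x ∈ AddSubgroup.closure (f '' (u : Set ι)) := by
    have : x ∈ gen u f := by rw [hgen]; trivial
    exact this
  induction hx using AddSubgroup.closure_induction with
  | mem x hx =>
    obtain ⟨i, hi, rfl⟩ := hx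
    exact h i hi
  | zero => rw [add_zero]; exact K.zero_mem
  | add x y _ _ hx hy =>
    have : x + y + (x + y) = (x + x) + (y + y) := by abel
    rw [this]
    exact K.add_mem hx hy
  | neg x _ hx =>
    have : -x + -x = -(x + x) := by abel
    rw [this]
    exact K.neg_mem hx

theorem thm_GrE : St_Cy → St_Mx → St_Gn → St_SyE → St_Kh2 → St_Kh3 → St_Kh4 → St_GrE := by
  intro hCy hMx hGn hSyE hKh2 hKh3 hKh4 G ι _ _ u f hcyc hAE hap hgen hl hReg hN hor
  obtain ⟨hcard, h0, hneg, hcl, -, -, -⟩ := hSyE G ι u f hAE
  rw [hgen] at hcl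
  by_cases hNear : NearP (sym u f)
  · obtain ⟨K, hNF, hst, hnn⟩ := hMx G (sym u f) hNear
    have hbot := hNF.1
    have htop := hNF.2.1
    have hfill := hNF.2.2
    -- a member whose double is not in K
    have hex : ∃ i ∈ u, f i + f i ∉ K := by
      by_contra hcon
      push Not at hcon
      have hdbl := GrE_double u f K hgen hcon
      have hidx : K.index = 2 := (hCy G hcyc).2.2.2.2.1 K htop hdbl
      obtain ⟨y, hyD, hyK⟩ : ∃ y ∈ sym u f, y ∉ K := by
        by_contra hc
        push Not at hc
        apply htop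
        rw [← top_le_iff, ← hcl, AddSubgroup.closure_le]
        intro y hy
        exact hc y hy
      have hall : st (sym u f) K = (Set.toFinite (Set.univ : Set G)).toFinset := by
        ext x
        rw [GrE_mem_st]
        simp only [Set.Finite.mem_toFinset, Set.mem_univ, iff_true]
        by_cases hx : x ∈ K
        · exact ⟨0, h0, by rwa [sub_zero]⟩
        · refine ⟨y, hyD, ?_⟩
          have h1 := AddSubgroup.add_mem_iff_of_index_two hidx (a := x) (b := -y)
          rw [sub_eq_add_neg, h1]
          constructor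
          · intro h; exact absurd h hx
          · intro h; exact absurd (by simpa using K.neg_mem h) hyK
      have hc1 : (st (sym u f) K).card = Nat.card G := by
        rw [hall, ← Set.ncard_eq_toFinset_card, Set.ncard_univ]
      have hc2 : Nat.card K * 2 = Nat.card G := by
        have := K.card_mul_index
        rwa [hidx] at this
      omega
    obtain ⟨i0, hi0, hi0K⟩ := hex
    have hK4 : Nat.card K ≤ 4 := hReg u (Finset.Subset.refl u) K hbot ⟨i0, hi0, hi0K⟩ hfill
    have hK2 : 2 ≤ Nat.card K := by
      by_contra hc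
      have h1 : 0 < Nat.card K := Nat.card_pos
      have h2 : Nat.card K = 1 := by omega
      exact hbot (AddSubgroup.card_eq_one.1 h2)
    rcases hGn G (sym u f) K u.card hcyc h0 hneg hcard hcl hNF hK4 hnn
      ⟨f i0, GrE_mem_sym u f i0 hi0, hi0K⟩ with hA | hB
    · have hH : HKh u f K := ⟨hcyc, hAE, hap, hl, hfill, hA, hor⟩
      have hcases : Nat.card K = 2 ∨ Nat.card K = 3 ∨ Nat.card K = 4 := by omega
      rcases hcases with h | h | h
      · exact Or.inr (Or.inr (Or.inr (Or.inl (hKh2 G ι u f K hH h))))
      · rcases hKh3 G ι u f K hH h with h1 | h1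
        · exact Or.inr (Or.inl h1)
        · exact Or.inr (Or.inr (Or.inr (Or.inl h1)))
      · rcases hKh4 G ι u f K hH h with h1 | h1
        · exact Or.inr (Or.inr (Or.inl ⟨K, h1⟩))
        · exact Or.inr (Or.inr (Or.inr (Or.inl h1)))
    · exact Or.inr (Or.inr (Or.inr (Or.inr (Or.inr hB))))
  · by_cases hA : APK (sym u f) ⊥
    · left
      obtain ⟨d, a, -, hd2, hd3⟩ := hA
      have hst : st (sym u f) ⊥ = sym u f := by
        ext x
        rw [GrE_mem_st]
        constructor
        · rintro ⟨b, hb, hx⟩
          rw [AddSubgroup.mem_bot, sub_eq_zero] at hx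
          rwa [hx]
        · intro hx
          exact ⟨x, hx, by rw [sub_self]; exact AddSubgroup.zero_mem _⟩
      rw [hst, hcard] at hd2
      have hb : Nat.card (⊥ : AddSubgroup G) = 1 := AddSubgroup.card_bot
      rw [hb, one_mul] at hd2
      have ha : a = u.card := by omega
      refine ⟨d, fun i hi => ?_⟩
      obtain ⟨k, hk, hk2⟩ := hd3 (f i) (GrE_mem_sym u f i hi)
      have hfi : f i ≠ 0 := hAE.1.1 i hi
      rw [AddSubgroup.mem_bot, AddSubgroup.mem_bot, sub_eq_zero, add_eq_zero_iff_eq_neg] at hk2
      refine ⟨k, ?_, by omega, hk2⟩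
      rcases Nat.eq_zero_or_pos k with h | h
      · subst h
        rw [zero_smul, neg_zero] at hk2
        exact absurd (hk2.elim id id) hfi
      · exact h
    · exact Or.inr (Or.inr (Or.inr (Or.inr (Or.inl ⟨hNear, hA⟩))))

end Pool.Agent.SSE
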