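import Pool.Agent.SSE.St

/-!
# SSE: module Gv

Growth with two sets.
-/

set_option autoImplicit false

noncomputable section

open Finset Pool.Agent.Helper64.Rho Pool.Agent.SDG Pool.Agent.MDR Pool.Agent.SSC
open scoped Classical Pointwise

namespace Pool.Agent.SSE

private lemma Gv_it_zero {G : Type} [AddCommGroup G] {D : Finset G} (h0 : (0 : G) ∈ D) :
    ∀ i, (0 : G) ∈ it D i := by
  intro i
  induction i with
  | zero => simp [it]
  | succ i ih =>
    have : (0 : G) + 0 ∈ it D i + D := Finset.add_mem_add ih h0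
    simpa [it] using this

private lemma Gv_it_neg {G : Type} [AddCommGroup G] {D : Finset G} (hs : ∀ y ∈ D, -y ∈ D) :
    ∀ i, ∀ y ∈ it D i, -y ∈ it D i := by
  intro i
  induction i with
  | zero =>
    intro y hy
    have hy' : y = 0 := by simpa [it] using hy
    subst hy'
    simp [it]
  | succ i ih =>
    intro y hy
    have hy' : y ∈ it D i + D := hy
    rw [Finset.mem_add] at hy'
    obtain ⟨a, ha, b, hb, rfl⟩ := hy'
    have : -a + -b ∈ it D i + D := Finset.add_mem_add (ih a ha) (hs b hb)
    have h2 : -(a + b) = -a + -b := by abel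
    rw [h2]
    exact this

private lemma Gv_it_sub {G : Type} [AddCommGroup G] {D : Finset G} (h0 : (0 : G) ∈ D) :
    ∀ i, 1 ≤ i → D ⊆ it D i := by
  intro i hi y hy
  obtain ⟨j, rfl⟩ : ∃ j, i = j + 1 := ⟨i - 1, by omega⟩
  have : (0 : G) + y ∈ it D j + D := Finset.add_mem_add (Gv_it_zero h0 j) hy
  rw [zero_add] at this
  exact this

theorem thm_Gv : St_Cy → St_GS → St_GwE → St_Gv := by
  intro hCy hGS hGw G _ _ D1 D2 l hc hl h10 h1s h12 h2s hc1 hc2 hn1 ha1 hn2 ha2 i
  have h20 : (0 : G) ∈ D2 := h12 h10
  rcases Nat.eq_zero_or_pos i with hi | hi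
  · subst hi
    right
    have e : it D1 0 + D2 = D2 := by
      ext y
      rw [Finset.mem_add]
      constructor
      · rintro ⟨a, ha, b, hb, rfl⟩
        have ha' : a = 0 := by simpa [it] using ha
        subst ha'
        rwa [zero_add]
      · intro hy
        exact ⟨0, Gv_it_zero h10 0, y, hy, zero_add y⟩
    rw [e, hc2]
    omega
  · by_cases hN : (it D1 i + D2).card + 2 ≤ Nat.card G
    · right
      have hE0 : (0 : G) ∈ it D1 i := Gv_it_zero h10 i
      have hEs := Gv_it_neg h1s i
      have hED : D1 ⊆ it D1 i := Gv_it_sub h10 i hi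
      have hEc : 2 ≤ (it D1 i).card := by
        have := Finset.card_le_card hED
        omega
      have hsub : it D1 i ⊆ it D1 i + D2 := by
        intro y hy
        have : y + 0 ∈ it D1 i + D2 := Finset.add_mem_add hy h20
        rwa [add_zero] at this
      have hle := Finset.card_le_card hsub
      have h1 := hGS G D2 (it D1 i) h20 h2s (by omega) hn2 ha2 hEc hN
      have h2 : i * (2 * l + 2) ≤ (it D1 i).card + 1 + iv (it D1 i) := by
        rcases hGw G D1 l hc hl h10 h1s hc1 hn1 ha1 i hi with h | h
        · omega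
        · exact h
      obtain ⟨_, _, _, _, _, hpar, hiv⟩ := hCy G hc
      have hE'0 : (0 : G) ∈ it D1 i + D2 := hsub hE0
      have hE's : ∀ y ∈ it D1 i + D2, -y ∈ it D1 i + D2 := by
        intro y hy
        rw [Finset.mem_add] at hy
        obtain ⟨a, ha, b, hb, rfl⟩ := hy
        have : -a + -b ∈ it D1 i + D2 := Finset.add_mem_add (hEs a ha) (h2s b hb)
        have h2 : -(a + b) = -a + -b := by abel
        rw [h2]
        exact this
      have p2 := hpar _ hE'0 hE's
      have i1 := hiv (it D1 i)
      have i2 := hiv (it D1 i + D2)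
      have hmono : iv (it D1 i) ≤ iv (it D1 i + D2) := by
        unfold iv
        by_cases h : ∃ x ∈ it D1 i, x ≠ 0 ∧ x + x = 0
        · have h' : ∃ x ∈ it D1 i + D2, x ≠ 0 ∧ x + x = 0 := by
            obtain ⟨x, hx, hx'⟩ := h
            exact ⟨x, hsub hx, hx'⟩
          rw [if_pos h, if_pos h']
        · rw [if_neg h]
          exact Nat.zero_le _
      have e : (i + 1) * (2 * l + 2) = i * (2 * l + 2) + 2 * l + 2 := by ring
      have e2 : (i * (2 * l + 2)) % 2 = 0 := by
        have : i * (2 * l + 2) = 2 * (i * (l + 1)) := by ring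
        omega
      omega
    · left
      omega

end Pool.Agent.SSE
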