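import Pool.Agent.SSE.St2

/-!
# SSE, HoE: the halves have two members outside every proper subgroup
-/

set_option autoImplicit false

noncomputable section

open Finset Pool.Agent.Helper64.Rho Pool.Agent.SDG Pool.Agent.MDR Pool.Agent.SSC
open scoped Classical Pointwise

namespace Pool.Agent.SSE

/-- every proper subgroup is contained in a subgroup of prime index -/
private lemma HoE_prime {G : Type} [AddCommGroup G] [Finite G] (M : AddSubgroup G) (hM : M ≠ ⊤) :
    ∃ M' : AddSubgroup G, M ≤ M' ∧ M'.index.Prime := by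
  obtain ⟨M', hco, hle⟩ := (eq_top_or_exists_le_coatom M).resolve_left hM
  refine ⟨M', hle, ?_⟩
  have hidx : M'.index ≠ 1 := fun h => hco.1 (AddSubgroup.index_eq_one.1 h)
  have hp : M'.index.minFac.Prime := Nat.minFac_prime hidx
  have : Fact M'.index.minFac.Prime := ⟨hp⟩
  have hdvd : M'.index.minFac ∣ Nat.card (G ⧸ M') := Nat.minFac_dvd _
  obtain ⟨q, hq⟩ := exists_prime_addOrderOf_dvd_card' M'.index.minFac hdvd
  have h1 : M' ≤ (AddSubgroup.zmultiples q).comap (QuotientAddGroup.mk' M') := by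
    intro x hx
    rw [AddSubgroup.mem_comap, QuotientAddGroup.mk'_apply, (QuotientAddGroup.eq_zero_iff x).2 hx]
    exact zero_mem _
  have h2 : (AddSubgroup.zmultiples q).comap (QuotientAddGroup.mk' M') = ⊤ := by
    rcases hco.le_iff.1 h1 with h | h
    · exact h
    · exfalso
      obtain ⟨g, rfl⟩ := QuotientAddGroup.mk_surjective q
      have h3 : g ∈ M' := by
        rw [← h, AddSubgroup.mem_comap, QuotientAddGroup.mk'_apply]
        exact AddSubgroup.mem_zmultiples _
      rw [(QuotientAddGroup.eq_zero_iff g).2 h3, addOrderOf_zero] at hq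
      exact hp.one_lt.ne hq
  have h3 : AddSubgroup.zmultiples q = ⊤ := by
    rw [eq_top_iff]
    intro x _
    obtain ⟨g, rfl⟩ := QuotientAddGroup.mk_surjective x
    have h4 : g ∈ (AddSubgroup.zmultiples q).comap (QuotientAddGroup.mk' M') := by
      rw [h2]
      exact AddSubgroup.mem_top g
    exact h4
  have h4 : Nat.card (AddSubgroup.zmultiples q) = addOrderOf q := Nat.card_zmultiples q
  rw [h3, AddSubgroup.card_top, hq] at h4
  have h5 : M'.index = M'.index.minFac := h4
  rw [h5]
  exact hp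

private lemma HoE_split {G ι : Type} [AddCommGroup G] (s : Finset ι) (f : ι → G)
    (M : AddSubgroup G) : (ins s f M).card + (outs s f M).card = s.card :=
  card_filter_add_card_filter_not (s := s) (fun i => f i ∈ M)

private lemma HoE_ins {G ι : Type} [AddCommGroup G] {s s' : Finset ι} (h : s ⊆ s') (f : ι → G)
    (M : AddSubgroup G) : (ins s f M).card ≤ (ins s' f M).card :=
  card_le_card (filter_subset_filter _ h)

/-- at most one member in a subgroup of order three -/
private lemma HoE_three {G ι : Type} [AddCommGroup G] [Finite G] (hB : SDG.St_Ba1)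
    (hS : SDG.St_Sm) (s : Finset ι) (f : ι → G) (hne : ∀ i ∈ s, f i ≠ 0) (hap : Aper (FS s f))
    (K : AddSubgroup G) (hK : Nat.card K = 3) : (ins s f K).card ≤ 1 := by
  obtain ⟨-, b2, -, -, -, -, b7⟩ := hB G ι f
  have h1 : Aper (FS (ins s f K) f) := b2 s _ (filter_subset _ _) hap
  have h2 := (hS G ι (ins s f K) f (fun i hi => hne i (mem_of_mem_filter i hi)) h1).1
  have hsub : ∀ x ∈ FS (ins s f K) f, x ∈ K := by
    intro x hx
    obtain ⟨u, hu, rfl⟩ := mem_FS.1 hx
    exact sum_mem fun i hi => (mem_filter.1 (hu hi)).2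
  by_contra hcon
  have h3 : 3 ≤ (FS (ins s f K) f).card := by omega
  -- the set of sums is all of `K`
  let _ : Fintype G := Fintype.ofFinite G
  have hKc : ((univ : Finset G).filter fun x => x ∈ K).card = 3 := by
    rw [← hK, Nat.card_eq_fintype_card, Fintype.card_subtype]
  have h4 : FS (ins s f K) f = (univ : Finset G).filter fun x => x ∈ K := by
    apply eq_of_subset_of_card_le
    · intro x hx
      exact mem_filter.2 ⟨mem_univ _, hsub x hx⟩
    · omega
  have hKb : K ≠ ⊥ := by
    intro h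
    rw [h, AddSubgroup.card_bot] at hK
    omega
  obtain ⟨⟨g, hg⟩, hg1⟩ := AddSubgroup.ne_bot_iff_exists_ne_zero.1 hKb
  have hg0 : g ≠ 0 := fun h => hg1 (Subtype.ext h)
  refine hg0 (h1 g fun x hx => ?_)
  rw [h4, mem_filter] at hx ⊢
  exact ⟨mem_univ _, add_mem hx.2 hg⟩

theorem thm_HoE : SDG.St_Ba1 → SDG.St_Sm → St_Cy → St_IxE → St_HvE → St_BnE → St_HoE := by
  intro hB hS hCy hIx hHv _ G ι _ _ t s f hC ht
  have hC' := hC
  obtain ⟨-, -, hcls, hcard, hne, hcap, hap, -, -⟩ := hC'
  obtain ⟨-, -, c2, c3, -, -, -⟩ := hCy G hcls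
  have hs : s.Nonempty := by
    rw [← card_pos]
    omega
  -- the member in a subgroup of order three
  obtain ⟨i0, hi0, hi0K⟩ : ∃ i0 ∈ s, ∀ K : AddSubgroup G, Nat.card K = 3 → ins s f K ⊆ {i0} := by
    by_cases h : ∃ K : AddSubgroup G, Nat.card K = 3 ∧ (ins s f K).Nonempty
    · obtain ⟨K, hK, i0, hi0⟩ := h
      refine ⟨i0, mem_of_mem_filter i0 hi0, fun K' hK' => ?_⟩
      rw [c2 K' K (hK'.trans hK.symm)]
      have h1 := HoE_three hB hS s f hne hap K hK
      intro j hj
      rw [mem_singleton]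
      exact card_le_one.1 h1 j hj i0 hi0
    · obtain ⟨i0, hi0⟩ := hs
      refine ⟨i0, hi0, fun K hK => ?_⟩
      have h1 : ins s f K = ∅ := by
        by_contra h2
        exact h ⟨K, hK, nonempty_iff_ne_empty.2 h2⟩
      rw [h1]
      exact empty_subset _
  -- the subgroup of index three
  obtain ⟨M0, hM0, hM0'⟩ : ∃ M0 : AddSubgroup G, (ins s f M0).card + 1 ≤ (t + 1) / 2 ∧
      ∀ M : AddSubgroup G, M.index = 3 → M = M0 := by
    by_cases h : ∃ M : AddSubgroup G, M.index = 3
    · obtain ⟨M, hM⟩ := h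
      refine ⟨M, (hIx G ι t s f M hC ht (by rw [hM]; norm_num)).2.1 hM, fun M' hM' => ?_⟩
      exact c3 M' M (hM'.trans hM.symm)
    · refine ⟨⊥, ?_, fun M hM => absurd ⟨M, hM⟩ h⟩
      have h1 : ins s f ⊥ = ∅ := by
        unfold ins
        rw [filter_eq_empty_iff]
        intro i hi h2
        exact hne i hi (AddSubgroup.mem_bot.1 h2)
      rw [h1, card_empty]
      omega
  -- the subgroup of index two
  obtain ⟨M1, hM1, hM1'⟩ : ∃ M1 : AddSubgroup G, 4 ≤ (outs s f M1).card ∧
      ∀ M : AddSubgroup G, M.index = 2 → M = M1 := by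
    by_cases h : ∃ M : AddSubgroup G, M.index = 2
    · obtain ⟨M, hM⟩ := h
      refine ⟨M, (hIx G ι t s f M hC ht (by rw [hM]; norm_num)).2.2 hM, fun M' hM' => ?_⟩
      exact c3 M' M (hM'.trans hM.symm)
    · refine ⟨⊥, ?_, fun M hM => absurd ⟨M, hM⟩ h⟩
      have h1 : outs s f ⊥ = s := by
        unfold outs
        rw [filter_eq_self]
        intro i hi h2
        exact hne i hi (AddSubgroup.mem_bot.1 h2)
      rw [h1]
      omega
  obtain ⟨s1, s2, hd, hun, hA1, hA2, hc1, hc2, hi1, ho1, ho2, ho1', ho2'⟩ :=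
    hHv G ι s f M0 M1 i0 hne hcap (by omega) (by omega) hM1 hi0
  rw [hcard] at hc1 hc2
  have hsub1 : s1 ⊆ s := hun ▸ subset_union_left
  have hsub2 : s2 ⊆ s := hun ▸ subset_union_right
  refine ⟨s1, s2, hd, hun, hA1, hA2, hc1, hc2, ?_, ?_⟩
  · intro M hM
    obtain ⟨M', hle, hp⟩ := HoE_prime M hM
    have hmono : ∀ u : Finset ι, (outs u f M').card ≤ (outs u f M).card := by
      intro u
      refine card_le_card fun i hi => ?_
      unfold outs at hi ⊢
      rw [mem_filter] at hi ⊢
      exact ⟨hi.1, fun h => hi.2 (hle h)⟩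
    by_cases h3 : M'.index = 3
    · rw [hM0' M' h3] at hmono
      exact ⟨ho1.trans (hmono s1), ho2.trans (hmono s2)⟩
    by_cases h2 : M'.index = 2
    · rw [hM1' M' h2] at hmono
      exact ⟨ho1'.trans (hmono s1), ho2'.trans (hmono s2)⟩
    · have h5 : 5 ≤ M'.index := by
        have h2' := hp.two_le
        have h4 : M'.index ≠ 4 := by
          intro h
          rw [h] at hp
          exact absurd hp (by norm_num)
        omega
      have h6 := (hIx G ι t s f M' hC ht hp).1 h5
      have a1 := HoE_split s1 f M'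
      have a2 := HoE_split s2 f M'
      have b1 := HoE_ins hsub1 f M'
      have b2 := HoE_ins hsub2 f M'
      have e1 := hmono s1
      have e2 := hmono s2
      constructor <;> omega
  · intro K hK
    have h1 := hi0K K hK
    by_contra h2
    obtain ⟨j, hj⟩ := nonempty_iff_ne_empty.2 h2
    have hj' := mem_filter.1 hj
    have h3 : j ∈ ins s f K := mem_filter.2 ⟨hsub2 hj'.1, hj'.2⟩
    have h4 := mem_singleton.1 (h1 h3)
    exact disjoint_left.1 hd (h4 ▸ hi1) hj'.1

end Pool.Agent.SSE
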