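import Pool.Agent.SSE.St2

/-!
# SSE, HvE: the halves, two subgroups (direct construction: the four types are split separately)
-/

set_option autoImplicit false

noncomputable section

open Finset Pool.Agent.Helper64.Rho Pool.Agent.SDG Pool.Agent.MDR Pool.Agent.SSC
open scoped Classical Pointwise

namespace Pool.Agent.SSE

section HvE

variable {G ι : Type} [AddCommGroup G]

/-- partners -/
private def HvE_R (f : ι → G) (a b : ι) : Prop := f a = f b ∨ f a = - f b

private theorem HvE_R_symm (f : ι → G) (a b : ι) (h : HvE_R f a b) : HvE_R f b a := by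
  rcases h with h | h
  · exact Or.inl h.symm
  · exact Or.inr (by rw [h, neg_neg])

private theorem HvE_R_trans (f : ι → G) (a b c : ι) (h : HvE_R f a b) (h' : HvE_R f b c) :
    HvE_R f a c := by
  rcases h with h | h <;> rcases h' with h' | h'
  · exact Or.inl (h.trans h')
  · exact Or.inr (h.trans h')
  · exact Or.inr (by rw [h, h'])
  · exact Or.inl (by rw [h, h', neg_neg])

private theorem HvE_R_mem (f : ι → G) (M : AddSubgroup G) (a b : ι) (h : HvE_R f a b)
    (hb : f b ∈ M) : f a ∈ M := by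
  rcases h with h | h <;> rw [h]
  · exact hb
  · exact M.neg_mem hb

/-- at most one member in every class -/
private def HvE_C (f : ι → G) (t : Finset ι) : Prop := ∀ a ∈ t, ∀ b ∈ t, HvE_R f a b → a = b

private theorem HvE_cap (f : ι → G) (t : Finset ι) : Cap 1 t f ↔ HvE_C f t := by
  constructor
  · intro h a ha b hb hab
    exact card_le_one.1 (h (f b)) a (mem_filter.2 ⟨ha, hab⟩) b (mem_filter.2 ⟨hb, Or.inl rfl⟩)
  · intro h x
    rw [card_le_one]
    intro a ha b hb
    rw [mem_filter] at ha hb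
    refine h a ha.1 b hb.1 ?_
    rcases ha.2 with h1 | h1 <;> rcases hb.2 with h2 | h2 <;> unfold HvE_R <;> rw [h1, h2]
    · exact Or.inl rfl
    · exact Or.inr (neg_neg x).symm
    · exact Or.inr rfl
    · exact Or.inl rfl

private theorem HvE_NP (f : ι → G) (A B : Finset ι) (hA : HvE_C f A) (h : B.card < A.card) :
    ∃ a ∈ A, ∀ b ∈ B, ¬ HvE_R f b a := by
  by_contra hno
  push Not at hno
  have hno' : ∀ z : ι, ∃ b : ι, z ∈ A → b ∈ B ∧ HvE_R f b z := by
    intro z
    by_cases hz : z ∈ A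
    · obtain ⟨b, hb, hb'⟩ := hno z hz
      exact ⟨b, fun _ => ⟨hb, hb'⟩⟩
    · exact ⟨z, fun h => absurd h hz⟩
  choose φ hφ using hno'
  have h3 : A.card ≤ B.card := by
    refine card_le_card_of_injOn φ (fun z hz => (hφ z hz).1) ?_
    intro z hz w hw hzw
    refine hA z hz w hw ?_
    have h1 := (hφ z hz).2
    have h2 := (hφ w hw).2
    rw [hzw] at h1
    exact HvE_R_trans f _ _ _ (HvE_R_symm f _ _ h1) h2
  omega

/-- splittings with the right sizes -/
private def HvE_P (f : ι → G) (s s1 s2 : Finset ι) : Prop :=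
  Disjoint s1 s2 ∧ s1 ∪ s2 = s ∧ HvE_C f s1 ∧ HvE_C f s2 ∧ s1.card = (s.card + 1) / 2 ∧
    s2.card = s.card / 2

private theorem HvE_swapC (f : ι → G) (s1 : Finset ι) (x y : ι) (h1 : HvE_C f s1)
    (hy : ∀ b ∈ s1, b ≠ x → ¬ HvE_R f b y) : HvE_C f (insert y (s1.erase x)) := by
  intro a ha b hb hab
  rcases mem_insert.1 ha with ha' | ha' <;> rcases mem_insert.1 hb with hb' | hb'
  · rw [ha', hb']
  · exfalso
    rw [ha'] at hab
    exact hy b (mem_of_mem_erase hb') (ne_of_mem_erase hb') (HvE_R_symm f _ _ hab)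
  · exfalso
    rw [hb'] at hab
    exact hy a (mem_of_mem_erase ha') (ne_of_mem_erase ha') hab
  · exact h1 a (mem_of_mem_erase ha') b (mem_of_mem_erase hb') hab

private theorem HvE_swap (f : ι → G) (s s1 s2 : Finset ι) (x y : ι) (hP : HvE_P f s s1 s2)
    (hx : x ∈ s1) (hy : y ∈ s2) (hx' : ∀ b ∈ s2, b ≠ y → ¬ HvE_R f b x)
    (hy' : ∀ b ∈ s1, b ≠ x → ¬ HvE_R f b y) :
    HvE_P f s (insert y (s1.erase x)) (insert x (s2.erase y)) := by
  obtain ⟨hd, hu, h1, h2, hc1, hc2⟩ := hP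
  have hxy : x ≠ y := fun h => (disjoint_left.1 hd hx) (h ▸ hy)
  have hx2 : x ∉ s2 := disjoint_left.1 hd hx
  have hy1 : y ∉ s1 := disjoint_right.1 hd hy
  refine ⟨?_, ?_, HvE_swapC f s1 x y h1 hy', HvE_swapC f s2 y x h2 hx', ?_, ?_⟩
  · rw [disjoint_left]
    intro a ha ha'
    rw [mem_insert, mem_erase] at ha ha'
    rcases ha with ha | ⟨ha, ha1⟩
    · rcases ha' with h | ⟨h, _⟩
      · exact hxy (h.symm.trans ha)
      · exact h ha
    · rcases ha' with h | ⟨h, h3⟩
      · exact ha h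
      · exact disjoint_left.1 hd ha1 h3
  · ext a
    rw [← hu]
    simp only [mem_union, mem_insert, mem_erase]
    by_cases hax : a = x
    · rw [hax]
      simp [hx]
    · by_cases hay : a = y
      · rw [hay]
        simp [hy]
      · simp [hax, hay]
  · rw [card_insert_of_notMem (fun h => hy1 (mem_of_mem_erase h)), card_erase_of_mem hx]
    have := card_pos.2 ⟨x, hx⟩
    omega
  · rw [card_insert_of_notMem (fun h => hx2 (mem_of_mem_erase h)), card_erase_of_mem hy]
    have := card_pos.2 ⟨y, hy⟩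
    omega

end HvE

/-- a splitting with the right sizes, with `i0` in the first part -/
private theorem HvE_half (hSp : MDR.St_Sp2) {G ι : Type} [AddCommGroup G] (f : ι → G) (s : Finset ι) (i0 : ι)
    (hf : ∀ i ∈ s, f i ≠ 0) (hcap : Cap 2 s f) (hi0 : i0 ∈ s) :
    ∃ s1 s2, HvE_P f s s1 s2 ∧ i0 ∈ s1 := by
  obtain ⟨s1, s2, hd, hu, ⟨_, hc1⟩, ⟨_, hc2⟩, hl1, hl2⟩ := hSp G ι s f hf hcap
  rw [HvE_cap] at hc1 hc2
  have hcard : s1.card + s2.card = s.card := by
    rw [← hu, card_union_of_disjoint hd]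
  have hP : HvE_P f s s1 s2 := ⟨hd, hu, hc1, hc2, by omega, by omega⟩
  by_cases hi1 : i0 ∈ s1
  · exact ⟨s1, s2, hP, hi1⟩
  have hi2 : i0 ∈ s2 := by
    rw [← hu, mem_union] at hi0
    exact hi0.resolve_left hi1
  by_cases hj : ∃ j ∈ s1, HvE_R f j i0
  · obtain ⟨j, hj, hji⟩ := hj
    refine ⟨insert i0 (s1.erase j), insert j (s2.erase i0),
      HvE_swap f s s1 s2 j i0 hP hj hi2 ?_ ?_, mem_insert_self _ _⟩
    · intro b hb hbi hR
      exact hbi (hc2 b hb i0 hi2 (HvE_R_trans f _ _ _ hR hji))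
    · intro b hb hbj hR
      exact hbj (hc1 b hb j hj (HvE_R_trans f _ _ _ hR (HvE_R_symm f _ _ hji)))
  · push Not at hj
    by_cases hev : s1.card = s2.card
    · exact ⟨s2, s1, ⟨hd.symm, by rw [union_comm, hu], hc2, hc1, by omega, by omega⟩, hi2⟩
    · obtain ⟨j, hj1, hj2⟩ := HvE_NP f s1 s2 hc1 (by omega)
      refine ⟨insert i0 (s1.erase j), insert j (s2.erase i0),
        HvE_swap f s s1 s2 j i0 hP hj1 hi2 ?_ ?_, mem_insert_self _ _⟩
      · intro b hb _ hR
        exact hj2 b hb hR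
      · intro b hb _ hR
        exact hj b hb hR

private theorem HvE_half' (hSp : MDR.St_Sp2) {G ι : Type} [AddCommGroup G] (f : ι → G) (s : Finset ι) (i0 : ι)
    (hf : ∀ i ∈ s, f i ≠ 0) (hcap : Cap 2 s f) :
    ∃ s1 s2, HvE_P f s s1 s2 ∧ (i0 ∈ s → i0 ∈ s1) := by
  by_cases hi0 : i0 ∈ s
  · obtain ⟨s1, s2, h, h'⟩ := HvE_half hSp f s i0 hf hcap hi0
    exact ⟨s1, s2, h, fun _ => h'⟩
  · obtain ⟨s1, s2, hd, hu, ⟨_, hc1⟩, ⟨_, hc2⟩, hl1, hl2⟩ := hSp G ι s f hf hcap
    rw [HvE_cap] at hc1 hc2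
    have hcard : s1.card + s2.card = s.card := by
      rw [← hu, card_union_of_disjoint hd]
    exact ⟨s1, s2, ⟨hd, hu, hc1, hc2, by omega, by omega⟩, fun h => absurd h hi0⟩

/-- the choice of the roundings -/
private theorem HvE_eps : ∀ (r0 r1 r2 r3 : Bool) (b : Fin 4), ∃ e0 e1 e2 e3 : Bool,
    (b = 0 → e0 = true) ∧ (b = 1 → e1 = true) ∧ (b = 2 → e2 = true) ∧ (b = 3 → e3 = true) ∧
    (r2 = true → r3 = true → e2 ≠ e3) ∧
    (r0 && e0).toNat + (r1 && e1).toNat + (r2 && e2).toNat + (r3 && e3).toNat =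
      (r0.toNat + r1.toNat + r2.toNat + r3.toNat + 1) / 2 := by
  decide

private theorem HvE_num (n : Fin 4 → ℕ) (b : Fin 4) : ∃ e : Fin 4 → Bool, e b = true ∧
    (n 2 % 2 = 1 → n 3 % 2 = 1 → e 2 ≠ e 3) ∧
    ((if e 0 = true then n 0 % 2 else 0) + (if e 1 = true then n 1 % 2 else 0) +
      (if e 2 = true then n 2 % 2 else 0) + (if e 3 = true then n 3 % 2 else 0)) =
      (n 0 % 2 + n 1 % 2 + n 2 % 2 + n 3 % 2 + 1) / 2 := by
  obtain ⟨e0, e1, e2, e3, a0, a1, a2, a3, h2, h3⟩ := HvE_eps (decide (n 0 % 2 = 1)) (decide (n 1 % 2 = 1))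
    (decide (n 2 % 2 = 1)) (decide (n 3 % 2 = 1)) b
  have h4 : ∀ m : ℕ, (decide (m % 2 = 1)).toNat = m % 2 := by
    intro m
    rcases Nat.mod_two_eq_zero_or_one m with h | h <;> simp [h]
  have h5 : ∀ (m : ℕ) (c : Bool), (decide (m % 2 = 1) && c).toNat = if c = true then m % 2 else 0 := by
    intro m c
    cases c
    · simp
    · simp [h4]
  rw [h4, h4, h4, h4, h5, h5, h5, h5] at h3
  refine ⟨![e0, e1, e2, e3], ?_, fun h h' => h2 (by simpa using h) (by simpa using h'), h3⟩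
  fin_cases b
  · exact a0 rfl
  · exact a1 rfl
  · exact a2 rfl
  · exact a3 rfl

/-- the type of a member -/
private def HvE_ty {G ι : Type} [AddCommGroup G] (f : ι → G) (M M' : AddSubgroup G) (i : ι) : Fin 4 :=
  if f i ∈ M then (if f i ∈ M' then 0 else 2) else (if f i ∈ M' then 1 else 3)

private theorem HvE_ty_out {G ι : Type} [AddCommGroup G] (f : ι → G) (M M' : AddSubgroup G) (i : ι) :
    (f i ∉ M ↔ HvE_ty f M M' i = 1 ∨ HvE_ty f M M' i = 3) ∧
    (f i ∉ M' ↔ HvE_ty f M M' i = 2 ∨ HvE_ty f M M' i = 3) := by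
  unfold HvE_ty
  by_cases h1 : f i ∈ M <;> by_cases h2 : f i ∈ M' <;> simp [h1, h2]

private theorem HvE_ty_R {G ι : Type} [AddCommGroup G] (f : ι → G) (M M' : AddSubgroup G) (a b : ι)
    (h : HvE_R f a b) : HvE_ty f M M' a = HvE_ty f M M' b := by
  have h1 : ∀ N : AddSubgroup G, f a ∈ N ↔ f b ∈ N := fun N =>
    ⟨fun h' => HvE_R_mem f N _ _ (HvE_R_symm f _ _ h) h', fun h' => HvE_R_mem f N _ _ h h'⟩
  unfold HvE_ty
  simp only [h1]

/-- unions over the types -/
private theorem HvE_un {G ι : Type} [AddCommGroup G] (f : ι → G) (M M' : AddSubgroup G)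
    (Z : Fin 4 → Finset ι) (hZ : ∀ k, ∀ i ∈ Z k, HvE_ty f M M' i = k) :
    ((univ.biUnion Z).card = (Z 0).card + (Z 1).card + (Z 2).card + (Z 3).card) ∧
    ((outs (univ.biUnion Z) f M).card = (Z 1).card + (Z 3).card) ∧
    ((outs (univ.biUnion Z) f M').card = (Z 2).card + (Z 3).card) ∧
    ((∀ k, HvE_C f (Z k)) → HvE_C f (univ.biUnion Z)) := by
  have hdis : ∀ k l, k ≠ l → Disjoint (Z k) (Z l) := by
    intro k l hkl
    rw [disjoint_left]
    intro a ha hb
    exact hkl ((hZ k a ha).symm.trans (hZ l a hb))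
  refine ⟨?_, ?_, ?_, ?_⟩
  · rw [card_biUnion (fun k _ l _ hkl => hdis k l hkl), Fin.sum_univ_four]
  · have h : outs (univ.biUnion Z) f M = Z 1 ∪ Z 3 := by
      ext a
      unfold outs
      rw [mem_filter, mem_biUnion, mem_union, (HvE_ty_out f M M' a).1]
      constructor
      · rintro ⟨⟨k, -, hk⟩, h | h⟩
        · left
          rw [← h, hZ k a hk]
          exact hk
        · right
          rw [← h, hZ k a hk]
          exact hk
      · rintro (h | h)
        · exact ⟨⟨1, mem_univ _, h⟩, Or.inl (hZ 1 a h)⟩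
        · exact ⟨⟨3, mem_univ _, h⟩, Or.inr (hZ 3 a h)⟩
    rw [h, card_union_of_disjoint (hdis 1 3 (by decide))]
  · have h : outs (univ.biUnion Z) f M' = Z 2 ∪ Z 3 := by
      ext a
      unfold outs
      rw [mem_filter, mem_biUnion, mem_union, (HvE_ty_out f M M' a).2]
      constructor
      · rintro ⟨⟨k, -, hk⟩, h | h⟩
        · left
          rw [← h, hZ k a hk]
          exact hk
        · right
          rw [← h, hZ k a hk]
          exact hk
      · rintro (h | h)
        · exact ⟨⟨2, mem_univ _, h⟩, Or.inl (hZ 2 a h)⟩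
        · exact ⟨⟨3, mem_univ _, h⟩, Or.inr (hZ 3 a h)⟩
    rw [h, card_union_of_disjoint (hdis 2 3 (by decide))]
  · intro hC a ha b hb hab
    obtain ⟨k, -, hk⟩ := mem_biUnion.1 ha
    obtain ⟨l, -, hl⟩ := mem_biUnion.1 hb
    have h1 : k = l := by
      rw [← hZ k a hk, ← hZ l b hl]
      exact HvE_ty_R f M M' a b hab
    subst h1
    exact hC k a hk b hl hab

private theorem HvE_fin (a b x y : ℕ) (p q : Bool) (h : a % 2 = 1 → b % 2 = 1 → p ≠ q) (hab : 4 ≤ a + b)
    (hx : x = a / 2 + (if p = true then a % 2 else 0)) (hy : y = b / 2 + (if q = true then b % 2 else 0)) :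
    2 ≤ x + y ∧ x + y + 2 ≤ a + b := by
  cases p <;> cases q <;> simp only [Bool.false_eq_true, if_true, if_false] at hx hy
  · have h1 : ¬ (a % 2 = 1 ∧ b % 2 = 1) := fun h' => h h'.1 h'.2 rfl
    omega
  · omega
  · omega
  · have h1 : ¬ (a % 2 = 1 ∧ b % 2 = 1) := fun h' => h h'.1 h'.2 rfl
    omega

private theorem HvE_five (a b x y : ℕ) (p q : Bool) (hab : 5 ≤ a + b)
    (hx : x = a / 2 + (if p = true then a % 2 else 0)) (hy : y = b / 2 + (if q = true then b % 2 else 0)) :
    2 ≤ x + y ∧ x + y + 2 ≤ a + b := by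
  cases p <;> cases q <;> simp only [Bool.false_eq_true, if_true, if_false] at hx hy <;> omega

private theorem HvE_sz (a b c d x y z w : ℕ) (p q r t : Bool)
    (hx : x = a / 2 + (if p = true then a % 2 else 0)) (hy : y = b / 2 + (if q = true then b % 2 else 0))
    (hz : z = c / 2 + (if r = true then c % 2 else 0)) (hw : w = d / 2 + (if t = true then d % 2 else 0))
    (h : ((if p = true then a % 2 else 0) + (if q = true then b % 2 else 0) +
      (if r = true then c % 2 else 0) + (if t = true then d % 2 else 0)) =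
      (a % 2 + b % 2 + c % 2 + d % 2 + 1) / 2) :
    x + y + z + w = (a + b + c + d + 1) / 2 := by
  generalize (if p = true then a % 2 else 0) = p' at *
  generalize (if q = true then b % 2 else 0) = q' at *
  generalize (if r = true then c % 2 else 0) = r' at *
  generalize (if t = true then d % 2 else 0) = t' at *
  omega

theorem thm_HvE : MDR.St_Sp2 → St_HvE := by
  intro hSp G ι _ s f M M' i0 hf hcap hs hin hout hi0
  set c : Fin 4 → Finset ι := fun k => s.filter fun i => HvE_ty f M M' i = k with hc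
  have hcty : ∀ k, ∀ i ∈ c k, HvE_ty f M M' i = k := fun k i hi => (mem_filter.1 hi).2
  have hcs : ∀ k, c k ⊆ s := fun k => filter_subset _ _
  have hsc : univ.biUnion c = s := by
    ext a
    rw [mem_biUnion]
    constructor
    · rintro ⟨k, -, hk⟩
      exact hcs k hk
    · intro ha
      exact ⟨HvE_ty f M M' a, mem_univ _, mem_filter.2 ⟨ha, rfl⟩⟩
  have hAB : ∀ k, ∃ A B, HvE_P f (c k) A B ∧ (i0 ∈ c k → i0 ∈ A) := by
    intro k
    refine HvE_half' hSp f (c k) i0 (fun i hi => hf i (hcs k hi)) ?_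
    intro x
    exact (card_le_card (filter_subset_filter _ (hcs k))).trans (hcap x)
  choose A B hAB hi using hAB
  obtain ⟨e, he1, he2, he3⟩ := HvE_num (fun k => (c k).card) (HvE_ty f M M' i0)
  set X : Fin 4 → Finset ι := fun k => if e k = true then A k else B k with hX
  set Y : Fin 4 → Finset ι := fun k => if e k = true then B k else A k with hY
  have hAc : ∀ k, A k ⊆ c k := fun k => by
    rw [← (hAB k).2.1]
    exact subset_union_left
  have hBc : ∀ k, B k ⊆ c k := fun k => by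
    rw [← (hAB k).2.1]
    exact subset_union_right
  have hXc : ∀ k, X k ⊆ c k := by
    intro k
    simp only [hX]
    split_ifs
    · exact hAc k
    · exact hBc k
  have hYc : ∀ k, Y k ⊆ c k := by
    intro k
    simp only [hY]
    split_ifs
    · exact hBc k
    · exact hAc k
  have hXY : ∀ k, X k ∪ Y k = c k := by
    intro k
    simp only [hX, hY]
    split_ifs
    · exact (hAB k).2.1
    · rw [union_comm]
      exact (hAB k).2.1
  have hXYd : ∀ k, Disjoint (X k) (Y k) := by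
    intro k
    simp only [hX, hY]
    split_ifs
    · exact (hAB k).1
    · exact (hAB k).1.symm
  have hXC : ∀ k, HvE_C f (X k) := by
    intro k
    simp only [hX]
    split_ifs
    · exact (hAB k).2.2.1
    · exact (hAB k).2.2.2.1
  have hYC : ∀ k, HvE_C f (Y k) := by
    intro k
    simp only [hY]
    split_ifs
    · exact (hAB k).2.2.2.1
    · exact (hAB k).2.2.1
  have hXn : ∀ k, (X k).card = (c k).card / 2 + (if e k = true then (c k).card % 2 else 0) := by
    intro k
    have h1 := (hAB k).2.2.2.2.1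
    have h2 := (hAB k).2.2.2.2.2
    simp only [hX]
    split_ifs <;> omega
  have hYn : ∀ k, (Y k).card + (X k).card = (c k).card := by
    intro k
    rw [← hXY k, card_union_of_disjoint (hXYd k), add_comm]
  obtain ⟨x1, x2, x3, x4⟩ := HvE_un f M M' X (fun k i h => hcty k i (hXc k h))
  obtain ⟨y1, y2, y3, y4⟩ := HvE_un f M M' Y (fun k i h => hcty k i (hYc k h))
  obtain ⟨z1, z2, z3, -⟩ := HvE_un f M M' c hcty
  rw [hsc] at z1 z2 z3
  have hio : (ins s f M).card + (outs s f M).card = s.card := by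
    unfold ins outs
    exact card_filter_add_card_filter_not _
  have hu : univ.biUnion X ∪ univ.biUnion Y = s := by
    rw [← hsc]
    ext a
    simp only [mem_union, mem_biUnion, mem_univ, true_and]
    constructor
    · rintro (⟨k, hk⟩ | ⟨k, hk⟩)
      · exact ⟨k, hXc k hk⟩
      · exact ⟨k, hYc k hk⟩
    · rintro ⟨k, hk⟩
      rw [← hXY k, mem_union] at hk
      rcases hk with hk | hk
      · exact Or.inl ⟨k, hk⟩
      · exact Or.inr ⟨k, hk⟩
  have h5 : 5 ≤ (c 1).card + (c 3).card := by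
    clear he2 he3 hXn hYn
    omega
  have h4 : 4 ≤ (c 2).card + (c 3).card := by
    clear he2 he3 hXn hYn
    omega
  refine ⟨univ.biUnion X, univ.biUnion Y, ?_, hu, ⟨fun i hi => hf i ?_, (HvE_cap f _).2 (x4 hXC)⟩,
    ⟨fun i hi => hf i ?_, (HvE_cap f _).2 (y4 hYC)⟩, ?_, ?_, ?_, ?_, ?_, ?_, ?_⟩
  · rw [disjoint_left]
    intro a ha hb
    obtain ⟨k, -, hk⟩ := mem_biUnion.1 ha
    obtain ⟨l, -, hl⟩ := mem_biUnion.1 hb
    have h1 : k = l := (hcty k a (hXc k hk)).symm.trans (hcty l a (hYc l hl))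
    subst h1
    exact disjoint_left.1 (hXYd k) hk hl
  · rw [← hu]
    exact mem_union_left _ hi
  · rw [← hu]
    exact mem_union_right _ hi
  · rw [x1, z1]
    exact HvE_sz _ _ _ _ _ _ _ _ _ _ _ _ (hXn 0) (hXn 1) (hXn 2) (hXn 3) he3
  · have h1 := HvE_sz _ _ _ _ _ _ _ _ _ _ _ _ (hXn 0) (hXn 1) (hXn 2) (hXn 3) he3
    have l0 := hYn 0
    have l1 := hYn 1
    have l2 := hYn 2
    have l3 := hYn 3
    rw [y1, z1]
    clear he2 he3 hXn hYn
    omega
  · rw [mem_biUnion]
    refine ⟨HvE_ty f M M' i0, mem_univ _, ?_⟩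
    simp only [hX]
    rw [if_pos he1]
    exact hi _ (mem_filter.2 ⟨hi0, rfl⟩)
  · rw [x2]
    exact (HvE_five _ _ _ _ _ _ h5 (hXn 1) (hXn 3)).1
  · rw [y2]
    have h1 := (HvE_five _ _ _ _ _ _ h5 (hXn 1) (hXn 3)).2
    have l1 := hYn 1
    have l3 := hYn 3
    clear he2 he3 hXn hYn
    omega
  · rw [x3]
    exact (HvE_fin _ _ _ _ (e 2) (e 3) he2 h4 (hXn 2) (hXn 3)).1
  · rw [y3]
    have h1 := (HvE_fin _ _ _ _ (e 2) (e 3) he2 h4 (hXn 2) (hXn 3)).2
    have l2 := hYn 2
    have l3 := hYn 3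
    clear he2 he3 hXn hYn
    omega

end Pool.Agent.SSE
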