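import Pool.Agent.SSE.St2

/-!
# SSE, module KeE: exceptional families have many sums (helper36)

Adapted from Pool/Agent/SSC/Ke.lean.
-/

set_option autoImplicit false

noncomputable section

open Finset Pool.Agent.Helper64.Rho Pool.Agent.SDG Pool.Agent.MDR Pool.Agent.SSC
open scoped Classical Pointwise

namespace Pool.Agent.SSE

/-- counting by levels -/
private theorem KeE_count {ι : Type} (u : Finset ι) (lv : ι → ℕ) (a r : ℕ)
    (hle : ∀ i ∈ u, lv i ≤ a + 1)
    (h0 : (u.filter fun i => lv i = 0).card = 1)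
    (h1 : ∀ k, 1 ≤ k → k ≤ a → (u.filter fun i => lv i = k).card = 3)
    (h2 : (u.filter fun i => lv i = a + 1).card = r) :
    u.card = 3 * a + r + 1 ∧ 2 * ∑ i ∈ u, lv i = 3 * (a * (a + 1)) + 2 * (r * (a + 1)) := by
  have hmaps : ∀ i ∈ u, lv i ∈ range (a + 2) := fun i hi =>
    mem_range.2 (by have := hle i hi; omega)
  constructor
  · rw [card_eq_sum_card_fiberwise hmaps, sum_range_succ, sum_range_succ', h0, h2]
    have h3 : ∑ k ∈ range a, (u.filter fun i => lv i = k + 1).card = ∑ _k ∈ range a, 3 :=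
      sum_congr rfl (fun k hk => h1 (k + 1) (by omega) (by have := mem_range.1 hk; omega))
    rw [h3, sum_const, card_range, smul_eq_mul]
    ring
  · have e : ∑ i ∈ u, lv i = ∑ k ∈ range (a + 2), (u.filter fun i => lv i = k).card * k := by
      rw [← sum_fiberwise_of_maps_to hmaps]
      refine sum_congr rfl fun k _ => ?_
      rw [sum_congr rfl (fun i hi => (mem_filter.1 hi).2), sum_const, smul_eq_mul]
    rw [e, sum_range_succ, h2]
    have h3 : ∑ k ∈ range (a + 1), (u.filter fun i => lv i = k).card * k =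
        ∑ k ∈ range (a + 1), 3 * k := by
      refine sum_congr rfl (fun k hk => ?_)
      rcases Nat.eq_zero_or_pos k with h | h
      · rw [h, mul_zero, mul_zero]
      · rw [h1 k h (by have := mem_range.1 hk; omega)]
    rw [h3, ← mul_sum]
    have h4 := Finset.sum_range_id_mul_two (a + 1)
    rw [Nat.add_sub_cancel] at h4
    linarith

/-- the elements `± f i` outside `K` are different -/
private theorem KeE_out {G ι : Type} [AddCommGroup G] [Finite G] (u : Finset ι) (f : ι → G)
    (K : AddSubgroup G) (hA : AE u f) :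
    2 * (outs u f K).card + Nat.card K ≤ Nat.card G := by
  have : Fintype G := Fintype.ofFinite G
  have hou : outs u f K ⊆ u := filter_subset _ _
  have hcap : ∀ i ∈ u, ∀ j ∈ u, (f j = f i ∨ f j = -f i) → i = j := by
    intro i hi j hj h
    have h1 := card_le_one.1 (hA.1.2 (f i))
    exact h1 i (mem_filter.2 ⟨hi, Or.inl rfl⟩) j (mem_filter.2 ⟨hj, h⟩)
  have c1 : ((outs u f K).image f).card = (outs u f K).card := by
    apply card_image_of_injOn
    intro i hi j hj hij
    exact hcap i (hou hi) j (hou hj) (Or.inl hij.symm)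
  have c2 : ((outs u f K).image fun i => -f i).card = (outs u f K).card := by
    apply card_image_of_injOn
    intro i hi j hj hij
    exact hcap i (hou hi) j (hou hj) (Or.inl (neg_injective hij.symm))
  have c3 : (Finset.univ.filter fun x : G => x ∈ K).card = Nat.card K := by
    rw [Nat.card_eq_fintype_card, ← Fintype.card_subtype]
  have d1 : Disjoint ((outs u f K).image f) ((outs u f K).image fun i => -f i) := by
    rw [disjoint_left]
    intro x hx hy
    obtain ⟨i, hi, hix⟩ := mem_image.1 hx
    obtain ⟨j, hj, hjx⟩ := mem_image.1 hy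
    have h1 : f i = -f j := by rw [hix, ← hjx]
    have h2 := hcap j (hou hj) i (hou hi) (Or.inr h1)
    rw [h2] at h1
    apply hA.2 i (hou hi)
    nth_rewrite 2 [h1]
    rw [add_neg_cancel]
  have d2 : Disjoint (((outs u f K).image f) ∪ ((outs u f K).image fun i => -f i))
      (Finset.univ.filter fun x : G => x ∈ K) := by
    rw [disjoint_left]
    intro x hx hy
    have hxK := (mem_filter.1 hy).2
    rcases mem_union.1 hx with h | h
    · obtain ⟨i, hi, hix⟩ := mem_image.1 h
      apply (mem_filter.1 hi).2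
      rw [hix]
      exact hxK
    · obtain ⟨i, hi, hix⟩ := mem_image.1 h
      apply (mem_filter.1 hi).2
      have h1 : f i = -x := by rw [← hix, neg_neg]
      rw [h1]
      exact K.neg_mem hxK
  have h1 := card_le_card (subset_univ ((((outs u f K).image f) ∪
    ((outs u f K).image fun i => -f i)) ∪ (Finset.univ.filter fun x : G => x ∈ K)))
  rw [card_union_of_disjoint d2, card_union_of_disjoint d1, c1, c2, c3, card_univ,
    ← Nat.card_eq_fintype_card] at h1
  omega

/-- the numbers -/
private theorem KeE_num (a r l m : ℕ) (hr : r = 0 ∨ r = 1 ∨ r = 2)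
    (hl : l = 3 * a + r + 1) (hm : 2 * m = 3 * (a * (a + 1)) + 2 * (r * (a + 1))) :
    (r = 0 → 6 * m + 2 = l * (l + 1)) ∧ (r ≠ 0 → 6 * m = l * (l + 1)) := by
  have e : 6 * m = 3 * (3 * (a * (a + 1)) + 2 * (r * (a + 1))) := by omega
  rw [e, hl]
  rcases hr with h | h | h
  · rw [h]
    refine ⟨fun _ => by ring, fun h => absurd rfl h⟩
  · rw [h]
    refine ⟨fun h => absurd h (by omega), fun _ => by ring⟩
  · rw [h]
    refine ⟨fun h => absurd h (by omega), fun _ => by ring⟩

theorem thm_KeE : SDG.St_Ba1 → SDG.St_Kn → MDR.St_Sg → St_LvE → SSC.St_Fu → SSC.St_Ct →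
    St_KeE := by
  intro _ _ hSg hLv hFu hCt G ι _ _ u f K a hAE _ hKAP hN
  obtain ⟨hK3, hin, ha, d, lv0, hd, hlv0, hc3, hc2⟩ := hKAP
  have hA := hAE.1
  obtain ⟨f', lv, hf', hfl, hl0, hlq, hun⟩ := hLv G ι f K d hd
  obtain ⟨r, hr⟩ : ∃ r, ((outs u f K).filter fun i => lv0 i = a + 1).card = r := ⟨_, rfl⟩
  rw [hr] at hc2
  -- the levels of the definition
  obtain ⟨lv1, hlv1⟩ : ∃ lv1 : ι → ℕ, ∀ i, lv1 i = if f i ∈ K then 0 else lv0 i :=
    ⟨_, fun _ => rfl⟩
  have hout : ∀ i ∈ u, f i ∉ K → i ∈ outs u f K := fun i hi h => mem_filter.2 ⟨hi, h⟩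
  have hle : ∀ i ∈ u, lv1 i ≤ a + 1 := by
    intro i hi
    rw [hlv1]
    split_ifs with h
    · omega
    · exact (hlv0 i (hout i hi h)).2.1
  have hf0 : (u.filter fun i => lv1 i = 0) = ins u f K := by
    unfold ins
    refine filter_congr fun i hi => ?_
    rw [hlv1]
    split_ifs with h
    · simp [h]
    · have := (hlv0 i (hout i hi h)).1
      constructor
      · intro h'
        omega
      · intro h'
        exact absurd h' h
  have hfk : ∀ k, 1 ≤ k → (u.filter fun i => lv1 i = k) =
      (outs u f K).filter fun i => lv0 i = k := by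
    intro k hk
    unfold outs
    rw [filter_filter]
    refine filter_congr fun i hi => ?_
    rw [hlv1]
    split_ifs with h
    · constructor
      · intro h'
        omega
      · intro h'
        exact absurd h h'.1
    · exact ⟨fun h' => ⟨h, h'⟩, fun h' => h'.2⟩
  obtain ⟨hcu, hsu⟩ := KeE_count u lv1 a r hle (by rw [hf0, hin])
    (fun k hk hk' => by rw [hfk k hk, hc3 k hk hk']) (by rw [hfk _ (by omega), hr])
  have hq : 3 * K.index = Nat.card G := by
    rw [← hK3]
    exact AddSubgroup.card_mul_index K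
  -- the number of members outside
  have hoc : (outs u f K).card = 3 * a + r := by
    have h1 := card_filter_add_card_filter_not (s := u) (fun j => f j ∈ K)
    have h3 : (u.filter fun j => f j ∉ K).card = (outs u f K).card := rfl
    have h4 : (u.filter fun j => f j ∈ K).card = (ins u f K).card := rfl
    omega
  have hbig := KeE_out u f K hAE
  rw [hoc, hK3, ← hq] at hbig
  rw [← hq] at hN
  obtain ⟨q, hqq⟩ : ∃ q, q = K.index := ⟨_, rfl⟩
  rw [← hqq] at hbig hN hun
  obtain ⟨n1, n2⟩ := KeE_num a r u.card (∑ i ∈ u, lv1 i) (by omega) hcu hsu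
  -- agreement of the levels
  have hag : ∀ i ∈ u, lv i = lv1 i := by
    intro i hi
    rw [hlv1]
    split_ifs with h
    · exact (hl0 i).2 h
    · have h1 := hlv0 i (hout i hi h)
      refine hun i (lv0 i) ?_ h1.2.2
      rcases Nat.lt_or_ge (lv0 i) (a + 1) with h2 | h2
      · omega
      · have h3 : 1 ≤ r := by
          rw [← hr, Nat.one_le_iff_ne_zero, ← Nat.pos_iff_ne_zero, card_pos]
          exact ⟨i, mem_filter.2 ⟨hout i hi h, le_antisymm h1.2.1 h2⟩⟩
        omega
  have hS : ∑ i ∈ u, lv i = ∑ i ∈ u, lv1 i := sum_congr rfl hag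
  have hF : ∀ k, (u.filter fun i => lv i = k) = u.filter fun i => lv1 i = k := fun k =>
    filter_congr fun i hi => by rw [hag i hi]
  rw [← hS] at n1 n2 hsu
  obtain ⟨s1, -, -, -, -, s6, -, -⟩ := hSg G ι u f f' (fun i _ => hf' i)
  have hper : Per (FS u f') K d (∑ i ∈ u, lv i) := by
    refine (hFu G ι u f' K d lv hK3 (s6 hA) (fun i _ => hfl i)).1 ?_ ?_
    · rw [hF, hfk 1 le_rfl, hc3 1 le_rfl ha]
    · intro i hi h2
      obtain ⟨k, hk⟩ : ∃ k, lv i = k + 1 := ⟨lv i - 1, by omega⟩
      have hk1 : k + 1 ≤ a + 1 := by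
        rw [← hk, hag i hi]
        exact hle i hi
      have h3 : ∑ j ∈ u.filter (fun j => lv j = k), lv j = 3 * k := by
        rw [sum_congr rfl (fun j hj => (mem_filter.1 hj).2), sum_const, smul_eq_mul, hF,
          hfk k (by omega), hc3 k (by omega) (by omega)]
      have h4 : ∑ j ∈ u.filter (fun j => lv j = k), lv j ≤
          ∑ j ∈ u.filter (fun j => lv j < lv i), lv j := by
        refine sum_le_sum_of_subset ?_
        intro j hj
        rw [mem_filter] at hj ⊢
        exact ⟨hj.1, by omega⟩
      omega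
  obtain ⟨m, hm⟩ : ∃ m, m = ∑ i ∈ u, lv i := ⟨_, rfl⟩
  rw [← hm] at n1 n2 hsu hper
  have n4 : 1 ≤ m := by
    have : 1 ≤ a * (a + 1) := Nat.mul_pos (by omega) (by omega)
    omega
  obtain ⟨t1, t2, t3, -⟩ := hCt G (FS u f') K d m hK3 hd n4 hper
  rw [← hqq] at t1 t2 t3
  rw [s1] at t1 t2
  -- the member in `K`
  obtain ⟨h, hh⟩ := card_eq_one.1 hin
  have hhin : h ∈ ins u f K := by
    rw [hh]
    exact mem_singleton_self h
  have hhu : h ∈ u := (mem_filter.1 hhin).1
  have hhK : f h ∈ K := (mem_filter.1 hhin).2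
  have hh'K : f' h ∈ K := by
    rcases hf' h with e | e
    · rw [e]
      exact hhK
    · rw [e]
      exact K.neg_mem hhK
  have hh'0 : f' h ≠ 0 := (s6 hA).1 h hhu
  have c1 : 2 ≤ ((FS u f').filter fun x => x ∈ K).card := by
    have hsub : ({0, f' h} : Finset G) ⊆ (FS u f').filter fun x => x ∈ K := by
      intro x hx
      rw [mem_insert, mem_singleton] at hx
      rw [mem_filter]
      rcases hx with e | e
      · rw [e]
        exact ⟨zero_mem_FS u f', K.zero_mem⟩
      · rw [e]
        refine ⟨mem_FS.2 ⟨{h}, singleton_subset_iff.2 hhu, sum_singleton _ _⟩, hh'K⟩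
    calc 2 = ({0, f' h} : Finset G).card := (card_pair hh'0.symm).symm
      _ ≤ _ := card_le_card hsub
  have hw : (∑ i ∈ u, f' i) - m • d ∈ K := by
    rw [hm, Finset.sum_smul, ← sum_sub_distrib]
    exact K.sum_mem fun i _ => hfl i
  have c2 : 2 ≤ ((FS u f').filter fun x => x - m • d ∈ K).card := by
    have hne : (∑ i ∈ u, f' i) ≠ (∑ i ∈ u, f' i) - f' h := by
      intro e
      exact hh'0 (sub_eq_self.1 e.symm)
    have hsub : ({∑ i ∈ u, f' i, (∑ i ∈ u, f' i) - f' h} : Finset G) ⊆
        (FS u f').filter fun x => x - m • d ∈ K := by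
      intro x hx
      rw [mem_insert, mem_singleton] at hx
      rw [mem_filter]
      rcases hx with e | e
      · rw [e]
        exact ⟨mem_FS.2 ⟨u, Subset.refl u, rfl⟩, hw⟩
      · rw [e]
        refine ⟨mem_FS.2 ⟨u.erase h, erase_subset h u, ?_⟩, ?_⟩
        · rw [← add_sum_erase u f' hhu]
          abel
        · have e3 : (∑ i ∈ u, f' i) - f' h - m • d =
              ((∑ i ∈ u, f' i) - m • d) - f' h := by abel
          rw [e3]
          exact K.sub_mem hw hh'K
    calc 2 = ({∑ i ∈ u, f' i, (∑ i ∈ u, f' i) - f' h} : Finset G).card := (card_pair hne).symm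
      _ ≤ _ := card_le_card hsub
  -- the interval is not too long
  have hmq : m + 1 ≤ q := by
    rcases hN with h1 | h1
    · have h2 : 6 * m ≤ u.card * (u.card + 1) := by
        rcases Nat.eq_zero_or_pos r with h0 | h0
        · have := n1 h0
          omega
        · exact le_of_eq (n2 (by omega))
      obtain ⟨l, hl⟩ : ∃ l, u.card = l + 4 := ⟨u.card - 4, by omega⟩
      rw [hl] at h1 h2
      have e2 : l + 4 - 1 = l + 3 := rfl
      rw [e2] at h1
      nlinarith
    · by_contra hcon
      rcases Nat.lt_or_ge q m with h2 | h2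
      · have h3 : (FS u f').card = Nat.card G := by
          have : Fintype G := Fintype.ofFinite G
          rw [Nat.card_eq_fintype_card, ← card_univ]
          congr 1
          exact eq_univ_of_forall (t3 (by omega))
        rw [s1, ← hq, ← hqq] at h3
        omega
      · have h3 := t2 (by omega)
        omega
  have hct := t1 hmq
  constructor
  · rcases Nat.eq_zero_or_pos r with h0 | h0
    · have := n1 h0
      omega
    · have := n2 (by omega)
      omega
  · intro hne
    have := n2 (by omega)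
    omega

end Pool.Agent.SSE
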