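import Pool.Agent.SSE.St2

/-!
# SSE, module KgE: the last step (one half exceptional)
-/

set_option autoImplicit false

noncomputable section

open Finset Pool.Agent.Helper64.Rho Pool.Agent.SDG Pool.Agent.MDR Pool.Agent.SSC
open scoped Classical Pointwise

namespace Pool.Agent.SSE

/-- the order of the generator of the quotient -/
private lemma KgE_ord {G : Type} [AddCommGroup G] [Finite G] {K : AddSubgroup G} {d : G}
    (hd : ∀ x : G, ∃ k : ℕ, x - k • d ∈ K) {n : ℕ} (hn : 0 < n) (h : n • d ∈ K) :
    K.index ≤ n := by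
  have hs : Function.Surjective
      (fun j : Fin n => (QuotientAddGroup.mk ((j : ℕ) • d) : G ⧸ K)) := by
    intro q
    obtain ⟨x, rfl⟩ := QuotientAddGroup.mk_surjective q
    obtain ⟨k, hk⟩ := hd x
    refine ⟨⟨k % n, Nat.mod_lt _ hn⟩, ?_⟩
    have h1 : k • d = (k % n) • d + (k / n) • (n • d) := by
      rw [← mul_nsmul', ← add_nsmul]
      congr 1
      rw [mul_comm]
      exact (Nat.mod_add_div k n).symm
    have h2 : -((k % n) • d) + x = (x - k • d) + (k / n) • (n • d) := by
      rw [h1]
      abel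
    refine QuotientAddGroup.eq.2 ?_
    show -((k % n) • d) + x ∈ K
    rw [h2]
    exact K.add_mem hk (K.nsmul_mem h _)
  have h3 := Nat.card_le_card_of_surjective _ hs
  rw [Nat.card_fin] at h3
  exact h3

/-- at most three members of each level -/
private lemma KgE_fib {G ι : Type} [AddCommGroup G] [Finite G] {S : Finset ι} {f : ι → G}
    {K : AddSubgroup G} {d : G} {lv : ι → ℕ} (hK : Nat.card K = 3) (hS : AS S f)
    (hl : ∀ i ∈ S, f i - lv i • d ∈ K) (k : ℕ) : (S.filter fun i => lv i = k).card ≤ 3 := by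
  have hinj : ∀ i ∈ S, ∀ j ∈ S, f i = f j → i = j := by
    intro i hi j hj h
    exact Finset.card_le_one.1 (hS.2 (f i)) i (mem_filter.2 ⟨hi, Or.inl rfl⟩) j
      (mem_filter.2 ⟨hj, Or.inl h.symm⟩)
  have hm : ∀ i : (S.filter fun i => lv i = k), f i - k • d ∈ K := by
    intro i
    have h1 := mem_filter.1 i.2
    have h2 := hl _ h1.1
    rwa [h1.2] at h2
  have h2 : Function.Injective
      (fun i : (S.filter fun i => lv i = k) => (⟨f i - k • d, hm i⟩ : K)) := by
    intro i j h
    have h3 : f i - k • d = f j - k • d := congrArg Subtype.val h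
    exact Subtype.ext (hinj _ (mem_filter.1 i.2).1 _ (mem_filter.1 j.2).1 (sub_left_injective h3))
  have h3 := Nat.card_le_card_of_injective _ h2
  rw [hK, Nat.card_eq_fintype_card, Fintype.card_coe] at h3
  exact h3

/-- two elements of the top level of a subfamily with a member in `K` -/
private lemma KgE_two {G ι : Type} [AddCommGroup G] [Finite G] {S U : Finset ι} {f : ι → G}
    {K : AddSubgroup G} {d : G} {lv : ι → ℕ} {h : ι} (hl : ∀ i ∈ U, f i - lv i • d ∈ K)
    (hU : U ⊆ S) (hh : h ∈ U) (hK : f h ∈ K) (h0 : f h ≠ 0) (n : ℕ) (hn : ∑ i ∈ U, lv i = n) :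
    2 ≤ ((FS S f).filter fun x => x - n • d ∈ K).card := by
  have h1 : ∑ i ∈ U, f i - n • d ∈ K := by
    rw [← hn, Finset.sum_smul, ← Finset.sum_sub_distrib]
    exact AddSubgroup.sum_mem K hl
  have h2 : ∑ i ∈ U.erase h, f i + f h = ∑ i ∈ U, f i := Finset.sum_erase_add U f hh
  refine Finset.one_lt_card.2 ⟨∑ i ∈ U, f i, mem_filter.2 ⟨mem_FS.2 ⟨U, hU, rfl⟩, h1⟩,
    ∑ i ∈ U.erase h, f i, mem_filter.2 ⟨mem_FS.2 ⟨_, (erase_subset _ _).trans hU, rfl⟩, ?_⟩, ?_⟩
  · have h3 : ∑ i ∈ U.erase h, f i - n • d = (∑ i ∈ U, f i - n • d) - f h := by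
      rw [← h2]
      abel
    rw [h3]
    exact K.sub_mem h1 hK
  · intro h3
    rw [← h2] at h3
    exact h0 (left_eq_add.1 h3.symm)

/-- lower bound for the sum of the levels -/
private lemma KgE_low {ι : Type} (S : Finset ι) (lv : ι → ℕ) (h1 : ∀ i ∈ S, 1 ≤ lv i)
    (h3 : ∀ k, (S.filter fun i => lv i = k).card ≤ 3) (n : ℕ) :
    n * S.card ≤ ∑ i ∈ S, lv i + 3 * ∑ k ∈ range n, k := by
  have e1 : ∀ k, (S.filter fun i => lv i ≤ k).card ≤ 3 * k := by
    intro k
    induction k with
    | zero =>
      rw [filter_false_of_mem, card_empty]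
      intro i hi
      have := h1 i hi
      omega
    | succ k ih =>
      have hsub : (S.filter fun i => lv i ≤ k + 1) ⊆
          (S.filter fun i => lv i ≤ k) ∪ (S.filter fun i => lv i = k + 1) := by
        intro i hi
        rw [mem_filter] at hi
        rw [mem_union, mem_filter, mem_filter]
        rcases Nat.lt_or_ge k (lv i) with h | h
        · exact Or.inr ⟨hi.1, by omega⟩
        · exact Or.inl ⟨hi.1, h⟩
      have h4 := (card_le_card hsub).trans (card_union_le _ _)
      have h5 := h3 (k + 1)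
      omega
  have e2 : ∑ k ∈ range n, (S.filter fun i => k < lv i).card ≤ ∑ i ∈ S, lv i := by
    simp only [card_filter]
    rw [sum_comm]
    refine sum_le_sum fun i _ => ?_
    rw [← card_filter]
    refine (card_le_card (t := range (lv i)) ?_).trans (card_range _).le
    intro k hk
    exact mem_range.2 (mem_filter.1 hk).2
  have e3 : ∀ k ∈ range n, S.card ≤ (S.filter fun i => k < lv i).card + 3 * k := by
    intro k _
    have h4 : S ⊆ (S.filter fun i => k < lv i) ∪ (S.filter fun i => lv i ≤ k) := by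
      intro i hi
      rw [mem_union, mem_filter, mem_filter]
      rcases Nat.lt_or_ge k (lv i) with h | h
      · exact Or.inl ⟨hi, h⟩
      · exact Or.inr ⟨hi, h⟩
    have h5 := (card_le_card h4).trans (card_union_le _ _)
    have h6 := e1 k
    omega
  have e4 := sum_le_sum e3
  rw [sum_const, card_range, smul_eq_mul, sum_add_distrib, ← mul_sum] at e4
  omega

/-- sums of the lower levels -/
private lemma KgE_part {ι : Type} (S : Finset ι) (lv : ι → ℕ) (a : ℕ)
    (h3 : ∀ k, 1 ≤ k → k ≤ a → (S.filter fun i => lv i = k).card = 3) (k : ℕ) (hk : k ≤ a + 1) :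
    2 * ∑ i ∈ S.filter (fun i => lv i < k), lv i + 3 * k = 3 * k * k := by
  induction k with
  | zero =>
    rw [filter_false_of_mem fun i _ => Nat.not_lt_zero _, sum_empty]
    norm_num
  | succ k ih =>
    have h1 := ih (by omega)
    have h2 : S.filter (fun i => lv i < k + 1) =
        S.filter (fun i => lv i < k) ∪ S.filter (fun i => lv i = k) := by
      ext i
      rw [mem_union, mem_filter, mem_filter, mem_filter]
      constructor
      · rintro ⟨hi, h⟩
        rcases Nat.lt_or_ge (lv i) k with h' | h'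
        · exact Or.inl ⟨hi, h'⟩
        · exact Or.inr ⟨hi, by omega⟩
      · rintro (⟨hi, h⟩ | ⟨hi, h⟩)
        · exact ⟨hi, by omega⟩
        · exact ⟨hi, by omega⟩
    have h4 : Disjoint (S.filter (fun i => lv i < k)) (S.filter (fun i => lv i = k)) := by
      rw [Finset.disjoint_left]
      intro i hi hi'
      have := (mem_filter.1 hi).2
      have := (mem_filter.1 hi').2
      omega
    have h5 : ∑ i ∈ S.filter (fun i => lv i = k), lv i = 3 * k := by
      rw [sum_congr rfl fun i hi => (mem_filter.1 hi).2, sum_const, smul_eq_mul]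
      rcases Nat.eq_zero_or_pos k with h | h
      · rw [h]
        rfl
      · rw [h3 k h (by omega)]
    rw [h2, sum_union h4, h5]
    nlinarith

/-- a sum of levels -/
private lemma KgE_sum (g : ℕ → ℕ) (m : ℕ) (hm : 1 ≤ m) (h0 : 2 ≤ g 0)
    (h : ∀ v, 1 ≤ v → v + 1 ≤ m → 3 ≤ g v) : 3 * m ≤ ∑ v ∈ range m, g v + 1 := by
  obtain ⟨n, rfl⟩ : ∃ n, m = n + 1 := ⟨m - 1, by omega⟩
  rw [sum_range_succ']
  have h1 : (range n).card • 3 ≤ ∑ v ∈ range n, g (v + 1) :=
    card_nsmul_le_sum _ _ _ fun v hv => h (v + 1) (by omega) (by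
      have := mem_range.1 hv
      omega)
  rw [card_range, smul_eq_mul] at h1
  omega

theorem thm_KgE : SDG.St_Nm1 → SDG.St_Ba1 → SDG.St_Kn → MDR.St_Sg → St_LvE → SSC.St_Et →
    SSC.St_Fu → SSC.St_Ct → St_Cn → St_KgE := by
  intro hNm _ _ hSg hLv hEt hFu hCt hCn G ι _ _ s1 s2 f K a hdis hE1 hE2 hAp hKAP hc1 hs2K hc2
  have hA1 : AS s1 f := hE1.1
  have hA2 : AS s2 f := hE2.1
  obtain ⟨hK3, hins, ha, d, lv0, hd, hlv0, hcnt, -⟩ := hKAP
  obtain ⟨f', lv, hf', hlv, hlv00, hlvq, hlvu⟩ := hLv G ι f K d hd
  obtain ⟨hcard, hAp', -⟩ := hSg G ι (s1 ∪ s2) f f' fun i _ => hf' i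
  have hAp2 := hAp' hAp
  have hA1' : AS s1 f' := (hSg G ι s1 f f' fun i _ => hf' i).2.2.2.2.2.1 hA1
  have hA2' : AS s2 f' := (hSg G ι s2 f f' fun i _ => hf' i).2.2.2.2.2.1 hA2
  rw [← hcard]
  have hfib1 := KgE_fib hK3 hA1' (fun i _ => hlv i)
  have hfib2 := KgE_fib hK3 hA2' (fun i _ => hlv i)
  -- the member in `K`
  obtain ⟨h, hh⟩ := Finset.card_eq_one.1 hins
  have hhs : h ∈ s1 ∧ f h ∈ K := by
    have h1 : h ∈ ins s1 f K := by
      rw [hh]
      exact mem_singleton_self h
    exact mem_filter.1 h1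
  have hhK : f' h ∈ K := by
    rcases hf' h with e | e
    · rw [e]
      exact hhs.2
    · rw [e]
      exact K.neg_mem hhs.2
  have hh0 : f' h ≠ 0 := hA1'.1 h hhs.1
  have hlvh : lv h = 0 := (hlv00 h).2 hhs.2
  -- the members outside
  have houts : (outs s1 f K).card = 3 * a := by
    have h1 := Finset.card_filter_add_card_filter_not (s := s1) (fun i => f i ∈ K)
    have h2 : (s1.filter fun i => f i ∈ K).card = 1 := hins
    have h3 : (s1.filter fun i => ¬ f i ∈ K).card = (outs s1 f K).card := rfl
    omega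
  have hq : 2 * a ≤ K.index := by
    have h1 : (outs s1 f K).card ≤ 3 * ((outs s1 f K).image lv).card := by
      refine Finset.card_le_mul_card_image (outs s1 f K) 3 fun k _ => ?_
      refine (card_le_card ?_).trans (hfib1 k)
      intro i hi
      rw [mem_filter] at hi ⊢
      exact ⟨(mem_filter.1 hi.1).1, hi.2⟩
    have h2 : ((outs s1 f K).image lv).card ≤ K.index / 2 := by
      have h3 : (outs s1 f K).image lv ⊆ Finset.Icc 1 (K.index / 2) := by
        intro k hk
        obtain ⟨i, hi, rfl⟩ := mem_image.1 hk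
        rw [mem_Icc]
        have h4 : lv i ≠ 0 := fun h5 => (mem_filter.1 hi).2 ((hlv00 i).1 h5)
        have h5 := hlvq i
        omega
      have h4 := card_le_card h3
      rw [Nat.card_Icc] at h4
      omega
    omega
  have hempty : ∀ i ∈ outs s1 f K, lv0 i ≤ a := by
    have h1 := Finset.card_eq_sum_card_fiberwise (s := outs s1 f K) (t := Finset.Icc 1 (a + 1))
      (f := lv0) (fun i hi => by
        have h2 := hlv0 i hi
        exact Finset.mem_coe.2 (mem_Icc.2 ⟨h2.1, h2.2.1⟩))
    rw [houts, Finset.sum_Icc_succ_top (by omega), Finset.sum_congr rfl fun k hk =>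
      hcnt k (mem_Icc.1 hk).1 (mem_Icc.1 hk).2, sum_const, Nat.card_Icc, smul_eq_mul] at h1
    have h2 : ((outs s1 f K).filter fun i => lv0 i = a + 1).card = 0 := by omega
    rw [card_eq_zero] at h2
    intro i hi
    have h3 := (hlv0 i hi).2.1
    by_contra h4
    have h5 : i ∈ (outs s1 f K).filter fun i => lv0 i = a + 1 := mem_filter.2 ⟨hi, by omega⟩
    rw [h2] at h5
    exact absurd h5 (notMem_empty i)
  have hlveq : ∀ i ∈ outs s1 f K, lv i = lv0 i := by
    intro i hi
    have h1 := hempty i hi
    exact hlvu i (lv0 i) (by omega) (hlv0 i hi).2.2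
  have hle : ∀ i ∈ s1, lv i ≤ a := by
    intro i hi
    by_cases h1 : f i ∈ K
    · rw [(hlv00 i).2 h1]
      exact Nat.zero_le _
    · have h2 : i ∈ outs s1 f K := mem_filter.2 ⟨hi, h1⟩
      rw [hlveq i h2]
      exact hempty i h2
  have hthree : ∀ k, 1 ≤ k → k ≤ a → (s1.filter fun i => lv i = k).card = 3 := by
    intro k hk1 hk2
    rw [← hcnt k hk1 hk2]
    congr 1
    ext i
    rw [mem_filter, mem_filter]
    constructor
    · rintro ⟨hi, h1⟩
      have h2 : i ∈ outs s1 f K := mem_filter.2 ⟨hi, fun h3 => by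
        have := (hlv00 i).2 h3
        omega⟩
      exact ⟨h2, by rw [← hlveq i h2]; exact h1⟩
    · rintro ⟨hi, h1⟩
      exact ⟨(mem_filter.1 hi).1, by rw [hlveq i hi]; exact h1⟩
  have hpart := KgE_part s1 lv a hthree
  set m : ℕ := ∑ i ∈ s1, lv i with hm
  have hm2 : 2 * m + 3 * (a + 1) = 3 * (a + 1) * (a + 1) := by
    have h1 := hpart (a + 1) le_rfl
    rw [filter_true_of_mem fun i hi => Nat.lt_succ_of_le (hle i hi)] at h1
    exact h1
  have hm3 : 3 ≤ m := by nlinarith
  have hPer0 : Per (FS s1 f') K d m := by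
    refine ((hFu G ι s1 f' K d lv hK3 hA1' fun i _ => hlv i).1 (hthree 1 le_rfl ha) ?_)
    intro i hi h2
    have h4 := hpart (lv i) ((hle i hi).trans (Nat.le_succ a))
    nlinarith
  -- the maximal part
  set Pr : Finset ι → Prop := fun R => Per (FS (s1 ∪ R) f') K d (m + ∑ i ∈ R, lv i) with hPr
  have hPr0 : Pr ∅ := by
    rw [hPr]
    simp only [union_empty, sum_empty, add_zero]
    exact hPer0
  obtain ⟨R, hRm, hRmax⟩ := Finset.exists_max_image (s2.powerset.filter Pr) Finset.card
    ⟨∅, mem_filter.2 ⟨mem_powerset.2 (empty_subset _), hPr0⟩⟩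
  obtain ⟨hR2, hRP⟩ := mem_filter.1 hRm
  rw [mem_powerset] at hR2
  set m' : ℕ := m + ∑ i ∈ R, lv i with hm'
  have hRP' : Per (FS (s1 ∪ R) f') K d m' := hRP
  have hbig : ∀ i ∈ s2, i ∉ R → m' ≤ lv i := by
    intro i hi hiR
    by_contra hlt
    have h1 : i ∉ s1 := fun h2 => Finset.disjoint_left.1 hdis h2 hi
    have h2 := hEt G ι (s1 ∪ R) {i} f' K d lv m' (by
      rw [Finset.disjoint_singleton_right, mem_union, not_or]
      exact ⟨h1, hiR⟩) (fun j _ => hlv j) hRP' (by
      intro j hj
      rw [mem_singleton.1 hj]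
      refine ⟨?_, ?_⟩
      · have h3 : lv i ≠ 0 := fun h4 => hs2K i hi ((hlv00 i).1 h4)
        omega
      · omega)
    have h3 : Pr (insert i R) := by
      rw [hPr]
      show Per (FS (s1 ∪ insert i R) f') K d (m + ∑ j ∈ insert i R, lv j)
      rw [sum_insert hiR]
      rw [sum_singleton, union_assoc, union_comm R {i}, ← insert_eq] at h2
      have h4 : m + (lv i + ∑ j ∈ R, lv j) = m' + lv i := by
        rw [hm']
        ring
      rw [h4]
      exact h2
    have h4 := hRmax (insert i R) (mem_filter.2 ⟨mem_powerset.2 (insert_subset hi hR2), h3⟩)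
    rw [card_insert_of_notMem hiR] at h4
    omega
  have hlv1 : ∀ i ∈ s2, 1 ≤ lv i := fun i hi =>
    Nat.one_le_iff_ne_zero.2 fun h4 => hs2K i hi ((hlv00 i).1 h4)
  have hsub1 : s1 ⊆ s1 ∪ s2 := subset_union_left
  have hdis' : ∀ R' : Finset ι, R' ⊆ s2 → Disjoint s1 R' := fun R' hR' =>
    Finset.disjoint_of_subset_right hR' hdis
  have hsumU : ∀ R' : Finset ι, R' ⊆ s2 → ∑ i ∈ s1 ∪ R', lv i = m + ∑ i ∈ R', lv i :=
    fun R' hR' => sum_union (hdis' R' hR')
  -- two elements of level zero
  have hlev0 : 2 ≤ ((FS (s1 ∪ s2) f').filter fun x => x ∈ K).card := by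
    have h1 := KgE_two (S := s1 ∪ s2) (U := {h}) (f := f') (K := K) (d := d) (lv := lv) (h := h)
      (fun i _ => hlv i) (by
        rw [singleton_subset_iff]
        exact hsub1 hhs.1) (mem_singleton_self h) hhK hh0 0 (by rw [sum_singleton]; exact hlvh)
    simpa only [zero_smul, sub_zero] using h1
  have hlev : ∀ R' : Finset ι, R' ⊆ s2 → ∀ n, m + ∑ i ∈ R', lv i = n →
      2 ≤ ((FS (s1 ∪ s2) f').filter fun x => x - n • d ∈ K).card := by
    intro R' hR' n hn
    exact KgE_two (U := s1 ∪ R') (lv := lv) (h := h) (fun i _ => hlv i)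
      (union_subset_union_right hR') (mem_union_left _ hhs.1) hhK hh0 n
      ((hsumU R' hR').trans hn)
  have hcf1 := hNm.2.1 2 (3 * a) 1 (by norm_num) (by norm_num)
  have hcf2 := hNm.2.1 2 (3 * a) 2 (by norm_num) le_rfl
  have hmm' : m ≤ m' := Nat.le_add_right _ _
  by_cases hRs : R = s2
  · -- everything is used
    have hPT : Per (FS (s1 ∪ s2) f') K d m' := by rw [← hRs]; exact hRP'
    obtain ⟨c1, c2, c3, -⟩ := hCt G (FS (s1 ∪ s2) f') K d m' hK3 hd (by omega) hPT
    have hS2 : m' = m + ∑ i ∈ s2, lv i := by rw [hm', hRs]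
    have htop := hlev s2 (Subset.refl _) m' hS2.symm
    have hnot : ¬ K.index + 1 ≤ m' := by
      intro h1
      have h2 := c3 h1
      have h3 : f' h = 0 := hAp2 (f' h) fun x _ => h2 _
      exact hh0 h3
    have hT : 3 * m' ≤ (FS (s1 ∪ s2) f').card + 1 := by
      rcases Nat.lt_or_ge m' K.index with h1 | h1
      · have h2 := c1 (by omega)
        omega
      · have h2 := c2 (by omega)
        omega
    rcases hc2 with hc2 | ⟨hc2, ha2⟩
    · have h1 := KgE_low s2 lv hlv1 hfib2 (a + 1)
      have h2 := Finset.sum_range_id_mul_two (a + 1)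
      rw [Nat.add_sub_cancel] at h2
      rw [hc2] at h1
      rw [hc1, hc2, show 3 * a + 1 + (3 * a + 1) = 2 * (3 * a) + 2 by ring]
      nlinarith
    · have h1 := KgE_low s2 lv hlv1 hfib2 a
      have h2 := Finset.sum_range_id_mul_two a
      rw [hc2] at h1
      rw [hc1, hc2, show 3 * a + 1 + 3 * a = 2 * (3 * a) + 1 by ring]
      obtain ⟨b, rfl⟩ : ∃ b, a = b + 1 := ⟨a - 1, by omega⟩
      rw [Nat.add_sub_cancel] at h2
      nlinarith
  · -- some member is not used
    obtain ⟨i, hi2, hiR⟩ : ∃ i ∈ s2, i ∉ R := by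
      by_contra hcon
      push Not at hcon
      exact hRs (Subset.antisymm hR2 hcon)
    -- the sums with an unused member
    have hYX : FS (s1 ∪ R) f' ⊆ FS (s1 ∪ s2) f' := by
      intro x hx
      obtain ⟨t, ht, rfl⟩ := mem_FS.1 hx
      exact mem_FS.2 ⟨t, ht.trans (union_subset_union_right hR2), rfl⟩
    have hPT : Per (FS (s1 ∪ s2) f') K d m' := fun v hv1 hv2 k hk => hYX (hRP' v hv1 hv2 k hk)
    have hadd : ∀ j ∈ s2, j ∉ R → ∀ v, 1 ≤ v → v + 1 ≤ m' → ∀ x ∈ K,
        (lv j + v) • d + x ∈ FS (s1 ∪ s2) f' := by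
      intro j hj hjR v hv1 hv2 x hx
      have h1 : v • d + (x - (f' j - lv j • d)) ∈ FS (s1 ∪ R) f' :=
        hRP' v hv1 hv2 _ (K.sub_mem hx (hlv j))
      obtain ⟨t, ht, hsum⟩ := mem_FS.1 h1
      have hjt : j ∉ t := by
        intro h2
        rcases mem_union.1 (ht h2) with h3 | h3
        · exact Finset.disjoint_left.1 hdis h3 hj
        · exact hjR h3
      refine mem_FS.2 ⟨insert j t, insert_subset (mem_union_right _ hj)
        (ht.trans (union_subset_union_right hR2)), ?_⟩
      rw [sum_insert hjt, hsum, add_smul]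
      abel
    have hR' : ∀ j ∈ s2, j ∉ R → insert j R ⊆ s2 := fun j hj _ => insert_subset hj hR2
    have hmain : ∀ j ∈ s2, j ∉ R → 6 * m' ≤ (FS (s1 ∪ s2) f').card + 2 := by
      intro j hj hjR
      have h1 := hbig j hj hjR
      have h2 := hlvq j
      rcases Nat.lt_or_ge (lv j + m') K.index with hlt | hge
      swap
      · have h3 : lv j = m' := by omega
        have h4 : K.index = m' + m' := by omega
        obtain ⟨n1, n2, -⟩ := hCn G (FS (s1 ∪ s2) f') K d hd
        have h5 := n1 (range (m' + m')) fun v hv => by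
          rw [h4]
          exact mem_range.1 hv
        rw [sum_range_add] at h5
        have h6 : 3 * m' ≤ ∑ v ∈ range m',
            ((FS (s1 ∪ s2) f').filter fun x => x - v • d ∈ K).card + 1 := KgE_sum
          (fun v => ((FS (s1 ∪ s2) f').filter fun x => x - v • d ∈ K).card) m'
          (by omega) (by
            show 2 ≤ ((FS (s1 ∪ s2) f').filter fun x => x - (0 : ℕ) • d ∈ K).card
            simpa only [zero_smul, sub_zero] using hlev0) (fun v hv1 hv2 => by
            show 3 ≤ ((FS (s1 ∪ s2) f').filter fun x => x - v • d ∈ K).card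
            rw [n2 v (hPT v hv1 hv2), hK3])
        have h7 : 3 * m' ≤ ∑ v ∈ range m',
            ((FS (s1 ∪ s2) f').filter fun x => x - (m' + v) • d ∈ K).card + 1 := KgE_sum
          (fun v => ((FS (s1 ∪ s2) f').filter fun x => x - (m' + v) • d ∈ K).card) m'
          (by omega) (by
            show 2 ≤ ((FS (s1 ∪ s2) f').filter fun x => x - (m' + 0) • d ∈ K).card
            rw [add_zero]
            exact hlev R hR2 m' rfl) (fun v hv1 hv2 => by
            show 3 ≤ ((FS (s1 ∪ s2) f').filter fun x => x - (m' + v) • d ∈ K).card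
            have h8 := hadd j hj hjR v hv1 hv2
            rw [h3] at h8
            rw [n2 (m' + v) h8, hK3])
        omega
      obtain ⟨-, -, -, c4⟩ := hCt G (FS (s1 ∪ s2) f') K d m' hK3 hd (by omega) hPT
      have h3 := c4 (lv j) h1 (by omega) (hadd j hj hjR)
      have h4 := hlev R hR2 m' rfl
      have h5 := hlev (insert j R) (hR' j hj hjR) (lv j + m') (by
        rw [sum_insert hjR, hm']
        ring)
      omega
    rcases hc2 with hc2 | ⟨hc2, ha2⟩
    · by_cases hR0 : R = ∅
      · -- all members of `s2` have high levels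
        have hm'm : m' = m := by rw [hm', hR0, sum_empty, add_zero]
        obtain ⟨j, hj2, hne⟩ : ∃ j ∈ s2, lv j ≠ lv i := by
          by_contra hcon
          push Not at hcon
          have h1 := hfib2 (lv i)
          rw [filter_true_of_mem hcon] at h1
          omega
        have hjR : j ∉ R := by
          rw [hR0]
          exact notMem_empty j
        -- the smaller and the larger level
        obtain ⟨p, p', hp2, hpR, hp'2, hp'R, hlt⟩ : ∃ p p', p ∈ s2 ∧ p ∉ R ∧ p' ∈ s2 ∧ p' ∉ R ∧
            lv p < lv p' := by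
          rcases lt_or_gt_of_ne hne with h1 | h1
          · exact ⟨j, i, hj2, hjR, hi2, hiR, h1⟩
          · exact ⟨i, j, hi2, hiR, hj2, hjR, h1⟩
        have hb1 := hbig p hp2 hpR
        have hb2 := hlvq p'
        set X := FS (s1 ∪ s2) f' with hX
        set X' := X.filter fun x => x - (lv p + 1) • d ∉ K with hX'
        have hord : ∀ u w : ℕ, u < w → w < K.index → ∀ x : G, x - u • d ∈ K →
            x - w • d ∉ K := by
          intro u w huw hw x hx hx'
          have h1 : (w - u) • d ∈ K := by
            have h2 : (w - u) • d = (x - u • d) - (x - w • d) := by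
              have h3 : w • d = (w - u) • d + u • d := by
                rw [← add_nsmul, Nat.sub_add_cancel huw.le]
              rw [h3]
              abel
            rw [h2]
            exact K.sub_mem hx hx'
          have h2 := KgE_ord hd (by omega) h1
          omega
        have hcut : 3 + X'.card ≤ X.card := by
          have h1 := Finset.card_filter_add_card_filter_not (s := X)
            (fun x => x - (lv p + 1) • d ∈ K)
          have h2 : 3 ≤ (X.filter fun x => x - (lv p + 1) • d ∈ K).card := by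
            have h3 : Function.Injective (fun k : K =>
                (⟨(lv p + 1) • d + k, mem_filter.2 ⟨hadd p hp2 hpR 1 le_rfl (by omega) k k.2, by
                  rw [add_sub_cancel_left]
                  exact k.2⟩⟩ : (X.filter fun x => x - (lv p + 1) • d ∈ K))) := by
              intro k k' hkk
              have h4 := congrArg Subtype.val hkk
              exact Subtype.ext (add_left_cancel h4)
            have h4 := Nat.card_le_card_of_injective _ h3
            rw [hK3, Nat.card_eq_fintype_card, Fintype.card_coe] at h4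
            exact h4
          have h3 : (X.filter fun x => ¬ (x - (lv p + 1) • d ∈ K)).card = X'.card := rfl
          omega
        have hP' : Per X' K d m := by
          intro v hv1 hv2 k hk
          refine mem_filter.2 ⟨hPT v hv1 (by omega) k hk, ?_⟩
          refine hord v (lv p + 1) (by omega) (by omega) _ ?_
          rw [add_sub_cancel_left]
          exact hk
        obtain ⟨-, -, -, c4⟩ := hCt G X' K d m hK3 hd (by omega) hP'
        have h3 := c4 (lv p') (by omega) (by omega) (by
          intro v hv1 hv2 x hx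
          refine mem_filter.2 ⟨hadd p' hp'2 hp'R v hv1 (by omega) x hx, ?_⟩
          intro h4
          refine hord (lv p + 1) (lv p' + v) (by omega) (by omega) _ h4 ?_
          rw [add_sub_cancel_left]
          exact hx)
        have hl0 : 2 ≤ (X'.filter fun x => x ∈ K).card := by
          refine hlev0.trans (card_le_card ?_)
          intro x hx
          rw [mem_filter] at hx
          refine mem_filter.2 ⟨mem_filter.2 ⟨hx.1, ?_⟩, hx.2⟩
          refine hord 0 (lv p + 1) (by omega) (by omega) _ ?_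
          rw [zero_smul, sub_zero]
          exact hx.2
        have hl1 : 2 ≤ (X'.filter fun x => x - m • d ∈ K).card := by
          refine (hlev ∅ (empty_subset _) m (by rw [sum_empty, add_zero])).trans
            (card_le_card ?_)
          intro x hx
          rw [mem_filter] at hx
          exact mem_filter.2 ⟨mem_filter.2 ⟨hx.1, hord m (lv p + 1) (by omega) (by omega) _ hx.2⟩,
            hx.2⟩
        have hl2 : 2 ≤ (X'.filter fun x => x - (lv p' + m) • d ∈ K).card := by
          refine (hlev {p'} (singleton_subset_iff.2 hp'2) (lv p' + m) (by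
            rw [sum_singleton, add_comm])).trans (card_le_card ?_)
          intro x hx
          rw [mem_filter] at hx
          refine mem_filter.2 ⟨mem_filter.2 ⟨hx.1, fun h4 => ?_⟩, hx.2⟩
          exact hord (lv p + 1) (lv p' + m) (by omega) (by omega) _ h4 hx.2
        rw [hc1, hc2, show 3 * a + 1 + (3 * a + 1) = 2 * (3 * a) + 2 by ring]
        have h6 : 6 * m + 3 ≤ X.card := by omega
        have e1 : 2 * cf 2 (2 * (3 * a) + 2) = 18 * (a * a) + 18 * a + 6 := by
          rw [hcf2]
          ring
        have e2 : 2 * m + 3 * (a + 1) = 3 * (a * a) + 6 * a + 3 := by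
          rw [hm2]
          ring
        clear_value m m' X X'
        linarith
      · have h1 := hmain i hi2 hiR
        obtain ⟨j, hj⟩ := Finset.nonempty_iff_ne_empty.2 hR0
        have h2 : lv j ≤ ∑ i ∈ R, lv i := Finset.single_le_sum (fun _ _ => Nat.zero_le _) hj
        have h3 := hlv1 j (hR2 hj)
        have h4 : m + 1 ≤ m' := by omega
        rw [hc1, hc2, show 3 * a + 1 + (3 * a + 1) = 2 * (3 * a) + 2 by ring]
        have e1 : 2 * cf 2 (2 * (3 * a) + 2) = 18 * (a * a) + 18 * a + 6 := by
          rw [hcf2]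
          ring
        have e2 : 2 * m + 3 * (a + 1) = 3 * (a * a) + 6 * a + 3 := by
          rw [hm2]
          ring
        clear_value m m'
        linarith
    · have h1 := hmain i hi2 hiR
      rw [hc1, hc2, show 3 * a + 1 + 3 * a = 2 * (3 * a) + 1 by ring]
      have e1 : 2 * cf 2 (2 * (3 * a) + 1) = 18 * (a * a) + 12 * a + 4 := by
        rw [hcf1]
        ring
      have e2 : 2 * m + 3 * (a + 1) = 3 * (a * a) + 6 * a + 3 := by
        rw [hm2]
        ring
      clear_value m m'
      linarith

end Pool.Agent.SSE
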