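import Pool.Agent.SSE.St2

/-!
# SSE Kh3: nearly filled by the group of order three, progression modulo this group
-/

set_option autoImplicit false

noncomputable section

open Finset Pool.Agent.Helper64.Rho Pool.Agent.SDG Pool.Agent.MDR Pool.Agent.SSC
open scoped Classical Pointwise

namespace Pool.Agent.SSE

private theorem Kh3_fib {ι : Type} (o : Finset ι) (lv : ι → ℕ) (n : ℕ) :
    ∑ j ∈ o.filter (fun j => lv j < n), lv j =
      ∑ k ∈ range n, k * (o.filter fun j => lv j = k).card := by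
  rw [← Finset.sum_fiberwise_of_maps_to (g := lv) (t := range n)
    (fun j hj => mem_range.2 (mem_filter.1 hj).2)]
  apply sum_congr rfl
  intro k hk
  have hk' := mem_range.1 hk
  have h0 : (o.filter fun j => lv j < n).filter (fun j => lv j = k) = o.filter fun j => lv j = k := by
    ext j
    simp only [mem_filter]
    constructor
    · rintro ⟨⟨x, _⟩, z⟩
      exact ⟨x, z⟩
    · rintro ⟨x, z⟩
      exact ⟨⟨x, by omega⟩, z⟩
  rw [h0]
  have h1 : ∑ j ∈ o.filter (fun j => lv j = k), lv j = ∑ _j ∈ o.filter (fun j => lv j = k), k :=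
    sum_congr rfl fun j hj => (mem_filter.1 hj).2
  rw [h1, sum_const, smul_eq_mul, mul_comm]

/-- The weighted sum of the levels below `n`, at most one level has two members. -/
private theorem Kh3_sum {ι : Type} (o : Finset ι) (lv : ι → ℕ) (a i0 : ℕ)
    (h3 : ∀ k, 1 ≤ k → k ≤ a → k ≠ i0 → (o.filter fun j => lv j = k).card = 3)
    (h2 : i0 ≠ 0 → (o.filter fun j => lv j = i0).card = 2) (n : ℕ) (hn : n ≤ a + 1) :
    2 * ∑ j ∈ o.filter (fun j => lv j < n), lv j + 2 * (if i0 < n then i0 else 0) =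
      3 * (n * (n - 1)) := by
  rw [Kh3_fib o lv n]
  have e1 : ∑ k ∈ range n, k * (o.filter fun j => lv j = k).card +
      ∑ k ∈ range n, (if k = i0 then i0 else 0) = ∑ k ∈ range n, 3 * k := by
    rw [← sum_add_distrib]
    apply sum_congr rfl
    intro k hk
    have hk' := mem_range.1 hk
    by_cases h : k = i0
    · rw [if_pos h]
      by_cases h0 : i0 = 0
      · rw [h, h0]
        simp
      · rw [h, h2 h0]
        ring
    · rw [if_neg h]
      rcases Nat.eq_zero_or_pos k with h4 | h4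
      · rw [h4]
        simp
      · rw [h3 k h4 (by omega) h]
        ring
  have e2 : ∑ k ∈ range n, (if k = i0 then i0 else 0) = if i0 < n then i0 else 0 := by
    rw [sum_ite_eq' (range n) i0 (fun _ => i0)]
    simp only [mem_range]
  rw [e2, ← mul_sum] at e1
  have e3 := sum_range_id_mul_two n
  omega

/-- At most three members of each level, at least `3 a - 1` members. -/
private theorem Kh3_lvl {ι : Type} (o : Finset ι) (lv : ι → ℕ) (a : ℕ)
    (h1 : ∀ j ∈ o, 1 ≤ lv j ∧ lv j ≤ a)
    (h2 : ∀ k, (o.filter fun j => lv j = k).card ≤ 3) (h3 : 3 * a ≤ o.card + 1) :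
    (o.card = 3 * a ∧ ∀ k, 1 ≤ k → k ≤ a → (o.filter fun j => lv j = k).card = 3) ∨
    (o.card + 1 = 3 * a ∧ ∃ i0, 1 ≤ i0 ∧ i0 ≤ a ∧ (o.filter fun j => lv j = i0).card = 2 ∧
      ∀ k, 1 ≤ k → k ≤ a → k ≠ i0 → (o.filter fun j => lv j = k).card = 3) := by
  have e1 : o.card = ∑ k ∈ Icc 1 a, (o.filter fun j => lv j = k).card :=
    card_eq_sum_card_fiberwise (f := lv) (s := o) (t := Icc 1 a) (fun j hj => by
      have := h1 j hj
      rw [mem_coe, mem_Icc]
      exact this)
  have e2 : ∑ k ∈ Icc 1 a, (o.filter fun j => lv j = k).card +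
      ∑ k ∈ Icc 1 a, (3 - (o.filter fun j => lv j = k).card) = 3 * a := by
    rw [← sum_add_distrib]
    have : ∑ k ∈ Icc 1 a, ((o.filter fun j => lv j = k).card +
        (3 - (o.filter fun j => lv j = k).card)) = ∑ _k ∈ Icc 1 a, 3 := by
      apply sum_congr rfl
      intro k _
      have := h2 k
      omega
    rw [this, sum_const, Nat.card_Icc, smul_eq_mul]
    omega
  by_cases hc : ∀ k, 1 ≤ k → k ≤ a → (o.filter fun j => lv j = k).card = 3
  · left
    refine ⟨?_, hc⟩
    have e3 : ∑ k ∈ Icc 1 a, (3 - (o.filter fun j => lv j = k).card) = 0 := by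
      apply sum_eq_zero
      intro k hk
      rw [mem_Icc] at hk
      have := hc k hk.1 hk.2
      omega
    omega
  · right
    push Not at hc
    obtain ⟨i0, p1, p2, p3⟩ := hc
    have hi0 : i0 ∈ Icc 1 a := mem_Icc.2 ⟨p1, p2⟩
    have e4 := add_sum_erase (Icc 1 a) (fun k => 3 - (o.filter fun j => lv j = k).card) hi0
    have q1 := h2 i0
    have q2 : 1 ≤ 3 - (o.filter fun j => lv j = i0).card := by omega
    refine ⟨by omega, i0, p1, p2, by omega, ?_⟩
    intro k k1 k2 k3
    have hk : k ∈ (Icc 1 a).erase i0 := mem_erase.2 ⟨k3, mem_Icc.2 ⟨k1, k2⟩⟩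
    have e5 := single_le_sum (f := fun k => 3 - (o.filter fun j => lv j = k).card)
      (fun _ _ => Nat.zero_le _) hk
    have q3 := h2 k
    omega

/-- Two sums in the group and two sums of the top level. -/
private theorem Kh3_two {G ι : Type} [AddCommGroup G] (v : Finset ι) (g : ι → G) (K : AddSubgroup G)
    (d : G) (M : ℕ) (h : ι) (hv : h ∈ v) (hK : g h ∈ K) (h0 : g h ≠ 0)
    (hM : (∑ j ∈ v, g j) - M • d ∈ K) :
    2 ≤ ((FS v g).filter fun x => x ∈ K).card ∧
    2 ≤ ((FS v g).filter fun x => x - M • d ∈ K).card := by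
  have m1 : (0 : G) ∈ FS v g := zero_mem_FS v g
  have m2 : g h ∈ FS v g := mem_FS.2 ⟨{h}, singleton_subset_iff.2 hv, by simp⟩
  have m3 : ∑ j ∈ v, g j ∈ FS v g := mem_FS.2 ⟨v, Subset.refl _, rfl⟩
  have m4 : (∑ j ∈ v, g j) - g h ∈ FS v g := by
    refine mem_FS.2 ⟨v.erase h, erase_subset _ _, ?_⟩
    rw [← add_sum_erase v g hv]
    abel
  constructor
  · have e : ({0, g h} : Finset G) ⊆ (FS v g).filter fun x => x ∈ K := by
      intro x hx
      rw [mem_insert, mem_singleton] at hx
      rw [mem_filter]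
      rcases hx with rfl | rfl
      · exact ⟨m1, K.zero_mem⟩
      · exact ⟨m2, hK⟩
    have c := card_le_card e
    rwa [card_pair h0.symm] at c
  · have e : ({∑ j ∈ v, g j, (∑ j ∈ v, g j) - g h} : Finset G) ⊆
        (FS v g).filter fun x => x - M • d ∈ K := by
      intro x hx
      rw [mem_insert, mem_singleton] at hx
      rw [mem_filter]
      rcases hx with rfl | rfl
      · exact ⟨m3, hM⟩
      · refine ⟨m4, ?_⟩
        have : (∑ j ∈ v, g j) - g h - M • d = ((∑ j ∈ v, g j) - M • d) - g h := by abel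
        rw [this]
        exact K.sub_mem hM hK
    have c := card_le_card e
    have hne : (∑ j ∈ v, g j) ≠ (∑ j ∈ v, g j) - g h := by
      intro h1
      apply h0
      have : g h = (∑ j ∈ v, g j) - ((∑ j ∈ v, g j) - g h) := by abel
      rw [this, ← h1, sub_self]
    rwa [card_pair hne] at c

private theorem Kh3_sub {G ι : Type} [AddCommGroup G] {s t : Finset ι} {f : ι → G} (h : AS t f)
    (hs : s ⊆ t) : AS s f :=
  ⟨fun i hi => h.1 i (hs hi), fun x => (card_le_card (filter_subset_filter _ hs)).trans (h.2 x)⟩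

private theorem Kh3_inj {G ι : Type} [AddCommGroup G] {s : Finset ι} {f : ι → G} (h : AS s f) :
    Set.InjOn f (s : Set ι) := by
  intro i hi j hj hij
  have h1 := card_le_one.1 (h.2 (f i))
  exact h1 i (mem_filter.2 ⟨hi, Or.inl rfl⟩) j (mem_filter.2 ⟨hj, Or.inl hij.symm⟩)

private theorem Kh3_lev {G ι : Type} [AddCommGroup G] [Finite G] {s : Finset ι} {g : ι → G}
    (h : AS s g) (K : AddSubgroup G) (hK : Nat.card K = 3) (d : G) (lv : ι → ℕ)
    (hl : ∀ j ∈ s, g j - lv j • d ∈ K) (n : ℕ) : (s.filter fun j => lv j = n).card ≤ 3 := by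
  rw [← hK]
  have : Fintype K := Fintype.ofFinite K
  rw [Nat.card_eq_fintype_card, ← card_univ]
  apply card_le_card_of_injOn (fun j => if hj : g j - n • d ∈ K then (⟨g j - n • d, hj⟩ : K) else 0)
  · intro j _
    exact mem_univ _
  · intro x hx y hy hxy
    rw [mem_coe, mem_filter] at hx hy
    have h1 : g x - n • d ∈ K := by
      rw [← hx.2]
      exact hl x hx.1
    have h2 : g y - n • d ∈ K := by
      rw [← hy.2]
      exact hl y hy.1
    dsimp only at hxy
    rw [dif_pos h1, dif_pos h2] at hxy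
    have h3 : g x - n • d = g y - n • d := congrArg Subtype.val hxy
    exact Kh3_inj h hx.1 hy.1 (sub_left_inj.1 h3)

theorem thm_Kh3 : SDG.St_Ba1 → MDR.St_Sg → St_Lc → SSC.St_Fu → St_Cn → St_Kh3 := by
  intro _ hSg hLc hFu hCn G ι _ _ u f K hH hK3
  obtain ⟨_, hAE, _, h5, hst, hAPK, hN⟩ := hH
  obtain ⟨hAS, hAE2⟩ := hAE
  obtain ⟨d, a, g, lv, hd, hg, hgl, hl0, hq1, hlvu, _, hb, _, hal⟩ :=
    hLc G ι u f K ⟨hAS, hAE2⟩ (by omega) (by omega) hst hAPK
  -- the index
  obtain ⟨q, hq⟩ : ∃ q, q = K.index := ⟨_, rfl⟩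
  have hNq : Nat.card G = 3 * q := by
    rw [hq, ← hK3]
    exact (AddSubgroup.card_mul_index K).symm
  rw [← hq] at hq1
  have hal : 3 * a ≤ u.card := by rw [hK3] at hal; omega
  -- members outside the group
  obtain ⟨o, ho⟩ : ∃ o, o = outs u f K := ⟨_, rfl⟩
  have hou : o ⊆ u := by
    rw [ho]
    exact filter_subset _ _
  have homem : ∀ j ∈ u, j ∈ o ↔ f j ∉ K := by
    intro j hj
    rw [ho]
    unfold outs
    rw [mem_filter]
    exact ⟨fun h => h.2, fun h => ⟨hj, h⟩⟩
  have hlvo : ∀ j ∈ o, 1 ≤ lv j ∧ lv j ≤ a := by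
    intro j hj
    refine ⟨?_, hlvu j (hou hj)⟩
    have h1 := (homem j (hou hj)).1 hj
    rcases Nat.eq_zero_or_pos (lv j) with h2 | h2
    · exact absurd ((hl0 j).1 h2) h1
    · exact h2
  have hlvz : ∀ j ∈ u, j ∉ o → lv j = 0 := by
    intro j hj hjo
    rw [homem j hj, not_not] at hjo
    exact (hl0 j).2 hjo
  have hfu : ∀ n, n ≠ 0 → (u.filter fun j => lv j = n) = o.filter fun j => lv j = n := by
    intro n hn
    ext j
    simp only [mem_filter]
    constructor
    · rintro ⟨h1, h2⟩
      refine ⟨?_, h2⟩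
      by_contra h3
      rw [hlvz j h1 h3] at h2
      exact hn h2.symm
    · rintro ⟨h1, h2⟩
      exact ⟨hou h1, h2⟩
  have hucard : u.card = o.card + (ins u f K).card := by
    have h1 := card_filter_add_card_filter_not (s := u) (fun j => f j ∈ K)
    have h3 : (u.filter fun j => f j ∉ K).card = o.card := by
      rw [ho]
      rfl
    have h4 : (u.filter fun j => f j ∈ K).card = (ins u f K).card := rfl
    omega
  obtain ⟨sg1, _, _, _, _, sg2, _, _⟩ := hSg G ι u f g (fun j _ => hg j)
  have hASg := sg2 hAS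
  have hle3 : ∀ k, (o.filter fun j => lv j = k).card ≤ 3 :=
    fun k => Kh3_lev (Kh3_sub hASg hou) K hK3 d lv (fun j _ => hgl j) k
  -- the levels
  have hKf : ∀ j, f j - lv j • d ∈ K ∨ f j + lv j • d ∈ K := by
    intro j
    rcases hg j with h1 | h1
    · left
      rw [← h1]
      exact hgl j
    · right
      have h2 := K.neg_mem (hgl j)
      rw [h1] at h2
      have h3 : f j + lv j • d = -(-f j - lv j • d) := by abel
      rw [h3]
      exact h2
  have hlvl := Kh3_lvl o lv a hlvo hle3 (by omega)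
  -- exceptional families
  by_cases hE1 : (ins u f K).card = 1 ∧ o.card = 3 * a
  · left
    rcases hlvl with ⟨_, c2⟩ | ⟨c1, _⟩
    · refine ⟨K, a, hK3, hE1.1, by omega, d, lv, hd, ?_, ?_, ?_⟩
      · intro i hi
        rw [← ho] at hi
        have := hlvo i hi
        exact ⟨this.1, by omega, hKf i⟩
      · intro k hk1 hk2
        rw [← ho]
        exact c2 k hk1 hk2
      · rw [← ho]
        have : (o.filter fun j => lv j = a + 1) = ∅ := by
          rw [filter_eq_empty_iff]
          intro j hj h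
          have := hlvo j hj
          omega
        rw [this]
        simp
    · omega
  by_cases hE2 : (ins u f K).card = 1 ∧ o.card + 1 = 3 * a ∧ (o.filter fun j => lv j = a).card = 2
  · left
    rcases hlvl with ⟨c1, _⟩ | ⟨_, i0, c2, c3, c4, c5⟩
    · omega
    · have hi0 : a = i0 := by
        by_contra h
        have := c5 a (by omega) le_rfl h
        omega
      refine ⟨K, a - 1, hK3, hE2.1, by omega, d, lv, hd, ?_, ?_, ?_⟩
      · intro i hi
        rw [← ho] at hi
        have := hlvo i hi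
        exact ⟨this.1, by omega, hKf i⟩
      · intro k hk1 hk2
        rw [← ho]
        exact c5 k hk1 (by omega) (by omega)
      · rw [← ho]
        have : a - 1 + 1 = a := by omega
        rw [this]
        omega
  right
  -- the deficient level
  have hdef : ∃ i0, i0 < a ∧ (i0 ≠ 0 → (ins u f K).card = 1) ∧
      (i0 = 0 → (ins u f K).card = 0) ∧ u.card = 3 * a ∧
      (∀ k, 1 ≤ k → k ≤ a → k ≠ i0 → (o.filter fun j => lv j = k).card = 3) ∧
      (i0 ≠ 0 → (o.filter fun j => lv j = i0).card = 2) := by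
    rcases hlvl with ⟨c1, c2⟩ | ⟨c1, i0, c2, c3, c4, c5⟩
    · have hb0 : (ins u f K).card = 0 := by
        by_contra h
        exact hE1 ⟨by omega, c1⟩
      refine ⟨0, by omega, fun h => absurd rfl h, fun _ => hb0, by omega, ?_, fun h => absurd rfl h⟩
      intro k h1 h2 _
      exact c2 k h1 h2
    · have hb1 : (ins u f K).card = 1 := by omega
      have hia : i0 ≠ a := by
        intro h
        rw [h] at c4
        exact hE2 ⟨hb1, c1, c4⟩
      exact ⟨i0, by omega, fun _ => hb1, fun h => by omega, by omega, c5, fun _ => c4⟩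
  obtain ⟨i0, hi0, hbi, hbi0, hua, hc3, hc2⟩ := hdef
  have ha2 : 2 ≤ a := by omega
  obtain ⟨m, hm⟩ : ∃ m, m = ∑ j ∈ u, lv j := ⟨_, rfl⟩
  have hmo : m = ∑ j ∈ o, lv j := by
    rw [hm]
    exact (sum_subset hou hlvz).symm
  have hm2 : 2 * m + 2 * i0 = 3 * ((a + 1) * a) := by
    have e := Kh3_sum o lv a i0 hc3 hc2 (a + 1) le_rfl
    have e2 : (o.filter fun j => lv j < a + 1) = o := by
      rw [filter_eq_self]
      intro j hj
      have := hlvo j hj
      omega
    rw [e2, if_pos (by omega), ← hmo, Nat.add_sub_cancel] at e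
    exact e
  have hlow : ∀ n, 2 ≤ n → n ≤ a → (n = 2 → i0 ≠ 1) →
      n + 1 ≤ ∑ j ∈ u.filter (fun j => lv j < n), lv j := by
    intro n hn hna hn2
    have e := Kh3_sum o lv a i0 hc3 hc2 n (by omega)
    have e3 : n + 1 ≤ ∑ j ∈ o.filter (fun j => lv j < n), lv j := by
      obtain ⟨p, rfl⟩ : ∃ p, n = p + 2 := ⟨n - 2, by omega⟩
      have e4 : p + 2 - 1 = p + 1 := by omega
      rw [e4] at e
      by_cases h : i0 < p + 2
      · rw [if_pos h] at e
        rcases Nat.eq_zero_or_pos p with h0 | h0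
        · have h1 := hn2 (by omega)
          have h2 : i0 = 0 := by omega
          rw [h0, h2] at e
          rw [h0]
          omega
        · nlinarith
      · rw [if_neg h] at e
        nlinarith
    refine e3.trans ?_
    exact sum_le_sum_of_subset (filter_subset_filter _ hou)
  -- sums of all members
  have hsum : (∑ j ∈ u, g j) - m • d ∈ K := by
    rw [hm, sum_smul, ← sum_sub_distrib]
    exact K.sum_mem fun j _ => hgl j
  -- the member in the group
  have hmem : (ins u f K).card = 1 → ∃ h ∈ u, lv h = 0 ∧ g h ∈ K ∧ g h ≠ 0 := by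
    intro hin
    obtain ⟨h, hh⟩ := card_eq_one.1 hin
    have hh2 : h ∈ ins u f K := by
      rw [hh]
      exact mem_singleton_self h
    unfold ins at hh2
    rw [mem_filter] at hh2
    obtain ⟨hhu, hhK⟩ := hh2
    have hz := (hl0 h).2 hhK
    refine ⟨h, hhu, hz, ?_, hASg.1 h hhu⟩
    have h1 := hgl h
    rw [hz, zero_smul, sub_zero] at h1
    exact h1
  have hm1 : 1 ≤ m := by nlinarith
  have hPer : Per (FS u g) K d m := by
    rw [hm]
    by_cases hi1 : i0 = 1
    · apply (hFu G ι u g K d lv hK3 hASg (fun j _ => hgl j)).2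
      · rw [hfu 1 one_ne_zero, ← hi1]
        exact hc2 (by omega)
      · rw [hfu 2 two_ne_zero]
        exact hc3 2 (by omega) ha2 (by omega)
      · obtain ⟨h, h1, h2, _⟩ := hmem (hbi (by omega))
        exact ⟨h, h1, h2⟩
      · intro j hj hj3
        exact hlow (lv j) (by omega) (hlvu j hj) (by omega)
    · apply (hFu G ι u g K d lv hK3 hASg (fun j _ => hgl j)).1
      · rw [hfu 1 one_ne_zero]
        exact hc3 1 le_rfl (by omega) (fun h => hi1 h.symm)
      · intro j hj hj2
        exact hlow (lv j) hj2 (hlvu j hj) (fun _ => hi1)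
  obtain ⟨t3, t2', t1'⟩ := (hCn G (FS u g) K d hd).2.2 m hPer
  have t1 := t1' hm1
  have t2 := t2' hm1
  rw [← hq] at t1 t2 t3
  rw [hK3] at t1 t2
  rw [sg1] at t1 t2
  have hz1 : 1 ≤ ((FS u g).filter fun x => x ∈ K).card := by
    rw [Nat.one_le_iff_ne_zero, ← Nat.pos_iff_ne_zero, card_pos]
    exact ⟨0, mem_filter.2 ⟨zero_mem_FS u g, K.zero_mem⟩⟩
  have hz2 : 1 ≤ ((FS u g).filter fun x => x - m • d ∈ K).card := by
    rw [Nat.one_le_iff_ne_zero, ← Nat.pos_iff_ne_zero, card_pos]
    exact ⟨∑ j ∈ u, g j, mem_filter.2 ⟨mem_FS.2 ⟨u, Subset.refl _, rfl⟩, hsum⟩⟩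
  -- the interval is not too long
  have hmq : m + 1 ≤ q := by
    by_contra hcon
    rcases hN with h1 | h1
    · rw [hua, hNq] at h1
      obtain ⟨p, rfl⟩ : ∃ p, a = p + 2 := ⟨a - 2, by omega⟩
      have e1 : 3 * (p + 2) - 1 = 3 * p + 5 := by omega
      rw [e1] at h1
      nlinarith
    · rcases Nat.lt_or_ge q m with h2 | h2
      · have h3 : (FS u g).card = Nat.card G := by
          have : Fintype G := Fintype.ofFinite G
          rw [Nat.card_eq_fintype_card, ← card_univ]
          congr 1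
          exact eq_univ_of_forall (t3 (by omega))
        rw [sg1] at h3
        omega
      · have h3 := t2 (by omega)
        omega
  have hT := t1 hmq
  rw [hua]
  have hm3 : 3 * (m - 1) + 3 = 3 * m := by omega
  rcases Nat.eq_zero_or_pos i0 with h0 | h0
  · rw [h0] at hm2
    have hF : 3 * m ≤ (FS u f).card + 1 := by omega
    have hA : 3 * a * (3 * a + 1) = 9 * (a * a) + 3 * a := by ring
    have hB : 3 * ((a + 1) * a) = 3 * (a * a) + 3 * a := by ring
    rw [hA]
    rw [hB] at hm2
    omega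
  · obtain ⟨h, h1, h2, h3, h4⟩ := hmem (hbi (by omega))
    obtain ⟨w1, w2⟩ := Kh3_two u g K d m h h1 h3 h4 hsum
    have hF : 3 * m + 1 ≤ (FS u f).card := by omega
    have hA : 3 * a * (3 * a + 1) = 9 * (a * a) + 3 * a := by ring
    have hB : 3 * ((a + 1) * a) = 3 * (a * a) + 3 * a := by ring
    rw [hA]
    rw [hB] at hm2
    omega

end Pool.Agent.SSE
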