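import Pool.Agent.SSE.St2

/-!
# SSE, module Lc: level structure of a nearly filled family
-/

set_option autoImplicit false

noncomputable section

open Finset Pool.Agent.Helper64.Rho Pool.Agent.SDG Pool.Agent.MDR Pool.Agent.SSC
open scoped Classical Pointwise

namespace Pool.Agent.SSE

private theorem Lc_inj {G ι : Type} [AddCommGroup G] {s : Finset ι} {f : ι → G} (h : AS s f) {i j : ι} (hi : i ∈ s)
    (hj : j ∈ s) (hij : f i = f j ∨ f i = - f j) : i = j := by
  have h1 := h.2 (f j)
  rw [card_le_one] at h1
  exact h1 i (mem_filter.2 ⟨hi, hij⟩) j (mem_filter.2 ⟨hj, Or.inl rfl⟩)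

private theorem Lc_sub {G : Type} [AddCommGroup G] [Finite G] (E : Finset G) (K : AddSubgroup G) (h : ∀ x ∈ E, x ∈ K) :
    E.card ≤ Nat.card K := by
  have h1 : Nat.card E ≤ Nat.card K :=
    Nat.card_le_card_of_injective (fun x : E => (⟨x.1, h x.1 x.2⟩ : K)) fun x y hxy =>
      Subtype.ext (congrArg (fun z : K => (z : G)) hxy)
  simpa using h1

theorem thm_Lc : St_Cy → St_SyE → St_LvE → St_Lc := by
  intro _ hSy hLv G ι _ _ u f K hE h2 h4 hst hA
  obtain ⟨d, a, hd, hc, hD⟩ := hA
  obtain ⟨f', lv, hf', hlv, hlv0, hlvq, huniq⟩ := hLv G ι f K d hd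
  have hK0 : 0 < Nat.card K := by omega
  have hcard : Nat.card K * K.index = Nat.card G := AddSubgroup.card_mul_index K
  have h5 : 2 * a + 1 ≤ K.index := by
    have h1 : (st (sym u f) K).card ≤ Nat.card G := by
      have h0 : (st (sym u f) K).card = Nat.card (st (sym u f) K) := by simp
      rw [h0]
      exact Nat.card_le_card_of_injective (fun x : (st (sym u f) K) => (x : G)) Subtype.val_injective
    rw [hc, ← hcard] at h1
    exact Nat.le_of_mul_le_mul_left h1 hK0
  have hb : 2 * (ins u f K).card + 1 ≤ Nat.card K := by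
    have hsub : ins u f K ⊆ u := filter_subset _ _
    have hE' : AE (ins u f K) f :=
      ⟨⟨fun i hi => hE.1.1 i (hsub hi), fun x => (card_le_card (filter_subset_filter _ hsub)).trans (hE.1.2 x)⟩,
        fun i hi => hE.2 i (hsub hi)⟩
    rw [← (hSy G ι (ins u f K) f hE').1]
    refine Lc_sub _ _ fun x hx => ?_
    unfold sym at hx
    simp only [mem_union, mem_singleton, mem_image] at hx
    rcases hx with rfl | ⟨i, hi, rfl⟩ | ⟨i, hi, rfl⟩
    · exact K.zero_mem
    · exact (mem_filter.1 hi).2
    · exact K.neg_mem (mem_filter.1 hi).2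
  refine ⟨d, a, f', lv, hd, hf', hlv, hlv0, h5, ?_, ?_, by omega, by omega, ?_⟩
  · intro i hi
    have hm : f i ∈ sym u f := by
      unfold sym
      exact mem_union_right _ (mem_union_left _ (mem_image_of_mem f hi))
    obtain ⟨k, hk, hk2⟩ := hD (f i) hm
    rw [huniq i k (by omega) hk2]
    exact hk
  · intro k _ _
    have h1 : ((u.filter fun i => lv i = k).image fun i => f' i - k • d).card = (u.filter fun i => lv i = k).card := by
      apply card_image_of_injOn
      intro i hi j hj hij
      have hi := (mem_filter.1 (mem_coe.1 hi)).1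
      have hj := (mem_filter.1 (mem_coe.1 hj)).1
      have h0 : f' i = f' j := sub_left_injective hij
      refine Lc_inj hE.1 hi hj ?_
      rcases hf' i with h | h <;> rcases hf' j with h' | h' <;> rw [h, h'] at h0
      · exact Or.inl h0
      · exact Or.inr h0
      · exact Or.inr (by rw [← h0, neg_neg])
      · exact Or.inl (neg_injective h0)
    rw [← h1]
    refine Lc_sub _ _ fun x hx => ?_
    obtain ⟨i, hi, rfl⟩ := mem_image.1 hx
    have := hlv i
    rwa [(mem_filter.1 hi).2] at this
  · have h1 := (hSy G ι u f hE).1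
    rw [hc, h1] at hst
    have h3 : 2 * (a * Nat.card K) ≤ 2 * u.card := by nlinarith
    omega

end Pool.Agent.SSE
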