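import Pool.Agent.SSE.St2

/-!
# SSE, NfE: nearly filling, counts
-/

set_option autoImplicit false

noncomputable section

open Finset Pool.Agent.Helper64.Rho Pool.Agent.SDG Pool.Agent.MDR Pool.Agent.SSC
open scoped Classical Pointwise

namespace Pool.Agent.SSE

private theorem NfE_mem_st {G : Type} [AddCommGroup G] [Finite G] (A : Finset G) (M : AddSubgroup G)
    (x : G) : x ∈ st A M ↔ ∃ a ∈ A, x - a ∈ M := by
  unfold st
  rw [Set.Finite.mem_toFinset, Set.mem_ofPred_eq]

private theorem NfE_mem_sym {G ι : Type} [AddCommGroup G] {s : Finset ι} {f : ι → G} {y : G} :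
    y ∈ sym s f ↔ y = 0 ∨ ∃ i ∈ s, y = f i ∨ y = - f i := by
  unfold sym
  simp only [mem_union, mem_singleton, mem_image]
  constructor
  · rintro (h | ⟨i, hi, rfl⟩ | ⟨i, hi, rfl⟩)
    · exact Or.inl h
    · exact Or.inr ⟨i, hi, Or.inl rfl⟩
    · exact Or.inr ⟨i, hi, Or.inr rfl⟩
  · rintro (h | ⟨i, hi, h | h⟩)
    · exact Or.inl h
    · exact Or.inr (Or.inl ⟨i, hi, h.symm⟩)
    · exact Or.inr (Or.inr ⟨i, hi, h.symm⟩)

theorem thm_NfE : St_SyE → St_NfE := by
  intro hSy G ι _ _ u f K i1 hAE hK hi1 h2c hcard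
  have := Fintype.ofFinite G
  intro f' Z
  obtain ⟨c, hc⟩ : ∃ c, c = f i1 := ⟨_, rfl⟩
  rw [← hc] at h2c
  have hcK : c ∉ K := fun h => h2c (K.add_mem h h)
  have hf'i1 : f' i1 = f i1 := by
    change (if f i1 + f i1 ∈ K then - f i1 else f i1) = f i1
    rw [← hc, if_neg h2c]
  have hi1Z : i1 ∈ Z := by
    refine mem_filter.2 ⟨hi1, ?_⟩
    rw [hf'i1, sub_self]
    exact K.zero_mem
  have hins : ins u f' K = ins u f K := by
    ext i
    unfold ins
    rw [mem_filter, mem_filter]
    refine and_congr_right fun _ => ?_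
    change (if f i + f i1 ∈ K then - f i else f i) ∈ K ↔ f i ∈ K
    split_ifs
    · exact K.neg_mem_iff
    · exact Iff.rfl
  obtain ⟨s1, s2, s3, -, -, -, -⟩ := hSy G ι u f hAE
  set D := sym u f with hD
  have hmc : ∀ y : G, y ∈ D → y - c ∈ K → ∃ i ∈ Z, f' i = y := by
    intro y hy hyc
    rcases NfE_mem_sym.1 hy with rfl | ⟨i, hi, rfl | rfl⟩
    · exact absurd (by simpa using hyc) hcK
    · have h1 : f i + c ∉ K := by
        intro h
        apply h2c
        have h3 := K.sub_mem h hyc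
        have h4 : f i + c - (f i - c) = c + c := by abel
        rwa [h4] at h3
      have h2 : f' i = f i := by
        change (if f i + f i1 ∈ K then - f i else f i) = f i
        rw [← hc, if_neg h1]
      refine ⟨i, mem_filter.2 ⟨hi, ?_⟩, h2⟩
      rw [h2, ← hc]
      exact hyc
    · have h1 : f i + c ∈ K := by
        have h3 := K.neg_mem hyc
        have h4 : -(- f i - c) = f i + c := by abel
        rwa [h4] at h3
      have h2 : f' i = - f i := by
        change (if f i + f i1 ∈ K then - f i else f i) = - f i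
        rw [← hc, if_pos h1]
      refine ⟨i, mem_filter.2 ⟨hi, ?_⟩, h2⟩
      rw [h2, ← hc]
      exact hyc
  set Kf := (Finset.univ.filter fun x : G => x ∈ K) with hKf
  have hKc : Nat.card K = Kf.card := by
    rw [Nat.card_eq_fintype_card, Fintype.card_subtype]
  set A1 := Kf.image (· + c) with hA1
  set A2 := Kf.image (· - c) with hA2
  have cA1 : A1.card = Kf.card := card_image_of_injective _ (add_left_injective c)
  have cA2 : A2.card = Kf.card := card_image_of_injective _ sub_left_injective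
  have mA1 : ∀ x, x ∈ A1 → x - c ∈ K := by
    intro x hx
    obtain ⟨y, hy, rfl⟩ := mem_image.1 hx
    change y + c - c ∈ K
    rw [add_sub_cancel_right]
    exact (mem_filter.1 hy).2
  have mA2 : ∀ x, x ∈ A2 → x + c ∈ K := by
    intro x hx
    obtain ⟨y, hy, rfl⟩ := mem_image.1 hx
    change y - c + c ∈ K
    rw [sub_add_cancel]
    exact (mem_filter.1 hy).2
  have i1D : (A1 ∩ D).card ≤ Z.card := by
    have h1 : A1 ∩ D ⊆ Z.image f' := by
      intro y hy
      rw [mem_inter] at hy
      obtain ⟨i, hi, h2⟩ := hmc y hy.2 (mA1 y hy.1)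
      exact mem_image.2 ⟨i, hi, h2⟩
    exact (card_le_card h1).trans card_image_le
  have i2D : (A2 ∩ D).card ≤ Z.card := by
    have h1 : A2 ∩ D ⊆ Z.image fun i => - f' i := by
      intro y hy
      rw [mem_inter] at hy
      obtain ⟨i, hi, h2⟩ := hmc (-y) (s3 y hy.2) (by
        have h3 := K.neg_mem (mA2 y hy.1)
        have h4 : -(y + c) = - y - c := by abel
        rwa [h4] at h3)
      refine mem_image.2 ⟨i, hi, ?_⟩
      change - f' i = y
      rw [h2, neg_neg]
    exact (card_le_card h1).trans card_image_le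
  have hins' : ins u f K ⊆ u := filter_subset _ _
  have hASi : AE (ins u f K) f := by
    refine ⟨⟨fun i hi => hAE.1.1 i (hins' hi), fun x => ?_⟩, fun i hi => hAE.2 i (hins' hi)⟩
    exact (card_le_card (filter_subset_filter _ hins')).trans (hAE.1.2 x)
  obtain ⟨s1', -, -, -, -, -, -⟩ := hSy G ι (ins u f K) f hASi
  have iKD : (Kf ∩ D).card ≤ 2 * (ins u f K).card + 1 := by
    rw [← s1']
    apply card_le_card
    intro y hy
    rw [mem_inter] at hy
    have hyK := (mem_filter.1 hy.1).2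
    rw [NfE_mem_sym]
    rcases NfE_mem_sym.1 hy.2 with rfl | ⟨i, hi, rfl | rfl⟩
    · exact Or.inl rfl
    · exact Or.inr ⟨i, mem_filter.2 ⟨hi, hyK⟩, Or.inl rfl⟩
    · exact Or.inr ⟨i, mem_filter.2 ⟨hi, K.neg_mem_iff.1 hyK⟩, Or.inr rfl⟩
  have bK : 2 * (ins u f K).card + 1 ≤ Kf.card := by
    rw [← s1']
    apply card_le_card
    intro y hy
    refine mem_filter.2 ⟨mem_univ _, ?_⟩
    rcases NfE_mem_sym.1 hy with rfl | ⟨i, hi, rfl | rfl⟩
    · exact K.zero_mem
    · exact (mem_filter.1 hi).2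
    · exact K.neg_mem (mem_filter.1 hi).2
  have hDst : D ⊆ st D K := by
    intro y hy
    exact (NfE_mem_st _ _ _).2 ⟨y, hy, by rw [sub_self]; exact K.zero_mem⟩
  have hcD : c ∈ D := NfE_mem_sym.2 (Or.inr ⟨i1, hi1, Or.inl hc⟩)
  have hmain : (A1 \ D).card + (A2 \ D).card + (Kf \ D).card ≤ (st D K).card - D.card := by
    rw [← card_sdiff_of_subset hDst]
    have d1 : Disjoint (A1 \ D) (A2 \ D) := by
      rw [disjoint_left]
      intro y hy1 hy2
      have e1 := mA1 y (mem_sdiff.1 hy1).1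
      have e2 := mA2 y (mem_sdiff.1 hy2).1
      apply h2c
      have h3 := K.sub_mem e2 e1
      have h4 : y + c - (y - c) = c + c := by abel
      rwa [h4] at h3
    have d2 : Disjoint (A1 \ D ∪ A2 \ D) (Kf \ D) := by
      rw [disjoint_left]
      intro y hy1 hy2
      have hyK := (mem_filter.1 (mem_sdiff.1 hy2).1).2
      rcases mem_union.1 hy1 with h | h
      · have e1 := mA1 y (mem_sdiff.1 h).1
        apply hcK
        have h3 := K.sub_mem hyK e1
        rwa [sub_sub_cancel] at h3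
      · have e1 := mA2 y (mem_sdiff.1 h).1
        apply hcK
        have h3 := K.sub_mem e1 hyK
        rwa [add_sub_cancel_left] at h3
    rw [← card_union_of_disjoint d1, ← card_union_of_disjoint d2]
    apply card_le_card
    refine union_subset (union_subset ?_ ?_) ?_
    · intro y hy
      rw [mem_sdiff] at hy ⊢
      exact ⟨(NfE_mem_st _ _ _).2 ⟨c, hcD, mA1 y hy.1⟩, hy.2⟩
    · intro y hy
      rw [mem_sdiff] at hy ⊢
      refine ⟨(NfE_mem_st _ _ _).2 ⟨-c, s3 c hcD, ?_⟩, hy.2⟩
      rw [sub_neg_eq_add]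
      exact mA2 y hy.1
    · intro y hy
      rw [mem_sdiff] at hy ⊢
      refine ⟨(NfE_mem_st _ _ _).2 ⟨0, s2, ?_⟩, hy.2⟩
      rw [sub_zero]
      exact (mem_filter.1 hy.1).2
  have q1 := card_sdiff_add_card_inter A1 D
  have q2 := card_sdiff_add_card_inter A2 D
  have q3 := card_sdiff_add_card_inter Kf D
  have hK3 : 2 ≤ Kf.card := by
    have h3 : 1 < Nat.card K := (AddSubgroup.one_lt_card_iff_ne_bot K).2 hK
    omega
  have hst := card_le_card hDst
  rw [hKc] at hcard ⊢
  refine ⟨hi1Z, ?_, ?_, hins, hf'i1⟩ <;> omega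

end Pool.Agent.SSE
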