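import Pool.Agent.SSE.St2

/-!
# SSE, NuE: three numerical inequalities
-/

set_option autoImplicit false

noncomputable section

open Finset Pool.Agent.Helper64.Rho Pool.Agent.SDG Pool.Agent.MDR Pool.Agent.SSC
open scoped Classical Pointwise

namespace Pool.Agent.SSE

theorem thm_NuE : SDG.St_Nm1 → St_NuE := by
  intro hN t ht
  have hb : ∀ a r : ℕ, r ≤ 2 → 2 * cf 2 (2 * a + r) = 2 + 2 * a * (a + 1) + 2 * r * (a + 1) :=
    fun a r hr => hN.2.1 2 a r (by norm_num) hr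
  have h1 : cf 2 1 = 2 := by
    have := hb 0 1 (by norm_num)
    simp only [mul_zero, zero_add, add_zero, mul_one] at this
    omega
  have h2 : cf 2 2 = 3 := by
    have := hb 0 2 (by norm_num)
    simp only [mul_zero, zero_add, add_zero, mul_one] at this
    omega
  rw [h1, h2]
  rcases Nat.even_or_odd' t with ⟨b, rfl | rfl⟩
  · obtain ⟨c, rfl⟩ : ∃ c, b = c + 5 := ⟨b - 5, by omega⟩
    have e0 := hb (c + 5) 0 (by norm_num)
    have e1 := hb (c + 4) 1 (by norm_num)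
    have e2 := hb (c + 4) 0 (by norm_num)
    have e3 := hb (c + 3) 1 (by norm_num)
    have t0 : 2 * (c + 5) = 2 * (c + 5) + 0 := by ring
    have t1 : 2 * (c + 5) - 1 = 2 * (c + 4) + 1 := by omega
    have t2 : 2 * (c + 5) - 2 = 2 * (c + 4) + 0 := by omega
    have t3 : 2 * (c + 5) - 3 = 2 * (c + 3) + 1 := by omega
    rw [t1, t2, t3]
    rw [show cf 2 (2 * (c + 5)) = cf 2 (2 * (c + 5) + 0) from rfl]
    ring_nf at e0 e1 e2 e3 ⊢
    refine ⟨?_, ?_, ?_⟩ <;> nlinarith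
  · obtain ⟨c, rfl⟩ : ∃ c, b = c + 4 := ⟨b - 4, by omega⟩
    have e0 := hb (c + 4) 1 (by norm_num)
    have e1 := hb (c + 4) 0 (by norm_num)
    have e2 := hb (c + 3) 1 (by norm_num)
    have e3 := hb (c + 3) 0 (by norm_num)
    have t1 : 2 * (c + 4) + 1 - 1 = 2 * (c + 4) + 0 := by omega
    have t2 : 2 * (c + 4) + 1 - 2 = 2 * (c + 3) + 1 := by omega
    have t3 : 2 * (c + 4) + 1 - 3 = 2 * (c + 3) + 0 := by omega
    rw [t1, t2, t3]
    ring_nf at e0 e1 e2 e3 ⊢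
    refine ⟨?_, ?_, ?_⟩ <;> nlinarith

end Pool.Agent.SSE
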