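import Pool.Agent.SSE.St2

/-!
# SSE, module PFE: strong induction
-/

set_option autoImplicit false

noncomputable section

open Finset Pool.Agent.Helper64.Rho Pool.Agent.SDG Pool.Agent.MDR Pool.Agent.SSC
open scoped Classical Pointwise

namespace Pool.Agent.SSE

/-- the set of sums does not depend on the instance of decidable equality -/
private theorem PFE_inst {G ι : Type} [AddCommGroup G] (i1 i2 : DecidableEq G) (s : Finset ι) (f : ι → G) :
    @FS ι G _ i1 s f = @FS ι G _ i2 s f := by
  rw [Subsingleton.elim i1 i2]

/-- strong induction on the number of members -/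
theorem thm_PFE : SDG.St_Tr → SDG.St_main → St_Cy → St_S8E → St_EvE → St_OdE → St_PFE := by
  intro hTr hmain hCy hS8 hEv hOd t
  induction t using Nat.strong_induction_on with
  | _ t ih =>
    intro G ι _ _ s f hG hst hne hcap hap
    by_contra hlt
    rw [not_le] at hlt
    obtain ⟨f', -, hgen, hcard, hap', hcap', hne'⟩ := hTr G ι s f
    have hap1 := hap' hap
    rw [PFE_inst _ (fun a b => Classical.propDecidable (a = b)) s f'] at hap1 hcard
    have hctx : CtxE t s f' :=
      ⟨ih, fun h u h2 => (hmain u).2 h h2, ((hCy G hG).1 (gen s f)).1, hst, hne' hne, hcap' 2 hcap, hap1,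
        hgen, by rw [hcard]; exact hlt⟩
    rcases le_or_gt t 8 with h8 | h8
    · exact hS8 _ _ t s f' h8 hctx
    · rcases Nat.even_or_odd' t with ⟨l, hl | hl⟩
      · refine hEv _ _ l s f' (by omega) ?_
        rw [← hl]
        exact hctx
      · refine hOd _ _ (l + 1) s f' (by omega) ?_
        have e : 2 * (l + 1) - 1 = t := by omega
        rw [e]
        exact hctx

end Pool.Agent.SSE
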