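import Pool.Agent.SSE.St
import Pool.Agent.MDR.Pg

/-!
# SSE PgE: progressions, the sums form an interval
-/

set_option autoImplicit false

noncomputable section

open Finset Pool.Agent.Helper64.Rho Pool.Agent.SDG Pool.Agent.MDR Pool.Agent.SSC
open scoped Classical Pointwise

namespace Pool.Agent.SSE

theorem thm_PgE : St_PgE := by
  intro G ι _ _ s f hAS hs hP
  obtain ⟨hne, hcap⟩ := hAS
  obtain ⟨d, hd⟩ := hP
  choose! κ hκ1 hκ2 hκ3 using hd
  have hinj : Set.InjOn κ s := by
    intro i hi j hj hij
    have h1 : ({i, j} : Finset ι) ⊆ s.filter fun a => f a = κ i • d ∨ f a = -(κ i • d) := by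
      intro a ha
      rw [mem_insert, mem_singleton] at ha
      rcases ha with rfl | rfl
      · exact mem_filter.2 ⟨hi, hκ3 _ hi⟩
      · rw [hij]
        exact mem_filter.2 ⟨hj, hκ3 _ hj⟩
    by_contra hne'
    have h2 := (card_le_card h1).trans (hcap (κ i • d))
    rw [card_pair hne'] at h2
    omega
  have himg : s.image κ = Icc 1 s.card := by
    apply eq_of_subset_of_card_le
    · intro y hy
      obtain ⟨i, hi, rfl⟩ := mem_image.1 hy
      exact mem_Icc.2 ⟨hκ1 i hi, hκ2 i hi⟩
    · rw [card_image_of_injOn hinj, Nat.card_Icc]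
      omega
  have h3 : ∀ k : ℕ, 1 ≤ k → k ≤ s.card → ∃ i ∈ s, f i = k • d ∨ f i = -(k • d) := by
    intro k hk1 hk2
    have h4 : k ∈ s.image κ := by rw [himg]; exact mem_Icc.2 ⟨hk1, hk2⟩
    obtain ⟨i, hi, rfl⟩ := mem_image.1 h4
    exact ⟨i, hi, hκ3 i hi⟩
  obtain ⟨c, hc⟩ := Pg_sign f (fun i => κ i • d) s hκ3
  have hFS : FS s f = (range (s.card * (s.card + 1) / 2 + 1)).image (fun k : ℕ => c + k • d) := by
    rw [hc, Pg_sumkd κ d s hinj himg, image_image]
    rfl
  refine ⟨d, c, hFS, fun i hi => ⟨κ i, hκ1 i hi, hκ2 i hi, hκ3 i hi⟩, h3, ?_, ?_⟩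
  · apply le_antisymm
    · unfold gen
      rw [AddSubgroup.closure_le]
      rintro _ ⟨i, hi, rfl⟩
      have h4 : κ i • d ∈ AddSubgroup.zmultiples d := AddSubgroup.nsmul_mem_zmultiples d (κ i)
      rcases hκ3 i hi with h | h
      · rw [h]
        exact h4
      · rw [h]
        exact (AddSubgroup.zmultiples d).neg_mem h4
    · rw [AddSubgroup.zmultiples_le]
      obtain ⟨i, hi, h4⟩ := h3 1 (le_refl 1) hs
      have h5 : f i ∈ gen s f := AddSubgroup.subset_closure ⟨i, hi, rfl⟩
      rw [one_smul] at h4
      rcases h4 with h4 | h4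
      · rwa [← h4]
      · rw [h4] at h5
        simpa using (gen s f).neg_mem h5
  · intro hap
    have heven : 2 * (s.card * (s.card + 1) / 2) = s.card * (s.card + 1) :=
      Nat.mul_div_cancel' (Nat.even_mul_succ_self s.card).two_dvd
    set L := s.card * (s.card + 1) / 2 with hL
    have hinj2 : Set.InjOn (fun k : ℕ => c + k • d) (range (L + 1)) := by
      have key : ∀ k k' : ℕ, k < k' → k' ≤ L → c + k • d ≠ c + k' • d := by
        intro k k' hkk hk' heq
        have h4 : (k' - k) • d = 0 := by
          have h5 : k • d = k' • d := add_left_cancel heq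
          have h6 : k' • d = (k' - k) • d + k • d := by
            rw [← add_smul]
            congr 1
            omega
          rw [h6] at h5
          have h7 : (0 : G) + k • d = (k' - k) • d + k • d := by rw [zero_add]; exact h5
          exact (add_right_cancel h7).symm
        have h5 : d = 0 := by
          apply hap
          intro x hx
          rw [hFS, mem_image] at hx ⊢
          obtain ⟨m, hm, rfl⟩ := hx
          rw [mem_range] at hm
          rcases Nat.lt_or_ge m L with h | h
          · exact ⟨m + 1, mem_range.2 (by omega), by rw [add_smul, one_smul, add_assoc]⟩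
          · have hmL : m = L := by omega
            refine ⟨m + 1 - (k' - k), mem_range.2 (by omega), ?_⟩
            have h6 : (m + 1) • d = (m + 1 - (k' - k)) • d + (k' - k) • d := by
              rw [← add_smul]
              congr 1
              omega
            rw [h4, add_zero] at h6
            rw [← h6, add_smul, one_smul, add_assoc]
        obtain ⟨i, hi⟩ : s.Nonempty := card_pos.1 (by omega)
        apply hne i hi
        rcases hκ3 i hi with h | h
        · rw [h, h5, smul_zero]
        · rw [h, h5, smul_zero, neg_zero]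
      intro a ha b hb hab
      have ha' := mem_range.1 (mem_coe.1 ha)
      have hb' := mem_range.1 (mem_coe.1 hb)
      rcases lt_trichotomy a b with h | h | h
      · exact absurd hab (key a b h (by omega))
      · exact h
      · exact absurd hab.symm (key b a h (by omega))
    rw [hFS, card_image_of_injOn hinj2, card_range]
    omega

end Pool.Agent.SSE
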