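import Pool.Agent.SSE.St2
import Pool.Agent.SDG.Tr

/-!
# SSE, Tf: transfer to the generated subgroup
-/

set_option autoImplicit false

noncomputable section

open Finset Pool.Agent.Helper64.Rho Pool.Agent.SDG Pool.Agent.MDR Pool.Agent.SSC
open scoped Classical Pointwise

namespace Pool.Agent.SSE

section

variable {G ι : Type} [AddCommGroup G] {L : AddSubgroup G}

/-- the subgroup of the large group -/
private def Tf_up (K : AddSubgroup L) : AddSubgroup G := K.map L.subtype

private theorem Tf_mem (K : AddSubgroup L) (x : L) : (x : G) ∈ Tf_up K ↔ x ∈ K := by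
  unfold Tf_up
  rw [AddSubgroup.mem_map]
  constructor
  · rintro ⟨y, hy, hyx⟩
    have : y = x := Subtype.ext hyx
    rwa [← this]
  · exact fun h => ⟨x, h, rfl⟩

private theorem Tf_mem' (K : AddSubgroup L) (x : G) : x ∈ Tf_up K ↔ ∃ y : L, y ∈ K ∧ (y : G) = x := by
  unfold Tf_up
  rw [AddSubgroup.mem_map]
  rfl

private theorem Tf_card (K : AddSubgroup L) : Nat.card (Tf_up K) = Nat.card K := by
  symm
  refine Nat.card_congr (Equiv.ofBijective
    (fun x : K => (⟨((x : L) : G), (Tf_mem K x).2 x.2⟩ : Tf_up K)) ⟨?_, ?_⟩)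
  · intro a b h
    have h1 : ((a : L) : G) = ((b : L) : G) := by
      have h2 := congrArg (Subtype.val : Tf_up K → G) h
      exact h2
    exact Subtype.ext (Subtype.ext h1)
  · rintro ⟨x, hx⟩
    obtain ⟨y, hy, rfl⟩ := (Tf_mem' K x).1 hx
    exact ⟨⟨y, hy⟩, rfl⟩

private theorem Tf_sym {v : Finset ι} {f : ι → G} {f' : ι → L} (h : ∀ i ∈ v, (f' i : G) = f i) :
    sym v f = (sym v f').image (fun x : L => (x : G)) := by
  ext y
  unfold sym
  simp only [mem_union, mem_singleton, mem_image]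
  constructor
  · rintro (rfl | ⟨i, hi, rfl⟩ | ⟨i, hi, rfl⟩)
    · exact ⟨0, Or.inl rfl, rfl⟩
    · exact ⟨f' i, Or.inr (Or.inl ⟨i, hi, rfl⟩), h i hi⟩
    · refine ⟨-f' i, Or.inr (Or.inr ⟨i, hi, rfl⟩), ?_⟩
      rw [← h i hi]
      rfl
  · rintro ⟨x, rfl | ⟨i, hi, rfl⟩ | ⟨i, hi, rfl⟩, rfl⟩
    · exact Or.inl rfl
    · exact Or.inr (Or.inl ⟨i, hi, (h i hi).symm⟩)
    · refine Or.inr (Or.inr ⟨i, hi, ?_⟩)
      rw [← h i hi]
      rfl

private theorem Tf_st [Finite G] {D : Finset L} (K : AddSubgroup L) :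
    st (D.image (fun x : L => (x : G))) (Tf_up K) = (st D K).image (fun x : L => (x : G)) := by
  ext y
  unfold st
  simp only [Set.Finite.mem_toFinset, Set.mem_ofPred_eq, mem_image]
  constructor
  · rintro ⟨_, ⟨a, ha, rfl⟩, hya⟩
    obtain ⟨z, hz, hzy⟩ := (Tf_mem' K _).1 hya
    refine ⟨z + a, ⟨a, ha, ?_⟩, ?_⟩
    · rw [add_sub_cancel_right]
      exact hz
    · show (z : G) + (a : G) = y
      rw [hzy, sub_add_cancel]
  · rintro ⟨x, ⟨a, ha, hxa⟩, rfl⟩
    exact ⟨(a : G), ⟨a, ha, rfl⟩, (Tf_mem K (x - a)).2 hxa⟩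

end

/-- [Tf] -/
theorem thm_Tf : St_Tf := by
  intro G ι _ _ s f
  obtain ⟨f', hf, hgen, hFS, hAp, hCap, hne⟩ := Pool.Agent.SDG.thm_Tr G ι s f
  refine ⟨f', hf, hgen, hFS, hAp, ?_, ?_, ?_⟩
  · rintro ⟨⟨h1, h2⟩, h3⟩
    refine ⟨⟨hne h1, hCap 1 h2⟩, ?_⟩
    intro i hi h
    apply h3 i hi
    rw [← hf i hi]
    have := congrArg Subtype.val h
    exact this
  · intro hReg v hv K hK hout hst
    have hfv : ∀ i ∈ v, (f' i : G) = f i := fun i hi => hf i (hv hi)
    have h1 : Tf_up K ≠ ⊥ := by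
      intro h
      apply hK
      rw [eq_bot_iff]
      intro x hx
      have h2 := (Tf_mem K x).2 hx
      rw [h, AddSubgroup.mem_bot] at h2
      rw [AddSubgroup.mem_bot]
      exact Subtype.ext h2
    have h2 : ∃ i ∈ v, f i + f i ∉ Tf_up K := by
      obtain ⟨i, hi, hiK⟩ := hout
      refine ⟨i, hi, ?_⟩
      rw [← hfv i hi]
      intro h
      exact hiK ((Tf_mem K (f' i + f' i)).1 h)
    have h3 := hReg v hv (Tf_up K) h1 h2
    rw [Tf_sym hfv, Tf_st, card_image_of_injective _ Subtype.val_injective,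
      card_image_of_injective _ Subtype.val_injective, Tf_card] at h3
    exact h3 hst
  · intro c hc M' hM'
    have h1 : Tf_up M' < gen s f := by
      refine lt_of_le_of_ne ?_ ?_
      · intro x hx
        obtain ⟨y, -, rfl⟩ := (Tf_mem' M' x).1 hx
        exact y.2
      · intro h
        apply hM'
        rw [eq_top_iff]
        intro x _
        rw [← Tf_mem M', h]
        exact x.2
    have h2 := hc _ h1
    have h3 : outs s f (Tf_up M') = outs s f' M' := by
      unfold outs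
      apply filter_congr
      intro i hi
      rw [← hf i hi, Tf_mem]
    rwa [h3] at h2

end Pool.Agent.SSE
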