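import Pool.Agent.SSE.St2

/-!
# SSE, Wi: the window
-/

set_option autoImplicit false

noncomputable section

open Finset Pool.Agent.Helper64.Rho Pool.Agent.SDG Pool.Agent.MDR Pool.Agent.SSC
open scoped Classical Pointwise

namespace Pool.Agent.SSE

private theorem WiE_mem_st {G : Type} [AddCommGroup G] [Finite G] (A : Finset G) (M : AddSubgroup G)
    (x : G) : x ∈ st A M ↔ ∃ a ∈ A, x - a ∈ M := by
  unfold st
  rw [Set.Finite.mem_toFinset, Set.mem_ofPred_eq]

private theorem WiE_sum {G ι : Type} [AddCommGroup G] {K : AddSubgroup G} {c : G} {f : ι → G}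
    (R : Finset ι) (h : ∀ i ∈ R, f i - c ∈ K) : ∑ i ∈ R, f i - R.card • c ∈ K := by
  have h1 : ∑ i ∈ R, f i - R.card • c = ∑ i ∈ R, (f i - c) := by
    rw [sum_sub_distrib, sum_const]
  rw [h1]
  exact K.sum_mem h

theorem thm_WiE : St_FlE → St_WiE := by
  intro hFl G ι _ _ s u Z f K c i0 i1 hodd hus hAS hAp hZu hZc hcK hcard hi0 hi1 hne x hx
  obtain ⟨a, ha, hxa⟩ := (WiE_mem_st _ _ _).1 hx
  obtain ⟨R, hR, rfl⟩ := mem_FS.1 ha
  have hdis : Disjoint Z (ins u f K) := by
    rw [disjoint_left]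
    intro i hi hi2
    apply hcK
    have h1 := K.sub_mem (mem_filter.1 hi2).2 (hZc i hi)
    rwa [sub_sub_cancel] at h1
  set R1 := R ∩ Z with hR1
  set R2 := R ∩ ins u f K with hR2
  set R3 := R \ (Z ∪ ins u f K) with hR3
  have hsum : ∑ i ∈ R, f i = ∑ i ∈ R1, f i + ∑ i ∈ R2, f i + ∑ i ∈ R3, f i := by
    have h1 : R1 ∪ R2 = R ∩ (Z ∪ ins u f K) := by rw [hR1, hR2, ← inter_union_distrib_left]
    have h2 : Disjoint R1 R2 := hdis.mono inter_subset_right inter_subset_right
    rw [← sum_union h2, h1, hR3, ← sum_union (disjoint_sdiff_inter R _).symm, union_comm, sdiff_union_inter]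
  have hR1c : R1.card + 2 ≤ Z.card := by
    have h1 : R1 ⊆ (Z.erase i0).erase i1 := by
      intro i hi
      rw [hR1, mem_inter] at hi
      have h3 := hR hi.1
      rw [mem_erase, mem_erase] at h3
      rw [mem_erase, mem_erase]
      exact ⟨h3.1, h3.2.1, hi.2⟩
    have h2 := card_le_card h1
    rw [card_erase_of_mem (mem_erase.2 ⟨hne.symm, hi1⟩), card_erase_of_mem hi0] at h2
    have h3 : 2 ≤ Z.card := by
      have h4 : ({i0, i1} : Finset ι) ⊆ Z := by
        intro i hi
        rcases mem_insert.1 hi with rfl | hi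
        · exact hi0
        · rw [mem_singleton.1 hi]; exact hi1
      have h5 := card_le_card h4
      rwa [card_pair hne] at h5
    omega
  have hy := hFl G ι u Z f K c hodd hAS hAp hZu hZc hcK hcard (x + c - ∑ i ∈ R3, f i)
    (R1.card + 1) (by omega) (by omega) (by
      have h1 := WiE_sum R1 fun i hi => hZc i (mem_inter.1 hi).2
      have h2 : ∑ i ∈ R2, f i ∈ K := K.sum_mem fun i hi =>
        (mem_filter.1 (mem_inter.1 hi).2).2
      have h3 : x + c - ∑ i ∈ R3, f i - (R1.card + 1) • c =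
          (x - ∑ i ∈ R, f i) + (∑ i ∈ R1, f i - R1.card • c) + ∑ i ∈ R2, f i := by
        rw [hsum, add_smul, one_smul]
        abel
      rw [h3]
      exact K.add_mem (K.add_mem hxa h1) h2)
  have hsub : (Z ∪ ins u f K) ∪ R3 ⊆ s := by
    refine union_subset (union_subset (hZu.trans hus) ((filter_subset _ _).trans hus)) ?_
    intro i hi
    have h1 := hR (mem_sdiff.1 hi).1
    rw [mem_erase, mem_erase] at h1
    exact h1.2.2
  refine FS_mono hsub f ?_
  rw [mem_FS_union (disjoint_sdiff : Disjoint (Z ∪ ins u f K) (R \ (Z ∪ ins u f K)))]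
  exact ⟨_, hy, ∑ i ∈ R3, f i, mem_FS.2 ⟨R3, Subset.refl _, rfl⟩, by abel⟩

end Pool.Agent.SSE
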