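import Pool.Agent.SSC.Main
import Pool.Agent.SSE.A1E
import Pool.Agent.SSE.A2E
import Pool.Agent.SSE.A2N
import Pool.Agent.SSE.Av2
import Pool.Agent.SSE.B3E
import Pool.Agent.SSE.BnE
import Pool.Agent.SSE.BoE
import Pool.Agent.SSE.C1s
import Pool.Agent.SSE.C2s
import Pool.Agent.SSE.C4
import Pool.Agent.SSE.CC
import Pool.Agent.SSE.Cn
import Pool.Agent.SSE.Cy
import Pool.Agent.SSE.Dp
import Pool.Agent.SSE.DrE
import Pool.Agent.SSE.EvE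
import Pool.Agent.SSE.ExE
import Pool.Agent.SSE.F2
import Pool.Agent.SSE.F4
import Pool.Agent.SSE.FlE
import Pool.Agent.SSE.FnE
import Pool.Agent.SSE.GS
import Pool.Agent.SSE.Gc
import Pool.Agent.SSE.Ge
import Pool.Agent.SSE.Gk
import Pool.Agent.SSE.GmE
import Pool.Agent.SSE.Gn
import Pool.Agent.SSE.GrE
import Pool.Agent.SSE.Gv
import Pool.Agent.SSE.GwE
import Pool.Agent.SSE.HoE
import Pool.Agent.SSE.HvE
import Pool.Agent.SSE.IxE
import Pool.Agent.SSE.KSE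
import Pool.Agent.SSE.KeE
import Pool.Agent.SSE.KgE
import Pool.Agent.SSE.Kh2
import Pool.Agent.SSE.Kh3
import Pool.Agent.SSE.Kh4
import Pool.Agent.SSE.KxE
import Pool.Agent.SSE.Lc
import Pool.Agent.SSE.LvE
import Pool.Agent.SSE.Mx
import Pool.Agent.SSE.NfE
import Pool.Agent.SSE.NuE
import Pool.Agent.SSE.OdE
import Pool.Agent.SSE.PFE
import Pool.Agent.SSE.PgE
import Pool.Agent.SSE.S8E
import Pool.Agent.SSE.SRE
import Pool.Agent.SSE.SyE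
import Pool.Agent.SSE.Tf
import Pool.Agent.SSE.WiE

/-!
# SSE: assembly (helper22, helper86)
-/

set_option autoImplicit false

noncomputable section

open Finset Pool.Agent.Helper64.Rho
open scoped Classical Pointwise

namespace Pool.Agent.SSE

theorem all_A1E : St_A1E := thm_A1E Pool.Agent.SSC.mdr_Av0
theorem all_A2N : St_A2N := thm_A2N Pool.Agent.SSC.mdr_Av0
theorem all_Av2 : St_Av2 := thm_Av2
theorem all_A2E : St_A2E := thm_A2E all_Av2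
theorem all_B3E : St_B3E := thm_B3E
theorem all_BnE : St_BnE := thm_BnE Pool.Agent.SDG.all_Nm1 Pool.Agent.SDG.all_Ba1 Pool.Agent.SDG.all_Kn Pool.Agent.SDG.all_Sm
theorem all_BoE : St_BoE := thm_BoE Pool.Agent.SSC.mdr_Sg
theorem all_Cn : St_Cn := thm_Cn
theorem all_Cy : St_Cy := thm_Cy
theorem all_DrE : St_DrE := thm_DrE Pool.Agent.SDG.all_Nm1 Pool.Agent.SDG.all_Ba1 Pool.Agent.SDG.all_Sm Pool.Agent.SSC.all_Nu all_Cy all_B3E
theorem all_F2 : St_F2 := thm_F2 Pool.Agent.SSC.all_Et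
theorem all_F4 : St_F4 := thm_F4 Pool.Agent.SSC.all_Et
theorem all_GS : St_GS := thm_GS
theorem all_Gc : St_Gc := thm_Gc
theorem all_Gk : St_Gk := thm_Gk
theorem all_GwE : St_GwE := thm_GwE all_Cy all_GS
theorem all_Gn : St_Gn := thm_Gn all_Cy all_GS all_GwE all_Gk
theorem all_Gv : St_Gv := thm_Gv all_Cy all_GS all_GwE
theorem all_HvE : St_HvE := thm_HvE Pool.Agent.SSC.mdr_Sp2
theorem all_KSE : St_KSE := thm_KSE
theorem all_FlE : St_FlE := thm_FlE all_KSE Pool.Agent.SDG.all_Sm Pool.Agent.SDG.all_Ba1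
theorem all_LvE : St_LvE := thm_LvE
theorem all_GmE : St_GmE := thm_GmE Pool.Agent.SDG.all_Ba1 Pool.Agent.SSC.mdr_Sg all_Cy all_LvE Pool.Agent.SSC.all_Et all_F4 all_Cn
theorem all_KeE : St_KeE := thm_KeE Pool.Agent.SDG.all_Ba1 Pool.Agent.SDG.all_Kn Pool.Agent.SSC.mdr_Sg all_LvE Pool.Agent.SSC.all_Fu Pool.Agent.SSC.all_Ct
theorem all_KgE : St_KgE := thm_KgE Pool.Agent.SDG.all_Nm1 Pool.Agent.SDG.all_Ba1 Pool.Agent.SDG.all_Kn Pool.Agent.SSC.mdr_Sg all_LvE Pool.Agent.SSC.all_Et Pool.Agent.SSC.all_Fu Pool.Agent.SSC.all_Ct all_Cn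
theorem all_KxE : St_KxE := thm_KxE Pool.Agent.SDG.all_Ba1 Pool.Agent.SDG.all_Kn Pool.Agent.SSC.mdr_Sg all_LvE Pool.Agent.SSC.all_Et Pool.Agent.SSC.all_Fu Pool.Agent.SSC.all_Ct
theorem all_Mx : St_Mx := thm_Mx
theorem all_Ge : St_Ge := thm_Ge all_Cy all_GS all_Gv all_Mx all_Gc
theorem all_NuE : St_NuE := thm_NuE Pool.Agent.SDG.all_Nm1
theorem all_IxE : St_IxE := thm_IxE Pool.Agent.SDG.all_Nm1 Pool.Agent.SDG.all_Ba1 Pool.Agent.SDG.all_Kn Pool.Agent.SDG.all_Sm Pool.Agent.SSC.all_Nu all_NuE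
theorem all_HoE : St_HoE := thm_HoE Pool.Agent.SDG.all_Ba1 Pool.Agent.SDG.all_Sm all_Cy all_IxE all_HvE all_BnE
theorem all_PgE : St_PgE := thm_PgE
theorem all_C4 : St_C4 := thm_C4 all_PgE all_BoE
theorem all_ExE : St_ExE := thm_ExE all_PgE
theorem all_SyE : St_SyE := thm_SyE
theorem all_Lc : St_Lc := thm_Lc all_Cy all_SyE all_LvE
theorem all_Kh2 : St_Kh2 := thm_Kh2 Pool.Agent.SDG.all_Ba1 Pool.Agent.SSC.mdr_Sg all_Lc all_F2 all_Cn
theorem all_Kh3 : St_Kh3 := thm_Kh3 Pool.Agent.SDG.all_Ba1 Pool.Agent.SSC.mdr_Sg all_Lc Pool.Agent.SSC.all_Fu all_Cn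
theorem all_Kh4 : St_Kh4 := thm_Kh4 Pool.Agent.SDG.all_Ba1 Pool.Agent.SSC.mdr_Sg all_Lc all_F4 all_Cn
theorem all_GrE : St_GrE := thm_GrE all_Cy all_Mx all_Gn all_SyE all_Kh2 all_Kh3 all_Kh4
theorem all_NfE : St_NfE := thm_NfE all_SyE
theorem all_Tf : St_Tf := thm_Tf
theorem all_Dp : St_Dp := thm_Dp Pool.Agent.SDG.all_Ba1 all_Cy all_KeE all_Tf
theorem all_C1s : St_C1s := thm_C1s Pool.Agent.SDG.all_Ba1 Pool.Agent.SDG.all_Sm all_SyE all_PgE all_ExE all_A1E all_GwE all_KxE all_DrE all_Dp all_GrE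
theorem all_C2s : St_C2s := thm_C2s Pool.Agent.SDG.all_Ba1 all_SyE all_PgE all_ExE all_A2N all_A2E all_GwE all_Ge all_KxE all_GmE all_DrE all_Dp all_GrE all_Cy
theorem all_CC : St_CC := thm_CC all_C4 all_C1s all_C2s
theorem all_WiE : St_WiE := thm_WiE all_FlE
theorem all_SRE : St_SRE := thm_SRE Pool.Agent.SDG.all_Nm1 Pool.Agent.SDG.all_Ba1 Pool.Agent.SDG.all_Kn Pool.Agent.SDG.all_Qu Pool.Agent.SSC.mdr_Sg Pool.Agent.SSC.mdr_SC Pool.Agent.SSC.mdr_N5 Pool.Agent.SSC.all_Nu all_WiE all_NfE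
theorem all_EvE : St_EvE := thm_EvE Pool.Agent.SDG.all_Nm1 Pool.Agent.SDG.all_Kn Pool.Agent.SDG.all_Ba1 all_BnE all_SRE all_CC all_HoE all_KeE all_KgE
theorem all_OdE : St_OdE := thm_OdE Pool.Agent.SDG.all_Nm1 Pool.Agent.SDG.all_Kn Pool.Agent.SDG.all_Ba1 all_SyE all_PgE all_ExE all_A1E all_GwE all_DrE all_BnE all_SRE all_KxE all_KeE all_KgE all_GrE all_CC all_HoE
theorem all_S8E : St_S8E := thm_S8E Pool.Agent.SDG.all_Nm1 Pool.Agent.SDG.all_Kn Pool.Agent.SDG.all_Ba1 Pool.Agent.SSC.mdr_Sp2 all_B3E all_PgE all_BoE all_SyE all_SRE all_BnE all_KgE Pool.Agent.SSC.all_Ct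
theorem all_PFE : St_PFE := thm_PFE Pool.Agent.SDG.all_Tr Pool.Agent.SDG.all_main all_Cy all_S8E all_EvE all_OdE
theorem all_FnE : St_FnE := thm_FnE all_PFE Pool.Agent.SDG.all_Nm1 Pool.Agent.SDG.all_Ba1 Pool.Agent.SDG.all_Se Pool.Agent.SDG.all_Up

end Pool.Agent.SSE
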