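import Pool.Agent.SSE.St2

/-!
# SSE, EvE: minimal violating families with an even number of members do not exist
-/

set_option autoImplicit false

noncomputable section

open Finset Pool.Agent.Helper64.Rho Pool.Agent.SDG Pool.Agent.MDR Pool.Agent.SSC
open scoped Classical Pointwise

namespace Pool.Agent.SSE

private theorem EvE_AE {G ι : Type} [AddCommGroup G] (hB : SDG.St_Ba1) {s u : Finset ι} {f : ι → G}
    (hus : u ⊆ s) (hap : Aper (FS s f)) (hA : AS u f) : AE u f := by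
  refine ⟨hA, fun i hi h => ?_⟩
  exact (hB G ι f).2.2.2.2.1 s i (hus hi) hap (hA.1 i hi) (eq_neg_of_add_eq_zero_left h)

private theorem EvE_Reg {G ι : Type} [AddCommGroup G] [Finite G] (hSR : St_SRE) {t : ℕ} {s u : Finset ι}
    {f : ι → G} (hC : CtxE t s f) (hus : u ⊆ s) (hA : AS u f) : Reg u f := by
  intro v hv K hK hex hn
  refine (hSR G ι t s v f K hC (hv.trans hus) ?_ hex hK hn).1
  exact ⟨fun i hi => hA.1 i (hv hi), fun x => (card_le_card (filter_subset_filter _ hv)).trans (hA.2 x)⟩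

private theorem EvE_gen {G ι : Type} [AddCommGroup G] {u : Finset ι} {f : ι → G}
    (h : ∀ M : AddSubgroup G, M ≠ ⊤ → 2 ≤ (outs u f M).card) : gen u f = ⊤ := by
  by_contra hne
  have h1 := h _ hne
  have h2 : outs u f (gen u f) = ∅ := by
    unfold outs
    rw [filter_eq_empty_iff]
    intro i hi hni
    exact hni (AddSubgroup.subset_closure ⟨i, hi, rfl⟩)
  rw [h2] at h1
  simp at h1

theorem thm_EvE : SDG.St_Nm1 → SDG.St_Kn → SDG.St_Ba1 → St_BnE → St_SRE → St_CC → St_HoE → St_KeE →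
    St_KgE → St_EvE := by
  intro hN hK hB hBn hSR hCC hHo hKe hKg G ι _ _ l s f hl hC
  obtain ⟨s1, s2, hd, hu, hA1, hA2, hc1, hc2, hout, hK3⟩ := hHo G ι (2 * l) s f hC (by omega)
  have hBn' := hBn G ι (2 * l) s f hC (by omega)
  have hs1 : s1 ⊆ s := by
    rw [← hu]
    exact subset_union_left
  have hs2 : s2 ⊆ s := by
    rw [← hu]
    exact subset_union_right
  have hR1 := EvE_Reg hSR hC hs1 hA1
  have hR2 := EvE_Reg hSR hC hs2 hA2
  obtain ⟨hPE, -, hcyc, hcard, hne, hcap, hap, hgen, hlt⟩ := hC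
  have hE1 := EvE_AE hB hs1 hap hA1
  have hE2 := EvE_AE hB hs2 hap hA2
  have hg1 : gen s1 f = ⊤ := EvE_gen fun M hM => (hout M hM).1
  have hg2 : gen s2 f = ⊤ := EvE_gen fun M hM => (hout M hM).2
  have hC1 := (hCC l (by omega) fun n hn => hPE n (by omega)).1
  obtain ⟨b1, b2, -, -, -, -, -⟩ := hB G ι f
  obtain ⟨k1, k2, -, -⟩ := hK G
  have hc1' : s1.card = l := by omega
  have hc2' : s2.card = l := by omega
  have e1 : FS s f = FS s1 f + FS s2 f := by
    rw [← hu]
    exact b1 s1 s2 hd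
  have hap' : Aper (FS s1 f + FS s2 f) := e1 ▸ hap
  have n1 : (FS s1 f).Nonempty := ⟨0, zero_mem_FS s1 f⟩
  have n2 : (FS s2 f).Nonempty := ⟨0, zero_mem_FS s2 f⟩
  have i1 := k1 _ _ n1 n2 hap'
  rw [← e1] at i1
  have hcf : cf 2 (2 * l) = 1 + l * (l + 1) := by
    rw [hN.2.2.1 (2 * l)]
    have h1 : (2 * l + 1) ^ 2 = 4 * (l * (l + 1)) + 1 := by ring
    rw [h1]
    omega
  have hcf' : cf 2 (2 * l - 1) = 1 + l * l := by
    obtain ⟨k, rfl⟩ : ∃ k, l = k + 1 := ⟨l - 1, by omega⟩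
    rw [hN.2.2.1 (2 * (k + 1) - 1)]
    have h1 : (2 * (k + 1) - 1 + 1) ^ 2 = 4 * ((k + 1) * (k + 1)) := by
      have h2 : 2 * (k + 1) - 1 + 1 = 2 * (k + 1) := by omega
      rw [h2]
      ring
    rw [h1]
    omega
  have htop : (⊤ : AddSubgroup G) ≠ ⊥ := by
    intro h7
    have hs : s.Nonempty := by
      rw [← card_pos]
      omega
    obtain ⟨i, hi⟩ := hs
    have h8 : f i ∈ (⊥ : AddSubgroup G) := h7 ▸ AddSubgroup.mem_top (f i)
    exact hne i hi (AddSubgroup.mem_bot.1 h8)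
  have i2 := k2 _ _ ⊤ n1 n2 htop (fun x _ => AddSubgroup.mem_top x) (fun x _ => AddSubgroup.mem_top x) hap'
  have hct : Nat.card (⊤ : AddSubgroup G) = Nat.card G := AddSubgroup.card_top
  rw [hct] at i2
  have hx2 : ¬ Exc f s2 := by
    rintro ⟨K, a, h3, h1, -⟩
    rw [hK3 K h3] at h1
    simp at h1
  rcases le_total (FS s1 f).card (FS s2 f).card with h | h
  · rcases hC1 G ι s1 f hcyc hc1' hE1 (b2 s s1 hs1 hap) hg1 hR1 (fun M hM _ => (hout M hM).1) (by omega)
      with h2 | ⟨K, a, hKAP⟩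
    · omega
    · by_cases hla : l = 3 * a + 1
      · have hKg' := hKg G ι s1 s2 f K a hd hE1 hE2 (by rw [hu]; exact hap) hKAP (by omega) ?_
          (Or.inl (by omega))
        · rw [hc1', hc2', hu, ← two_mul] at hKg'
          omega
        · intro i hi hiK
          have h4 : i ∈ ins s2 f K := mem_filter.2 ⟨hi, hiK⟩
          rw [hK3 K hKAP.1] at h4
          simp at h4
      · have hKe' := (hKe G ι s1 f K a hE1 (b2 s s1 hs1 hap) hKAP (Or.inl ?_)).2 (by omega)
        · rw [hc1'] at hKe'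
          omega
        · rw [hc1']
          obtain ⟨k, rfl⟩ : ∃ k, l = k + 1 := ⟨l - 1, by omega⟩
          have h5 : (k + 1) * (k + 1 - 1) = (k + 1) * k := by simp
          rw [h5]
          have h6 : (k + 1) * (k + 1) = (k + 1) * k + (k + 1) := by ring
          omega
  · rcases hC1 G ι s2 f hcyc hc2' hE2 (b2 s s2 hs2 hap) hg2 hR2 (fun M hM _ => (hout M hM).2) (by omega)
      with h2 | h2
    · omega
    · exact hx2 h2

end Pool.Agent.SSE
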